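import Pool.Agent.H204.CS.Stm

/-!
# Project CS: assembly
-/

set_option autoImplicit false

namespace Pool.Agent.H204.CS

open MeasureTheory Topology Pool.Agent.V1135.CAS Matrix

theorem continuous_srt : Continuous fun p : ℝ × ℝ => srt p.1 p.2 := by
  unfold srt
  refine Continuous.subtype_mk ?_ _
  fun_prop

theorem measurable_srt : Measurable fun p : ℝ × ℝ => srt p.1 p.2 := continuous_srt.measurable

section General

variable {X₀ X₁ Ω : Type}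
  [TopologicalSpace X₀] [T2Space X₀] [LocallyCompactSpace X₀] [SecondCountableTopology X₀]
  [MeasurableSpace X₀] [BorelSpace X₀]
  [TopologicalSpace X₁] [T2Space X₁] [LocallyCompactSpace X₁] [SecondCountableTopology X₁]
  [MeasurableSpace X₁] [BorelSpace X₁]
  [TopologicalSpace Ω] [T2Space Ω] [CompactSpace Ω] [SecondCountableTopology Ω]
  [MeasurableSpace Ω] [BorelSpace Ω]
  {m : Measure Ω} [IsProbabilityMeasure m] [m.IsOpenPosMeasure]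
  {act₀ : X₀ → ℝ → Ω → X₀} {act₁ : X₁ → ℝ → Ω → X₁} {d₀ : X₀ → X₀ → ℝ} {d₁ : X₁ → X₁ → ℝ}
  {w₀ w₁ : ℝ → ℝ} {vol₀ : Measure X₀} {vol₁ : Measure X₁}

/-- the image measures under the partition map do not depend on the point -/
theorem map_pim (g₀ : Geo act₀ d₀) (g₁ : Geo act₁ d₁) (u₀ : Unif d₀ vol₀) (u₁ : Unif d₁ vol₁)
    [SFinite vol₀] [SFinite vol₁]
    (x y : X₀ × X₁) : (vol₀.prod vol₁).map (pim d₀ d₁ x) = (vol₀.prod vol₁).map (pim d₀ d₁ y) := by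
  have hsrt : Measurable fun p : ℝ × ℝ => srt p.1 p.2 := measurable_srt
  have hd₀ : ∀ x : X₀, Measurable (d₀ x) := fun x =>
    (g₀.d_cont.comp (continuous_const.prodMk continuous_id)).measurable
  have hd₁ : ∀ x : X₁, Measurable (d₁ x) := fun x =>
    (g₁.d_cont.comp (continuous_const.prodMk continuous_id)).measurable
  have hpim : ∀ x : X₀ × X₁, Measurable (pim d₀ d₁ x) := fun x =>
    hsrt.comp (((hd₀ x.1).comp measurable_fst).prodMk ((hd₁ x.2).comp measurable_snd))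
  have key : ∀ F : D → ENNReal, Measurable F →
      ∫⁻ z, F (pim d₀ d₁ x z) ∂(vol₀.prod vol₁) = ∫⁻ z, F (pim d₀ d₁ y z) ∂(vol₀.prod vol₁) := by
    intro F hF
    rw [lintegral_prod (fun z => F (pim d₀ d₁ x z)) (hF.comp (hpim x)).aemeasurable,
      lintegral_prod (fun z => F (pim d₀ d₁ y z)) (hF.comp (hpim y)).aemeasurable]
    have e1 : ∀ c : ℝ, ∫⁻ z, F (srt c (d₁ x.2 z)) ∂vol₁ = ∫⁻ z, F (srt c (d₁ y.2 z)) ∂vol₁ :=
      fun c => u₁ (fun s => F (srt c s)) (hF.comp (hsrt.comp (measurable_const.prodMk measurable_id)))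
        x.2 y.2
    have e2 : Measurable fun c : ℝ => ∫⁻ z, F (srt c (d₁ y.2 z)) ∂vol₁ :=
      Measurable.lintegral_prod_right' (f := fun p : ℝ × X₁ => F (srt p.1 (d₁ y.2 p.2)))
        (hF.comp (hsrt.comp (measurable_fst.prodMk ((hd₁ y.2).comp measurable_snd))))
    calc ∫⁻ a, ∫⁻ z, F (pim d₀ d₁ x (a, z)) ∂vol₁ ∂vol₀
        = ∫⁻ a, ∫⁻ z, F (srt (d₀ x.1 a) (d₁ y.2 z)) ∂vol₁ ∂vol₀ :=
          lintegral_congr fun a => e1 (d₀ x.1 a)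
      _ = ∫⁻ a, ∫⁻ z, F (srt (d₀ y.1 a) (d₁ y.2 z)) ∂vol₁ ∂vol₀ := u₀ _ e2 x.1 y.1
      _ = _ := rfl
  ext A hA
  have h := key (A.indicator 1) (measurable_one.indicator hA)
  rw [Measure.map_apply (hpim x) hA, Measure.map_apply (hpim y) hA,
    ← lintegral_indicator_one (hpim x hA), ← lintegral_indicator_one (hpim y hA)]
  exact h

/-- the hypergroup -/
noncomputable def hyp (hP : S_PARAM) (hK : S_KREG) (hC1 : S_CREG1) (hC2 : S_CREG2)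
    (hKC : S_KCOMP) (hA : S_ASSOC) (hW : S_WMEAS) [Nonempty (X₀ × X₁)]
    (b₀ : Blk m act₀ d₀ w₀ vol₀) (b₁ : Blk m act₁ d₁ w₁ vol₁) : Hypergroup D where
  conv := cnv w₀ w₁
  e := srt 0 0
  inv := id
  prob := (hC1 hP w₀ w₁ b₀.wt b₁.wt).1
  conv_cont := (hC1 hP w₀ w₁ b₀.wt b₁.wt).2.1
  supp_compact := (hC1 hP w₀ w₁ b₀.wt b₁.wt).2.2.1
  supp_cont := (hC1 hP w₀ w₁ b₀.wt b₁.wt).2.2.2.1
  assoc := by
    obtain ⟨k1, k2, k3, k4, k5, k6, k7⟩ :=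
      hK hP X₀ X₁ Ω m act₀ act₁ d₀ d₁ w₀ w₁ b₀.geo b₁.geo b₀.wt b₁.wt
    obtain ⟨c1, c2, c3, c4, c5⟩ := hC1 hP w₀ w₁ b₀.wt b₁.wt
    refine hA (X₀ × X₁) D (KK m act₀ act₁ w₀ w₁) (cnv w₀ w₁) (pim d₀ d₁) k1 c1 ?_ ?_ ?_ ?_ ?_
    · exact hW ((X₀ × X₁) × D) (X₀ × X₁) (fun p => KK m act₀ act₁ w₀ w₁ p.1 p.2)
        (fun p => k1 p.1 p.2) k2
    · exact hW (D × D) D (fun p => cnv w₀ w₁ p.1 p.2) (fun p => c1 p.1 p.2) c2
    · intro x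
      exact (k7.comp (continuous_const.prodMk continuous_id)).measurable
    · intro x h
      filter_upwards [Measure.support_mem_ae (μ := KK m act₀ act₁ w₀ w₁ x h)] with y hy
      exact (k5 x y h).1 hy
    · exact hKC X₀ X₁ Ω m act₀ act₁ d₀ d₁ w₀ w₁ b₀.geo b₁.geo b₀.wt b₁.wt b₀.comp b₁.comp
  conv_e := (hC2 w₀ w₁ b₀.wt b₁.wt).2
  e_conv := fun h => by
    rw [(hC2 w₀ w₁ b₀.wt b₁.wt).1]
    exact (hC2 w₀ w₁ b₀.wt b₁.wt).2 h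
  inv_cont := continuous_id
  inv_inv := fun _ => rfl
  e_mem := (hC1 hP w₀ w₁ b₀.wt b₁.wt).2.2.2.2
  map_inv := fun h k => by
    rw [Measure.map_id]
    exact (hC2 w₀ w₁ b₀.wt b₁.wt).1 h k

/-- the CAS -/
noncomputable def cas (hP : S_PARAM) (hK : S_KREG) (hC1 : S_CREG1) (hC2 : S_CREG2)
    (hKC : S_KCOMP) (hA : S_ASSOC) (hW : S_WMEAS) (hKR : S_KREV) [Nonempty (X₀ × X₁)]
    (b₀ : Blk m act₀ d₀ w₀ vol₀) (b₁ : Blk m act₁ d₁ w₁ vol₁) : CAS (X₀ × X₁) D where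
  H := hyp hP hK hC1 hC2 hKC hA hW b₀ b₁
  K := KK m act₀ act₁ w₀ w₁
  π := pim d₀ d₁
  prob := (hK hP X₀ X₁ Ω m act₀ act₁ d₀ d₁ w₀ w₁ b₀.geo b₁.geo b₀.wt b₁.wt).1
  K_cont := (hK hP X₀ X₁ Ω m act₀ act₁ d₀ d₁ w₀ w₁ b₀.geo b₁.geo b₀.wt b₁.wt).2.1
  supp_compact := (hK hP X₀ X₁ Ω m act₀ act₁ d₀ d₁ w₀ w₁ b₀.geo b₁.geo b₀.wt b₁.wt).2.2.1
  supp_cont := (hK hP X₀ X₁ Ω m act₀ act₁ d₀ d₁ w₀ w₁ b₀.geo b₁.geo b₀.wt b₁.wt).2.2.2.1
  mem_supp := (hK hP X₀ X₁ Ω m act₀ act₁ d₀ d₁ w₀ w₁ b₀.geo b₁.geo b₀.wt b₁.wt).2.2.2.2.1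
  π_cont := (hK hP X₀ X₁ Ω m act₀ act₁ d₀ d₁ w₀ w₁ b₀.geo b₁.geo b₀.wt b₁.wt).2.2.2.2.2.2
  K_e := (hK hP X₀ X₁ Ω m act₀ act₁ d₀ d₁ w₀ w₁ b₀.geo b₁.geo b₀.wt b₁.wt).2.2.2.2.2.1
  K_comp := hKC X₀ X₁ Ω m act₀ act₁ d₀ d₁ w₀ w₁ b₀.geo b₁.geo b₀.wt b₁.wt b₀.comp b₁.comp
  exists_omega := by
    have := b₀.fin
    have := b₁.fin
    have := b₀.pos
    have := b₁.pos
    refine ⟨vol₀.prod vol₁, inferInstance, inferInstance, ?_⟩
    exact hKR X₀ X₁ Ω m act₀ act₁ d₀ d₁ w₀ w₁ vol₀ vol₁ b₀.geo b₁.geo b₀.wt b₁.wt b₀.rev b₁.rev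

omit [IsProbabilityMeasure m] [m.IsOpenPosMeasure] in
theorem no_T2 (hWT : S_WT1) (hU : S_UNIQ) (hH : S_HALF) (hS : S_SPLIT) (hR : S_RECT)
    [Nonempty Ω]
    (b₀ : Blk m act₀ d₀ w₀ vol₀) (b₁ : Blk m act₁ d₁ w₁ vol₁) (o : X₀ × X₁)
    (hne : vol₀ {y | 1 < d₀ o.1 y ∧ d₀ o.1 y < 2} * vol₁ {y | d₁ o.2 y < 1} ≠
      vol₀ {y | d₀ o.1 y < 1} * vol₁ {y | 1 < d₁ o.2 y ∧ d₁ o.2 y < 2})
    (C : CAS (X₀ × X₁) D) (hC : C.π = pim d₀ d₁) : ¬ C.T2 := by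
  rintro ⟨ω, ωD, hω, hωD, hT⟩
  have := b₀.fin
  have := b₁.fin
  have := b₀.pos
  have := b₁.pos
  have : Nonempty (X₀ × X₁) := ⟨o⟩
  have hC' : ∀ x y, C.π x y = pim d₀ d₁ x y := fun x y => by rw [hC]
  have hsymm : ∀ x y, C.π x y = C.π y x := by
    intro x y
    rw [hC', hC']
    unfold pim
    rw [b₀.geo.d_symm, b₁.geo.d_symm]
  have h1 := hWT (X₀ × X₁) D C ω ωD hsymm hω hωD hT
  have h2 := hH X₀ X₁ Ω act₀ act₁ d₀ d₁ b₀.geo b₁.geo C hC' h1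
  obtain ⟨h3, h4⟩ := hS X₀ X₁ Ω act₀ act₁ d₀ d₁ b₀.geo b₁.geo C hC' h2 ω ωD hω hωD hT
  obtain ⟨hω1, hω2, -⟩ := hω
  have hu' : ∀ φ : D → ℝ, Continuous φ → HasCompactSupport φ → ∀ x y,
      ∫ z, φ (C.π x z) ∂(vol₀.prod vol₁) = ∫ z, φ (C.π y z) ∂(vol₀.prod vol₁) := by
    intro φ hφ _ x y
    have hm : ∀ x, AEMeasurable (pim d₀ d₁ x) (vol₀.prod vol₁) := by
      intro x
      have := (C.π_cont.comp (continuous_const.prodMk continuous_id :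
        Continuous fun z : X₀ × X₁ => (x, z))).measurable
      rw [hC] at this
      exact this.aemeasurable
    have hx := integral_map (hm x) (f := φ) hφ.aestronglyMeasurable
    have hy := integral_map (hm y) (f := φ) hφ.aestronglyMeasurable
    rw [hC, ← hx, ← hy, map_pim b₀.geo b₁.geo b₀.unif b₁.unif x y]
  obtain ⟨c, hc, h5⟩ := hU (X₀ × X₁) D C ω (vol₀.prod vol₁) hsymm
    (fun φ hφ hφc x y => by rw [h3 φ hφ hφc x, h3 φ hφ hφc y]) hu'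
  apply hne
  refine hR X₀ X₁ Ω act₀ act₁ d₀ d₁ vol₀ vol₁ b₀.geo b₁.geo o ?_
  intro φ hφ hφc hφt
  have hcont : Continuous fun y : X₀ × X₁ => φ (pim d₀ d₁ o y) := by
    have := hφ.comp (C.π_cont.comp (continuous_const.prodMk continuous_id :
        Continuous fun z : X₀ × X₁ => (o, z)))
    rw [hC] at this
    exact this
  have hcs : HasCompactSupport fun y : X₀ × X₁ => φ (pim d₀ d₁ o y) := by
    have := compPi_supp C o hφc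
    rw [hC] at this
    exact this
  have hcont2 : Continuous fun y : X₀ × X₁ =>
      if d₁ o.2 y.2 < d₀ o.1 y.1 then φ (pim d₀ d₁ o y) else 0 := by
    refine Continuous.if ?_ hcont continuous_const
    intro y hy
    have hd₀ : Continuous fun y : X₀ × X₁ => d₀ o.1 y.1 :=
      b₀.geo.d_cont.comp (continuous_const.prodMk continuous_fst)
    have hd₁ : Continuous fun y : X₀ × X₁ => d₁ o.2 y.2 :=
      b₁.geo.d_cont.comp (continuous_const.prodMk continuous_snd)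
    have h7 : d₁ o.2 y.2 = d₀ o.1 y.1 := frontier_lt_subset_eq hd₁ hd₀ hy
    by_contra h8
    have h9 := hφt (subset_tsupport _ h8)
    simp only [pim, srt, Set.mem_ofPred_eq, h7, max_self, min_self, lt_self_iff_false] at h9
  have hcs2 : HasCompactSupport fun y : X₀ × X₁ =>
      if d₁ o.2 y.2 < d₀ o.1 y.1 then φ (pim d₀ d₁ o y) else 0 := by
    refine hcs.mono ?_
    intro y hy
    simp only [Function.mem_support, ne_eq, ite_eq_right_iff, Classical.not_imp] at hy ⊢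
    exact hy.2
  have h6 := h4 φ hφ hφc hφt o
  simp only [hC'] at h6
  rw [h5 _ hcont2 hcs2, h5 _ hcont hcs, ← h6]
  ring

end General

/-! ### the blocks -/

theorem blk0 (hH : S_HAAR) (hA : S_ARCH) (hHo : S_HOPF) (hG : S_R3GEO) (hC : S_R3COMP)
    (hR : S_R3REV) (hV : S_R3VOL) (hS : S_SUBST) (hW : S_WT) (m : Measure U) (hm : IsHaarU m) :
    Blk m act0 d0 (fun _ => 1) (volume : Measure (ℝ × ℂ)) where
  geo := hG hHo
  wt := (hW hS).1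
  comp := hC hH hA hHo m hm
  rev := hR hH m hm
  unif := hV.1
  fin := inferInstance
  pos := inferInstance

theorem blk1 (hH : S_HAAR) (hA : S_ARCH) (hHo : S_HOPF) (hM : S_MAT) (hD : S_DIAG) (hSt : S_STEP)
    (hT : S_TRACE) (hCt : S_H3CONT) (hG : S_H3GEO) (hC : S_H3COMP)
    (hS : S_SUBST) (hW : S_WT) (hL : S_H3LAW) (hR : S_H3REV) (hU : S_H3UNIF)
    (m : Measure U) (hm : IsHaarU m) :
    Blk m act1 d1 wh vol1 where
  geo := hG hHo hM hD hSt hT hCt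
  wt := (hW hS).2
  comp := by
    intro F hF x r t hr ht
    have hsc : SecondCountableTopology U := hH.2.1
    have := hm.prob
    rw [hC hH hA hHo hM hD hSt hT hCt m hm F hF x r t hr ht]
    refine hS (fun u => ∫⁻ a, F (act1 x u a) ∂m) ?_ r t hr ht
    refine Measurable.lintegral_prod_right' (f := fun p : ℝ × U => F (act1 x p.1 p.2)) (hF.comp ?_)
    exact ((hCt hHo).1.comp (continuous_const.prodMk continuous_id)).measurable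
  rev := hR hH hHo hCt hL hA m hm
  unif := hU.2.2
  fin := hU.1
  pos := hU.2.1

/-- the final theorem -/
theorem final (hHAAR : S_HAAR) (hARCH : S_ARCH) (hHOPF : S_HOPF) (hR3GEO : S_R3GEO)
    (hR3COMP : S_R3COMP) (hR3REV : S_R3REV) (hR3VOL : S_R3VOL) (hMAT : S_MAT) (hDIAG : S_DIAG)
    (hSTEP : S_STEP) (hTRACE : S_TRACE) (hH3CONT : S_H3CONT) (hH3GEO : S_H3GEO)
    (hH3COMP : S_H3COMP) (hSUBST : S_SUBST) (hWT : S_WT) (hH3LAW : S_H3LAW) (hH3REV : S_H3REV)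
    (hH3UNIF : S_H3UNIF) (hH3VOL : S_H3VOL) (hPARAM : S_PARAM) (hKREG : S_KREG)
    (hCREG1 : S_CREG1) (hCREG2 : S_CREG2) (hKCOMP : S_KCOMP) (hKREV : S_KREV) (hASSOC : S_ASSOC)
    (hWMEAS : S_WMEAS) (hWT1 : S_WT1) (hUNIQ : S_UNIQ) (hHALF : S_HALF) (hSPLIT : S_SPLIT)
    (hRECT : S_RECT) (hNUM : S_NUM) :
    ∃ C : CAS ((ℝ × ℂ) × (ℝ × ℂ)) D, C.H.Comm ∧
      ∀ C' : CAS ((ℝ × ℂ) × (ℝ × ℂ)) D, C'.π = C.π → ¬ C'.T2 := by
  obtain ⟨hc, hs, m, hm⟩ := id hHAAR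
  have := hm.prob
  have := hm.pos
  have b₀ := blk0 hHAAR hARCH hHOPF hR3GEO hR3COMP hR3REV hR3VOL hSUBST hWT m hm
  have b₁ := blk1 hHAAR hARCH hHOPF hMAT hDIAG hSTEP hTRACE hH3CONT hH3GEO hH3COMP hSUBST hWT
    hH3LAW hH3REV hH3UNIF m hm
  refine ⟨cas hPARAM hKREG hCREG1 hCREG2 hKCOMP hASSOC hWMEAS hKREV b₀ b₁, ?_, ?_⟩
  · exact (hCREG2 _ _ b₀.wt b₁.wt).1
  · intro C' hC'
    exact no_T2 hWT1 hUNIQ hHALF hSPLIT hRECT b₀ b₁ 0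
      (hNUM hR3VOL hR3GEO hHOPF hH3CONT hH3VOL) C' hC'

end Pool.Agent.H204.CS
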