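import Mathlib
import Pool.Graph.R_pool_sql_team_seeded_843ab51a.V1135.CAS

/-!
# Project CS: a commutative CAS whose partition map admits no CAS with (T2)

Definitions.  `X = ℝ³ × H³`, both factors with the underlying space `ℝ × ℂ`; the classes of a pair
of points are the unordered pairs `{d₀, d₁}` of the Euclidean and the hyperbolic distance.
-/

set_option autoImplicit false

namespace Pool.Agent.H204.CS

open MeasureTheory Topology Pool.Agent.V1135.CAS

/-! ### the parameter space `D` of sorted pairs -/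

/-- sorted pairs `(r, s)` with `0 ≤ s ≤ r` -/
abbrev D := {p : ℝ × ℝ // 0 ≤ p.2 ∧ p.2 ≤ p.1}

/-- the sorted pair of `|a|` and `|b|` -/
noncomputable def srt (a b : ℝ) : D :=
  ⟨(max |a| |b|, min |a| |b|), le_min (abs_nonneg _) (abs_nonneg _), min_le_max⟩

theorem isClosed_D : IsClosed {p : ℝ × ℝ | 0 ≤ p.2 ∧ p.2 ≤ p.1} :=
  (isClosed_le continuous_const continuous_snd).inter (isClosed_le continuous_snd continuous_fst)

instance : LocallyCompactSpace D := isClosed_D.isClosedEmbedding_subtypeVal.locallyCompactSpace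

/-- the partition map of a product of two spaces with distances `d₀` and `d₁` -/
noncomputable def pim {X₀ X₁ : Type} (d₀ : X₀ → X₀ → ℝ) (d₁ : X₁ → X₁ → ℝ)
    (x y : X₀ × X₁) : D := srt (d₀ x.1 y.1) (d₁ x.2 y.2)

/-! ### the Bessel-Kingman law -/

/-- the uniform probability measure on `[-1, 1]` -/
noncomputable def uni : Measure ℝ := (2⁻¹ : ENNReal) • volume.restrict (Set.Icc (-1) 1)

/-- third side of a Euclidean triangle with two sides `r`, `t` and cosine `z` -/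
noncomputable def ut (r t z : ℝ) : ℝ := Real.sqrt (r ^ 2 + t ^ 2 + 2 * r * t * z)

/-! ### blocks -/

section Blocks

variable {X Ω : Type} [TopologicalSpace X] [MeasurableSpace X] [TopologicalSpace Ω]
  [MeasurableSpace Ω]

/-- the geometric part of a block: `act x r a` runs through the sphere `{y | d x y = r}` when `a`
runs through the compact space `Ω`. -/
structure Geo (act : X → ℝ → Ω → X) (d : X → X → ℝ) : Prop where
  act_cont : Continuous fun p : X × ℝ × Ω => act p.1 p.2.1 p.2.2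
  d_cont : Continuous fun p : X × X => d p.1 p.2
  d_nonneg : ∀ x y, 0 ≤ d x y
  d_eq : ∀ x y, d x y = 0 → x = y
  d_symm : ∀ x y, d x y = d y x
  d_tri : ∀ x y z, d x z ≤ d x y + d y z
  d_act : ∀ x r a, 0 ≤ r → d x (act x r a) = r
  surj : ∀ x y, ∃ a, act x (d x y) a = y

/-- a weight: positive continuous and multiplicative for the Bessel-Kingman law -/
structure Wt (w : ℝ → ℝ) : Prop where
  cont : Continuous w
  pos : ∀ r, 0 < w r
  zero : w 0 = 1
  mul : ∀ r t, 0 ≤ r → 0 ≤ t →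
    ENNReal.ofReal (w r * w t) = ∫⁻ z, ENNReal.ofReal (w (ut r t z)) ∂uni

/-- the product formula of a block -/
def Comp (m : Measure Ω) (act : X → ℝ → Ω → X) (w : ℝ → ℝ) : Prop :=
  ∀ F : X → ENNReal, Measurable F → ∀ (x : X) (r t : ℝ), 0 ≤ r → 0 ≤ t →
    ENNReal.ofReal (w r * w t) * ∫⁻ a, ∫⁻ b, F (act (act x r a) t b) ∂m ∂m =
      ∫⁻ z, ENNReal.ofReal (w (ut r t z)) * (∫⁻ a, F (act x (ut r t z) a) ∂m) ∂uni

/-- reversibility of the spherical means -/
def Rev (m : Measure Ω) (act : X → ℝ → Ω → X) (vol : Measure X) : Prop :=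
  ∀ F : X × X → ENNReal, Measurable F → ∀ r : ℝ, 0 ≤ r →
    ∫⁻ x, ∫⁻ a, F (x, act x r a) ∂m ∂vol = ∫⁻ x, ∫⁻ a, F (act x r a, x) ∂m ∂vol

/-- the volume of spheres does not depend on the centre -/
def Unif (d : X → X → ℝ) (vol : Measure X) : Prop :=
  ∀ F : ℝ → ENNReal, Measurable F → ∀ x y : X, ∫⁻ z, F (d x z) ∂vol = ∫⁻ z, F (d y z) ∂vol

end Blocks

/-! ### parametrised measures -/

/-- the image of `w(p, ·) • m` under `φ(p, ·)` -/
noncomputable def prm {P Y Ω : Type} [MeasurableSpace Y] [MeasurableSpace Ω] (m : Measure Ω)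
    (w : P → Ω → ℝ) (φ : P → Ω → Y) (p : P) : Measure Y :=
  (m.withDensity fun ω => ENNReal.ofReal (w p ω)).map (φ p)

/-! ### the kernel and the convolution -/

/-- symmetrised weight -/
def sW (w₀ w₁ : ℝ → ℝ) (h : D) : ℝ := w₀ h.1.1 * w₁ h.1.2 + w₀ h.1.2 * w₁ h.1.1

/-- the kernel -/
noncomputable def KK {X₀ X₁ Ω : Type} [MeasurableSpace X₀] [MeasurableSpace X₁]
    [MeasurableSpace Ω] (m : Measure Ω) (act₀ : X₀ → ℝ → Ω → X₀) (act₁ : X₁ → ℝ → Ω → X₁)
    (w₀ w₁ : ℝ → ℝ) (x : X₀ × X₁) (h : D) : Measure (X₀ × X₁) :=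
  prm (P := (X₀ × X₁) × D) (m.prod m) (fun p _ => w₀ p.2.1.1 * w₁ p.2.1.2 / sW w₀ w₁ p.2)
      (fun p a => (act₀ p.1.1 p.2.1.1 a.1, act₁ p.1.2 p.2.1.2 a.2)) (x, h) +
    prm (P := (X₀ × X₁) × D) (m.prod m) (fun p _ => w₀ p.2.1.2 * w₁ p.2.1.1 / sW w₀ w₁ p.2)
      (fun p a => (act₀ p.1.1 p.2.1.2 a.1, act₁ p.1.2 p.2.1.1 a.2)) (x, h)

/-- the convolution of the point masses at `h` and `k` -/
noncomputable def cnv (w₀ w₁ : ℝ → ℝ) (h k : D) : Measure D :=
  prm (P := D × D) (uni.prod uni)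
      (fun p z => sW w₀ w₁ (srt (ut p.1.1.1 p.2.1.1 z.1) (ut p.1.1.2 p.2.1.2 z.2)) /
        (sW w₀ w₁ p.1 * sW w₀ w₁ p.2))
      (fun p z => srt (ut p.1.1.1 p.2.1.1 z.1) (ut p.1.1.2 p.2.1.2 z.2)) (h, k) +
    prm (P := D × D) (uni.prod uni)
      (fun p z => sW w₀ w₁ (srt (ut p.1.1.1 p.2.1.2 z.1) (ut p.1.1.2 p.2.1.1 z.2)) /
        (sW w₀ w₁ p.1 * sW w₀ w₁ p.2))
      (fun p z => srt (ut p.1.1.1 p.2.1.2 z.1) (ut p.1.1.2 p.2.1.1 z.2)) (h, k)

/-! ### the unitary group -/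

/-- the group `U(2)` -/
noncomputable abbrev U := Matrix.unitaryGroup (Fin 2) ℂ

noncomputable instance : MeasurableSpace U := borel U
instance : BorelSpace U := ⟨rfl⟩

/-- `k diag(1,-1) k* = (zt k, xi k; conj (xi k), - zt k)` -/
noncomputable def zt (k : U) : ℝ := 2 * Complex.normSq (k.1 0 0) - 1
/-- see `zt` -/
noncomputable def xi (k : U) : ℂ := 2 * k.1 0 0 * starRingEnd ℂ (k.1 1 0)

/-- a bi-invariant probability measure on `U(2)` -/
structure IsHaarU (m : Measure U) : Prop where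
  prob : IsProbabilityMeasure m
  pos : m.IsOpenPosMeasure
  left : ∀ (g : U) (F : U → ENNReal), Measurable F → ∫⁻ k, F (g * k) ∂m = ∫⁻ k, F k ∂m
  right : ∀ (g : U) (F : U → ENNReal), Measurable F → ∫⁻ k, F (k * g) ∂m = ∫⁻ k, F k ∂m

/-! ### the Euclidean block -/

/-- the point `x + r n(k)` of `ℝ³ = ℝ × ℂ` -/
noncomputable def act0 (x : ℝ × ℂ) (r : ℝ) (k : U) : ℝ × ℂ :=
  (x.1 + r * zt k, x.2 + (r : ℂ) * xi k)

/-- the Euclidean distance -/
noncomputable def d0 (x y : ℝ × ℂ) : ℝ := Real.sqrt ((y.1 - x.1) ^ 2 + Complex.normSq (y.2 - x.2))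

/-! ### the hyperbolic block

The point `(t, w)` of `ℝ × ℂ` corresponds to the positive definite matrix `g g*` of determinant `1`,
`g = (e^{t/2}, 0; w, e^{-t/2})`. -/

/-- the point with matrix `g (cosh s + sinh s n(k)) g*` -/
noncomputable def act1 (x : ℝ × ℂ) (s : ℝ) (k : U) : ℝ × ℂ :=
  (x.1 + Real.log (Real.cosh s + Real.sinh s * zt k),
    x.2 * (Real.sqrt (Real.cosh s + Real.sinh s * zt k) : ℂ) +
      ((Real.exp (-x.1 / 2) * Real.sinh s / Real.sqrt (Real.cosh s + Real.sinh s * zt k) : ℝ) : ℂ) *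
        starRingEnd ℂ (xi k))

/-- the hyperbolic distance -/
noncomputable def d1 (x y : ℝ × ℂ) : ℝ :=
  Real.arcosh (Real.cosh (y.1 - x.1) + Complex.normSq
    ((Real.exp (x.1 / 2) : ℂ) * y.2 - (Real.exp (y.1 / 2) : ℂ) * x.2) / 2)

/-- the volume `e^t dt dw` of the hyperbolic space -/
noncomputable def vol1 : Measure (ℝ × ℂ) :=
  (volume : Measure (ℝ × ℂ)).withDensity fun x => ENNReal.ofReal (Real.exp x.1)

/-- the weight `sinh s / s` -/
noncomputable def wh (s : ℝ) : ℝ := if s = 0 then 1 else Real.sinh s / s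

/-- the lower triangular matrix `g` of a point of the hyperbolic space -/
noncomputable def gm (x : ℝ × ℂ) : Matrix (Fin 2) (Fin 2) ℂ :=
  !![(Real.exp (x.1 / 2) : ℂ), 0; x.2, (Real.exp (-x.1 / 2) : ℂ)]

/-- `diag (e^s, e^{-s})` -/
noncomputable def dg (s : ℝ) : Matrix (Fin 2) (Fin 2) ℂ :=
  !![(Real.exp s : ℂ), 0; 0, (Real.exp (-s) : ℂ)]

open Matrix in
/-- `k diag (e^s, e^{-s}) k*` -/
noncomputable def em (s : ℝ) (k : U) : Matrix (Fin 2) (Fin 2) ℂ := k.1 * dg s * k.1ᴴ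

section Blocks

variable {X Ω : Type} [TopologicalSpace X] [MeasurableSpace X] [TopologicalSpace Ω]
  [MeasurableSpace Ω]

/-- all properties of a block -/
structure Blk (m : Measure Ω) (act : X → ℝ → Ω → X) (d : X → X → ℝ) (w : ℝ → ℝ)
    (vol : Measure X) : Prop where
  geo : Geo act d
  wt : Wt w
  comp : Comp m act w
  rev : Rev m act vol
  unif : Unif d vol
  fin : IsFiniteMeasureOnCompacts vol
  pos : vol.IsOpenPosMeasure

end Blocks

end Pool.Agent.H204.CS
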