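import Pool.Agent.H204.CS.Stm

/-!
# ARCH: `zt k` is uniformly distributed on `[-1, 1]`

Subtask of helper204 (MP_466bd8_al), done by helper106.
-/

set_option autoImplicit false

namespace Pool.Agent.H204.CS.P_ARCH

open MeasureTheory Set Pool.Agent.H204.CS

/-- the image of Lebesgue measure on `ℂ` under `|z|²` -/
theorem lint_normSq (G : ℝ → ENNReal) (hG : Measurable G) :
    ∫⁻ z : ℂ, G (Complex.normSq z) = ENNReal.ofReal Real.pi * ∫⁻ x in Ioi (0 : ℝ), G x := by
  have himg : (fun r : ℝ => r ^ 2) '' Ioi 0 = Ioi 0 := by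
    ext x
    constructor
    · rintro ⟨r, hr, rfl⟩
      have hr' : 0 < r := hr
      exact (pow_pos hr' 2 : 0 < r ^ 2)
    · intro hx
      exact ⟨Real.sqrt x, Real.sqrt_pos.mpr hx, Real.sq_sqrt (le_of_lt hx)⟩
  have h1 : ∫⁻ x in Ioi (0 : ℝ), G x = ∫⁻ r in Ioi (0 : ℝ), ENNReal.ofReal (2 * r) * G (r ^ 2) := by
    conv_lhs => rw [← himg]
    rw [lintegral_image_eq_lintegral_abs_deriv_mul (f' := fun r => 2 * r) measurableSet_Ioi]
    · refine setLIntegral_congr_fun measurableSet_Ioi fun r hr => ?_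
      rw [abs_of_pos (by have : 0 < r := hr; positivity)]
    · intro x _
      have := hasDerivAt_pow 2 x
      simpa using this.hasDerivWithinAt
    · intro a ha b hb hab
      have ha' : 0 < a := ha
      have hb' : 0 < b := hb
      have : a ^ 2 = b ^ 2 := hab
      nlinarith [sq_nonneg (a - b), mul_pos ha' hb']
  rw [← Complex.lintegral_comp_polarCoord_symm, polarCoord_target, Measure.volume_eq_prod,
    ← Measure.prod_restrict, lintegral_prod]
  · rw [h1, ← lintegral_const_mul _ (by fun_prop)]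
    refine setLIntegral_congr_fun measurableSet_Ioi fun r hr => ?_
    have hr' : 0 < r := hr
    simp only [Complex.normSq_eq_norm_sq, Complex.norm_polarCoord_symm, smul_eq_mul, sq_abs]
    rw [lintegral_const, Measure.restrict_apply_univ, Real.volume_Ioo,
      ENNReal.ofReal_mul (by norm_num), show Real.pi - -Real.pi = 2 * Real.pi by ring,
      ENNReal.ofReal_mul (by norm_num)]
    ring
  · refine Measurable.aemeasurable ?_
    simp only [Complex.normSq_eq_norm_sq, Complex.norm_polarCoord_symm, smul_eq_mul, sq_abs]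
    fun_prop

theorem lint_two (G : ℝ × ℝ → ENNReal) (hG : Measurable G) :
    ∫⁻ z : ℂ × ℂ, G (Complex.normSq z.1, Complex.normSq z.2) =
      ENNReal.ofReal Real.pi * (ENNReal.ofReal Real.pi *
        ∫⁻ x in Ioi (0 : ℝ), ∫⁻ y in Ioi (0 : ℝ), G (x, y)) := by
  have hc : Measurable Complex.normSq := Complex.continuous_normSq.measurable
  rw [Measure.volume_eq_prod, lintegral_prod]
  · have h1 : ∀ z : ℂ, ∫⁻ y : ℂ, G (Complex.normSq z, Complex.normSq y) =
        ENNReal.ofReal Real.pi * ∫⁻ y in Ioi (0 : ℝ), G (Complex.normSq z, y) := fun z =>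
      lint_normSq (fun y => G (Complex.normSq z, y)) (by fun_prop)
    simp only [h1]
    have hm : Measurable fun x => ∫⁻ y in Ioi (0 : ℝ), G (x, y) := hG.lintegral_prod_right'
    rw [lint_normSq (fun x => ENNReal.ofReal Real.pi * ∫⁻ y in Ioi (0 : ℝ), G (x, y))
      (hm.const_mul _), lintegral_const_mul _ hm]
  · refine Measurable.aemeasurable ?_
    exact hG.comp ((hc.comp measurable_fst).prodMk (hc.comp measurable_snd))

theorem haarC2 : (volume : Measure (ℂ × ℂ)).IsAddHaarMeasure := by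
  rw [Measure.volume_eq_prod]; infer_instance

/-- the action of a matrix -/
noncomputable def mv (k : U) (z : ℂ × ℂ) : ℂ × ℂ :=
  (k.1 0 0 * z.1 + k.1 0 1 * z.2, k.1 1 0 * z.1 + k.1 1 1 * z.2)

theorem mv_pres (k : U) : MeasurePreserving (mv k) (volume : Measure (ℂ × ℂ)) volume := by
  let f : ℂ × ℂ →ₗ[ℂ] ℂ × ℂ :=
    Matrix.toLin (Module.Basis.finTwoProd ℂ) (Module.Basis.finTwoProd ℂ) k.1
  have hf : ∀ z, f z = mv k z := by
    intro z
    have : k.1 = !![k.1 0 0, k.1 0 1; k.1 1 0, k.1 1 1] := Matrix.eta_fin_two _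
    simp only [f]
    rw [this, Matrix.toLin_finTwoProd_apply]
    rfl
  have hdet : LinearMap.det (f.restrictScalars ℝ) = 1 := by
    rw [LinearMap.det_restrictScalars, Algebra.norm_complex_apply, LinearMap.det_toLin]
    have h := Matrix.det_of_mem_unitary k.2
    have h2 := (Unitary.mem_iff.mp h).1
    have h3 : (Complex.normSq k.1.det : ℂ) = 1 := by
      rw [Complex.normSq_eq_conj_mul_self]; exact h2
    exact_mod_cast h3
  have := haarC2
  have hmap := Measure.map_linearMap_addHaar_eq_smul_addHaar (volume : Measure (ℂ × ℂ))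
    (f := f.restrictScalars ℝ) (by rw [hdet]; exact one_ne_zero)
  rw [hdet, inv_one, abs_one, ENNReal.ofReal_one, one_smul] at hmap
  have he : (f.restrictScalars ℝ : ℂ × ℂ → ℂ × ℂ) = mv k := by
    funext z; exact hf z
  rw [he] at hmap
  exact ⟨by unfold mv; fun_prop, hmap⟩

/-- the square of the norm -/
noncomputable def nn (z : ℂ × ℂ) : ℝ := Complex.normSq z.1 + Complex.normSq z.2

theorem nn_cast (z : ℂ × ℂ) : (nn z : ℂ) =
    starRingEnd ℂ z.1 * z.1 + starRingEnd ℂ z.2 * z.2 := by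
  rw [nn, Complex.ofReal_add, Complex.normSq_eq_conj_mul_self, Complex.normSq_eq_conj_mul_self]

theorem nn_mv (k : U) (z : ℂ × ℂ) : nn (mv k z) = nn z := by
  have h := Matrix.mem_unitaryGroup_iff'.mp k.2
  have h00 := congrFun (congrFun h 0) 0
  have h01 := congrFun (congrFun h 0) 1
  have h10 := congrFun (congrFun h 1) 0
  have h11 := congrFun (congrFun h 1) 1
  simp only [Matrix.mul_apply, Fin.sum_univ_two, Matrix.star_apply, Matrix.one_apply,
    RCLike.star_def, if_true, if_false, Fin.isValue, zero_ne_one, one_ne_zero] at h00 h01 h10 h11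
  have : (nn (mv k z) : ℂ) = nn z := by
    rw [nn_cast, nn_cast]
    simp only [mv, map_add, map_mul]
    linear_combination (starRingEnd ℂ z.1 * z.1) * h00 + (starRingEnd ℂ z.1 * z.2) * h01 +
      (starRingEnd ℂ z.2 * z.1) * h10 + (starRingEnd ℂ z.2 * z.2) * h11
  exact_mod_cast this

/-- the ratio -/
noncomputable def gg (z : ℂ × ℂ) : ℝ := 2 * Complex.normSq z.1 / nn z - 1

theorem nn_pos {z : ℂ × ℂ} (hz : z ≠ 0) : 0 < nn z := by
  by_contra h
  have h1 := Complex.normSq_nonneg z.1
  have h2 := Complex.normSq_nonneg z.2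
  unfold nn at h
  have h3 : Complex.normSq z.1 = 0 := by linarith
  have h4 : Complex.normSq z.2 = 0 := by linarith
  exact hz (Prod.ext (Complex.normSq_eq_zero.mp h3) (Complex.normSq_eq_zero.mp h4))

theorem exists_col {z : ℂ × ℂ} (hz : z ≠ 0) : ∃ l : U, ∀ k : U, zt (k * l) = gg (mv k z) := by
  have hn := nn_pos hz
  set ρ := Real.sqrt (nn z) with hρ
  have hρ0 : 0 < ρ := Real.sqrt_pos.mpr hn
  have hρ2 : ρ ^ 2 = nn z := Real.sq_sqrt hn.le
  have hρc : (ρ : ℂ) ≠ 0 := by exact_mod_cast hρ0.ne'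
  have hρ2c : (ρ : ℂ) ^ 2 = starRingEnd ℂ z.1 * z.1 + starRingEnd ℂ z.2 * z.2 := by
    rw [← nn_cast, ← hρ2]; push_cast; rfl
  let l : Matrix (Fin 2) (Fin 2) ℂ :=
    !![z.1 / ρ, -(starRingEnd ℂ z.2) / ρ; z.2 / ρ, starRingEnd ℂ z.1 / ρ]
  have hl : l ∈ Matrix.unitaryGroup (Fin 2) ℂ := by
    rw [Matrix.mem_unitaryGroup_iff']
    ext i j
    fin_cases i <;> fin_cases j <;>
      simp [l, Matrix.mul_apply, Fin.sum_univ_two, Matrix.star_apply, Complex.conj_ofReal] <;>
      field_simp <;> rw [hρ2c] <;> ring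
  refine ⟨⟨l, hl⟩, fun k => ?_⟩
  have e : (k * (⟨l, hl⟩ : U)).1 0 0 = (mv k z).1 / ρ := by
    have : (k * (⟨l, hl⟩ : U)).1 = k.1 * l := rfl
    rw [this, Matrix.mul_apply, Fin.sum_univ_two]
    simp only [l, mv, Matrix.of_apply, Matrix.cons_val', Matrix.cons_val_zero,
      Matrix.cons_val_one, Matrix.cons_val_fin_one]
    ring
  rw [zt, e, Complex.normSq_div, gg, nn_mv, Complex.normSq_ofReal, ← sq, hρ2]
  ring

/-- the Gaussian weight -/
noncomputable def ww (z : ℂ × ℂ) : ENNReal := ENNReal.ofReal (Real.exp (-nn z))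

theorem nn_meas : Measurable nn := by
  have hc : Measurable Complex.normSq := Complex.continuous_normSq.measurable
  unfold nn
  exact (hc.comp measurable_fst).add (hc.comp measurable_snd)

theorem gg_meas : Measurable gg := by
  have hc : Measurable Complex.normSq := Complex.continuous_normSq.measurable
  unfold gg
  exact (((hc.comp measurable_fst).const_mul 2).div nn_meas).sub_const 1

theorem ww_meas : Measurable ww := (Real.measurable_exp.comp nn_meas.neg).ennreal_ofReal

theorem entry_meas (i j : Fin 2) : Measurable fun k : U => k.1 i j := by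
  exact (continuous_subtype_val.matrix_elem i j).measurable

theorem mv_meas : Measurable fun p : (ℂ × ℂ) × U => mv p.2 p.1 := by
  have h : ∀ i j : Fin 2, Measurable fun p : (ℂ × ℂ) × U => p.2.1 i j :=
    fun i j => (entry_meas i j).comp measurable_snd
  have h1 : Measurable fun p : (ℂ × ℂ) × U => p.1.1 := measurable_fst.comp measurable_fst
  have h2 : Measurable fun p : (ℂ × ℂ) × U => p.1.2 := measurable_snd.comp measurable_fst
  exact (((h 0 0).mul h1).add ((h 0 1).mul h2)).prodMk (((h 1 0).mul h1).add ((h 1 1).mul h2))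

theorem zt_meas : Measurable zt := by
  unfold zt
  exact ((Complex.continuous_normSq.measurable.comp (entry_meas 0 0)).const_mul 2).sub_const 1

/-- the main identity -/
theorem main_id (m : Measure U) (hm : IsHaarU m) (F : ℝ → ENNReal) (hF : Measurable F) :
    (∫⁻ z, ww z) * ∫⁻ k, F (zt k) ∂m = ∫⁻ z, ww z * F (gg z) := by
  have := hm.prob
  have hne : ∀ᵐ z : ℂ × ℂ, z ≠ 0 := by
    rw [ae_iff]
    have h0 : {z : ℂ × ℂ | ¬ z ≠ 0} = {0} := by ext z; simp
    rw [h0, Measure.volume_eq_prod]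
    exact measure_singleton _
  have h1 : ∀ z : ℂ × ℂ, z ≠ 0 → ∫⁻ k, F (gg (mv k z)) ∂m = ∫⁻ k, F (zt k) ∂m := by
    intro z hz
    obtain ⟨l, hl⟩ := exists_col hz
    have := hm.right l (fun k => F (zt k)) (hF.comp zt_meas)
    simp only [hl] at this
    exact this
  have hjm : Measurable fun p : (ℂ × ℂ) × U => ww (mv p.2 p.1) * F (gg (mv p.2 p.1)) :=
    (ww_meas.comp mv_meas).mul (hF.comp (gg_meas.comp mv_meas))
  calc (∫⁻ z, ww z) * ∫⁻ k, F (zt k) ∂m = ∫⁻ z, ww z * ∫⁻ k, F (zt k) ∂m := by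
        rw [lintegral_mul_const _ ww_meas]
    _ = ∫⁻ z, ∫⁻ k, ww (mv k z) * F (gg (mv k z)) ∂m := by
        refine lintegral_congr_ae ?_
        filter_upwards [hne] with z hz
        rw [← h1 z hz]
        have hmz : Measurable fun k : U => F (gg (mv k z)) :=
          hF.comp (gg_meas.comp (mv_meas.comp (measurable_const.prodMk measurable_id)))
        rw [← lintegral_const_mul _ hmz]
        refine lintegral_congr fun k => ?_
        rw [ww, ww, nn_mv]
    _ = ∫⁻ k, (∫⁻ z, ww (mv k z) * F (gg (mv k z))) ∂m :=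
        lintegral_lintegral_swap hjm.aemeasurable
    _ = ∫⁻ _, (∫⁻ z, ww z * F (gg z)) ∂m := by
        refine lintegral_congr fun k => ?_
        exact (mv_pres k).lintegral_comp (f := fun z => ww z * F (gg z))
          (ww_meas.mul (hF.comp gg_meas))
    _ = ∫⁻ z, ww z * F (gg z) := by
        rw [lintegral_const, measure_univ, mul_one]

theorem exp_lint_Ioi (a : ℝ) :
    ∫⁻ y in Ioi a, ENNReal.ofReal (Real.exp (-y)) = ENNReal.ofReal (Real.exp (-a)) := by
  rw [← ofReal_integral_eq_lintegral_ofReal (integrableOn_exp_neg_Ioi a)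
    (Filter.Eventually.of_forall fun _ => (Real.exp_pos _).le), integral_exp_neg_Ioi]

theorem exp_lint {b : ℝ} (hb : 0 < b) :
    ∫⁻ x in Ioi (0 : ℝ), ENNReal.ofReal (Real.exp (-b * x)) = ENNReal.ofReal b⁻¹ := by
  rw [← ofReal_integral_eq_lintegral_ofReal (exp_neg_integrableOn_Ioi 0 hb)
    (Filter.Eventually.of_forall fun _ => (Real.exp_pos _).le),
    integral_exp_mul_Ioi (by linarith)]
  congr 1
  simp
  
/-- the double integral -/
noncomputable def JJ (c : ℝ) : ENNReal := ∫⁻ x in Ioi (0 : ℝ), ∫⁻ y in Ioi (0 : ℝ),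
  ENNReal.ofReal (Real.exp (-(x + y))) * (Iic c).indicator 1 (2 * x / (x + y) - 1)

theorem exp_split (x : ℝ) (a : ℝ) : ∫⁻ y in Ioi a, ENNReal.ofReal (Real.exp (-(x + y))) =
    ENNReal.ofReal (Real.exp (-x) * Real.exp (-a)) := by
  have : ∀ y : ℝ, ENNReal.ofReal (Real.exp (-(x + y))) =
      ENNReal.ofReal (Real.exp (-x)) * ENNReal.ofReal (Real.exp (-y)) := by
    intro y
    rw [← ENNReal.ofReal_mul (Real.exp_pos _).le, ← Real.exp_add]
    congr 2; ring
  simp only [this]
  rw [lintegral_const_mul _ (by fun_prop), exp_lint_Ioi, ENNReal.ofReal_mul (Real.exp_pos _).le]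

theorem tot : ∫⁻ x in Ioi (0 : ℝ), ∫⁻ y in Ioi (0 : ℝ), ENNReal.ofReal (Real.exp (-(x + y))) =
    1 := by
  simp only [exp_split, neg_zero, Real.exp_zero, mul_one]
  rw [exp_lint_Ioi]
  simp

theorem JJ_low {c : ℝ} (hc : c ≤ -1) : JJ c = 0 := by
  unfold JJ
  rw [setLIntegral_congr_fun (g := fun _ => 0) measurableSet_Ioi]
  · simp
  intro x hx
  have hx' : 0 < x := hx
  simp only
  rw [setLIntegral_congr_fun (g := fun _ => 0) measurableSet_Ioi]
  · simp
  intro y hy
  have hy' : 0 < y := hy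
  have : ¬ (2 * x / (x + y) - 1) ∈ Iic c := by
    have : 0 < 2 * x / (x + y) := by positivity
    rw [mem_Iic]; linarith
  simp only
  rw [indicator_of_notMem this, mul_zero]

theorem JJ_high {c : ℝ} (hc : 1 ≤ c) : JJ c = 1 := by
  rw [← tot]
  unfold JJ
  refine setLIntegral_congr_fun measurableSet_Ioi fun x hx => ?_
  refine setLIntegral_congr_fun measurableSet_Ioi fun y hy => ?_
  have hx' : 0 < x := hx
  have hy' : 0 < y := hy
  have : (2 * x / (x + y) - 1) ∈ Iic c := by
    have : 2 * x / (x + y) ≤ 2 := by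
      rw [div_le_iff₀ (by positivity)]; linarith
    rw [mem_Iic]; linarith
  rw [indicator_of_mem this, Pi.one_apply, mul_one]

theorem JJ_mid {c : ℝ} (h1 : -1 < c) (h2 : c < 1) : JJ c = ENNReal.ofReal ((c + 1) / 2) := by
  set t := (c + 1) / 2 with ht
  have ht0 : 0 < t := by rw [ht]; linarith
  have ht1 : t < 1 := by rw [ht]; linarith
  unfold JJ
  have key : ∀ x ∈ Ioi (0 : ℝ), ∫⁻ y in Ioi (0 : ℝ),
      ENNReal.ofReal (Real.exp (-(x + y))) * (Iic c).indicator 1 (2 * x / (x + y) - 1) =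
      ENNReal.ofReal (Real.exp (-t⁻¹ * x)) := by
    intro x hx
    have hx' : 0 < x := hx
    set a := x * (1 - t) / t with ha
    have ha0 : 0 < a := by rw [ha]; exact div_pos (mul_pos hx' (by linarith)) ht0
    have e1 : ∫⁻ y in Ioi (0 : ℝ),
        ENNReal.ofReal (Real.exp (-(x + y))) * (Iic c).indicator 1 (2 * x / (x + y) - 1) =
        ∫⁻ y in Ioi (0 : ℝ), (Ici a).indicator
          (fun y => ENNReal.ofReal (Real.exp (-(x + y)))) y := by
      refine setLIntegral_congr_fun measurableSet_Ioi fun y hy => ?_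
      have hy' : 0 < y := hy
      have hiff : (2 * x / (x + y) - 1) ∈ Iic c ↔ y ∈ Ici a := by
        rw [mem_Iic, mem_Ici, ha, div_le_iff₀ ht0, sub_le_iff_le_add,
          div_le_iff₀ (by positivity : 0 < x + y)]
        have : c + 1 = 2 * t := by rw [ht]; ring
        rw [this]
        constructor <;> intro h <;> nlinarith
      by_cases h : y ∈ Ici a
      · rw [indicator_of_mem h, indicator_of_mem (hiff.mpr h), Pi.one_apply, mul_one]
      · rw [indicator_of_notMem h, indicator_of_notMem (fun h' => h (hiff.mp h')), mul_zero]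
    rw [e1, lintegral_indicator measurableSet_Ici, Measure.restrict_restrict measurableSet_Ici,
      inter_eq_left.mpr (show Ici a ⊆ Ioi 0 from fun y hy => lt_of_lt_of_le ha0 hy),
      Measure.restrict_congr_set Ioi_ae_eq_Ici.symm, exp_split, ← Real.exp_add]
    congr 2
    rw [ha]; field_simp; ring
  rw [setLIntegral_congr_fun measurableSet_Ioi key, exp_lint (inv_pos.mpr ht0), inv_inv]

theorem uni_Iic (c : ℝ) : uni (Iic c) = 2⁻¹ * ENNReal.ofReal (min c 1 + 1) := by
  rw [uni, Measure.smul_apply, Measure.restrict_apply measurableSet_Iic, smul_eq_mul]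
  have : Iic c ∩ Icc (-1) 1 = Icc (-1) (min c 1) := by
    ext x; simp only [mem_inter_iff, mem_Iic, mem_Icc, le_min_iff]; tauto
  rw [this, Real.volume_Icc]
  congr 2; ring

theorem JJ_eq (c : ℝ) : JJ c = uni (Iic c) := by
  rw [uni_Iic]
  have h2 : (2⁻¹ : ENNReal) = ENNReal.ofReal 2⁻¹ := by
    rw [ENNReal.ofReal_inv_of_pos (by norm_num)]; simp
  rcases le_or_gt c (-1) with h | h
  · rw [JJ_low h, ENNReal.ofReal_of_nonpos, mul_zero]
    have := min_le_left c 1
    linarith
  rcases le_or_gt 1 c with h' | h'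
  · rw [JJ_high h', min_eq_right h', h2, ← ENNReal.ofReal_mul (by norm_num)]
    norm_num
  · rw [JJ_mid h h', min_eq_left h'.le, h2, ← ENNReal.ofReal_mul (by norm_num)]
    congr 1; ring

theorem ww_int : ∫⁻ z, ww z = ENNReal.ofReal Real.pi * (ENNReal.ofReal Real.pi * 1) := by
  have := lint_two (fun p => ENNReal.ofReal (Real.exp (-(p.1 + p.2)))) (by fun_prop)
  rw [tot] at this
  exact this

theorem law_eq (m : Measure U) (hm : IsHaarU m) (c : ℝ) : m (zt ⁻¹' Iic c) = uni (Iic c) := by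
  have hF : Measurable ((Iic c).indicator (1 : ℝ → ENNReal)) :=
    measurable_one.indicator measurableSet_Iic
  have h1 := main_id m hm _ hF
  have h2 : ∫⁻ k, (Iic c).indicator (1 : ℝ → ENNReal) (zt k) ∂m = m (zt ⁻¹' Iic c) := by
    have : (fun k => (Iic c).indicator (1 : ℝ → ENNReal) (zt k)) =
        (zt ⁻¹' Iic c).indicator 1 := by
      funext k
      by_cases h : zt k ∈ Iic c
      · rw [indicator_of_mem h, indicator_of_mem (show k ∈ zt ⁻¹' Iic c from h)]; rfl
      · rw [indicator_of_notMem h, indicator_of_notMem (show k ∉ zt ⁻¹' Iic c from h)]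
    rw [this, lintegral_indicator_one (zt_meas measurableSet_Iic)]
  have h3 : ∫⁻ z, ww z * (Iic c).indicator (1 : ℝ → ENNReal) (gg z) =
      ENNReal.ofReal Real.pi * (ENNReal.ofReal Real.pi * JJ c) :=
    lint_two (fun p => ENNReal.ofReal (Real.exp (-(p.1 + p.2))) *
      (Iic c).indicator (1 : ℝ → ENNReal) (2 * p.1 / (p.1 + p.2) - 1))
      (Measurable.mul (by fun_prop) (hF.comp (by fun_prop)))
  rw [h2, h3, ww_int, JJ_eq, mul_one, ← mul_assoc] at h1
  have hpi : ENNReal.ofReal Real.pi ≠ 0 := by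
    rw [Ne, ENNReal.ofReal_eq_zero, not_le]; exact Real.pi_pos
  exact (ENNReal.mul_right_inj (mul_ne_zero hpi hpi)
    (ENNReal.mul_ne_top ENNReal.ofReal_ne_top ENNReal.ofReal_ne_top)).mp h1

theorem main : S_ARCH := by
  intro m hm F hF
  have := hm.prob
  have hmap : m.map zt = uni := by
    have : IsProbabilityMeasure (m.map zt) := Measure.isProbabilityMeasure_map zt_meas.aemeasurable
    refine Measure.ext_of_Iic _ _ fun c => ?_
    rw [Measure.map_apply zt_meas measurableSet_Iic, law_eq m hm]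
  rw [← hmap, lintegral_map hF zt_meas]

end Pool.Agent.H204.CS.P_ARCH
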