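import Pool.Agent.H204.CS.Stm

/-! ASSOC (project CS of helper204): associativity of the convolution from the kernels. -/

set_option autoImplicit false

namespace Pool.Agent.H204.CS.P_ASSOC

open MeasureTheory Topology Filter Pool.Agent.V1135.CAS
open scoped NNReal ENNReal

section

variable {X E : Type} [MeasurableSpace X] [MeasurableSpace E] {K : X → E → Measure X}
  {c : E → E → Measure E} {π : X → X → E}

/-- composition of kernels, for functions -/
theorem comp_fun (hKm : Measurable fun p : X × E => K p.1 p.2)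
    (hcomp : ∀ (h k : E) (x : X) (A : Set X), MeasurableSet A →
      ∫⁻ y, K y k A ∂(K x h) = ∫⁻ l, K x l A ∂(c h k)) (h k : E) (x : X) {g : X → ℝ≥0∞}
    (hg : Measurable g) :
    ∫⁻ y, ∫⁻ z, g z ∂(K y k) ∂(K x h) = ∫⁻ l, ∫⁻ z, g z ∂(K x l) ∂(c h k) := by
  have m1 : Measurable fun y => K y k := hKm.comp measurable_prodMk_right
  have m2 : Measurable fun l => K x l := hKm.comp measurable_prodMk_left
  have e1 : (K x h).bind (fun y => K y k) = (c h k).bind (fun l => K x l) := by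
    ext A hA
    rw [Measure.bind_apply hA m1.aemeasurable, Measure.bind_apply hA m2.aemeasurable]
    exact hcomp h k x A hA
  rw [← Measure.lintegral_bind m1.aemeasurable hg.aemeasurable,
    ← Measure.lintegral_bind m2.aemeasurable hg.aemeasurable, e1]

/-- integrals of the convolution by means of the kernels -/
theorem conv_fun (hp : ∀ x h, IsProbabilityMeasure (K x h))
    (hKm : Measurable fun p : X × E => K p.1 p.2) (hπm : ∀ x, Measurable (π x))
    (hπ : ∀ x h, ∀ᵐ y ∂(K x h), π x y = h)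
    (hcomp : ∀ (h k : E) (x : X) (A : Set X), MeasurableSet A →
      ∫⁻ y, K y k A ∂(K x h) = ∫⁻ l, K x l A ∂(c h k)) (x : X) (h k : E) {F : E → ℝ≥0∞}
    (hF : Measurable F) :
    ∫⁻ l, F l ∂(c h k) = ∫⁻ w, ∫⁻ y, F (π x y) ∂(K w k) ∂(K x h) := by
  have hg : Measurable fun y => F (π x y) := hF.comp (hπm x)
  rw [comp_fun hKm hcomp h k x hg]
  refine lintegral_congr fun l => ?_
  have h1 : ∫⁻ z, F (π x z) ∂(K x l) = ∫⁻ _, F l ∂(K x l) := by
    apply lintegral_congr_ae
    filter_upwards [hπ x l] with z hz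
    rw [hz]
  have := hp x l
  change F l = ∫⁻ z, F (π x z) ∂(K x l)
  rw [h1, lintegral_const, measure_univ, mul_one]

/-- associativity for nonnegative functions -/
theorem assoc_fun (hp : ∀ x h, IsProbabilityMeasure (K x h)) (hpc : ∀ h k, IsProbabilityMeasure (c h k))
    (hKm : Measurable fun p : X × E => K p.1 p.2)
    (hπm : ∀ x, Measurable (π x))
    (hπ : ∀ x h, ∀ᵐ y ∂(K x h), π x y = h)
    (hcomp : ∀ (h k : E) (x : X) (A : Set X), MeasurableSet A →
      ∫⁻ y, K y k A ∂(K x h) = ∫⁻ l, K x l A ∂(c h k)) (x : X) (e₁ e₂ e₃ : E) {F : E → ℝ≥0∞}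
    (hF : Measurable F) :
    ∫⁻ u, ∫⁻ w, F w ∂(c u e₃) ∂(c e₁ e₂) = ∫⁻ v, ∫⁻ w, F w ∂(c e₁ v) ∂(c e₂ e₃) := by
  have hg : Measurable fun y => F (π x y) := hF.comp (hπm x)
  have m3 : Measurable fun y => ∫⁻ z, F (π x z) ∂(K y e₃) :=
    (Measure.measurable_lintegral hg).comp (hKm.comp measurable_prodMk_right)
  have L : ∫⁻ u, ∫⁻ w, F w ∂(c u e₃) ∂(c e₁ e₂) =
      ∫⁻ y₁, ∫⁻ y₂, ∫⁻ y₃, F (π x y₃) ∂(K y₂ e₃) ∂(K y₁ e₂) ∂(K x e₁) := by
    rw [comp_fun hKm hcomp e₁ e₂ x m3]
    exact lintegral_congr fun u => conv_fun hp hKm hπm hπ hcomp x u e₃ hF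
  have R : ∫⁻ v, ∫⁻ w, F w ∂(c e₁ v) ∂(c e₂ e₃) =
      ∫⁻ y₁, ∫⁻ y₂, ∫⁻ y₃, F (π x y₃) ∂(K y₂ e₃) ∂(K y₁ e₂) ∂(K x e₁) := by
    have e1 : ∀ v, ∫⁻ w, F w ∂(c e₁ v) = ∫⁻ w, ∫⁻ y, F (π x y) ∂(K w v) ∂(K x e₁) :=
      fun v => conv_fun hp hKm hπm hπ hcomp x e₁ v hF
    simp_rw [e1]
    have := hp x e₁
    have := hpc e₂ e₃
    rw [lintegral_lintegral_swap]
    · refine lintegral_congr fun y₁ => ?_
      exact (comp_fun hKm hcomp e₂ e₃ y₁ hg).symm
    · apply Measurable.aemeasurable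
      have h2 : Measurable fun p : E × X => K p.2 p.1 := hKm.comp measurable_swap
      exact (Measure.measurable_lintegral hg).comp h2
  rw [L, R]

end

theorem main : S_ASSOC := by
  intro X E hX _ _ _ _ K c π hp hpc hKm hcm hπm hπ hcomp f x y z
  obtain ⟨x₀⟩ := hX
  set M := ‖f‖ with hM
  have hfM : ∀ w, 0 ≤ f w + M := by
    intro w
    have := f.norm_coe_le_norm w
    rw [Real.norm_eq_abs, abs_le] at this
    linarith [this.1]
  have hfM2 : ∀ w, f w + M ≤ 2 * M := by
    intro w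
    have := f.norm_coe_le_norm w
    rw [Real.norm_eq_abs, abs_le] at this
    linarith [this.2]
  let F : E → ℝ≥0∞ := fun w => ENNReal.ofReal (f w + M)
  have hF : Measurable F := ((f.continuous.measurable).add_const M).ennreal_ofReal
  have hint : ∀ μ : Measure E, IsProbabilityMeasure μ → Integrable f μ := by
    intro μ hμ
    exact f.integrable μ
  have hfin : ∀ μ : Measure E, IsProbabilityMeasure μ → ∫⁻ w, F w ∂μ ≤ ENNReal.ofReal (2 * M) := by
    intro μ hμ
    calc ∫⁻ w, F w ∂μ ≤ ∫⁻ _, ENNReal.ofReal (2 * M) ∂μ :=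
          lintegral_mono fun w => ENNReal.ofReal_le_ofReal (hfM2 w)
      _ = ENNReal.ofReal (2 * M) := by rw [lintegral_const, measure_univ, mul_one]
  have key : ∀ μ : Measure E, IsProbabilityMeasure μ → ∫ w, f w ∂μ = (∫⁻ w, F w ∂μ).toReal - M := by
    intro μ hμ
    have h1 : ∫ w, (f w + M) ∂μ = (∫⁻ w, F w ∂μ).toReal :=
      integral_eq_lintegral_of_nonneg_ae (Eventually.of_forall hfM)
        ((f.continuous.add_const M).measurable.aestronglyMeasurable)
    rw [← h1, integral_add (hint μ hμ) (integrable_const M), integral_const, probReal_univ, one_smul]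
    ring
  -- iterated integrals
  have key2 : ∀ (μ : Measure E) (ν : E → Measure E), IsProbabilityMeasure μ →
      (∀ u, IsProbabilityMeasure (ν u)) → Measurable ν →
      ∫ u, (∫ w, f w ∂(ν u)) ∂μ = (∫⁻ u, ∫⁻ w, F w ∂(ν u) ∂μ).toReal - M := by
    intro μ ν hμ hν hνm
    have h1 : ∀ u, ∫ w, f w ∂(ν u) = (∫⁻ w, F w ∂(ν u)).toReal - M := fun u => key _ (hν u)
    simp_rw [h1]
    have hm : Measurable fun u => ∫⁻ w, F w ∂(ν u) := (Measure.measurable_lintegral hF).comp hνm
    have hlt : ∀ᵐ u ∂μ, ∫⁻ w, F w ∂(ν u) < ∞ :=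
      Eventually.of_forall fun u => (hfin _ (hν u)).trans_lt ENNReal.ofReal_lt_top
    have hi : Integrable (fun u => (∫⁻ w, F w ∂(ν u)).toReal) μ := by
      refine Integrable.mono' (integrable_const (2 * M)) hm.ennreal_toReal.aestronglyMeasurable ?_
      filter_upwards with u
      rw [Real.norm_eq_abs, abs_of_nonneg ENNReal.toReal_nonneg]
      refine ENNReal.toReal_le_of_le_ofReal ?_ (hfin _ (hν u))
      have := norm_nonneg f
      linarith
    rw [integral_sub hi (integrable_const M), integral_const, probReal_univ, one_smul,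
      integral_toReal hm.aemeasurable hlt]
  rw [key2 _ _ (hpc x y) (fun u => hpc u z) (hcm.comp measurable_prodMk_right),
    key2 _ _ (hpc y z) (fun v => hpc x v) (hcm.comp measurable_prodMk_left),
    assoc_fun hp hpc hKm hπm hπ hcomp x₀ x y z hF]

end Pool.Agent.H204.CS.P_ASSOC
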