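import Pool.Agent.H204.CS.Stm

set_option autoImplicit false

namespace Pool.Agent.H204.CS.P_CREG1

open MeasureTheory Topology Pool.Agent.V1135.CAS Pool.Agent.H204.CS

instance : IsProbabilityMeasure uni := by
  constructor
  rw [uni, Measure.smul_apply, Measure.restrict_apply_univ, Real.volume_Icc, smul_eq_mul]
  have : ENNReal.ofReal (1 - -1) = 2 := by norm_num
  rw [this]
  exact ENNReal.inv_mul_cancel (by norm_num) (by norm_num)

/-- the square -/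
def Sq : Set (ℝ × ℝ) := Set.Icc (-1) 1 ×ˢ Set.Icc (-1) 1

theorem isCompact_Sq : IsCompact Sq := isCompact_Icc.prod isCompact_Icc

theorem uni_pos {a : ℝ} (ha : a ∈ Set.Icc (-1 : ℝ) 1) {V : Set ℝ} (hV : V ∈ 𝓝 a) : 0 < uni V := by
  obtain ⟨W, hWV, hW, haW⟩ := mem_nhds_iff.mp hV
  have h1 : a ∈ closure (Set.Ioo (-1 : ℝ) 1) := by
    rw [closure_Ioo (by norm_num)]; exact ha
  have h2 : (W ∩ Set.Ioo (-1 : ℝ) 1).Nonempty := mem_closure_iff.mp h1 W hW haW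
  have h3 : 0 < volume (W ∩ Set.Ioo (-1 : ℝ) 1) := (hW.inter isOpen_Ioo).measure_pos volume h2
  rw [uni, Measure.smul_apply, smul_eq_mul]
  refine ENNReal.mul_pos (by norm_num) ?_
  have h4 : volume (W ∩ Set.Ioo (-1 : ℝ) 1) ≤ volume.restrict (Set.Icc (-1) 1) V := by
    have h5 : volume (W ∩ Set.Ioo (-1 : ℝ) 1) ≤
        volume.restrict (Set.Icc (-1) 1) (W ∩ Set.Ioo (-1 : ℝ) 1) := by
      rw [Measure.restrict_apply (hW.inter isOpen_Ioo).measurableSet]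
      exact measure_mono fun x hx => ⟨hx, Set.Ioo_subset_Icc_self hx.2⟩
    exact h5.trans (measure_mono fun x hx => hWV hx.1)
  exact (h3.trans_le h4).ne'

theorem supp_uni2 : (uni.prod uni).support = Sq := by
  apply Set.Subset.antisymm
  · refine Measure.support_subset_of_isClosed isCompact_Sq.isClosed ?_
    rw [mem_ae_iff]
    have h0 : uni (Set.Icc (-1 : ℝ) 1)ᶜ = 0 := by
      rw [uni, Measure.smul_apply, Measure.restrict_apply measurableSet_Icc.compl]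
      simp
    refine measure_mono_null (t := ((Set.Icc (-1 : ℝ) 1)ᶜ ×ˢ Set.univ) ∪
      (Set.univ ×ˢ (Set.Icc (-1 : ℝ) 1)ᶜ)) ?_ ?_
    · rintro ⟨x, y⟩ hx
      by_cases h1 : x ∈ Set.Icc (-1 : ℝ) 1
      · by_cases h2 : y ∈ Set.Icc (-1 : ℝ) 1
        · exact absurd ⟨h1, h2⟩ hx
        · exact Or.inr ⟨trivial, h2⟩
      · exact Or.inl ⟨h1, trivial⟩
    · rw [measure_union_null_iff]
      constructor
      · rw [Measure.prod_prod, h0, zero_mul]
      · rw [Measure.prod_prod, h0, mul_zero]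
  · rintro ⟨a, b⟩ ⟨ha, hb⟩
    rw [Measure.mem_support_iff_forall]
    intro U hU
    obtain ⟨V, hV, W, hW, hVW⟩ := mem_nhds_prod_iff.mp hU
    have h1 : 0 < (uni.prod uni) (V ×ˢ W) := by
      rw [Measure.prod_prod]
      exact ENNReal.mul_pos (uni_pos ha hV).ne' (uni_pos hb hW).ne'
    exact h1.trans_le (measure_mono hVW)

theorem srt_cont : Continuous fun p : ℝ × ℝ => srt p.1 p.2 := by
  unfold srt
  exact Continuous.subtype_mk (by fun_prop) _

theorem ut_cont : Continuous fun p : ℝ × ℝ × ℝ => ut p.1 p.2.1 p.2.2 := by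
  unfold ut
  fun_prop

theorem sW_pos {w₀ w₁ : ℝ → ℝ} (h0 : Wt w₀) (h1 : Wt w₁) (h : D) : 0 < sW w₀ w₁ h := by
  unfold sW
  have := h0.pos; have := h1.pos
  exact add_pos (mul_pos (h0.pos _) (h1.pos _)) (mul_pos (h0.pos _) (h1.pos _))

theorem sW_cont {w₀ w₁ : ℝ → ℝ} (h0 : Wt w₀) (h1 : Wt w₁) : Continuous (sW w₀ w₁) := by
  unfold sW
  have c1 := h0.cont; have c2 := h1.cont
  fun_prop

theorem sW_srt (w₀ w₁ : ℝ → ℝ) {a b : ℝ} (ha : 0 ≤ a) (hb : 0 ≤ b) :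
    sW w₀ w₁ (srt a b) = w₀ a * w₁ b + w₁ a * w₀ b := by
  unfold sW srt
  simp only [abs_of_nonneg ha, abs_of_nonneg hb]
  rcases le_total a b with h | h
  · rw [max_eq_right h, min_eq_left h]; ring
  · rw [max_eq_left h, min_eq_right h]; ring

theorem ut_nonneg (r t z : ℝ) : 0 ≤ ut r t z := Real.sqrt_nonneg _

theorem mass {w₀ w₁ : ℝ → ℝ} (h0 : Wt w₀) (h1 : Wt w₁) {r t r' t' d : ℝ} (hr : 0 ≤ r)
    (ht : 0 ≤ t) (hr' : 0 ≤ r') (ht' : 0 ≤ t') (hd : 0 < d) :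
    ∫⁻ z, ENNReal.ofReal (sW w₀ w₁ (srt (ut r t z.1) (ut r' t' z.2)) / d) ∂(uni.prod uni) =
      ENNReal.ofReal ((w₀ r * w₀ t * (w₁ r' * w₁ t') + w₁ r * w₁ t * (w₀ r' * w₀ t')) / d) := by
  have hm : ∀ {w : ℝ → ℝ}, Wt w → ∀ r t, Measurable fun z => ENNReal.ofReal (w (ut r t z)) := by
    intro w hw r t
    have : Continuous fun z => w (ut r t z) := by
      have h := hw.cont
      unfold ut
      fun_prop
    exact this.measurable.ennreal_ofReal
  have e1 : ∀ z : ℝ × ℝ, ENNReal.ofReal (sW w₀ w₁ (srt (ut r t z.1) (ut r' t' z.2)) / d) =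
      ENNReal.ofReal d⁻¹ * (ENNReal.ofReal (w₀ (ut r t z.1)) * ENNReal.ofReal (w₁ (ut r' t' z.2)) +
        ENNReal.ofReal (w₁ (ut r t z.1)) * ENNReal.ofReal (w₀ (ut r' t' z.2))) := by
    intro z
    rw [sW_srt w₀ w₁ (ut_nonneg _ _ _) (ut_nonneg _ _ _), div_eq_inv_mul,
      ENNReal.ofReal_mul (inv_pos.mpr hd).le,
      ENNReal.ofReal_add (mul_pos (h0.pos _) (h1.pos _)).le (mul_pos (h1.pos _) (h0.pos _)).le,
      ENNReal.ofReal_mul (h0.pos _).le, ENNReal.ofReal_mul (h1.pos _).le]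
  have m1 : Measurable fun z : ℝ × ℝ => ENNReal.ofReal (w₀ (ut r t z.1)) :=
    (hm h0 r t).comp measurable_fst
  have m2 : Measurable fun z : ℝ × ℝ => ENNReal.ofReal (w₁ (ut r' t' z.2)) :=
    (hm h1 r' t').comp measurable_snd
  have m3 : Measurable fun z : ℝ × ℝ => ENNReal.ofReal (w₁ (ut r t z.1)) :=
    (hm h1 r t).comp measurable_fst
  have m4 : Measurable fun z : ℝ × ℝ => ENNReal.ofReal (w₀ (ut r' t' z.2)) :=
    (hm h0 r' t').comp measurable_snd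
  have m5 : Measurable fun z : ℝ × ℝ => ENNReal.ofReal (w₀ (ut r t z.1)) *
      ENNReal.ofReal (w₁ (ut r' t' z.2)) := m1.mul m2
  have m6 : Measurable fun z : ℝ × ℝ => ENNReal.ofReal (w₀ (ut r t z.1)) *
      ENNReal.ofReal (w₁ (ut r' t' z.2)) + ENNReal.ofReal (w₁ (ut r t z.1)) *
      ENNReal.ofReal (w₀ (ut r' t' z.2)) := m5.add (m3.mul m4)
  simp_rw [e1]
  rw [lintegral_const_mul _ m6, lintegral_add_left m5,
    lintegral_prod_mul (hm h0 r t).aemeasurable (hm h1 r' t').aemeasurable,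
    lintegral_prod_mul (hm h1 r t).aemeasurable (hm h0 r' t').aemeasurable,
    ← h0.mul r t hr ht, ← h1.mul r t hr ht, ← h0.mul r' t' hr' ht', ← h1.mul r' t' hr' ht']
  have p0 := h0.pos
  have p1 := h1.pos
  rw [← ENNReal.ofReal_mul (mul_pos (p0 _) (p0 _)).le, ← ENNReal.ofReal_mul (mul_pos (p1 _) (p1 _)).le,
    ← ENNReal.ofReal_add (mul_pos (mul_pos (p0 _) (p0 _)) (mul_pos (p1 _) (p1 _))).le
      (mul_pos (mul_pos (p1 _) (p1 _)) (mul_pos (p0 _) (p0 _))).le,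
    ← ENNReal.ofReal_mul (inv_pos.mpr hd).le, div_eq_inv_mul]

theorem ut_zero_iff {r t z : ℝ} (hr : 0 ≤ r) (ht : 0 ≤ t) (hz : z ∈ Set.Icc (-1 : ℝ) 1)
    (h : ut r t z = 0) : r = t := by
  unfold ut at h
  have h1 := Real.sqrt_eq_zero'.mp h
  have h2 : 0 ≤ r * t * (z + 1) := mul_nonneg (mul_nonneg hr ht) (by linarith [hz.1])
  have h3 : (r - t) ^ 2 ≤ 0 := by nlinarith
  have h4 : r - t = 0 := by
    have := le_antisymm h3 (sq_nonneg _)
    exact pow_eq_zero_iff (two_ne_zero) |>.mp this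
  linarith

theorem ut_self (r : ℝ) : ut r r (-1) = 0 := by
  unfold ut
  rw [show r ^ 2 + r ^ 2 + 2 * r * r * (-1) = 0 by ring, Real.sqrt_zero]

theorem srt_zero {a b : ℝ} (h : srt a b = srt 0 0) : a = 0 ∧ b = 0 := by
  have h1 := congrArg (fun p : D => p.1.1) h
  simp only [srt, abs_zero, max_self] at h1
  have h2 : |a| ≤ 0 := h1 ▸ le_max_left _ _
  have h3 : |b| ≤ 0 := h1 ▸ le_max_right _ _
  exact ⟨abs_eq_zero.mp (le_antisymm h2 (abs_nonneg _)),
    abs_eq_zero.mp (le_antisymm h3 (abs_nonneg _))⟩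

theorem setCont_union {P Y : Type*} [TopologicalSpace P] [TopologicalSpace Y] {S T : P → Set Y}
    (hS : SetContinuous S) (hT : SetContinuous T) : SetContinuous fun p => S p ∪ T p := by
  intro U hU
  constructor
  · have : {p | S p ∪ T p ⊆ U} = {p | S p ⊆ U} ∩ {p | T p ⊆ U} := by
      ext p; exact Set.union_subset_iff
    rw [this]
    exact (hS U hU).1.inter (hT U hU).1
  · have : {p | ((S p ∪ T p) ∩ U).Nonempty} = {p | (S p ∩ U).Nonempty} ∪ {p | (T p ∩ U).Nonempty} := by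
      ext p
      simp only [Set.union_inter_distrib_right, Set.union_nonempty]
      rfl
    rw [this]
    exact (hS U hU).2.union (hT U hU).2

theorem main : S_CREG1 := by
  intro hP w₀ w₁ h0 h1
  -- the two summands
  let wA : D × D → ℝ × ℝ → ℝ := fun p z =>
    sW w₀ w₁ (srt (ut p.1.1.1 p.2.1.1 z.1) (ut p.1.1.2 p.2.1.2 z.2)) /
      (sW w₀ w₁ p.1 * sW w₀ w₁ p.2)
  let φA : D × D → ℝ × ℝ → D := fun p z => srt (ut p.1.1.1 p.2.1.1 z.1) (ut p.1.1.2 p.2.1.2 z.2)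
  let wB : D × D → ℝ × ℝ → ℝ := fun p z =>
    sW w₀ w₁ (srt (ut p.1.1.1 p.2.1.2 z.1) (ut p.1.1.2 p.2.1.1 z.2)) /
      (sW w₀ w₁ p.1 * sW w₀ w₁ p.2)
  let φB : D × D → ℝ × ℝ → D := fun p z => srt (ut p.1.1.1 p.2.1.2 z.1) (ut p.1.1.2 p.2.1.1 z.2)
  have hcnv : ∀ h k, cnv w₀ w₁ h k =
      prm (uni.prod uni) wA φA (h, k) + prm (uni.prod uni) wB φB (h, k) := fun h k => rfl
  have hsc := sW_cont h0 h1
  have hsp := sW_pos h0 h1
  have hden : ∀ p : D × D, 0 < sW w₀ w₁ p.1 * sW w₀ w₁ p.2 := fun p => mul_pos (hsp _) (hsp _)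
  have cφA : Continuous fun q : (D × D) × (ℝ × ℝ) => φA q.1 q.2 := by
    show Continuous fun q : (D × D) × (ℝ × ℝ) =>
      srt (ut q.1.1.1.1 q.1.2.1.1 q.2.1) (ut q.1.1.1.2 q.1.2.1.2 q.2.2)
    refine srt_cont.comp (Continuous.prodMk ?_ ?_)
    · fun_prop
    · fun_prop
  have cφB : Continuous fun q : (D × D) × (ℝ × ℝ) => φB q.1 q.2 := by
    show Continuous fun q : (D × D) × (ℝ × ℝ) =>
      srt (ut q.1.1.1.1 q.1.2.1.2 q.2.1) (ut q.1.1.1.2 q.1.2.1.1 q.2.2)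
    refine srt_cont.comp (Continuous.prodMk ?_ ?_)
    · fun_prop
    · fun_prop
  have cden : Continuous fun q : (D × D) × (ℝ × ℝ) => sW w₀ w₁ q.1.1 * sW w₀ w₁ q.1.2 := by
    fun_prop
  have cwA : Continuous fun q : (D × D) × (ℝ × ℝ) => wA q.1 q.2 :=
    (hsc.comp cφA).div cden fun q => (hden q.1).ne'
  have cwB : Continuous fun q : (D × D) × (ℝ × ℝ) => wB q.1 q.2 :=
    (hsc.comp cφB).div cden fun q => (hden q.1).ne'
  obtain ⟨fA, iA, sA, kA⟩ := hP (D × D) D (ℝ × ℝ) (uni.prod uni) Sq isCompact_Sq supp_uni2 wA φA cwA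
    cφA (fun p a => div_pos (hsp _) (hden p))
  obtain ⟨fB, iB, sB, kB⟩ := hP (D × D) D (ℝ × ℝ) (uni.prod uni) Sq isCompact_Sq supp_uni2 wB φB cwB
    cφB (fun p a => div_pos (hsp _) (hden p))
  have hsupp : ∀ h k, (cnv w₀ w₁ h k).support = φA (h, k) '' Sq ∪ φB (h, k) '' Sq := by
    intro h k
    rw [hcnv, Measure.support_add, sA, sB]
  have mφA : ∀ p, Measurable (φA p) := fun p =>
    (cφA.comp (Continuous.prodMk_right p)).measurable
  have mφB : ∀ p, Measurable (φB p) := fun p =>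
    (cφB.comp (Continuous.prodMk_right p)).measurable
  refine ⟨?_, ?_, ?_, ?_, ?_⟩
  · intro h k
    constructor
    rw [hcnv, Measure.add_apply, prm, prm, Measure.map_apply (mφA _) MeasurableSet.univ,
      Measure.map_apply (mφB _) MeasurableSet.univ, Set.preimage_univ, Set.preimage_univ,
      withDensity_apply _ MeasurableSet.univ, withDensity_apply _ MeasurableSet.univ,
      Measure.restrict_univ]
    have e1 := mass h0 h1 (h.2.1.trans h.2.2) (k.2.1.trans k.2.2) h.2.1 k.2.1 (hden (h, k))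
    have e2 := mass h0 h1 (h.2.1.trans h.2.2) k.2.1 h.2.1 (k.2.1.trans k.2.2) (hden (h, k))
    have p0 := h0.pos
    have p1 := h1.pos
    have e3 : ENNReal.ofReal (((w₀ h.1.1 * w₀ k.1.1 * (w₁ h.1.2 * w₁ k.1.2) +
        w₁ h.1.1 * w₁ k.1.1 * (w₀ h.1.2 * w₀ k.1.2)) / (sW w₀ w₁ h * sW w₀ w₁ k))) +
        ENNReal.ofReal (((w₀ h.1.1 * w₀ k.1.2 * (w₁ h.1.2 * w₁ k.1.1) +
        w₁ h.1.1 * w₁ k.1.2 * (w₀ h.1.2 * w₀ k.1.1)) / (sW w₀ w₁ h * sW w₀ w₁ k))) = 1 := by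
      rw [← ENNReal.ofReal_add, ← add_div]
      · rw [show (w₀ h.1.1 * w₀ k.1.1 * (w₁ h.1.2 * w₁ k.1.2) +
          w₁ h.1.1 * w₁ k.1.1 * (w₀ h.1.2 * w₀ k.1.2) + (w₀ h.1.1 * w₀ k.1.2 * (w₁ h.1.2 * w₁ k.1.1) +
          w₁ h.1.1 * w₁ k.1.2 * (w₀ h.1.2 * w₀ k.1.1))) = sW w₀ w₁ h * sW w₀ w₁ k by
            unfold sW; ring, div_self (hden (h, k)).ne', ENNReal.ofReal_one]
      · exact div_nonneg (add_nonneg (mul_nonneg (mul_pos (p0 _) (p0 _)).le
          (mul_pos (p1 _) (p1 _)).le) (mul_nonneg (mul_pos (p1 _) (p1 _)).le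
          (mul_pos (p0 _) (p0 _)).le)) (hden (h, k)).le
      · exact div_nonneg (add_nonneg (mul_nonneg (mul_pos (p0 _) (p0 _)).le
          (mul_pos (p1 _) (p1 _)).le) (mul_nonneg (mul_pos (p1 _) (p1 _)).le
          (mul_pos (p0 _) (p0 _)).le)) (hden (h, k)).le
    rw [← e3, ← e1, ← e2]
  · intro f
    have h2 : ∀ p : D × D, ∫ y, f y ∂(cnv w₀ w₁ p.1 p.2) =
        ∫ y, f y ∂(prm (uni.prod uni) wA φA p) + ∫ y, f y ∂(prm (uni.prod uni) wB φB p) := by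
      intro p
      rw [hcnv]
      have := fA p
      have := fB p
      exact integral_add_measure (f.integrable _) (f.integrable _)
    simp_rw [h2]
    exact (iA f).add (iB f)
  · intro h k
    rw [hsupp]
    exact (isCompact_Sq.image (cφA.comp (Continuous.prodMk_right (h, k)))).union
      (isCompact_Sq.image (cφB.comp (Continuous.prodMk_right (h, k))))
  · simp_rw [hsupp]
    exact setCont_union kA kB
  · intro h k
    rw [hsupp]
    have hmem : (-1 : ℝ) ∈ Set.Icc (-1 : ℝ) 1 := ⟨le_rfl, by norm_num⟩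
    constructor
    · rintro (⟨z, hz, hz'⟩ | ⟨z, hz, hz'⟩)
      · obtain ⟨h3, h4⟩ := srt_zero hz'
        have h5 := ut_zero_iff (h.2.1.trans h.2.2) (k.2.1.trans k.2.2) hz.1 h3
        have h6 := ut_zero_iff h.2.1 k.2.1 hz.2 h4
        exact Subtype.ext (Prod.ext h5.symm h6.symm)
      · obtain ⟨h3, h4⟩ := srt_zero hz'
        have h5 := ut_zero_iff (h.2.1.trans h.2.2) k.2.1 hz.1 h3
        have h6 := ut_zero_iff h.2.1 (k.2.1.trans k.2.2) hz.2 h4
        have h7 := h.2.2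
        have h8 := k.2.2
        refine Subtype.ext (Prod.ext ?_ ?_)
        · linarith
        · linarith
    · rintro rfl
      left
      refine ⟨(-1, -1), ⟨hmem, hmem⟩, ?_⟩
      show srt (ut k.1.1 k.1.1 (-1)) (ut k.1.2 k.1.2 (-1)) = srt 0 0
      rw [ut_self, ut_self]

end Pool.Agent.H204.CS.P_CREG1
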