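import Pool.Agent.H204.CS.Stm

/-! CREG2: commutativity and neutral element of `cnv` (helper860) -/

set_option autoImplicit false

namespace Pool.Agent.H204.CS.P_CREG2

open MeasureTheory Topology

theorem uni_prob : IsProbabilityMeasure uni := by
  constructor
  unfold uni
  rw [Measure.smul_apply, Measure.restrict_apply_univ, Real.volume_Icc, smul_eq_mul]
  have : (1 - -1 : ℝ) = 2 := by norm_num
  rw [this]
  have h2 : ENNReal.ofReal 2 = 2 := by
    rw [ENNReal.ofReal_ofNat]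
  rw [h2]
  exact ENNReal.inv_mul_cancel (by norm_num) (by norm_num)

instance : IsProbabilityMeasure uni := uni_prob

theorem ut_comm (r t z : ℝ) : ut r t z = ut t r z := by
  unfold ut
  congr 1
  ring

theorem srt_comm (a b : ℝ) : srt a b = srt b a := by
  apply Subtype.ext
  simp only [srt]
  rw [max_comm, min_comm]

theorem continuous_srt : Continuous fun p : ℝ × ℝ => srt p.1 p.2 := by
  unfold srt
  refine Continuous.subtype_mk ?_ _
  fun_prop

theorem continuous_ut (r t : ℝ) : Continuous fun z : ℝ => ut r t z := by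
  unfold ut
  fun_prop

theorem continuous_sW {w₀ w₁ : ℝ → ℝ} (h₀ : Wt w₀) (h₁ : Wt w₁) :
    Continuous fun h : D => sW w₀ w₁ h := by
  unfold sW
  have c₀ := h₀.cont
  have c₁ := h₁.cont
  fun_prop

theorem continuous_phi (a b c d : ℝ) :
    Continuous fun z : ℝ × ℝ => srt (ut a b z.1) (ut c d z.2) :=
  continuous_srt.comp (((continuous_ut a b).comp continuous_fst).prodMk
    ((continuous_ut c d).comp continuous_snd))

/-- the integral of a function with respect to a parametrised measure -/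
theorem lintegral_prm {P Y Ω : Type} [MeasurableSpace Y] [MeasurableSpace Ω] (m : Measure Ω)
    (w : P → Ω → ℝ) (φ : P → Ω → Y) (p : P) (hw : Measurable (w p)) (hφ : Measurable (φ p))
    (F : Y → ENNReal) (hF : Measurable F) :
    ∫⁻ y, F y ∂(prm m w φ p) = ∫⁻ ω, ENNReal.ofReal (w p ω) * F (φ p ω) ∂m := by
  unfold prm
  rw [lintegral_map hF hφ]
  exact lintegral_withDensity_eq_lintegral_mul _ hw.ennreal_ofReal (hF.comp hφ)

/-- the weight of a summand -/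
noncomputable def wgt (w₀ w₁ : ℝ → ℝ) (a b c d : ℝ) (N : ℝ) (z : ℝ × ℝ) : ℝ :=
  sW w₀ w₁ (srt (ut a b z.1) (ut c d z.2)) / N

theorem measurable_wgt {w₀ w₁ : ℝ → ℝ} (h₀ : Wt w₀) (h₁ : Wt w₁) (a b c d N : ℝ) :
    Measurable (wgt w₀ w₁ a b c d N) := by
  unfold wgt
  exact (((continuous_sW h₀ h₁).comp (continuous_phi a b c d)).div_const N).measurable

/-- the integral of a function with respect to the convolution -/
theorem lintegral_cnv {w₀ w₁ : ℝ → ℝ} (h₀ : Wt w₀) (h₁ : Wt w₁) (h k : D)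
    (F : D → ENNReal) (hF : Measurable F) :
    ∫⁻ y, F y ∂(cnv w₀ w₁ h k) =
      ∫⁻ z, ENNReal.ofReal (wgt w₀ w₁ h.1.1 k.1.1 h.1.2 k.1.2 (sW w₀ w₁ h * sW w₀ w₁ k) z) *
          F (srt (ut h.1.1 k.1.1 z.1) (ut h.1.2 k.1.2 z.2)) ∂(uni.prod uni) +
      ∫⁻ z, ENNReal.ofReal (wgt w₀ w₁ h.1.1 k.1.2 h.1.2 k.1.1 (sW w₀ w₁ h * sW w₀ w₁ k) z) *
          F (srt (ut h.1.1 k.1.2 z.1) (ut h.1.2 k.1.1 z.2)) ∂(uni.prod uni) := by
  unfold cnv
  rw [lintegral_add_measure]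
  congr 1
  · exact lintegral_prm (P := D × D) (uni.prod uni) _ _ (h, k) (measurable_wgt h₀ h₁ _ _ _ _ _)
      (continuous_phi _ _ _ _).measurable F hF
  · exact lintegral_prm (P := D × D) (uni.prod uni) _ _ (h, k) (measurable_wgt h₀ h₁ _ _ _ _ _)
      (continuous_phi _ _ _ _).measurable F hF

theorem cnv_comm {w₀ w₁ : ℝ → ℝ} (h₀ : Wt w₀) (h₁ : Wt w₁) (h k : D) :
    cnv w₀ w₁ h k = cnv w₀ w₁ k h := by
  refine Measure.ext_of_lintegral _ fun F hF => ?_
  rw [lintegral_cnv h₀ h₁ h k F hF, lintegral_cnv h₀ h₁ k h F hF]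
  congr 1
  · refine lintegral_congr fun z => ?_
    unfold wgt
    rw [ut_comm h.1.1 k.1.1, ut_comm h.1.2 k.1.2, mul_comm (sW w₀ w₁ h)]
  · rw [← lintegral_prod_swap]
    refine lintegral_congr fun z => ?_
    unfold wgt
    simp only [Prod.fst_swap, Prod.snd_swap]
    rw [ut_comm h.1.1 k.1.2, ut_comm h.1.2 k.1.1, mul_comm (sW w₀ w₁ h), srt_comm]

theorem ut_zero {r z : ℝ} (hr : 0 ≤ r) : ut r 0 z = r := by
  unfold ut
  have : r ^ 2 + 0 ^ 2 + 2 * r * 0 * z = r ^ 2 := by ring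
  rw [this, Real.sqrt_sq hr]

theorem srt_self (h : D) : srt h.1.1 h.1.2 = h := by
  obtain ⟨⟨a, b⟩, h1, h2⟩ := h
  simp only at h1 h2
  apply Subtype.ext
  simp only [srt]
  rw [abs_of_nonneg h1, abs_of_nonneg (h1.trans h2), max_eq_left h2, min_eq_right h2]

theorem cnv_zero {w₀ w₁ : ℝ → ℝ} (h₀ : Wt w₀) (h₁ : Wt w₁) (h : D) :
    cnv w₀ w₁ h (srt 0 0) = Measure.dirac h := by
  have e1 : (srt 0 0).1.1 = 0 := by simp [srt]
  have e2 : (srt 0 0).1.2 = 0 := by simp [srt]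
  have hpos : 0 < sW w₀ w₁ h := by
    unfold sW
    exact add_pos (mul_pos (h₀.pos _) (h₁.pos _)) (mul_pos (h₀.pos _) (h₁.pos _))
  have hsW0 : sW w₀ w₁ (srt 0 0) = 2 := by
    unfold sW
    rw [e1, e2, h₀.zero, h₁.zero]
    norm_num
  have hh2 : 0 ≤ h.1.2 := h.2.1
  have hh1 : 0 ≤ h.1.1 := h.2.1.trans h.2.2
  refine Measure.ext_of_lintegral _ fun F hF => ?_
  rw [lintegral_cnv h₀ h₁ h _ F hF, lintegral_dirac' _ hF, e1, e2]
  unfold wgt
  simp only [ut_zero hh1, ut_zero hh2, srt_self, hsW0]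
  have h3 : sW w₀ w₁ h / (sW w₀ w₁ h * 2) = 2⁻¹ := by
    field_simp
  rw [h3, lintegral_const, measure_univ, mul_one]
  have h4 : ENNReal.ofReal 2⁻¹ = 2⁻¹ := by
    rw [ENNReal.ofReal_inv_of_pos (by norm_num), ENNReal.ofReal_ofNat]
  rw [h4, ← add_mul, ENNReal.inv_two_add_inv_two, one_mul]

theorem main : S_CREG2 := fun _ _ h₀ h₁ => ⟨cnv_comm h₀ h₁, cnv_zero h₀ h₁⟩

end Pool.Agent.H204.CS.P_CREG2
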