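import Pool.Agent.H204.CS.Stm

/-!
DIAG: diagonalisation of a positive Hermitian matrix of determinant one.
-/

set_option autoImplicit false

namespace Pool.Agent.H204.CS.P_DIAG

open Pool.Agent.H204.CS Matrix

theorem dg_eq (u : ℝ) : dg u = (Real.cosh u : ℂ) • (1 : Matrix (Fin 2) (Fin 2) ℂ) +
    (Real.sinh u : ℂ) • !![1, 0; 0, -1] := by
  have h1 : (Real.exp u : ℂ) = (Real.cosh u : ℂ) + (Real.sinh u : ℂ) := by
    rw [← Complex.ofReal_add, Real.cosh_add_sinh]
  have h2 : (Real.exp (-u) : ℂ) = (Real.cosh u : ℂ) - (Real.sinh u : ℂ) := by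
    rw [← Complex.ofReal_sub, Real.cosh_sub_sinh]
  unfold dg
  rw [h1, h2]
  ext i j
  fin_cases i <;> fin_cases j <;> simp [sub_eq_add_neg]

theorem em_eq (hH : S_HOPF) (u : ℝ) (k : U) : em u k =
    !![(Real.cosh u : ℂ) + Real.sinh u * zt k, Real.sinh u * xi k;
      Real.sinh u * starRingEnd ℂ (xi k), (Real.cosh u : ℂ) - Real.sinh u * zt k] := by
  have hk : k.1 * k.1ᴴ = 1 := by
    have := Matrix.mem_unitaryGroup_iff.1 k.2
    rwa [Matrix.star_eq_conjTranspose] at this
  unfold em
  rw [dg_eq, mul_add, add_mul, Matrix.mul_smul, Matrix.smul_mul, mul_one, hk, Matrix.mul_smul,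
    Matrix.smul_mul, hH.2.2 k]
  ext i j
  fin_cases i <;> fin_cases j <;> simp [sub_eq_add_neg]

theorem main : S_DIAG := by
  intro hH P hP hdet htr
  set p := (P 0 0).re with hp
  set p' := (P 1 1).re with hp'
  set q := P 0 1 with hq
  have h00 : P 0 0 = (p : ℂ) := by
    have h := congrFun (congrFun hP 0) 0
    rw [Matrix.conjTranspose_apply] at h
    exact (Complex.conj_eq_iff_re.1 h).symm
  have h11 : P 1 1 = (p' : ℂ) := by
    have h := congrFun (congrFun hP 1) 1
    rw [Matrix.conjTranspose_apply] at h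
    exact (Complex.conj_eq_iff_re.1 h).symm
  have h10 : P 1 0 = starRingEnd ℂ q := by
    have h := congrFun (congrFun hP 1) 0
    rw [Matrix.conjTranspose_apply] at h
    exact h.symm
  have hd : p * p' - Complex.normSq q = 1 := by
    rw [Matrix.det_fin_two, h00, h11, h10, ← hq, Complex.mul_conj] at hdet
    exact_mod_cast hdet
  have ht : 0 < p + p' := by
    rw [Matrix.trace_fin_two, h00, h11] at htr
    simpa using htr
  have hn : 0 ≤ Complex.normSq q := Complex.normSq_nonneg q
  set x := (p + p') / 2 with hx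
  have hx2 : x ^ 2 = ((p - p') / 2) ^ 2 + Complex.normSq q + 1 := by
    rw [hx]; linarith [hd]
  have hx0 : 0 < x := by rw [hx]; linarith
  have hx1 : 1 ≤ x := by nlinarith [sq_nonneg ((p - p') / 2)]
  set u := Real.arcosh x with hu
  have hu0 : 0 ≤ u := Real.arcosh_nonneg hx1
  have hc : Real.cosh u = x := Real.cosh_arcosh hx1
  have hs : Real.sinh u ^ 2 = ((p - p') / 2) ^ 2 + Complex.normSq q := by
    have := Real.cosh_sq u
    rw [hc] at this
    linarith
  rcases (Real.sinh_nonneg_iff.2 hu0).eq_or_lt with h0 | h0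
  · -- trivial case
    rw [← h0] at hs
    have e1 : ((p - p') / 2) ^ 2 = 0 := by nlinarith [sq_nonneg ((p - p') / 2)]
    have e2 : Complex.normSq q = 0 := by nlinarith [sq_nonneg ((p - p') / 2)]
    have e3 : p = p' := by
      have := pow_eq_zero_iff (two_ne_zero) |>.1 e1
      linarith
    have e4 : q = 0 := Complex.normSq_eq_zero.1 e2
    refine ⟨u, 1, hu0, ?_⟩
    rw [em_eq hH, ← h0, hc]
    ext i j
    fin_cases i <;> fin_cases j
    · show P 0 0 = _
      rw [h00, hx, e3]
      simp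
    · show P 0 1 = _
      rw [← hq, e4]
      simp
    · show P 1 0 = _
      rw [h10, e4]
      simp
    · show P 1 1 = _
      rw [h11, hx, e3]
      simp
  · obtain ⟨k, hk1, hk2⟩ := hH.2.1 ((p - p') / 2 / Real.sinh u) (q / (Real.sinh u : ℂ)) (by
      rw [div_pow, map_div₀, Complex.normSq_ofReal, ← pow_two, ← add_div, ← hs]
      exact div_self (pow_ne_zero _ h0.ne'))
    refine ⟨u, k, hu0, ?_⟩
    have hsC : (Real.sinh u : ℂ) ≠ 0 := by exact_mod_cast h0.ne'
    have f1 : (Real.sinh u : ℂ) * (zt k : ℂ) = ((p - p') / 2 : ℝ) := by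
      rw [hk1, ← Complex.ofReal_mul]
      congr 1
      field_simp
    have f2 : (Real.sinh u : ℂ) * xi k = q := by
      rw [hk2]; field_simp
    have f3 : (Real.sinh u : ℂ) * starRingEnd ℂ (xi k) = starRingEnd ℂ q := by
      rw [← f2, map_mul, Complex.conj_ofReal]
    rw [em_eq hH, f1, f2, f3, hc]
    ext i j
    fin_cases i <;> fin_cases j
    · show P 0 0 = ((x : ℝ) : ℂ) + (((p - p') / 2 : ℝ) : ℂ)
      rw [h00, ← Complex.ofReal_add, hx]
      congr 1; ring
    · rfl
    · show P 1 0 = starRingEnd ℂ q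
      exact h10
    · show P 1 1 = ((x : ℝ) : ℂ) - (((p - p') / 2 : ℝ) : ℂ)
      rw [h11, ← Complex.ofReal_sub, hx]
      congr 1; ring

end Pool.Agent.H204.CS.P_DIAG
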