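import Pool.Agent.H204.CS.Stm

/-!
# Project CS: H3CONT
-/

set_option autoImplicit false

namespace Pool.Agent.H204.CS.P_H3CONT

open MeasureTheory Topology Pool.Agent.V1135.CAS Matrix

theorem q_pos (s z : ℝ) (h1 : -1 ≤ z) (h2 : z ≤ 1) : 0 < Real.cosh s + Real.sinh s * z := by
  have a1 : 0 < Real.cosh s - Real.sinh s := by
    have := Real.sinh_lt_cosh s
    linarith
  have a2 : 0 < Real.cosh s + Real.sinh s := by
    have := Real.sinh_lt_cosh (-s)
    rw [Real.sinh_neg, Real.cosh_neg] at this
    linarith
  have e : Real.cosh s + Real.sinh s * z =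
      (1 + z) / 2 * (Real.cosh s + Real.sinh s) + (1 - z) / 2 * (Real.cosh s - Real.sinh s) := by
    ring
  rw [e]
  rcases lt_or_ge z 0 with h | h
  · have b1 : 0 ≤ (1 + z) / 2 * (Real.cosh s + Real.sinh s) :=
      mul_nonneg (by linarith) a2.le
    have b2 : 0 < (1 - z) / 2 * (Real.cosh s - Real.sinh s) :=
      mul_pos (by linarith) a1
    linarith
  · have b1 : 0 < (1 + z) / 2 * (Real.cosh s + Real.sinh s) :=
      mul_pos (by linarith) a2
    have b2 : 0 ≤ (1 - z) / 2 * (Real.cosh s - Real.sinh s) :=
      mul_nonneg (by linarith) a1.le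
    linarith

theorem zt_bd (h : S_HOPF) (k : U) : -1 ≤ zt k ∧ zt k ≤ 1 := by
  have h1 := h.1 k
  have h2 := Complex.normSq_nonneg (xi k)
  constructor <;> nlinarith

theorem cont_entry (i j : Fin 2) : Continuous fun k : U => k.1 i j :=
  (continuous_apply_apply i j).comp continuous_subtype_val

theorem cont_zt : Continuous zt := by
  unfold zt
  exact (continuous_const.mul (Complex.continuous_normSq.comp (cont_entry 0 0))).sub
    continuous_const

theorem cont_xi : Continuous xi := by
  unfold xi
  exact (continuous_const.mul (cont_entry 0 0)).mul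
    (Complex.continuous_conj.comp (cont_entry 1 0))

theorem arg_ge (x y : ℝ × ℂ) : 1 ≤ Real.cosh (y.1 - x.1) + Complex.normSq
    ((Real.exp (x.1 / 2) : ℂ) * y.2 - (Real.exp (y.1 / 2) : ℂ) * x.2) / 2 := by
  have h1 := Real.one_le_cosh (y.1 - x.1)
  have h2 := Complex.normSq_nonneg
    ((Real.exp (x.1 / 2) : ℂ) * y.2 - (Real.exp (y.1 / 2) : ℂ) * x.2)
  linarith

theorem main : S_H3CONT := by
  intro hh
  have hq : Continuous fun p : (ℝ × ℂ) × ℝ × U =>
      Real.cosh p.2.1 + Real.sinh p.2.1 * zt p.2.2 :=
    (Real.continuous_cosh.comp (continuous_fst.comp continuous_snd)).add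
      ((Real.continuous_sinh.comp (continuous_fst.comp continuous_snd)).mul
        (cont_zt.comp (continuous_snd.comp continuous_snd)))
  have hp : ∀ p : (ℝ × ℂ) × ℝ × U, 0 < Real.cosh p.2.1 + Real.sinh p.2.1 * zt p.2.2 := fun p =>
    q_pos _ _ (zt_bd hh _).1 (zt_bd hh _).2
  have hs : Continuous fun p : (ℝ × ℂ) × ℝ × U =>
      Real.sqrt (Real.cosh p.2.1 + Real.sinh p.2.1 * zt p.2.2) :=
    Real.continuous_sqrt.comp hq
  have hx : Continuous fun p : (ℝ × ℂ) × ℝ × U => p.1.1 := continuous_fst.comp continuous_fst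
  have hw : Continuous fun p : (ℝ × ℂ) × ℝ × U => p.1.2 := continuous_snd.comp continuous_fst
  refine ⟨?_, ?_, ?_, ?_, ?_⟩
  · unfold act1
    refine Continuous.prodMk ?_ ?_
    · exact hx.add (hq.log fun p => (hp p).ne')
    · refine (hw.mul (Complex.continuous_ofReal.comp hs)).add
        ((Complex.continuous_ofReal.comp ?_).mul (Complex.continuous_conj.comp
          (cont_xi.comp (continuous_snd.comp continuous_snd))))
      refine ((Real.continuous_exp.comp (hx.neg.div_const 2)).mul
        (Real.continuous_sinh.comp (continuous_fst.comp continuous_snd))).div hs ?_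
      intro p
      exact (Real.sqrt_pos.2 (hp p)).ne'
  · unfold d1
    have hc : Continuous fun p : (ℝ × ℂ) × (ℝ × ℂ) => Real.cosh (p.2.1 - p.1.1) + Complex.normSq
        ((Real.exp (p.1.1 / 2) : ℂ) * p.2.2 - (Real.exp (p.2.1 / 2) : ℂ) * p.1.2) / 2 := by
      refine (Real.continuous_cosh.comp ?_).add ((Complex.continuous_normSq.comp ?_).div_const 2)
      · exact (continuous_fst.comp continuous_snd).sub (continuous_fst.comp continuous_fst)
      · refine Continuous.sub ?_ ?_
        · exact (Complex.continuous_ofReal.comp (Real.continuous_exp.comp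
            ((continuous_fst.comp continuous_fst).div_const 2))).mul
            (continuous_snd.comp continuous_snd)
        · exact (Complex.continuous_ofReal.comp (Real.continuous_exp.comp
            ((continuous_fst.comp continuous_snd).div_const 2))).mul
            (continuous_snd.comp continuous_fst)
    exact Real.continuousOn_arcosh.comp_continuous hc fun p => arg_ge p.1 p.2
  · intro x y
    exact Real.arcosh_nonneg (arg_ge x y)
  · intro x y h
    unfold d1 at h
    rw [Real.arcosh_eq_zero_iff (arg_ge x y)] at h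
    have h1 := Real.one_le_cosh (y.1 - x.1)
    have h2 := Complex.normSq_nonneg
      ((Real.exp (x.1 / 2) : ℂ) * y.2 - (Real.exp (y.1 / 2) : ℂ) * x.2)
    have h3 : Real.cosh (y.1 - x.1) = 1 := by linarith
    have h4 : Complex.normSq
      ((Real.exp (x.1 / 2) : ℂ) * y.2 - (Real.exp (y.1 / 2) : ℂ) * x.2) = 0 := by linarith
    have h5 : y.1 - x.1 = 0 := by
      by_contra hne
      exact absurd h3 (Real.one_lt_cosh.2 hne).ne'
    have h6 : y.1 = x.1 := by linarith
    have h7 := Complex.normSq_eq_zero.1 h4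
    rw [h6, ← mul_sub] at h7
    have h8 : ((Real.exp (x.1 / 2) : ℝ) : ℂ) ≠ 0 := by
      exact_mod_cast (Real.exp_pos _).ne'
    have h9 : y.2 - x.2 = 0 := (mul_eq_zero.1 h7).resolve_left h8
    exact Prod.ext h6.symm (sub_eq_zero.1 h9).symm
  · intro x y
    unfold d1
    congr 2
    · rw [← Real.cosh_neg]
      congr 1
      ring
    · rw [← Complex.normSq_neg]
      congr 2
      ring

end Pool.Agent.H204.CS.P_H3CONT
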