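import Pool.Agent.H204.CS.Stm

set_option autoImplicit false

namespace Pool.Agent.H204.CS.P_H3GEO

open MeasureTheory Topology Matrix
open Pool.Agent.H204.CS

lemma cosh_inj {a b : ℝ} (ha : 0 ≤ a) (hb : 0 ≤ b) (h : Real.cosh a = Real.cosh b) : a = b := by
  have h1 := Real.cosh_le_cosh.1 h.le
  have h2 := Real.cosh_le_cosh.1 h.ge
  rw [abs_of_nonneg ha, abs_of_nonneg hb] at h1 h2
  exact le_antisymm h1 h2

theorem main : S_H3GEO := by
  intro hH hM hD hS hT hC
  obtain ⟨hM1, hM2, hM3, hM4, hM5⟩ := hM hH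
  have hMM : S_MAT := hM
  have hdiag := hD hH
  obtain ⟨l, -, hl⟩ := hS hH hMM
  have htr := hT hH
  obtain ⟨hc1, hc2, hc3, hc4, hc5⟩ := hC hH
  have hact : ∀ (x : ℝ × ℂ) (r : ℝ) (a : U), 0 ≤ r → d1 x (act1 x r a) = r := by
    intro x r a hr
    apply cosh_inj (hc3 _ _) hr
    have h := hM4 x (act1 x r a) (em r a) (hM1 x r a)
    rw [hM5] at h
    have h2 : (Real.cosh (d1 x (act1 x r a)) : ℂ) = (Real.cosh r : ℂ) := by
      rw [h]; ring
    exact_mod_cast h2
  have hsurj : ∀ x y : ℝ × ℂ, ∃ a, act1 x (d1 x y) a = y := by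
    intro x y
    have hdet := hM3 x
    have hu : IsUnit (gm x).det := by rw [hdet]; exact isUnit_one
    set P : Matrix (Fin 2) (Fin 2) ℂ := (gm x)⁻¹ * (gm y * (gm y)ᴴ) * ((gm x)⁻¹)ᴴ with hP
    have h1 : gm x * P * (gm x)ᴴ = gm y * (gm y)ᴴ := by
      have e1 : gm x * (gm x)⁻¹ = 1 := Matrix.mul_nonsing_inv _ hu
      have e2 : ((gm x)⁻¹)ᴴ * (gm x)ᴴ = 1 := by
        rw [← Matrix.conjTranspose_mul, e1, Matrix.conjTranspose_one]
      calc gm x * P * (gm x)ᴴ = (gm x * (gm x)⁻¹) * (gm y * (gm y)ᴴ) *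
            (((gm x)⁻¹)ᴴ * (gm x)ᴴ) := by rw [hP]; simp only [Matrix.mul_assoc]
        _ = _ := by rw [e1, e2, Matrix.one_mul, Matrix.mul_one]
    have hPH : Pᴴ = P := by
      rw [hP]
      simp only [Matrix.conjTranspose_mul, Matrix.conjTranspose_conjTranspose, Matrix.mul_assoc]
    have hPd : P.det = 1 := by
      have e := congrArg Matrix.det h1
      have e2 : (gm x * P * (gm x)ᴴ).det = P.det := by
        rw [Matrix.det_mul (gm x * P), Matrix.det_mul (gm x) P, Matrix.det_conjTranspose, hM3]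
        simp
      have e3 : (gm y * (gm y)ᴴ).det = 1 := by
        rw [Matrix.det_mul, Matrix.det_conjTranspose, hM3]
        simp
      rw [← e2, e, e3]
    have hcosh := hM4 x y P h1.symm
    have htrP : P.trace = 2 * (Real.cosh (d1 x y) : ℂ) := by rw [hcosh]; ring
    have hpos : 0 < (P.trace).re := by
      rw [htrP]
      have : (2 * (Real.cosh (d1 x y) : ℂ)) = ((2 * Real.cosh (d1 x y) : ℝ) : ℂ) := by push_cast; ring
      rw [this, Complex.ofReal_re]
      have := Real.cosh_pos (d1 x y)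
      linarith
    obtain ⟨u, k, hu0, hk⟩ := hdiag P hPH hPd hpos
    have hud : d1 x y = u := by
      apply cosh_inj (hc3 _ _) hu0
      rw [hk, hM5] at htrP
      have h2 : (Real.cosh (d1 x y) : ℂ) = (Real.cosh u : ℂ) := by
        linear_combination -(1/2) * htrP
      exact_mod_cast h2
    refine ⟨k, ?_⟩
    rw [hud]
    apply hM2
    rw [hM1, ← hk, h1]
  refine ⟨hc1, hc2, hc3, hc4, hc5, ?_, hact, hsurj⟩
  intro x y z
  obtain ⟨a, ha⟩ := hsurj x y
  obtain ⟨b, hb⟩ := hsurj y z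
  set r := d1 x y with hr
  set t := d1 y z with ht
  have hr0 : 0 ≤ r := hc3 _ _
  have ht0 : 0 ≤ t := hc3 _ _
  obtain ⟨b', hb'⟩ : ∃ b', b' = l x r a * b := ⟨_, rfl⟩
  have h1 := hl x r a t b
  rw [ha, hb, ← hb'] at h1
  have h2 := hM4 x z _ h1
  have haa : a.1ᴴ * a.1 = 1 := by
    have := (Matrix.mem_unitaryGroup_iff' (A := a.1)).1 a.2
    rwa [Matrix.star_eq_conjTranspose] at this
  have h3 : (a.1 * dg (r / 2) * em t b' * dg (r / 2) * a.1ᴴ).trace =
      (dg (r / 2) * em t b' * dg (r / 2)).trace := by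
    rw [Matrix.trace_mul_comm]
    have : a.1ᴴ * (a.1 * dg (r / 2) * em t b' * dg (r / 2)) =
        (a.1ᴴ * a.1) * (dg (r / 2) * em t b' * dg (r / 2)) := by
      simp only [Matrix.mul_assoc]
    rw [this, haa, Matrix.one_mul]
  rw [h3, (htr r t b').1] at h2
  have h4 : Real.cosh (d1 x z) = Real.cosh r * Real.cosh t + zt b' * (Real.sinh r * Real.sinh t) := by
    have : (Real.cosh (d1 x z) : ℂ) =
        ((Real.cosh r * Real.cosh t + zt b' * (Real.sinh r * Real.sinh t) : ℝ) : ℂ) := by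
      rw [h2]; ring
    exact_mod_cast this
  have hz : zt b' ≤ 1 := by
    have := hH.1 b'
    have h0 := Complex.normSq_nonneg (xi b')
    nlinarith
  have hsr : 0 ≤ Real.sinh r := Real.sinh_nonneg_iff.2 hr0
  have hst : 0 ≤ Real.sinh t := Real.sinh_nonneg_iff.2 ht0
  have h5 : Real.cosh (d1 x z) ≤ Real.cosh (r + t) := by
    rw [h4, Real.cosh_add]
    have : zt b' * (Real.sinh r * Real.sinh t) ≤ 1 * (Real.sinh r * Real.sinh t) :=
      mul_le_mul_of_nonneg_right hz (mul_nonneg hsr hst)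
    linarith
  have h6 := Real.cosh_le_cosh.1 h5
  rwa [abs_of_nonneg (hc3 _ _), abs_of_nonneg (add_nonneg hr0 ht0)] at h6

end Pool.Agent.H204.CS.P_H3GEO
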