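import Pool.Agent.H204.CS.Stm

set_option autoImplicit false

namespace Pool.Agent.H204.CS.P_H3LAW

open MeasureTheory Topology Pool.Agent.H204.CS Matrix Set

/-- the diagonal matrix `diag (e^{-iθ}, 1)` -/
noncomputable def dmat (θ : ℝ) : Matrix (Fin 2) (Fin 2) ℂ :=
  !![Complex.exp (-(θ * Complex.I)), 0; 0, 1]

theorem dmat_mem (θ : ℝ) : dmat θ ∈ Matrix.unitaryGroup (Fin 2) ℂ := by
  rw [Matrix.mem_unitaryGroup_iff]
  have h : Complex.exp (-(θ * Complex.I)) * starRingEnd ℂ (Complex.exp (-(θ * Complex.I))) = 1 := by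
    rw [← Complex.exp_conj, ← Complex.exp_add]
    have : -(↑θ * Complex.I) + (starRingEnd ℂ) (-(↑θ * Complex.I)) = 0 := by
      simp
    rw [this, Complex.exp_zero]
  ext i j
  fin_cases i <;> fin_cases j
  · simpa [dmat, Matrix.mul_apply, Fin.sum_univ_two, Matrix.star_eq_conjTranspose] using h
  · simp [dmat, Matrix.mul_apply, Fin.sum_univ_two, Matrix.star_eq_conjTranspose]
  · simp [dmat, Matrix.mul_apply, Fin.sum_univ_two, Matrix.star_eq_conjTranspose]
  · simp [dmat, Matrix.mul_apply, Fin.sum_univ_two, Matrix.star_eq_conjTranspose]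

/-- `diag (e^{-iθ}, 1)` as an element of the unitary group -/
noncomputable def du (θ : ℝ) : U := ⟨dmat θ, dmat_mem θ⟩

theorem du_mul_00 (θ : ℝ) (k : U) :
    (du θ * k).1 0 0 = Complex.exp (-(θ * Complex.I)) * k.1 0 0 := by
  show (dmat θ * k.1) 0 0 = _
  simp [dmat, Matrix.mul_apply, Fin.sum_univ_two]

theorem du_mul_10 (θ : ℝ) (k : U) : (du θ * k).1 1 0 = k.1 1 0 := by
  show (dmat θ * k.1) 1 0 = _
  simp [dmat, Matrix.mul_apply, Fin.sum_univ_two]

theorem zt_du (θ : ℝ) (k : U) : zt (du θ * k) = zt k := by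
  unfold zt
  rw [du_mul_00, Complex.normSq_mul]
  have : Complex.normSq (Complex.exp (-(θ * Complex.I))) = 1 := by
    rw [Complex.normSq_eq_norm_sq]
    have h2 : ‖Complex.exp (-(θ * Complex.I))‖ = 1 := by
      have := Complex.norm_exp_ofReal_mul_I (-θ)
      rw [Complex.ofReal_neg, neg_mul] at this
      exact this
    rw [h2]; norm_num
  rw [this]; ring

theorem conj_xi_du (θ : ℝ) (k : U) :
    starRingEnd ℂ (xi (du θ * k)) = Complex.exp (θ * Complex.I) * starRingEnd ℂ (xi k) := by
  unfold xi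
  rw [du_mul_00, du_mul_10]
  simp only [map_mul, Complex.conj_conj, ← Complex.exp_conj]
  have : (starRingEnd ℂ) (-(↑θ * Complex.I)) = θ * Complex.I := by simp
  rw [this]
  ring

/-- `cosh s + z sinh s` -/
noncomputable def qq (s z : ℝ) : ℝ := Real.cosh s + Real.sinh s * z

theorem qq_pos {s z : ℝ} (hs : 0 < s) (hz : |z| ≤ 1) : 0 < qq s z := by
  unfold qq
  have h1 : Real.sinh s < Real.cosh s := Real.sinh_lt_cosh s
  have h0 : 0 < Real.sinh s := Real.sinh_pos_iff.2 hs
  have := (abs_le.1 hz).1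
  nlinarith

/-- the second coordinate of `act1 0 s k` -/
noncomputable def wv (s : ℝ) (k : U) : ℂ :=
  ((Real.sinh s / Real.sqrt (qq s (zt k)) : ℝ) : ℂ) * starRingEnd ℂ (xi k)

theorem act1_zero (s : ℝ) (k : U) : act1 0 s k = (Real.log (qq s (zt k)), wv s k) := by
  unfold act1 wv qq
  simp

theorem abs_zt_le (hH : S_HOPF) (k : U) : |zt k| ≤ 1 := by
  have h := hH.1 k
  have h2 := Complex.normSq_nonneg (xi k)
  rw [abs_le]
  constructor <;> nlinarith

theorem two_cosh (s z : ℝ) (hs : 0 < s) (hz : |z| ≤ 1) :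
    2 * Real.cosh s - 2 * Real.cosh (Real.log (qq s z)) =
      (Real.sinh s) ^ 2 * (1 - z ^ 2) / qq s z := by
  have hq := qq_pos hs hz
  rw [Real.cosh_log hq]
  have h1 := Real.cosh_sq s
  field_simp
  unfold qq
  linear_combination (1 : ℝ) * h1

theorem norm_wv (hH : S_HOPF) (s : ℝ) (hs : 0 < s) (k : U) :
    ‖wv s k‖ = Real.sqrt (2 * Real.cosh s - 2 * Real.cosh (Real.log (qq s (zt k)))) := by
  have hz := abs_zt_le hH k
  have hq := qq_pos hs hz
  rw [two_cosh s _ hs hz]
  symm
  rw [Real.sqrt_eq_iff_mul_self_eq]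
  · unfold wv
    rw [norm_mul, Complex.norm_real, RCLike.norm_conj, Real.norm_eq_abs]
    have h1 := hH.1 k
    rw [Complex.normSq_eq_norm_sq] at h1
    have h3 : |Real.sinh s / Real.sqrt (qq s (zt k))| * |Real.sinh s / Real.sqrt (qq s (zt k))| =
        Real.sinh s ^ 2 / qq s (zt k) := by
      rw [abs_mul_abs_self, div_mul_div_comm, Real.mul_self_sqrt hq.le]
      ring
    symm
    calc |Real.sinh s / Real.sqrt (qq s (zt k))| * ‖xi k‖ *
          (|Real.sinh s / Real.sqrt (qq s (zt k))| * ‖xi k‖)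
        = (|Real.sinh s / Real.sqrt (qq s (zt k))| * |Real.sinh s / Real.sqrt (qq s (zt k))|) *
          ‖xi k‖ ^ 2 := by ring
      _ = Real.sinh s ^ 2 / qq s (zt k) * (1 - zt k ^ 2) := by
          rw [h3]
          congr 1
          linarith
      _ = _ := by ring
  · apply div_nonneg _ hq.le
    apply mul_nonneg (sq_nonneg _)
    have := abs_le.1 hz
    nlinarith
  · exact norm_nonneg _

/-- shift of the angle -/
theorem shift_angle (Φ : ℂ → ENNReal) (w : ℂ) :
    ∫⁻ θ in Set.Ioc (-Real.pi) Real.pi, Φ (Complex.exp (θ * Complex.I) * w) =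
      ∫⁻ θ in Set.Ioc (-Real.pi) Real.pi, Φ ((‖w‖ : ℂ) * Complex.exp (θ * Complex.I)) := by
  set g : ℝ → ENNReal := fun θ => Φ ((‖w‖ : ℂ) * Complex.exp (θ * Complex.I)) with hg
  have hper : ∀ (n : ℤ) (θ : ℝ), g (n • (2 * Real.pi) + θ) = g θ := by
    intro n θ
    simp only [hg]
    congr 2
    rw [Complex.exp_eq_exp_iff_exists_int]
    refine ⟨n, ?_⟩
    push_cast
    simp
    ring
  have h1 : ∀ θ : ℝ, Φ (Complex.exp (θ * Complex.I) * w) = g (θ + w.arg) := by
    intro θ
    simp only [hg]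
    congr 1
    have hw : w = ‖w‖ * Complex.exp (w.arg * Complex.I) := (Complex.norm_mul_exp_arg_mul_I w).symm
    conv_lhs => rw [hw]
    push_cast
    rw [add_mul, Complex.exp_add]
    ring
  simp_rw [h1]
  have hpi : (0 : ℝ) < 2 * Real.pi := by positivity
  have e1 : ∫⁻ θ in Set.Ioc (-Real.pi) Real.pi, g (θ + w.arg) =
      ∫⁻ θ in Set.Ioc (-Real.pi + w.arg) (Real.pi + w.arg), g θ := by
    rw [← lintegral_indicator measurableSet_Ioc, ← lintegral_indicator measurableSet_Ioc]
    rw [← lintegral_add_right_eq_self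
      ((Set.Ioc (-Real.pi + w.arg) (Real.pi + w.arg)).indicator g) w.arg]
    apply lintegral_congr
    intro θ
    by_cases hθ : θ ∈ Set.Ioc (-Real.pi) Real.pi
    · have : θ + w.arg ∈ Set.Ioc (-Real.pi + w.arg) (Real.pi + w.arg) := by
        rw [Set.mem_Ioc] at hθ ⊢
        constructor <;> linarith [hθ.1, hθ.2]
      simp [hθ, this]
    · have : θ + w.arg ∉ Set.Ioc (-Real.pi + w.arg) (Real.pi + w.arg) := by
        intro h
        apply hθ
        rw [Set.mem_Ioc] at h ⊢
        constructor <;> linarith [h.1, h.2]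
      simp [hθ, this]
  rw [e1]
  have F1 := isAddFundamentalDomain_Ioc hpi (-Real.pi + w.arg)
  have F2 := isAddFundamentalDomain_Ioc hpi (-Real.pi)
  have E := F1.setLIntegral_eq F2 g (by
    rintro ⟨a, ha⟩ x
    obtain ⟨n, rfl⟩ := AddSubgroup.mem_zmultiples_iff.1 ha
    exact hper n x)
  have e2 : -Real.pi + w.arg + 2 * Real.pi = Real.pi + w.arg := by ring
  have e3 : -Real.pi + 2 * Real.pi = Real.pi := by ring
  rw [e2, e3] at E
  exact E

theorem continuous_ent (i j : Fin 2) : Continuous fun k : U => k.1 i j :=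
  (continuous_apply j).comp ((continuous_apply i).comp continuous_subtype_val)

theorem measurable_zt : Measurable zt := by
  apply Continuous.measurable
  unfold zt
  exact ((Complex.continuous_normSq.comp (continuous_ent 0 0)).const_mul _).sub continuous_const

theorem measurable_xi : Measurable xi := by
  apply Continuous.measurable
  unfold xi
  exact ((continuous_ent 0 0).const_mul _).mul
    (Complex.continuous_conj.comp (continuous_ent 1 0))

theorem measurable_wv (s : ℝ) : Measurable (wv s) := by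
  unfold wv qq
  have h1 := measurable_zt
  have h2 := measurable_xi
  apply Measurable.mul
  · apply Complex.measurable_ofReal.comp
    apply Measurable.div measurable_const
    apply Measurable.sqrt
    fun_prop
  · exact Complex.continuous_conj.measurable.comp h2

/-- the average over circles -/
noncomputable def av (Ψ : ℝ × ℂ → ENNReal) (s τ : ℝ) : ENNReal :=
  ENNReal.ofReal (2 * Real.pi)⁻¹ * ∫⁻ θ in Set.Ioc (-Real.pi) Real.pi,
        Ψ (τ, (Real.sqrt (2 * Real.cosh s - 2 * Real.cosh τ) : ℂ) * Complex.exp (θ * Complex.I))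

theorem measurable_av (Ψ : ℝ × ℂ → ENNReal) (hΨ : Measurable Ψ) (s : ℝ) :
    Measurable (av Ψ s) := by
  unfold av
  apply Measurable.const_mul
  apply Measurable.lintegral_prod_right'
    (f := fun p : ℝ × ℝ => Ψ (p.1, (Real.sqrt (2 * Real.cosh s - 2 * Real.cosh p.1) : ℂ) *
      Complex.exp (p.2 * Complex.I)))
  apply hΨ.comp
  apply Measurable.prodMk measurable_fst
  apply Continuous.measurable
  fun_prop

theorem av_const (c : ENNReal) :
    ENNReal.ofReal (2 * Real.pi)⁻¹ * ∫⁻ _θ in Set.Ioc (-Real.pi) Real.pi, c = c := by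
  rw [setLIntegral_const, Real.volume_Ioc]
  have h : Real.pi - -Real.pi = 2 * Real.pi := by ring
  rw [h, mul_comm c, ← mul_assoc, ← ENNReal.ofReal_mul (by positivity),
    inv_mul_cancel₀ (by positivity)]
  simp

theorem step1 (hH : S_HOPF) (m : Measure U) (hm : IsHaarU m) (Ψ : ℝ × ℂ → ENNReal)
    (hΨ : Measurable Ψ) (s : ℝ) (hs : 0 < s) :
    ∫⁻ k, Ψ (act1 0 s k) ∂m = ∫⁻ k, av Ψ s (Real.log (qq s (zt k))) ∂m := by
  have := hm.prob
  have hmeas : Measurable fun k : U => Ψ (act1 0 s k) := by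
    simp_rw [act1_zero]
    apply hΨ.comp
    apply Measurable.prodMk _ (measurable_wv s)
    apply Real.measurable_log.comp
    unfold qq
    exact (measurable_zt.const_mul _).const_add _
  have h1 : ∀ θ : ℝ, ∫⁻ k, Ψ (act1 0 s k) ∂m =
      ∫⁻ k, Ψ (Real.log (qq s (zt k)), Complex.exp (θ * Complex.I) * wv s k) ∂m := by
    intro θ
    rw [← hm.left (du θ) (fun k => Ψ (act1 0 s k)) hmeas]
    apply lintegral_congr
    intro k
    rw [act1_zero, zt_du]
    congr 2
    unfold wv
    rw [zt_du, conj_xi_du]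
    ring
  have h2 : ∫⁻ k, Ψ (act1 0 s k) ∂m =
      ENNReal.ofReal (2 * Real.pi)⁻¹ * ∫⁻ θ in Set.Ioc (-Real.pi) Real.pi,
        ∫⁻ k, Ψ (Real.log (qq s (zt k)), Complex.exp (θ * Complex.I) * wv s k) ∂m := by
    rw [← av_const (∫⁻ k, Ψ (act1 0 s k) ∂m)]
    congr 1
    apply lintegral_congr
    intro θ
    rw [h1 θ]
  rw [h2, lintegral_lintegral_swap, ← lintegral_const_mul']
  · apply lintegral_congr
    intro k
    unfold av
    congr 1
    rw [shift_angle (fun z => Ψ (Real.log (qq s (zt k)), z)) (wv s k), norm_wv hH s hs k]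
  · exact ENNReal.ofReal_ne_top
  · apply Measurable.aemeasurable
    apply hΨ.comp
    apply Measurable.prodMk
    · apply Real.measurable_log.comp
      unfold qq
      exact ((measurable_zt.comp measurable_snd).const_mul _).const_add _
    · apply Measurable.mul
      · apply Continuous.measurable
        fun_prop
      · exact (measurable_wv s).comp measurable_snd

theorem measurable_H (Ψ : ℝ × ℂ → ENNReal) (hΨ : Measurable Ψ) (s : ℝ) :
    Measurable fun z : ℝ => av Ψ s (Real.log (qq s z)) := by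
  apply (measurable_av Ψ hΨ s).comp
  apply Real.measurable_log.comp
  unfold qq
  fun_prop

/-- the substitution -/
theorem subst (G : ℝ → ENNReal) (s : ℝ) (hs : 0 < s) :
    ∫⁻ z, G (Real.log (qq s z)) ∂uni =
      ∫⁻ τ in Set.Icc (-s) s, ENNReal.ofReal (Real.exp τ / (2 * Real.sinh s)) * G τ := by
  have h0 : 0 < Real.sinh s := Real.sinh_pos_iff.2 hs
  set f : ℝ → ℝ := fun τ => (Real.exp τ - Real.cosh s) / Real.sinh s with hf
  have hmono : StrictMono f := by
    intro a b hab
    simp only [hf]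
    apply div_lt_div_of_pos_right _ h0
    have := Real.exp_lt_exp.2 hab
    linarith
  have hcont : Continuous f := by
    simp only [hf]
    fun_prop
  have hfa : f (-s) = -1 := by
    simp only [hf]
    rw [div_eq_iff h0.ne', Real.cosh_eq, Real.sinh_eq]
    ring
  have hfb : f s = 1 := by
    simp only [hf]
    rw [div_eq_iff h0.ne', Real.cosh_eq, Real.sinh_eq]
    ring
  have himg : f '' Set.Icc (-s) s = Set.Icc (-1) 1 := by
    apply Set.Subset.antisymm
    · rintro _ ⟨τ, hτ, rfl⟩
      rw [← hfa, ← hfb]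
      exact ⟨hmono.monotone hτ.1, hmono.monotone hτ.2⟩
    · have := intermediate_value_Icc (by linarith : -s ≤ s) hcont.continuousOn
      rw [hfa, hfb] at this
      exact this
  have hder : ∀ x ∈ Set.Icc (-s) s,
      HasDerivWithinAt f (Real.exp x / Real.sinh s) (Set.Icc (-s) s) x := by
    intro x _
    apply HasDerivAt.hasDerivWithinAt
    exact ((Real.hasDerivAt_exp x).sub_const _).div_const _
  have key := lintegral_image_eq_lintegral_abs_deriv_mul (measurableSet_Icc) hder
    (hmono.injective.injOn) (fun z => G (Real.log (qq s z)))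
  rw [himg] at key
  unfold uni
  rw [lintegral_smul_measure, key, smul_eq_mul, ← lintegral_const_mul']
  · apply lintegral_congr
    intro τ
    have e1 : qq s (f τ) = Real.exp τ := by
      simp only [hf, qq]
      field_simp
      ring
    rw [e1, Real.log_exp, ← mul_assoc]
    congr 1
    rw [abs_of_pos (by positivity)]
    have : (2⁻¹ : ENNReal) = ENNReal.ofReal (2⁻¹) := by
      rw [ENNReal.ofReal_inv_of_pos (by norm_num)]
      norm_num
    rw [this, ← ENNReal.ofReal_mul (by norm_num)]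
    congr 1
    field_simp
  · simp

theorem main : S_H3LAW := by
  intro _ hA hH m hm Ψ hΨ s hs
  rw [step1 hH m hm Ψ hΨ s hs, hA m hm _ (measurable_H Ψ hΨ s), subst (av Ψ s) s hs]
  rfl

end Pool.Agent.H204.CS.P_H3LAW
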