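import Pool.Agent.H204.CS.Stm

/-!
# Project CS: reversibility of the hyperbolic spherical means (H3REV)
-/

set_option autoImplicit false

namespace Pool.Agent.H204.CS.P_H3REV

open MeasureTheory Topology Matrix

/-- the group law on `ℝ × ℂ` -/
noncomputable def mu (x g : ℝ × ℂ) : ℝ × ℂ :=
  (x.1 + g.1, x.2 * (Real.exp (g.1 / 2) : ℂ) + (Real.exp (-x.1 / 2) : ℂ) * g.2)

theorem mu_cont : Continuous fun p : (ℝ × ℂ) × (ℝ × ℂ) => mu p.1 p.2 := by
  unfold mu
  fun_prop

theorem q_pos (hH : S_HOPF) (s : ℝ) (k : U) : 0 < Real.cosh s + Real.sinh s * zt k := by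
  have h := hH.1 k
  have h1 : zt k ^ 2 ≤ 1 := by nlinarith [Complex.normSq_nonneg (xi k)]
  have h2 : |zt k| ≤ 1 := by rwa [sq_le_one_iff_abs_le_one] at h1
  have h3 := Real.cosh_sq s
  have hc : 0 < Real.cosh s := Real.cosh_pos s
  have h4 : |Real.sinh s| < Real.cosh s := by
    apply abs_lt_of_sq_lt_sq _ hc.le
    linarith
  have h5 : |Real.sinh s * zt k| ≤ |Real.sinh s| := by
    rw [abs_mul]
    exact mul_le_of_le_one_right (abs_nonneg _) h2
  have h6 := neg_abs_le (Real.sinh s * zt k)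
  linarith

theorem act1_eq (hH : S_HOPF) (x : ℝ × ℂ) (s : ℝ) (k : U) :
    act1 x s k = mu x (act1 0 s k) := by
  have hq := q_pos hH s k
  unfold act1 mu
  have h1 : Real.exp (Real.log (Real.cosh s + Real.sinh s * zt k) / 2) =
      Real.sqrt (Real.cosh s + Real.sinh s * zt k) := by
    rw [← Real.log_sqrt hq.le, Real.exp_log (Real.sqrt_pos.mpr hq)]
  ext1
  · simp
  · simp only [Prod.fst_zero, Prod.snd_zero, zero_add, zero_mul, neg_zero, zero_div, Real.exp_zero,
      one_mul]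
    rw [h1]
    push_cast
    ring

theorem map_affine (c : ℝ) (hc : c ≠ 0) (d : ℂ) (H : ℂ → ENNReal) (hH : Measurable H) :
    ∫⁻ w, H (w * (c : ℂ) + d) = ENNReal.ofReal ((c ^ 2)⁻¹) * ∫⁻ w, H w := by
  have e1 : ∫⁻ w, H (w * (c : ℂ) + d) = ∫⁻ w, (fun v => H (v + d)) (c • w) := by
    refine lintegral_congr fun w => ?_
    show H (w * (c : ℂ) + d) = H (c • w + d)
    rw [Complex.real_smul, mul_comm]
  have hm : Measurable fun v => H (v + d) := hH.comp (measurable_id.add_const d)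
  rw [e1, ← lintegral_map hm (measurable_const_smul c), Measure.map_addHaar_smul _ hc,
    lintegral_smul_measure, lintegral_add_right_eq_self (μ := (volume : Measure ℂ)) H d]
  simp [abs_of_nonneg, sq_nonneg]

theorem lint_vol1 (G : ℝ × ℂ → ENNReal) (hG : Measurable G) :
    ∫⁻ x, G x ∂vol1 = ∫⁻ t : ℝ, ENNReal.ofReal (Real.exp t) * ∫⁻ w : ℂ, G (t, w) := by
  have hd : Measurable fun x : ℝ × ℂ => ENNReal.ofReal (Real.exp x.1) := by fun_prop
  unfold vol1
  rw [lintegral_withDensity_eq_lintegral_mul _ hd hG, Measure.volume_eq_prod,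
    lintegral_prod _ (hd.mul hG).aemeasurable]
  refine lintegral_congr fun t => ?_
  have hm : Measurable fun w : ℂ => G (t, w) := hG.comp measurable_prodMk_left
  exact lintegral_const_mul (ENNReal.ofReal (Real.exp t)) hm

theorem lint_mu (G : ℝ × ℂ → ENNReal) (hG : Measurable G) (g : ℝ × ℂ) :
    ∫⁻ x, G (mu x g) ∂vol1 = ENNReal.ofReal (Real.exp (-2 * g.1)) * ∫⁻ x, G x ∂vol1 := by
  have hm : Measurable fun x : ℝ × ℂ => mu x g :=
    (mu_cont.comp (continuous_id.prodMk continuous_const)).measurable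
  have hK : Measurable fun t : ℝ => ∫⁻ w : ℂ, G (t, w) := hG.lintegral_prod_right'
  rw [lint_vol1 (fun x => G (mu x g)) (hG.comp hm), lint_vol1 _ hG]
  have e1 : ∀ t : ℝ, ENNReal.ofReal (Real.exp t) * ∫⁻ w : ℂ, G (mu (t, w) g) =
      (fun u : ℝ => ENNReal.ofReal (Real.exp (-2 * g.1)) * (ENNReal.ofReal (Real.exp u) *
        ∫⁻ w : ℂ, G (u, w))) (t + g.1) := by
    intro t
    have e2 : ∫⁻ w : ℂ, G (mu (t, w) g) =
        ENNReal.ofReal (((Real.exp (g.1 / 2)) ^ 2)⁻¹) * ∫⁻ w : ℂ, G (t + g.1, w) :=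
      map_affine (Real.exp (g.1 / 2)) (Real.exp_pos _).ne' ((Real.exp (-t / 2) : ℂ) * g.2)
        (fun w => G (t + g.1, w)) (hG.comp (by fun_prop))
    simp only
    rw [e2, ← mul_assoc, ← mul_assoc, ← ENNReal.ofReal_mul (Real.exp_pos _).le,
      ← ENNReal.ofReal_mul (Real.exp_pos _).le]
    congr 2
    rw [← Real.exp_nat_mul, ← Real.exp_neg, ← Real.exp_add, ← Real.exp_add]
    congr 1
    push_cast
    ring
  rw [lintegral_congr e1, lintegral_add_right_eq_self (μ := (volume : Measure ℝ))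
    (fun u : ℝ => ENNReal.ofReal (Real.exp (-2 * g.1)) * (ENNReal.ofReal (Real.exp u) *
        ∫⁻ w : ℂ, G (u, w))) g.1, lintegral_const_mul]
  exact (by fun_prop : Measurable fun u : ℝ => ENNReal.ofReal (Real.exp u)).mul hK

theorem mu_inv (x g : ℝ × ℂ) : mu (mu x g) (-g) = x := by
  unfold mu
  ext1
  · simp
  · simp only [Prod.fst_neg, Prod.snd_neg]
    have h1 : (Real.exp (g.1 / 2) : ℂ) * (Real.exp (-g.1 / 2) : ℂ) = 1 := by
      rw [← Complex.ofReal_mul, ← Real.exp_add]
      simp [neg_div]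
    have h2 : (Real.exp (-(x.1 + g.1) / 2) : ℂ) =
        (Real.exp (-x.1 / 2) : ℂ) * (Real.exp (-g.1 / 2) : ℂ) := by
      rw [← Complex.ofReal_mul, ← Real.exp_add]
      congr 2
      ring
    rw [h2]
    linear_combination x.2 * h1

theorem half_turn (f : ℂ → ENNReal) (c : ℂ) :
    ∫⁻ θ in Set.Ioc (-Real.pi) Real.pi, f (-(c * Complex.exp (θ * Complex.I))) =
      ∫⁻ θ in Set.Ioc (-Real.pi) Real.pi, f (c * Complex.exp (θ * Complex.I)) := by
  have hpi := Real.pi_pos
  have hu : Set.Ioc (-Real.pi) Real.pi = Set.Ioc (-Real.pi) 0 ∪ Set.Ioc 0 Real.pi :=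
    (Set.Ioc_union_Ioc_eq_Ioc (by linarith) hpi.le).symm
  have hdj : Disjoint (Set.Ioc (-Real.pi) 0) (Set.Ioc 0 Real.pi) :=
    Set.Ioc_disjoint_Ioc_of_le le_rfl
  have key : ∀ (a b p : ℝ) (g : ℝ → ENNReal),
      ∫⁻ θ in Set.Ioc a b, g (θ + p) = ∫⁻ θ in Set.Ioc (a + p) (b + p), g θ := by
    intro a b p g
    rw [← (measurePreserving_add_right (volume : Measure ℝ) p).setLIntegral_comp_preimage_emb
      (measurableEmbedding_addRight p) g (Set.Ioc (a + p) (b + p))]
    simp
  have e1 : ∫⁻ θ in Set.Ioc (-Real.pi) 0, f (-(c * Complex.exp (θ * Complex.I))) =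
      ∫⁻ θ in Set.Ioc 0 Real.pi, f (c * Complex.exp (θ * Complex.I)) := by
    have := key (-Real.pi) 0 Real.pi (fun θ : ℝ => f (c * Complex.exp (θ * Complex.I)))
    rw [neg_add_cancel, zero_add] at this
    rw [← this]
    refine lintegral_congr fun θ => ?_
    congr 1
    push_cast
    rw [add_mul, Complex.exp_add, Complex.exp_pi_mul_I]
    ring
  have e2 : ∫⁻ θ in Set.Ioc 0 Real.pi, f (-(c * Complex.exp (θ * Complex.I))) =
      ∫⁻ θ in Set.Ioc (-Real.pi) 0, f (c * Complex.exp (θ * Complex.I)) := by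
    have := key 0 Real.pi (-Real.pi) (fun θ : ℝ => f (c * Complex.exp (θ * Complex.I)))
    rw [zero_add, add_neg_cancel] at this
    rw [← this]
    refine lintegral_congr fun θ => ?_
    congr 1
    push_cast
    rw [add_mul, Complex.exp_add, neg_mul, Complex.exp_neg, Complex.exp_pi_mul_I]
    norm_num
  rw [hu, lintegral_union measurableSet_Ioc hdj, lintegral_union measurableSet_Ioc hdj, e1, e2,
    add_comm]

theorem neg_Icc (s : ℝ) (g : ℝ → ENNReal) :
    ∫⁻ τ in Set.Icc (-s) s, g (-τ) = ∫⁻ τ in Set.Icc (-s) s, g τ := by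
  rw [← (Measure.measurePreserving_neg (volume : Measure ℝ)).setLIntegral_comp_preimage_emb
    (MeasurableEquiv.neg ℝ).measurableEmbedding g (Set.Icc (-s) s)]
  simp

theorem main : S_H3REV := by
  intro hHaar hHopf hCont hLaw hArch m hm F hF r hr
  have := hm.prob
  have : SFinite vol1 := by unfold vol1; infer_instance
  rcases hr.eq_or_lt with h0 | hr'
  · subst h0
    have : ∀ (x : ℝ × ℂ) (k : U), act1 x 0 k = x := by
      intro x k
      unfold act1
      ext1 <;> simp
    simp only [this]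
  have hact : Measurable fun p : (ℝ × ℂ) × U => act1 p.1 r p.2 :=
    (hCont hHopf).1.comp (by fun_prop : Continuous fun p : (ℝ × ℂ) × U => (p.1, r, p.2)) |>.measurable
  have hΨm : Measurable fun g : ℝ × ℂ => ∫⁻ x, F (mu x g, x) ∂vol1 := by
    have : Measurable fun p : (ℝ × ℂ) × (ℝ × ℂ) => F (mu p.2 p.1, p.2) :=
      hF.comp ((mu_cont.comp continuous_swap).measurable.prodMk measurable_snd)
    exact this.lintegral_prod_right'
  have hL : ∫⁻ x, ∫⁻ a, F (x, act1 x r a) ∂m ∂vol1 =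
      ∫⁻ a, (fun g : ℝ × ℂ => ENNReal.ofReal (Real.exp (-2 * g.1)) *
        ∫⁻ x, F (mu x (-g), x) ∂vol1) (act1 0 r a) ∂m := by
    rw [lintegral_lintegral_swap]
    · refine lintegral_congr fun a => ?_
      have h1 : ∀ x, F (x, act1 x r a) =
          (fun y => F (mu y (-(act1 0 r a)), y)) (mu x (act1 0 r a)) := by
        intro x
        simp only [mu_inv]
        rw [act1_eq hHopf x r a]
      rw [lintegral_congr h1]
      exact lint_mu (fun y => F (mu y (-(act1 0 r a)), y)) (hF.comp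
        (((mu_cont.comp (continuous_id.prodMk continuous_const)).measurable).prodMk measurable_id))
        (act1 0 r a)
    · exact (hF.comp (measurable_fst.prodMk hact)).aemeasurable
  have hR : ∫⁻ x, ∫⁻ a, F (act1 x r a, x) ∂m ∂vol1 =
      ∫⁻ a, (fun g : ℝ × ℂ => ∫⁻ x, F (mu x g, x) ∂vol1) (act1 0 r a) ∂m := by
    rw [lintegral_lintegral_swap]
    · refine lintegral_congr fun a => ?_
      refine lintegral_congr fun x => ?_
      rw [act1_eq hHopf x r a]
    · exact (hF.comp (hact.prodMk measurable_fst)).aemeasurable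
  have hΦm : Measurable fun g : ℝ × ℂ => ENNReal.ofReal (Real.exp (-2 * g.1)) *
      ∫⁻ x, F (mu x (-g), x) ∂vol1 := by
    have h1 : Measurable fun g : ℝ × ℂ => ENNReal.ofReal (Real.exp (-2 * g.1)) := by fun_prop
    exact h1.mul (hΨm.comp measurable_neg)
  have hA := hLaw hHaar hArch hHopf m hm _ hΦm r hr'
  have hB := hLaw hHaar hArch hHopf m hm _ hΨm r hr'
  refine hL.trans (hA.trans (Eq.trans ?_ (hR.trans hB).symm))
  · rw [← neg_Icc]
    refine lintegral_congr fun τ => ?_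
    have e1 : ∀ θ : ℝ, (fun g : ℝ × ℂ => ENNReal.ofReal (Real.exp (-2 * g.1)) *
        ∫⁻ x, F (mu x (-g), x) ∂vol1) (-τ, (Real.sqrt (2 * Real.cosh r - 2 * Real.cosh (-τ)) : ℂ) *
          Complex.exp (θ * Complex.I)) = ENNReal.ofReal (Real.exp (2 * τ)) *
        (fun w : ℂ => ∫⁻ x, F (mu x (τ, w), x) ∂vol1)
          (-((Real.sqrt (2 * Real.cosh r - 2 * Real.cosh τ) : ℂ) *
          Complex.exp (θ * Complex.I))) := by
      intro θ
      simp only [Real.cosh_neg, Prod.neg_mk, neg_neg]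
      congr 3
      ring
    have hmeas : Measurable fun θ : ℝ => (fun w : ℂ => ∫⁻ x, F (mu x (τ, w), x) ∂vol1)
          (-((Real.sqrt (2 * Real.cosh r - 2 * Real.cosh τ) : ℂ) *
          Complex.exp (θ * Complex.I))) := by
      refine hΨm.comp (measurable_const.prodMk ?_)
      have : Continuous fun θ : ℝ => -((Real.sqrt (2 * Real.cosh r - 2 * Real.cosh τ) : ℂ) *
          Complex.exp (θ * Complex.I)) := by fun_prop
      exact this.measurable
    rw [lintegral_congr e1, lintegral_const_mul _ hmeas,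
      half_turn (fun w : ℂ => ∫⁻ x, F (mu x (τ, w), x) ∂vol1)
        (Real.sqrt (2 * Real.cosh r - 2 * Real.cosh τ) : ℂ)]
    rw [← mul_assoc, ← mul_assoc, ← mul_assoc]
    congr 1
    rw [mul_right_comm, ← ENNReal.ofReal_mul]
    · congr 2
      rw [div_mul_eq_mul_div, ← Real.exp_add]
      congr 2
      ring
    · have := Real.sinh_pos_iff.mpr hr'
      positivity

end Pool.Agent.H204.CS.P_H3REV
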