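import Pool.Agent.H204.CS.Stm

/-!
# H3UNIF: the hyperbolic volume
-/

set_option autoImplicit false

namespace Pool.Agent.H204.CS.P_H3UNIF

open MeasureTheory Pool.Agent.H204.CS

lemma cont_exp1 : Continuous fun x : ℝ × ℂ => Real.exp x.1 :=
  Real.continuous_exp.comp continuous_fst

lemma fin_compact : IsFiniteMeasureOnCompacts vol1 := by
  unfold vol1
  have := IsLocallyFiniteMeasure.withDensity_ofReal (μ := (volume : Measure (ℝ × ℂ))) cont_exp1
  infer_instance

lemma open_pos : vol1.IsOpenPosMeasure := by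
  unfold vol1
  refine Measure.AbsolutelyContinuous.isOpenPosMeasure (μ := (volume : Measure (ℝ × ℂ))) ?_
  refine withDensity_absolutelyContinuous' ?_ ?_
  · exact cont_exp1.measurable.ennreal_ofReal.aemeasurable
  · refine Filter.Eventually.of_forall fun x => ?_
    exact (ENNReal.ofReal_pos.2 (Real.exp_pos _)).ne'

lemma meas_arcosh : Measurable Real.arcosh := by
  unfold Real.arcosh
  exact (measurable_id.add ((measurable_id.pow_const 2).sub_const 1).sqrt).log

lemma smul_lint (G : ℂ → ENNReal) (hG : Measurable G) (r : ℝ) (hr : 0 < r) (c : ℂ) :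
    ∫⁻ w, G ((r : ℂ) * w - c) = ENNReal.ofReal (r ^ 2)⁻¹ * ∫⁻ w, G w := by
  have h1 : ∫⁻ w, G ((r : ℂ) * w - c) =
      ∫⁻ w, G (w - c) ∂(Measure.map (r • ·) (volume : Measure ℂ)) := by
    have hG' : Measurable fun w : ℂ => G (w - c) := hG.comp (measurable_id.sub_const c)
    rw [lintegral_map hG' (measurable_const_smul r)]
    refine lintegral_congr fun w => ?_
    rw [Complex.real_smul]
  rw [h1, Measure.map_addHaar_smul _ hr.ne', lintegral_smul_measure, smul_eq_mul,
    lintegral_sub_right_eq_self, Complex.finrank_real_complex, abs_of_pos (by positivity)]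

lemma key (F : ℝ → ENNReal) (hF : Measurable F) (x : ℝ × ℂ) :
    ∫⁻ z, F (d1 x z) ∂vol1 = ∫⁻ t : ℝ, ENNReal.ofReal (Real.exp t) *
      ∫⁻ w : ℂ, F (Real.arcosh (Real.cosh t + Complex.normSq w / 2)) := by
  set G : ℝ → ℂ → ENNReal := fun t w => F (Real.arcosh (Real.cosh t + Complex.normSq w / 2))
    with hGd
  have hnS : Measurable fun w : ℂ => Complex.normSq w := Complex.continuous_normSq.measurable
  have hG : ∀ t, Measurable (G t) := fun t =>
    hF.comp (meas_arcosh.comp (measurable_const.add (hnS.div_const 2)))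
  have hd : Measurable fun z : ℝ × ℂ => F (d1 x z) := by
    refine hF.comp (meas_arcosh.comp ?_)
    have h2 : Continuous fun z : ℝ × ℂ => Real.cosh (z.1 - x.1) + Complex.normSq
        ((Real.exp (x.1 / 2) : ℂ) * z.2 - (Real.exp (z.1 / 2) : ℂ) * x.2) / 2 := by
      refine (Real.continuous_cosh.comp (continuous_fst.sub continuous_const)).add
        ((Complex.continuous_normSq.comp ?_).div_const 2)
      refine (continuous_const.mul continuous_snd).sub (Continuous.mul ?_ continuous_const)
      exact Complex.continuous_ofReal.comp (Real.continuous_exp.comp (continuous_fst.div_const 2))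
    exact h2.measurable
  have hm : Measurable fun z : ℝ × ℂ => ENNReal.ofReal (Real.exp z.1) :=
    cont_exp1.measurable.ennreal_ofReal
  unfold vol1
  rw [lintegral_withDensity_eq_lintegral_mul _ hm hd]
  simp only [Pi.mul_apply]
  have hmd : Measurable fun z : ℝ × ℂ => ENNReal.ofReal (Real.exp z.1) * F (d1 x z) := hm.mul hd
  rw [Measure.volume_eq_prod, lintegral_prod _ hmd.aemeasurable]
  have h3 : ∀ t : ℝ, ∫⁻ w : ℂ, ENNReal.ofReal (Real.exp t) * F (d1 x (t, w)) =
      ENNReal.ofReal (Real.exp (t - x.1)) * ∫⁻ w, G (t - x.1) w := by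
    intro t
    have hd' : Measurable fun w : ℂ => F (d1 x (t, w)) := hd.comp measurable_prodMk_left
    rw [lintegral_const_mul _ hd']
    have h4 : ∫⁻ w : ℂ, F (d1 x (t, w)) = ENNReal.ofReal ((Real.exp (x.1 / 2)) ^ 2)⁻¹ *
        ∫⁻ w, G (t - x.1) w := by
      rw [← smul_lint (G (t - x.1)) (hG _) (Real.exp (x.1 / 2)) (Real.exp_pos _)
        ((Real.exp (t / 2) : ℂ) * x.2)]
      rfl
    rw [h4, ← mul_assoc, ← ENNReal.ofReal_mul (Real.exp_pos _).le]
    congr 2
    rw [← Real.exp_nat_mul, ← Real.exp_neg, ← Real.exp_add]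
    congr 1
    push_cast
    ring
  simp only [h3]
  exact lintegral_sub_right_eq_self
    (fun t : ℝ => ENNReal.ofReal (Real.exp t) * ∫⁻ w, G t w) x.1

theorem main : S_H3UNIF := by
  refine ⟨fin_compact, open_pos, ?_⟩
  intro F hF x y
  rw [key F hF x, key F hF y]

end Pool.Agent.H204.CS.P_H3UNIF
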