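import Pool.Agent.H204.CS.Stm

/-!
# Project CS, task HAAR: `U(2)` is compact and carries a bi-invariant probability measure
-/

set_option autoImplicit false

namespace Pool.Agent.H204.CS.P_HAAR

open MeasureTheory Topology Matrix Pool.Agent.H204.CS

instance : SecondCountableTopology (Matrix (Fin 2) (Fin 2) ℂ) :=
  inferInstanceAs (SecondCountableTopology (Fin 2 → Fin 2 → ℂ))

theorem compact_U : CompactSpace U := by
  refine (isCompact_iff_compactSpace (s := (unitary (Matrix (Fin 2) (Fin 2) ℂ) : Set (Matrix (Fin 2) (Fin 2) ℂ)))).mp ?_
  have h1 : IsCompact (Set.pi Set.univ fun _ : Fin 2 => Set.pi Set.univ fun _ : Fin 2 =>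
      Metric.closedBall (0 : ℂ) 1) :=
    isCompact_univ_pi fun _ => isCompact_univ_pi fun _ => isCompact_closedBall 0 1
  refine IsCompact.of_isClosed_subset h1 (isClosed_unitary (R := Matrix (Fin 2) (Fin 2) ℂ)) ?_
  intro A hA i _ j _
  rw [mem_closedBall_zero_iff]
  exact entry_norm_bound_of_unitary hA i j

theorem second_U : SecondCountableTopology U :=
  TopologicalSpace.Subtype.secondCountableTopology _

theorem main : S_HAAR := by
  refine ⟨compact_U, second_U, ?_⟩
  have := compact_U
  have := second_U
  have htg : IsTopologicalGroup U := inferInstanceAs (IsTopologicalGroup (unitary (Matrix (Fin 2) (Fin 2) ℂ)))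
  let m : Measure U := Measure.haarMeasure (⊤ : TopologicalSpace.PositiveCompacts U)
  have hp : IsProbabilityMeasure m := ⟨by
    have := Measure.haarMeasure_self (K₀ := (⊤ : TopologicalSpace.PositiveCompacts U))
    simpa using this⟩
  refine ⟨m, hp, inferInstance, ?_, ?_⟩
  · intro g F _
    exact lintegral_mul_left_eq_self F g
  · intro g F hF
    have hmeas : Measurable (fun k : U => k * g) := (continuous_mul_const g).measurable
    have hH : (m.map (fun k : U => k * g)).IsHaarMeasure := inferInstance
    have hP : IsProbabilityMeasure (m.map (fun k : U => k * g)) :=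
      Measure.isProbabilityMeasure_map hmeas.aemeasurable
    have he : m.map (fun k : U => k * g) = m := Measure.isHaarMeasure_eq_of_isProbabilityMeasure _ _
    conv_rhs => rw [← he]
    rw [lintegral_map hF hmeas]

end Pool.Agent.H204.CS.P_HAAR
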