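import Pool.Agent.H204.CS.Stm

/-! HALF (project CS of helper204). -/

set_option autoImplicit false

namespace Pool.Agent.H204.CS.P_HALF

open MeasureTheory Topology Filter Pool.Agent.V1135.CAS

theorem d_self {X Ω : Type} [TopologicalSpace X] [TopologicalSpace Ω] [Nonempty Ω]
    {act : X → ℝ → Ω → X} {d : X → X → ℝ} (g : Geo act d) (x : X) : d x x = 0 := by
  obtain ⟨a⟩ := (inferInstance : Nonempty Ω)
  have h1 := g.d_act x 0 a le_rfl
  have h2 := g.d_eq _ _ h1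
  rwa [← h2] at h1

/-- the two cases -/
theorem srt_cases {a b : ℝ} (ha : 0 ≤ a) (hb : 0 ≤ b) {h : D} (hab : srt a b = h) :
    (a = h.1.1 ∧ b = h.1.2) ∨ (a = h.1.2 ∧ b = h.1.1) := by
  rw [← hab]
  simp only [srt, abs_of_nonneg ha, abs_of_nonneg hb]
  rcases le_total a b with hle | hle
  · right
    rw [min_eq_left hle, max_eq_right hle]
    exact ⟨rfl, rfl⟩
  · left
    rw [min_eq_right hle, max_eq_left hle]
    exact ⟨rfl, rfl⟩

theorem srt_comm (a b : ℝ) : srt a b = srt b a := by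
  unfold srt
  apply Subtype.ext
  simp only [max_comm |a| |b|, min_comm |a| |b|]

theorem srt_fst {a b : ℝ} (hb : 0 ≤ b) (hba : b ≤ a) : (srt a b).1.1 = a := by
  simp only [srt, abs_of_nonneg hb, abs_of_nonneg (hb.trans hba), max_eq_left hba]

theorem srt_snd {a b : ℝ} (hb : 0 ≤ b) (hba : b ≤ a) : (srt a b).1.2 = b := by
  simp only [srt, abs_of_nonneg hb, abs_of_nonneg (hb.trans hba), min_eq_right hba]

/-- the test function -/
noncomputable def tf (r s : ℝ) (h : D) : ℝ :=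
  max 0 (min 1 ((r - h.1.2) / (r - s))) * max 0 (min 1 (3 * r + 2 - h.1.1))

theorem tf_cont (r s : ℝ) : Continuous (tf r s) := by
  unfold tf
  fun_prop

theorem tf_supp (r s : ℝ) : HasCompactSupport (tf r s) := by
  have hc : IsCompact (Subtype.val ⁻¹' (Set.Icc (0 : ℝ) (3 * r + 2) ×ˢ Set.Icc (0 : ℝ) (3 * r + 2)) :
      Set D) :=
    isClosed_D.isClosedEmbedding_subtypeVal.isCompact_preimage (isCompact_Icc.prod isCompact_Icc)
  refine HasCompactSupport.intro hc ?_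
  intro h hh
  unfold tf
  by_cases hle : h.1.1 ≤ 3 * r + 2
  · exfalso
    apply hh
    have h1 := h.2
    exact ⟨⟨h1.1.trans h1.2, hle⟩, ⟨h1.1, h1.2.trans hle⟩⟩
  · push Not at hle
    have : max 0 (min 1 (3 * r + 2 - h.1.1)) = 0 := by
      apply max_eq_left
      exact (min_le_right _ _).trans (by linarith)
    rw [this, mul_zero]

theorem tf_one {r s u v : ℝ} (hs : 0 ≤ s) (hsr : s < r) (hu : s ≤ u) (hu2 : u ≤ 3 * r + 1)
    (hv : v = s) : tf r s (srt u v) = 1 := by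
  subst hv
  unfold tf
  rw [srt_fst hs hu, srt_snd hs hu, div_self (by linarith), min_self, max_eq_right zero_le_one,
    min_eq_left (by linarith), max_eq_right zero_le_one, one_mul]

theorem tf_zero {r s u v : ℝ} (hr : 0 ≤ r) (hu : r ≤ u) (hv : v = r) :
    tf r s (srt u v) = 0 := by
  subst hv
  unfold tf
  rw [srt_snd hr hu, sub_self, zero_div, min_eq_right zero_le_one, max_self, zero_mul]

theorem main : S_HALF := by
  intro X₀ X₁ Ω _ _ _ _ _ _ _ _ _ _ _ _ _ hΩ act₀ act₁ d₀ d₁ g₀ g₁ C hπ hT x h hlt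
  obtain ⟨a⟩ := hΩ
  have hΩ' : Nonempty Ω := ⟨a⟩
  obtain ⟨x₀, x₁⟩ := x
  set r := h.1.1 with hr
  set s := h.1.2 with hs
  have hs0 : 0 ≤ s := h.2.1
  have hr0 : 0 < r := hs0.trans_lt hlt
  set k := 2 * r + 1 with hk
  have hk0 : 0 ≤ k := by positivity
  set yA : X₀ := act₀ x₀ k a with hyA
  set yB : X₁ := act₁ x₁ k a with hyB
  have hdA : d₀ x₀ yA = k := g₀.d_act x₀ k a hk0
  have hdB : d₁ x₁ yB = k := g₁.d_act x₁ k a hk0
  obtain ⟨n, hn⟩ := hT h (tf r s) (tf_cont r s) (tf_supp r s)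
  have e1 := hn (x₀, x₁) (yA, x₁)
  have e2 := hn (x₀, x₁) (x₀, yB)
  have e3 : C.π (x₀, x₁) (yA, x₁) = C.π (x₀, x₁) (x₀, yB) := by
    rw [hπ, hπ]
    unfold pim
    simp only
    rw [hdA, hdB, d_self g₀, d_self g₁, srt_comm]
  rw [e3, ← e2] at e1
  have hprob := C.prob (x₀, x₁) h
  set S : Set (X₀ × X₁) := {y | d₁ x₁ y.2 < d₀ x₀ y.1} with hS
  have hSo : IsOpen S := by
    refine isOpen_lt ?_ ?_
    · exact g₁.d_cont.comp (continuous_const.prodMk continuous_snd)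
    · exact g₀.d_cont.comp (continuous_const.prodMk continuous_fst)
  have hSm : MeasurableSet S := hSo.measurableSet
  have cases : ∀ z ∈ (C.K (x₀, x₁) h).support,
      (d₀ x₀ z.1 = r ∧ d₁ x₁ z.2 = s) ∨ (d₀ x₀ z.1 = s ∧ d₁ x₁ z.2 = r) := by
    intro z hz
    rw [C.mem_supp, hπ] at hz
    exact srt_cases (g₀.d_nonneg _ _) (g₁.d_nonneg _ _) hz
  have e4 : ∫ z, tf r s (C.π (yA, x₁) z) ∂(C.K (x₀, x₁) h) =
      ∫ z, S.indicator (fun _ => (1 : ℝ)) z ∂(C.K (x₀, x₁) h) := by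
    apply integral_congr_supp
    intro z hz
    rw [hπ]
    unfold pim
    simp only
    have t1 := g₀.d_tri x₀ yA z.1
    have t2 := g₀.d_tri yA x₀ z.1
    have t3 := g₀.d_tri x₀ z.1 yA
    have t4 := g₀.d_symm yA x₀
    have t5 := g₀.d_symm z.1 yA
    rcases cases z hz with ⟨c1, c2⟩ | ⟨c1, c2⟩
    · rw [Set.indicator_of_mem (by change d₁ x₁ z.2 < d₀ x₀ z.1; rw [c1, c2]; exact hlt)]
      exact tf_one hs0 hlt (by linarith) (by linarith) c2
    · rw [Set.indicator_of_notMem (by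
        change ¬ d₁ x₁ z.2 < d₀ x₀ z.1
        rw [c1, c2]
        exact not_lt.2 hlt.le)]
      exact tf_zero hr0.le (by linarith) c2
  have e5 : ∫ z, tf r s (C.π (x₀, yB) z) ∂(C.K (x₀, x₁) h) =
      ∫ z, Sᶜ.indicator (fun _ => (1 : ℝ)) z ∂(C.K (x₀, x₁) h) := by
    apply integral_congr_supp
    intro z hz
    rw [hπ]
    unfold pim
    simp only
    rw [srt_comm]
    have t1 := g₁.d_tri x₁ yB z.2
    have t2 := g₁.d_tri yB x₁ z.2
    have t3 := g₁.d_tri x₁ z.2 yB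
    have t4 := g₁.d_symm yB x₁
    have t5 := g₁.d_symm z.2 yB
    rcases cases z hz with ⟨c1, c2⟩ | ⟨c1, c2⟩
    · rw [Set.indicator_of_notMem (by
        change ¬ ¬ d₁ x₁ z.2 < d₀ x₀ z.1
        rw [c1, c2, not_not]
        exact hlt)]
      exact tf_zero hr0.le (by linarith) c1
    · rw [Set.indicator_of_mem (by
        change ¬ d₁ x₁ z.2 < d₀ x₀ z.1
        rw [c1, c2]
        exact not_lt.2 hlt.le)]
      exact tf_one hs0 hlt (by linarith) (by linarith) c1
  rw [e4, e5, integral_indicator_const _ hSm, integral_indicator_const _ hSm.compl,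
    probReal_compl_eq_one_sub hSm, smul_eq_mul, smul_eq_mul, mul_one, mul_one] at e1
  have e6 : (C.K (x₀, x₁) h).real S = 2⁻¹ := by linarith
  have e7 : C.K (x₀, x₁) h S = ENNReal.ofReal ((C.K (x₀, x₁) h).real S) := by
    rw [ofReal_measureReal]
  change C.K (x₀, x₁) h S = 2⁻¹
  rw [e7, e6, ENNReal.ofReal_inv_of_pos (by norm_num)]
  norm_num

end Pool.Agent.H204.CS.P_HALF
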