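import Pool.Agent.H204.CS.Stm

/-! HOPF: algebra of `n(k) = (zt k, xi k)` (helper860) -/

set_option autoImplicit false

namespace Pool.Agent.H204.CS.P_HOPF

open Matrix Complex

theorem rels (k : U) :
    (k.1 0 0 * starRingEnd ℂ (k.1 0 0) + k.1 0 1 * starRingEnd ℂ (k.1 0 1) = 1) ∧
    (k.1 0 0 * starRingEnd ℂ (k.1 1 0) + k.1 0 1 * starRingEnd ℂ (k.1 1 1) = 0) ∧
    (k.1 1 0 * starRingEnd ℂ (k.1 0 0) + k.1 1 1 * starRingEnd ℂ (k.1 0 1) = 0) ∧
    (k.1 1 0 * starRingEnd ℂ (k.1 1 0) + k.1 1 1 * starRingEnd ℂ (k.1 1 1) = 1) ∧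
    (starRingEnd ℂ (k.1 0 0) * k.1 0 0 + starRingEnd ℂ (k.1 1 0) * k.1 1 0 = 1) := by
  have h := Matrix.mem_unitaryGroup_iff.1 k.2
  have h' := Matrix.mem_unitaryGroup_iff'.1 k.2
  rw [Matrix.star_eq_conjTranspose] at h h'
  have h00 := congrFun (congrFun h 0) 0
  have h01 := congrFun (congrFun h 0) 1
  have h10 := congrFun (congrFun h 1) 0
  have h11 := congrFun (congrFun h 1) 1
  have h00' := congrFun (congrFun h' 0) 0
  simp only [Matrix.mul_apply, Fin.sum_univ_two, Matrix.conjTranspose_apply, Matrix.one_apply_eq,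
    RCLike.star_def] at h00 h11 h00'
  simp only [Matrix.mul_apply, Fin.sum_univ_two, Matrix.conjTranspose_apply, RCLike.star_def,
    Matrix.one_apply_ne (show (0 : Fin 2) ≠ 1 by decide),
    Matrix.one_apply_ne (show (1 : Fin 2) ≠ 0 by decide)] at h01 h10
  exact ⟨h00, h01, h10, h11, h00'⟩

theorem zt_coe (k : U) : ((zt k : ℝ) : ℂ) = 2 * (k.1 0 0 * starRingEnd ℂ (k.1 0 0)) - 1 := by
  unfold zt
  rw [Complex.mul_conj]
  push_cast
  ring

theorem one (k : U) : zt k ^ 2 + Complex.normSq (xi k) = 1 := by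
  obtain ⟨-, -, -, -, h⟩ := rels k
  have h1 : Complex.normSq (k.1 0 0) + Complex.normSq (k.1 1 0) = 1 := by
    rw [mul_comm, Complex.mul_conj, mul_comm (starRingEnd ℂ (k.1 1 0)), Complex.mul_conj] at h
    exact_mod_cast h
  unfold zt xi
  rw [Complex.normSq_mul, Complex.normSq_mul, Complex.normSq_conj]
  have h2 : Complex.normSq 2 = 4 := by
    rw [show (2 : ℂ) = ((2 : ℝ) : ℂ) by norm_num, Complex.normSq_ofReal]; norm_num
  rw [h2]
  have h3 : Complex.normSq (k.1 1 0) = 1 - Complex.normSq (k.1 0 0) := by linarith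
  rw [h3]
  ring

theorem three (k : U) : k.1 * !![1, 0; 0, -1] * k.1ᴴ =
    !![(zt k : ℂ), xi k; starRingEnd ℂ (xi k), -(zt k : ℂ)] := by
  obtain ⟨h1, h2, h3, h4, h5⟩ := rels k
  ext i j
  fin_cases i <;> fin_cases j <;>
    simp only [Matrix.mul_apply, Fin.sum_univ_two, Matrix.conjTranspose_apply, RCLike.star_def,
      Fin.zero_eta, Fin.mk_one, Matrix.of_apply, Matrix.cons_val', Matrix.cons_val_zero,
      Matrix.cons_val_one, Matrix.cons_val_fin_one, Fin.isValue, mul_zero, mul_one, add_zero,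
      zero_add, mul_neg, neg_mul, zt_coe, xi, map_mul, Complex.conj_conj, map_ofNat]
  · linear_combination -h1
  · linear_combination -h2
  · linear_combination -h3
  · linear_combination -h4 + 2 * h5

theorem two (ζ : ℝ) (ξ : ℂ) (h : ζ ^ 2 + Complex.normSq ξ = 1) :
    ∃ k : U, zt k = ζ ∧ xi k = ξ := by
  have hn := Complex.normSq_nonneg ξ
  by_cases hζ : ζ = -1
  · have h0 : ξ = 0 := by
      rw [← Complex.normSq_eq_zero]
      rw [hζ] at h
      linarith
    refine ⟨⟨!![0, 1; 1, 0], ?_⟩, ?_, ?_⟩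
    · rw [Matrix.mem_unitaryGroup_iff, Matrix.star_eq_conjTranspose]
      ext i j
      fin_cases i <;> fin_cases j <;> simp [Matrix.mul_apply, Fin.sum_univ_two]
    · simp [zt, hζ]
    · simp [xi, h0]
  · have h1 : -1 < ζ := by
      have : -1 ≤ ζ := by nlinarith
      exact lt_of_le_of_ne this (Ne.symm hζ)
    set α : ℝ := Real.sqrt ((1 + ζ) / 2) with hα
    have hα0 : 0 < α := Real.sqrt_pos.2 (by linarith)
    have hα2 : α ^ 2 = (1 + ζ) / 2 := Real.sq_sqrt (by linarith)
    have hαc : ((α : ℝ) : ℂ) ≠ 0 := by exact_mod_cast hα0.ne'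
    have hα2c : ((α : ℝ) : ℂ) ^ 2 = (1 + (ζ : ℂ)) / 2 := by exact_mod_cast hα2
    set β : ℂ := starRingEnd ℂ ξ / (2 * (α : ℂ)) with hβ
    have hβc : starRingEnd ℂ β = ξ / (2 * (α : ℂ)) := by
      rw [hβ, map_div₀, Complex.conj_conj, map_mul, Complex.conj_ofReal, map_ofNat]
    have hξ : ξ * starRingEnd ℂ ξ = 1 - (ζ : ℂ) ^ 2 := by
      rw [Complex.mul_conj]
      have : Complex.normSq ξ = 1 - ζ ^ 2 := by linarith
      rw [this]; push_cast; ring
    have hββ : β * starRingEnd ℂ β = (1 - (ζ : ℂ)) / 2 := by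
      rw [hβc, hβ]
      have h1ζ : (1 + (ζ : ℂ)) ≠ 0 := by
        have : (1 + ζ : ℝ) ≠ 0 := by linarith
        exact_mod_cast this
      have e : starRingEnd ℂ ξ / (2 * (α : ℂ)) * (ξ / (2 * (α : ℂ))) =
          (ξ * starRingEnd ℂ ξ) / (4 * (α : ℂ) ^ 2) := by
        field_simp
        ring
      rw [e, hξ, hα2c]
      field_simp
      ring
    refine ⟨⟨!![(α : ℂ), -starRingEnd ℂ β; β, (α : ℂ)], ?_⟩, ?_, ?_⟩
    · rw [Matrix.mem_unitaryGroup_iff, Matrix.star_eq_conjTranspose]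
      ext i j
      fin_cases i <;> fin_cases j <;>
        simp only [Matrix.mul_apply, Fin.sum_univ_two, Matrix.conjTranspose_apply, RCLike.star_def,
          Fin.zero_eta, Fin.mk_one, Matrix.of_apply, Matrix.cons_val', Matrix.cons_val_zero,
          Matrix.cons_val_one, Matrix.cons_val_fin_one, Fin.isValue, map_neg, Complex.conj_conj,
          Complex.conj_ofReal, Matrix.one_apply_eq]
      · linear_combination hα2c + hββ
      · change _ = (1 : Matrix (Fin 2) (Fin 2) ℂ) 0 1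
        rw [Matrix.one_apply_ne (by decide)]
        ring
      · change _ = (1 : Matrix (Fin 2) (Fin 2) ℂ) 1 0
        rw [Matrix.one_apply_ne (by decide)]
        ring
      · linear_combination hα2c + hββ
    · simp only [zt, Matrix.of_apply, Matrix.cons_val', Matrix.cons_val_zero,
        Matrix.cons_val_fin_one, Fin.isValue, Complex.normSq_ofReal]
      linear_combination 2 * hα2
    · simp only [xi, Matrix.of_apply, Matrix.cons_val', Matrix.cons_val_zero, Matrix.cons_val_one,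
        Matrix.cons_val_fin_one, Fin.isValue]
      rw [hβc]
      field_simp

theorem main : S_HOPF := ⟨one, two, three⟩

end Pool.Agent.H204.CS.P_HOPF
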