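import Pool.Agent.H204.CS.Stm

/-!
# Project CS: composition of the kernels
-/

set_option autoImplicit false

namespace Pool.Agent.H204.CS.P_KCOMP

open MeasureTheory Topology Pool.Agent.V1135.CAS

theorem prm_lint {P Y Ω : Type} [MeasurableSpace Y] [MeasurableSpace Ω] (m : Measure Ω)
    (w : P → Ω → ℝ) (φ : P → Ω → Y) (p : P) (hw : Measurable (w p)) (hφ : Measurable (φ p))
    {F : Y → ENNReal} (hF : Measurable F) :
    ∫⁻ y, F y ∂(prm m w φ p) = ∫⁻ a, ENNReal.ofReal (w p a) * F (φ p a) ∂m := by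
  unfold prm
  have hFφ : Measurable fun a => F (φ p a) := hF.comp hφ
  rw [lintegral_map hF hφ, lintegral_withDensity_eq_lintegral_mul _ hw.ennreal_ofReal hFφ]
  rfl

section

variable {X₀ X₁ Ω : Type}
  [TopologicalSpace X₀] [T2Space X₀] [LocallyCompactSpace X₀] [SecondCountableTopology X₀]
  [MeasurableSpace X₀] [BorelSpace X₀]
  [TopologicalSpace X₁] [T2Space X₁] [LocallyCompactSpace X₁] [SecondCountableTopology X₁]
  [MeasurableSpace X₁] [BorelSpace X₁]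
  [TopologicalSpace Ω] [T2Space Ω] [CompactSpace Ω] [SecondCountableTopology Ω]
  [MeasurableSpace Ω] [BorelSpace Ω]
  (m : Measure Ω) [IsProbabilityMeasure m]
  (act₀ : X₀ → ℝ → Ω → X₀) (act₁ : X₁ → ℝ → Ω → X₁) (w₀ w₁ : ℝ → ℝ)

/-- the mean over the product of two spheres -/
noncomputable def A (F : X₀ × X₁ → ENNReal) (x : X₀ × X₁) (r s : ℝ) : ENNReal :=
  ∫⁻ a, ∫⁻ b, F (act₀ x.1 r a, act₁ x.2 s b) ∂m ∂m

/-- the symmetric combination -/
noncomputable def B (F : X₀ × X₁ → ENNReal) (x : X₀ × X₁) (r s : ℝ) : ENNReal :=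
  ENNReal.ofReal (w₀ r * w₁ s) * A m act₀ act₁ F x r s +
    ENNReal.ofReal (w₀ s * w₁ r) * A m act₀ act₁ F x s r

omit [TopologicalSpace X₀] [T2Space X₀] [LocallyCompactSpace X₀] [SecondCountableTopology X₀]
  [BorelSpace X₀] [TopologicalSpace X₁] [T2Space X₁] [LocallyCompactSpace X₁]
  [SecondCountableTopology X₁] [BorelSpace X₁] [TopologicalSpace Ω] [T2Space Ω] [CompactSpace Ω]
  [SecondCountableTopology Ω] [BorelSpace Ω] [IsProbabilityMeasure m] [MeasurableSpace X₀]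
  [MeasurableSpace X₁] in
theorem B_symm (F : X₀ × X₁ → ENNReal) (x : X₀ × X₁) (r s : ℝ) :
    B m act₀ act₁ w₀ w₁ F x r s = B m act₀ act₁ w₀ w₁ F x s r := by
  unfold B
  rw [add_comm]

variable {act₀ act₁ w₀ w₁}
variable (ha₀ : Measurable fun p : X₀ × ℝ × Ω => act₀ p.1 p.2.1 p.2.2)
  (ha₁ : Measurable fun p : X₁ × ℝ × Ω => act₁ p.1 p.2.1 p.2.2)

include ha₀ ha₁

omit [TopologicalSpace X₀] [T2Space X₀] [LocallyCompactSpace X₀] [SecondCountableTopology X₀]
  [BorelSpace X₀] [TopologicalSpace X₁] [T2Space X₁] [LocallyCompactSpace X₁]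
  [SecondCountableTopology X₁] [BorelSpace X₁] [TopologicalSpace Ω] [T2Space Ω] [CompactSpace Ω]
  [SecondCountableTopology Ω] [BorelSpace Ω] in
/-- measurability of `A` in all variables -/
theorem meas_A {F : X₀ × X₁ → ENNReal} (hF : Measurable F) :
    Measurable fun p : (X₀ × X₁) × ℝ × ℝ => A m act₀ act₁ F p.1 p.2.1 p.2.2 := by
  unfold A
  refine Measurable.lintegral_prod_right'
    (f := fun q : ((X₀ × X₁) × ℝ × ℝ) × Ω =>
      ∫⁻ b, F (act₀ q.1.1.1 q.1.2.1 q.2, act₁ q.1.1.2 q.1.2.2 b) ∂m) ?_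
  refine Measurable.lintegral_prod_right'
    (f := fun q : (((X₀ × X₁) × ℝ × ℝ) × Ω) × Ω =>
      F (act₀ q.1.1.1.1 q.1.1.2.1 q.1.2, act₁ q.1.1.1.2 q.1.1.2.2 q.2)) ?_
  refine hF.comp (Measurable.prodMk ?_ ?_)
  · exact ha₀.comp (by fun_prop :
      Measurable fun q : (((X₀ × X₁) × ℝ × ℝ) × Ω) × Ω => (q.1.1.1.1, q.1.1.2.1, q.1.2))
  · exact ha₁.comp (by fun_prop :
      Measurable fun q : (((X₀ × X₁) × ℝ × ℝ) × Ω) × Ω => (q.1.1.1.2, q.1.1.2.2, q.2))

omit [TopologicalSpace X₀] [T2Space X₀] [LocallyCompactSpace X₀] [SecondCountableTopology X₀]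
  [BorelSpace X₀] [TopologicalSpace X₁] [T2Space X₁] [LocallyCompactSpace X₁]
  [SecondCountableTopology X₁] [BorelSpace X₁] [TopologicalSpace Ω] [T2Space Ω] [CompactSpace Ω]
  [SecondCountableTopology Ω] [BorelSpace Ω] in
/-- the integral of a function against the kernel -/
theorem KK_lint (hw₀ : ∀ r, 0 < w₀ r) (hw₁ : ∀ r, 0 < w₁ r) {F : X₀ × X₁ → ENNReal}
    (hF : Measurable F) (x : X₀ × X₁) (h : D) :
    ∫⁻ y, F y ∂(KK m act₀ act₁ w₀ w₁ x h) =
      ENNReal.ofReal (1 / sW w₀ w₁ h) * B m act₀ act₁ w₀ w₁ F x h.1.1 h.1.2 := by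
  have hA : ∀ r s : ℝ, Measurable fun a : Ω × Ω => ((act₀ x.1 r a.1, act₁ x.2 s a.2) : X₀ × X₁) := by
    intro r s
    refine Measurable.prodMk ?_ ?_
    · exact ha₀.comp (by fun_prop : Measurable fun a : Ω × Ω => (x.1, r, a.1))
    · exact ha₁.comp (by fun_prop : Measurable fun a : Ω × Ω => (x.2, s, a.2))
  have key : ∀ (r s c : ℝ), 0 ≤ c → ∫⁻ a, ENNReal.ofReal c *
      F (act₀ x.1 r a.1, act₁ x.2 s a.2) ∂(m.prod m) = ENNReal.ofReal c * A m act₀ act₁ F x r s := by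
    intro r s c _
    have hm : Measurable fun a : Ω × Ω => F (act₀ x.1 r a.1, act₁ x.2 s a.2) := hF.comp (hA r s)
    rw [lintegral_const_mul _ hm]
    congr 1
    unfold A
    rw [lintegral_prod (fun a : Ω × Ω => F (act₀ x.1 r a.1, act₁ x.2 s a.2)) hm.aemeasurable]
  have hs : 0 < sW w₀ w₁ h := by
    unfold sW
    have := hw₀ h.1.1
    have := hw₀ h.1.2
    have := hw₁ h.1.1
    have := hw₁ h.1.2
    positivity
  have hp1 : 0 ≤ w₀ h.1.1 * w₁ h.1.2 := (mul_pos (hw₀ _) (hw₁ _)).le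
  have hp2 : 0 ≤ w₀ h.1.2 * w₁ h.1.1 := (mul_pos (hw₀ _) (hw₁ _)).le
  unfold KK
  rw [lintegral_add_measure, prm_lint _ _ _ _ measurable_const (hA h.1.1 h.1.2) hF,
    prm_lint _ _ _ _ measurable_const (hA h.1.2 h.1.1) hF]
  simp only
  rw [key _ _ _ (by positivity), key _ _ _ (by positivity)]
  unfold B
  rw [mul_add, ← mul_assoc, ← mul_assoc, ← ENNReal.ofReal_mul (by positivity),
    ← ENNReal.ofReal_mul (by positivity)]
  congr 3 <;> ring

omit [T2Space X₀] [LocallyCompactSpace X₀] [SecondCountableTopology X₀] [BorelSpace X₀]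
  [T2Space X₁] [LocallyCompactSpace X₁] [SecondCountableTopology X₁] [BorelSpace X₁] [T2Space Ω]
  [CompactSpace Ω] [SecondCountableTopology Ω] [BorelSpace Ω] in
/-- the product formula for `A` -/
theorem A_comp (_ : Continuous w₀) (hw₁c : Continuous w₁) (hw₀ : ∀ r, 0 < w₀ r)
    (hw₁ : ∀ r, 0 < w₁ r) (c₀ : Comp m act₀ w₀) (c₁ : Comp m act₁ w₁)
    {F : X₀ × X₁ → ENNReal} (hF : Measurable F) (x : X₀ × X₁) {r s r' s' : ℝ} (hr : 0 ≤ r)
    (hs : 0 ≤ s) (hr' : 0 ≤ r') (hs' : 0 ≤ s') :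
    ENNReal.ofReal (w₀ r * w₁ s) * (ENNReal.ofReal (w₀ r' * w₁ s') *
      A m act₀ act₁ (fun y => A m act₀ act₁ F y r' s') x r s) =
    ∫⁻ z, ∫⁻ z', ENNReal.ofReal (w₀ (ut r r' z) * w₁ (ut s s' z')) *
      A m act₀ act₁ F x (ut r r' z) (ut s s' z') ∂uni ∂uni := by
  have hSF : SFinite uni := by unfold uni; infer_instance
  have hut : ∀ r t : ℝ, Measurable (ut r t) := by
    intro r t
    unfold ut
    fun_prop
  -- the inner function
  set R₁ : X₀ → ENNReal := fun p => ∫⁻ z', ENNReal.ofReal (w₁ (ut s s' z')) *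
    (∫⁻ b, F (p, act₁ x.2 (ut s s' z') b) ∂m) ∂uni with hR₁
  have hin : Measurable fun q : X₀ × ℝ => ∫⁻ b, F (q.1, act₁ x.2 (ut s s' q.2) b) ∂m := by
    refine Measurable.lintegral_prod_right'
      (f := fun q : (X₀ × ℝ) × Ω => F (q.1.1, act₁ x.2 (ut s s' q.1.2) q.2)) ?_
    refine hF.comp (Measurable.prodMk (by fun_prop) ?_)
    exact ha₁.comp (Measurable.prodMk measurable_const (Measurable.prodMk
      ((hut s s').comp (by fun_prop)) (by fun_prop)))
  have hin2 : Measurable fun q : X₀ × ℝ => ENNReal.ofReal (w₁ (ut s s' q.2)) *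
      ∫⁻ b, F (q.1, act₁ x.2 (ut s s' q.2) b) ∂m :=
    ((hw₁c.measurable.comp ((hut s s').comp measurable_snd)).ennreal_ofReal).mul hin
  have hR₁m : Measurable R₁ := Measurable.lintegral_prod_right' hin2
  have e1 : ∀ p : X₀, ENNReal.ofReal (w₁ s * w₁ s') *
      ∫⁻ b, ∫⁻ b', F (p, act₁ (act₁ x.2 s b) s' b') ∂m ∂m = R₁ p := by
    intro p
    exact c₁ (fun c => F (p, c)) (hF.comp (by fun_prop)) x.2 s s' hs hs'
  have e2 := c₀ R₁ hR₁m x.1 r r' hr hr'
  -- left side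
  have hM1 : Measurable fun q : (Ω × Ω) × Ω × Ω =>
      F (act₀ (act₀ x.1 r q.1.1) r' q.1.2, act₁ (act₁ x.2 s q.2.1) s' q.2.2) := by
    refine hF.comp (Measurable.prodMk ?_ ?_)
    · exact ha₀.comp (Measurable.prodMk (ha₀.comp (Measurable.prodMk measurable_const
        (Measurable.prodMk measurable_const (by fun_prop))))
        (Measurable.prodMk measurable_const (by fun_prop)))
    · exact ha₁.comp (Measurable.prodMk (ha₁.comp (Measurable.prodMk measurable_const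
        (Measurable.prodMk measurable_const (by fun_prop))))
        (Measurable.prodMk measurable_const (by fun_prop)))
  have e3 : A m act₀ act₁ (fun y => A m act₀ act₁ F y r' s') x r s =
      ∫⁻ a, ∫⁻ a', ∫⁻ b, ∫⁻ b',
        F (act₀ (act₀ x.1 r a) r' a', act₁ (act₁ x.2 s b) s' b') ∂m ∂m ∂m ∂m := by
    unfold A
    simp only
    refine lintegral_congr fun a => ?_
    rw [lintegral_lintegral_swap]
    refine Measurable.aemeasurable ?_
    refine Measurable.lintegral_prod_right' (f := fun q : (Ω × Ω) × Ω =>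
      F (act₀ (act₀ x.1 r a) r' q.1.2, act₁ (act₁ x.2 s q.1.1) s' q.2)) ?_
    exact hM1.comp (by fun_prop : Measurable fun q : (Ω × Ω) × Ω => (((a, q.1.2), (q.1.1, q.2)) :
      (Ω × Ω) × Ω × Ω))
  have hM2 : Measurable fun q : Ω × Ω => ∫⁻ b, ∫⁻ b',
      F (act₀ (act₀ x.1 r q.1) r' q.2, act₁ (act₁ x.2 s b) s' b') ∂m ∂m := by
    refine Measurable.lintegral_prod_right' (f := fun q : (Ω × Ω) × Ω => ∫⁻ b',
      F (act₀ (act₀ x.1 r q.1.1) r' q.1.2, act₁ (act₁ x.2 s q.2) s' b') ∂m) ?_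
    refine Measurable.lintegral_prod_right' (f := fun q : ((Ω × Ω) × Ω) × Ω =>
      F (act₀ (act₀ x.1 r q.1.1.1) r' q.1.1.2, act₁ (act₁ x.2 s q.1.2) s' q.2)) ?_
    exact hM1.comp (by fun_prop : Measurable fun q : ((Ω × Ω) × Ω) × Ω =>
      ((q.1.1, (q.1.2, q.2)) : (Ω × Ω) × Ω × Ω))
  have e4 : ENNReal.ofReal (w₁ s * w₁ s') *
      A m act₀ act₁ (fun y => A m act₀ act₁ F y r' s') x r s =
      ∫⁻ a, ∫⁻ a', R₁ (act₀ (act₀ x.1 r a) r' a') ∂m ∂m := by
    rw [e3, ← lintegral_const_mul _ (Measurable.lintegral_prod_right' hM2)]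
    refine lintegral_congr fun a => ?_
    have hM4 : Measurable fun a' : Ω => ∫⁻ b, ∫⁻ b',
        F (act₀ (act₀ x.1 r a) r' a', act₁ (act₁ x.2 s b) s' b') ∂m ∂m :=
      hM2.comp (by fun_prop : Measurable fun a' : Ω => (a, a'))
    simp only
    rw [← lintegral_const_mul _ hM4]
    refine lintegral_congr fun a' => ?_
    exact e1 _
  have hp : ∀ r s : ℝ, 0 ≤ w₀ r * w₁ s := fun r s => (mul_pos (hw₀ _) (hw₁ _)).le
  calc ENNReal.ofReal (w₀ r * w₁ s) * (ENNReal.ofReal (w₀ r' * w₁ s') *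
      A m act₀ act₁ (fun y => A m act₀ act₁ F y r' s') x r s)
      = ENNReal.ofReal (w₀ r * w₀ r') * (ENNReal.ofReal (w₁ s * w₁ s') *
      A m act₀ act₁ (fun y => A m act₀ act₁ F y r' s') x r s) := by
        rw [← mul_assoc, ← mul_assoc, ← ENNReal.ofReal_mul (hp _ _),
          ← ENNReal.ofReal_mul (mul_pos (hw₀ _) (hw₀ _)).le]
        congr 2
        ring
    _ = ∫⁻ z, ENNReal.ofReal (w₀ (ut r r' z)) * (∫⁻ a, R₁ (act₀ x.1 (ut r r' z) a) ∂m) ∂uni := by
        rw [e4, e2]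
    _ = _ := by
        refine lintegral_congr fun z => ?_
        rw [hR₁]
        simp only
        rw [lintegral_lintegral_swap]
        · have hM3 : Measurable fun z' => ∫⁻ a, ENNReal.ofReal (w₁ (ut s s' z')) *
              ∫⁻ b, F (act₀ x.1 (ut r r' z) a, act₁ x.2 (ut s s' z') b) ∂m ∂m := by
            refine Measurable.lintegral_prod_right' (f := fun q : ℝ × Ω =>
              ENNReal.ofReal (w₁ (ut s s' q.1)) *
              ∫⁻ b, F (act₀ x.1 (ut r r' z) q.2, act₁ x.2 (ut s s' q.1) b) ∂m) ?_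
            exact hin2.comp (Measurable.prodMk (ha₀.comp (Measurable.prodMk measurable_const
              (Measurable.prodMk measurable_const measurable_snd))) measurable_fst)
          rw [← lintegral_const_mul _ hM3]
          refine lintegral_congr fun z' => ?_
          rw [lintegral_const_mul, ← mul_assoc, ← ENNReal.ofReal_mul (hw₀ _).le]
          · rfl
          · exact hin.comp (f := fun a => (act₀ x.1 (ut r r' z) a, z'))
              (Measurable.prodMk (ha₀.comp (Measurable.prodMk measurable_const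
              (Measurable.prodMk measurable_const measurable_id))) measurable_const)
        · refine Measurable.aemeasurable ?_
          exact hin2.comp (f := fun q : Ω × ℝ => (act₀ x.1 (ut r r' z) q.1, q.2))
            (Measurable.prodMk (ha₀.comp (Measurable.prodMk measurable_const
              (Measurable.prodMk measurable_const measurable_fst))) measurable_snd)

end

theorem srt_eq (u v : ℝ) (hu : 0 ≤ u) (hv : 0 ≤ v) :
    ((srt u v).1.1 = u ∧ (srt u v).1.2 = v) ∨ ((srt u v).1.1 = v ∧ (srt u v).1.2 = u) := by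
  unfold srt
  simp only [abs_of_nonneg hu, abs_of_nonneg hv]
  rcases le_total u v with h | h
  · right
    exact ⟨max_eq_right h, min_eq_left h⟩
  · left
    exact ⟨max_eq_left h, min_eq_right h⟩

theorem meas_srt : Measurable fun p : ℝ × ℝ => srt p.1 p.2 := by
  have : Continuous fun p : ℝ × ℝ => srt p.1 p.2 := by
    unfold srt
    refine Continuous.subtype_mk ?_ _
    fun_prop
  exact this.measurable

theorem main : S_KCOMP := by
  intro X₀ X₁ Ω _ _ _ _ _ _ _ _ _ _ _ _ _ _ _ _ _ _ m _ _ act₀ act₁ d₀ d₁ w₀ w₁ g₀ g₁ t₀ t₁ c₀ c₁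
    h k x S hS
  have hSF : SFinite uni := by unfold uni; infer_instance
  have ha₀ : Measurable fun p : X₀ × ℝ × Ω => act₀ p.1 p.2.1 p.2.2 := g₀.act_cont.measurable
  have ha₁ : Measurable fun p : X₁ × ℝ × Ω => act₁ p.1 p.2.1 p.2.2 := g₁.act_cont.measurable
  have hw₀ := t₀.pos
  have hw₁ := t₁.pos
  have hut : ∀ r t : ℝ, Measurable (ut r t) := by
    intro r t
    unfold ut
    fun_prop
  have hut0 : ∀ r t z, 0 ≤ ut r t z := fun r t z => Real.sqrt_nonneg _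
  have hsW : ∀ h, 0 < sW w₀ w₁ h := by
    intro h
    unfold sW
    have := hw₀ h.1.1
    have := hw₀ h.1.2
    have := hw₁ h.1.1
    have := hw₁ h.1.2
    positivity
  set F : X₀ × X₁ → ENNReal := S.indicator 1 with hFd
  have hF : Measurable F := measurable_one.indicator hS
  have hKS : ∀ y l, KK m act₀ act₁ w₀ w₁ y l S =
      ENNReal.ofReal (1 / sW w₀ w₁ l) * B m act₀ act₁ w₀ w₁ F y l.1.1 l.1.2 := by
    intro y l
    rw [← KK_lint m ha₀ ha₁ hw₀ hw₁ hF y l, hFd, lintegral_indicator_one hS]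
  have hAm := meas_A m ha₀ ha₁ hF
  have hAy : ∀ r s : ℝ, Measurable fun y => A m act₀ act₁ F y r s := fun r s =>
    hAm.comp (by fun_prop : Measurable fun y : X₀ × X₁ => (y, r, s))
  have hArs : ∀ y, Measurable fun q : ℝ × ℝ => A m act₀ act₁ F y q.1 q.2 := fun y =>
    hAm.comp (by fun_prop : Measurable fun q : ℝ × ℝ => (y, q.1, q.2))
  have hBy : ∀ r s : ℝ, Measurable fun y => B m act₀ act₁ w₀ w₁ F y r s := fun r s =>
    ((hAy r s).const_mul _).add ((hAy s r).const_mul _)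
  have hw₀m := t₀.cont.measurable
  have hw₁m := t₁.cont.measurable
  have hBq : Measurable fun q : ℝ × ℝ => B m act₀ act₁ w₀ w₁ F x q.1 q.2 := by
    unfold B
    refine Measurable.add (Measurable.mul ?_ (hArs x)) (Measurable.mul ?_ ((hArs x).comp
      measurable_swap))
    · exact ((hw₀m.comp measurable_fst).mul (hw₁m.comp measurable_snd)).ennreal_ofReal
    · exact ((hw₀m.comp measurable_snd).mul (hw₁m.comp measurable_fst)).ennreal_ofReal
  obtain ⟨hh2, hh1⟩ := h.2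
  obtain ⟨hk2, hk1⟩ := k.2
  have hh3 : 0 ≤ h.1.1 := hh2.trans hh1
  have hk3 : 0 ≤ k.1.1 := hk2.trans hk1
  -- the four terms
  set J : ℝ → ℝ → ℝ → ℝ → ENNReal := fun r s r' s' => ∫⁻ z, ∫⁻ z',
      ENNReal.ofReal (w₀ (ut r r' z) * w₁ (ut s s' z')) *
      A m act₀ act₁ F x (ut r r' z) (ut s s' z') ∂uni ∂uni with hJ
  have hT : ∀ r s r' s' : ℝ, 0 ≤ r → 0 ≤ s → 0 ≤ r' → 0 ≤ s' →
      ENNReal.ofReal (w₀ r * w₁ s) * (ENNReal.ofReal (w₀ r' * w₁ s') *
        A m act₀ act₁ (fun y => A m act₀ act₁ F y r' s') x r s) = J r s r' s' :=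
    fun r s r' s' hr hs hr' hs' =>
      A_comp m ha₀ ha₁ t₀.cont t₁.cont hw₀ hw₁ c₀ c₁ hF x hr hs hr' hs'
  -- linearity of `A`
  have hAB : ∀ r s : ℝ, A m act₀ act₁ (fun y => B m act₀ act₁ w₀ w₁ F y k.1.1 k.1.2) x r s =
      ENNReal.ofReal (w₀ k.1.1 * w₁ k.1.2) *
        A m act₀ act₁ (fun y => A m act₀ act₁ F y k.1.1 k.1.2) x r s +
      ENNReal.ofReal (w₀ k.1.2 * w₁ k.1.1) *
        A m act₀ act₁ (fun y => A m act₀ act₁ F y k.1.2 k.1.1) x r s := by
    intro r s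
    have hm : ∀ r' s' : ℝ, Measurable fun q : Ω × Ω =>
        A m act₀ act₁ F (act₀ x.1 r q.1, act₁ x.2 s q.2) r' s' := by
      intro r' s'
      refine (hAy r' s').comp (Measurable.prodMk ?_ ?_)
      · exact ha₀.comp (by fun_prop : Measurable fun a : Ω × Ω => (x.1, r, a.1))
      · exact ha₁.comp (by fun_prop : Measurable fun a : Ω × Ω => (x.2, s, a.2))
    have hm1 : ∀ (r' s' : ℝ) (a : Ω), Measurable fun b : Ω =>
        A m act₀ act₁ F (act₀ x.1 r a, act₁ x.2 s b) r' s' := fun r' s' a =>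
      (hm r' s').comp (by fun_prop : Measurable fun b : Ω => (a, b))
    have hm2 : ∀ (r' s' : ℝ), Measurable fun a : Ω => ∫⁻ b,
        A m act₀ act₁ F (act₀ x.1 r a, act₁ x.2 s b) r' s' ∂m := fun r' s' =>
      Measurable.lintegral_prod_right' (hm r' s')
    have e : ∀ a : Ω, ∫⁻ b, B m act₀ act₁ w₀ w₁ F (act₀ x.1 r a, act₁ x.2 s b) k.1.1 k.1.2 ∂m =
        ENNReal.ofReal (w₀ k.1.1 * w₁ k.1.2) *
          (∫⁻ b, A m act₀ act₁ F (act₀ x.1 r a, act₁ x.2 s b) k.1.1 k.1.2 ∂m) +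
        ENNReal.ofReal (w₀ k.1.2 * w₁ k.1.1) *
          (∫⁻ b, A m act₀ act₁ F (act₀ x.1 r a, act₁ x.2 s b) k.1.2 k.1.1 ∂m) := by
      intro a
      rw [← lintegral_const_mul _ (hm1 _ _ a), ← lintegral_const_mul _ (hm1 _ _ a),
        ← lintegral_add_left ((hm1 _ _ a).const_mul _)]
      rfl
    have e' : A m act₀ act₁ (fun y => B m act₀ act₁ w₀ w₁ F y k.1.1 k.1.2) x r s =
        ∫⁻ a, (ENNReal.ofReal (w₀ k.1.1 * w₁ k.1.2) *
          (∫⁻ b, A m act₀ act₁ F (act₀ x.1 r a, act₁ x.2 s b) k.1.1 k.1.2 ∂m) +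
        ENNReal.ofReal (w₀ k.1.2 * w₁ k.1.1) *
          (∫⁻ b, A m act₀ act₁ F (act₀ x.1 r a, act₁ x.2 s b) k.1.2 k.1.1 ∂m)) ∂m :=
      lintegral_congr e
    rw [e', lintegral_add_left ((hm2 _ _).const_mul _), lintegral_const_mul _ (hm2 _ _),
      lintegral_const_mul _ (hm2 _ _)]
    rfl
  -- left side
  have hL : ∫⁻ y, KK m act₀ act₁ w₀ w₁ y k S ∂(KK m act₀ act₁ w₀ w₁ x h) =
      ENNReal.ofReal (1 / sW w₀ w₁ h) * (ENNReal.ofReal (1 / sW w₀ w₁ k) *
        ((J h.1.1 h.1.2 k.1.1 k.1.2 + J h.1.1 h.1.2 k.1.2 k.1.1) +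
          (J h.1.2 h.1.1 k.1.1 k.1.2 + J h.1.2 h.1.1 k.1.2 k.1.1))) := by
    have hBB : B m act₀ act₁ w₀ w₁ (fun y => B m act₀ act₁ w₀ w₁ F y k.1.1 k.1.2) x h.1.1 h.1.2 =
        (J h.1.1 h.1.2 k.1.1 k.1.2 + J h.1.1 h.1.2 k.1.2 k.1.1) +
          (J h.1.2 h.1.1 k.1.1 k.1.2 + J h.1.2 h.1.1 k.1.2 k.1.1) := by
      change ENNReal.ofReal (w₀ h.1.1 * w₁ h.1.2) *
          A m act₀ act₁ (fun y => B m act₀ act₁ w₀ w₁ F y k.1.1 k.1.2) x h.1.1 h.1.2 +
        ENNReal.ofReal (w₀ h.1.2 * w₁ h.1.1) *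
          A m act₀ act₁ (fun y => B m act₀ act₁ w₀ w₁ F y k.1.1 k.1.2) x h.1.2 h.1.1 = _
      rw [hAB, hAB, mul_add, mul_add, hT _ _ _ _ hh3 hh2 hk3 hk2, hT _ _ _ _ hh3 hh2 hk2 hk3,
        hT _ _ _ _ hh2 hh3 hk3 hk2, hT _ _ _ _ hh2 hh3 hk2 hk3]
    simp only [hKS]
    rw [lintegral_const_mul _ (hBy _ _), KK_lint m ha₀ ha₁ hw₀ hw₁ (hBy _ _) x h, hBB,
      mul_left_comm]
  -- right side
  have hR1 : ∀ r s r' s' : ℝ, ∫⁻ z : ℝ × ℝ, B m act₀ act₁ w₀ w₁ F x (ut r r' z.1) (ut s s' z.2)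
      ∂(uni.prod uni) = J r s r' s' + J s r s' r' := by
    intro r s r' s'
    have hm1 : Measurable fun z : ℝ × ℝ => ENNReal.ofReal (w₀ (ut r r' z.1) * w₁ (ut s s' z.2)) *
        A m act₀ act₁ F x (ut r r' z.1) (ut s s' z.2) := by
      refine Measurable.mul ?_ ((hArs x).comp (Measurable.prodMk ((hut r r').comp measurable_fst)
        ((hut s s').comp measurable_snd)))
      exact ((hw₀m.comp ((hut r r').comp measurable_fst)).mul
        (hw₁m.comp ((hut s s').comp measurable_snd))).ennreal_ofReal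
    have hm2 : Measurable fun z : ℝ × ℝ => ENNReal.ofReal (w₀ (ut s s' z.2) * w₁ (ut r r' z.1)) *
        A m act₀ act₁ F x (ut s s' z.2) (ut r r' z.1) := by
      refine Measurable.mul ?_ ((hArs x).comp (Measurable.prodMk ((hut s s').comp measurable_snd)
        ((hut r r').comp measurable_fst)))
      exact ((hw₀m.comp ((hut s s').comp measurable_snd)).mul
        (hw₁m.comp ((hut r r').comp measurable_fst))).ennreal_ofReal
    unfold B
    rw [lintegral_add_left hm1, lintegral_prod (fun z : ℝ × ℝ =>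
      ENNReal.ofReal (w₀ (ut r r' z.1) * w₁ (ut s s' z.2)) *
        A m act₀ act₁ F x (ut r r' z.1) (ut s s' z.2)) hm1.aemeasurable,
      lintegral_prod_symm (fun z : ℝ × ℝ =>
      ENNReal.ofReal (w₀ (ut s s' z.2) * w₁ (ut r r' z.1)) *
        A m act₀ act₁ F x (ut s s' z.2) (ut r r' z.1)) hm2.aemeasurable]
  have hR2 : ∀ r s r' s' : ℝ, ∫⁻ l, KK m act₀ act₁ w₀ w₁ x l S ∂(prm (P := D × D) (uni.prod uni)
      (fun p z => sW w₀ w₁ (srt (ut r r' z.1) (ut s s' z.2)) /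
        (sW w₀ w₁ p.1 * sW w₀ w₁ p.2))
      (fun _ z => srt (ut r r' z.1) (ut s s' z.2)) (h, k)) =
      ENNReal.ofReal (1 / sW w₀ w₁ h) * (ENNReal.ofReal (1 / sW w₀ w₁ k) *
        (J r s r' s' + J s r s' r')) := by
    intro r s r' s'
    have hsrt : Measurable fun z : ℝ × ℝ => srt (ut r r' z.1) (ut s s' z.2) :=
      meas_srt.comp (Measurable.prodMk ((hut r r').comp measurable_fst)
        ((hut s s').comp measurable_snd))
    have hsWm : Measurable (sW w₀ w₁) := by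
      unfold sW
      fun_prop
    have hKm : Measurable fun l : D => KK m act₀ act₁ w₀ w₁ x l S := by
      simp only [hKS]
      refine Measurable.mul (measurable_const.div hsWm).ennreal_ofReal ?_
      exact hBq.comp measurable_subtype_coe
    rw [prm_lint _ _ _ _ _ hsrt hKm]
    · rw [← hR1 r s r' s', ← mul_assoc, ← lintegral_const_mul]
      · refine lintegral_congr fun z => ?_
        rw [hKS]
        have hBB : B m act₀ act₁ w₀ w₁ F x (srt (ut r r' z.1) (ut s s' z.2)).1.1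
            (srt (ut r r' z.1) (ut s s' z.2)).1.2 =
            B m act₀ act₁ w₀ w₁ F x (ut r r' z.1) (ut s s' z.2) := by
          rcases srt_eq (ut r r' z.1) (ut s s' z.2) (hut0 _ _ _) (hut0 _ _ _) with h1 | h1
          · rw [h1.1, h1.2]
          · rw [h1.1, h1.2, B_symm]
        rw [hBB, ← mul_assoc]
        congr 1
        have h1 := hsW h
        have h2 := hsW k
        have h3 := hsW (srt (ut r r' z.1) (ut s s' z.2))
        rw [← ENNReal.ofReal_mul (by positivity), ← ENNReal.ofReal_mul (by positivity)]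
        congr 1
        field_simp
      · exact hBq.comp (Measurable.prodMk ((hut r r').comp measurable_fst)
          ((hut s s').comp measurable_snd))
    · exact (hsWm.comp hsrt).div_const _
  rw [hL]
  unfold cnv
  rw [lintegral_add_measure]
  have e1 := hR2 h.1.1 h.1.2 k.1.1 k.1.2
  have e2 := hR2 h.1.1 h.1.2 k.1.2 k.1.1
  have e3 : (prm (P := D × D) (uni.prod uni)
      (fun p z => sW w₀ w₁ (srt (ut p.1.1.1 p.2.1.1 z.1) (ut p.1.1.2 p.2.1.2 z.2)) /
        (sW w₀ w₁ p.1 * sW w₀ w₁ p.2))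
      (fun p z => srt (ut p.1.1.1 p.2.1.1 z.1) (ut p.1.1.2 p.2.1.2 z.2)) (h, k)) =
      (prm (P := D × D) (uni.prod uni)
      (fun p z => sW w₀ w₁ (srt (ut h.1.1 k.1.1 z.1) (ut h.1.2 k.1.2 z.2)) /
        (sW w₀ w₁ p.1 * sW w₀ w₁ p.2))
      (fun _ z => srt (ut h.1.1 k.1.1 z.1) (ut h.1.2 k.1.2 z.2)) (h, k)) := rfl
  have e4 : (prm (P := D × D) (uni.prod uni)
      (fun p z => sW w₀ w₁ (srt (ut p.1.1.1 p.2.1.2 z.1) (ut p.1.1.2 p.2.1.1 z.2)) /
        (sW w₀ w₁ p.1 * sW w₀ w₁ p.2))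
      (fun p z => srt (ut p.1.1.1 p.2.1.2 z.1) (ut p.1.1.2 p.2.1.1 z.2)) (h, k)) =
      (prm (P := D × D) (uni.prod uni)
      (fun p z => sW w₀ w₁ (srt (ut h.1.1 k.1.2 z.1) (ut h.1.2 k.1.1 z.2)) /
        (sW w₀ w₁ p.1 * sW w₀ w₁ p.2))
      (fun _ z => srt (ut h.1.1 k.1.2 z.1) (ut h.1.2 k.1.1 z.2)) (h, k)) := rfl
  rw [e3, e4, e1, e2, ← mul_add, ← mul_add]
  congr 2
  ring

end Pool.Agent.H204.CS.P_KCOMP
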