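import Pool.Agent.H204.CS.Stm

/-!
# Project CS, task KREG: regularity of the kernel (for MP_466bd8_al)
-/

set_option autoImplicit false

namespace Pool.Agent.H204.CS.P_KREG

open MeasureTheory Topology Pool.Agent.V1135.CAS Pool.Agent.H204.CS

/-- a sorted pair is its own sorted version -/
lemma srt_self (h : D) : srt h.1.1 h.1.2 = h := by
  have h1 : 0 ≤ h.1.2 := h.2.1
  have h2 : h.1.2 ≤ h.1.1 := h.2.2
  apply Subtype.ext
  simp only [srt]
  rw [abs_of_nonneg h1, abs_of_nonneg (h1.trans h2), max_eq_left h2, min_eq_right h2]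

lemma srt_comm (a b : ℝ) : srt a b = srt b a := by
  apply Subtype.ext
  simp only [srt]
  rw [max_comm, min_comm]

lemma srt_cont : Continuous fun p : ℝ × ℝ => srt p.1 p.2 := by
  unfold srt
  refine Continuous.subtype_mk ?_ _
  fun_prop

/-- union of two set-continuous families -/
lemma setContinuous_union {P Y : Type*} [TopologicalSpace P] [TopologicalSpace Y]
    {S T : P → Set Y} (hS : SetContinuous S) (hT : SetContinuous T) :
    SetContinuous fun p => S p ∪ T p := by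
  intro U hU
  constructor
  · have : {p | S p ∪ T p ⊆ U} = {p | S p ⊆ U} ∩ {p | T p ⊆ U} := by
      ext p
      simp
    rw [this]
    exact (hS U hU).1.inter (hT U hU).1
  · have : {p | ((S p ∪ T p) ∩ U).Nonempty} = {p | (S p ∩ U).Nonempty} ∪ {p | (T p ∩ U).Nonempty} := by
      ext p
      simp [Set.union_inter_distrib_right, Set.union_nonempty]
    rw [this]
    exact (hS U hU).2.union (hT U hU).2

lemma sW_pos {w₀ w₁ : ℝ → ℝ} (h₀ : Wt w₀) (h₁ : Wt w₁) (h : D) : 0 < sW w₀ w₁ h :=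
  add_pos (mul_pos (h₀.pos _) (h₁.pos _)) (mul_pos (h₀.pos _) (h₁.pos _))

lemma sW_cont {w₀ w₁ : ℝ → ℝ} (h₀ : Wt w₀) (h₁ : Wt w₁) : Continuous (sW w₀ w₁) := by
  have c₀ := h₀.cont
  have c₁ := h₁.cont
  unfold sW
  fun_prop

theorem main : S_KREG := by
  intro hP X₀ X₁ Ω _ _ _ _ _ _ _ _ _ _ _ _ _ _ _ _ _ _ m _ _ act₀ act₁ d₀ d₁ w₀ w₁ g₀ g₁ h₀ h₁
  have c₀ := h₀.cont
  have c₁ := h₁.cont
  have ca₀ := g₀.act_cont
  have ca₁ := g₁.act_cont
  have hsW := sW_pos h₀ h₁
  have cW := sW_cont h₀ h₁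
  -- the data of the two summands
  set wa : (X₀ × X₁) × D → Ω × Ω → ℝ := fun p _ => w₀ p.2.1.1 * w₁ p.2.1.2 / sW w₀ w₁ p.2 with hwa
  set wb : (X₀ × X₁) × D → Ω × Ω → ℝ := fun p _ => w₀ p.2.1.2 * w₁ p.2.1.1 / sW w₀ w₁ p.2 with hwb
  set fa : (X₀ × X₁) × D → Ω × Ω → X₀ × X₁ := fun p a =>
    (act₀ p.1.1 p.2.1.1 a.1, act₁ p.1.2 p.2.1.2 a.2) with hfa
  set fb : (X₀ × X₁) × D → Ω × Ω → X₀ × X₁ := fun p a =>
    (act₀ p.1.1 p.2.1.2 a.1, act₁ p.1.2 p.2.1.1 a.2) with hfb
  have hKK : ∀ x h, KK m act₀ act₁ w₀ w₁ x h =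
      prm (m.prod m) wa fa (x, h) + prm (m.prod m) wb fb (x, h) := fun _ _ => rfl
  have cwa : Continuous fun q : ((X₀ × X₁) × D) × (Ω × Ω) => wa q.1 q.2 := by
    refine Continuous.div ?_ ?_ fun q => (hsW q.1.2).ne'
    · fun_prop
    · fun_prop
  have cwb : Continuous fun q : ((X₀ × X₁) × D) × (Ω × Ω) => wb q.1 q.2 := by
    refine Continuous.div ?_ ?_ fun q => (hsW q.1.2).ne'
    · fun_prop
    · fun_prop
  have cfa : Continuous fun q : ((X₀ × X₁) × D) × (Ω × Ω) => fa q.1 q.2 := by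
    refine Continuous.prodMk ?_ ?_
    · exact ca₀.comp (f := fun q : ((X₀ × X₁) × D) × (Ω × Ω) => (q.1.1.1, q.1.2.1.1, q.2.1))
        (by fun_prop)
    · exact ca₁.comp (f := fun q : ((X₀ × X₁) × D) × (Ω × Ω) => (q.1.1.2, q.1.2.1.2, q.2.2))
        (by fun_prop)
  have cfb : Continuous fun q : ((X₀ × X₁) × D) × (Ω × Ω) => fb q.1 q.2 := by
    refine Continuous.prodMk ?_ ?_
    · exact ca₀.comp (f := fun q : ((X₀ × X₁) × D) × (Ω × Ω) => (q.1.1.1, q.1.2.1.2, q.2.1))
        (by fun_prop)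
    · exact ca₁.comp (f := fun q : ((X₀ × X₁) × D) × (Ω × Ω) => (q.1.1.2, q.1.2.1.1, q.2.2))
        (by fun_prop)
  have pwa : ∀ p a, 0 < wa p a := fun p a =>
    div_pos (mul_pos (h₀.pos _) (h₁.pos _)) (hsW _)
  have pwb : ∀ p a, 0 < wb p a := fun p a =>
    div_pos (mul_pos (h₀.pos _) (h₁.pos _)) (hsW _)
  have hS : (m.prod m).support = Set.univ := Measure.support_eq_univ
  obtain ⟨A1, A2, A3, A4⟩ := hP ((X₀ × X₁) × D) (X₀ × X₁) (Ω × Ω) (m.prod m) Set.univ
    isCompact_univ hS wa fa cwa cfa pwa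
  obtain ⟨B1, B2, B3, B4⟩ := hP ((X₀ × X₁) × D) (X₀ × X₁) (Ω × Ω) (m.prod m) Set.univ
    isCompact_univ hS wb fb cwb cfb pwb
  have mfa : ∀ p, Measurable (fa p) := fun p =>
    (cfa.comp (f := fun a => (p, a)) (by fun_prop)).measurable
  have mfb : ∀ p, Measurable (fb p) := fun p =>
    (cfb.comp (f := fun a => (p, a)) (by fun_prop)).measurable
  have hwab : ∀ (h : D), w₀ h.1.1 * w₁ h.1.2 / sW w₀ w₁ h + w₀ h.1.2 * w₁ h.1.1 / sW w₀ w₁ h = 1 := by
    intro h
    rw [← add_div]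
    exact div_self (hsW h).ne'
  have hsupp : ∀ x h, (KK m act₀ act₁ w₀ w₁ x h).support =
      fa (x, h) '' Set.univ ∪ fb (x, h) '' Set.univ := by
    intro x h
    rw [hKK, Measure.support_add, A3, B3]
  refine ⟨?_, ?_, ?_, ?_, ?_, ?_, ?_⟩
  · -- probability
    intro x h
    refine ⟨?_⟩
    rw [hKK, Measure.add_apply]
    unfold prm
    rw [Measure.map_apply (mfa _) MeasurableSet.univ, Measure.map_apply (mfb _) MeasurableSet.univ,
      Set.preimage_univ, Set.preimage_univ, withDensity_apply _ MeasurableSet.univ,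
      withDensity_apply _ MeasurableSet.univ, Measure.restrict_univ]
    simp only [hwa, hwb, lintegral_const, measure_univ, mul_one]
    rw [← ENNReal.ofReal_add (div_pos (mul_pos (h₀.pos _) (h₁.pos _)) (hsW _)).le
      (div_pos (mul_pos (h₀.pos _) (h₁.pos _)) (hsW _)).le, hwab, ENNReal.ofReal_one]
  · -- continuity
    intro f
    have e : (fun p : (X₀ × X₁) × D => ∫ y, f y ∂(KK m act₀ act₁ w₀ w₁ p.1 p.2)) =
        fun p => ∫ y, f y ∂(prm (m.prod m) wa fa p) + ∫ y, f y ∂(prm (m.prod m) wb fb p) := by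
      funext p
      have := A1 p
      have := B1 p
      rw [hKK, integral_add_measure (f.integrable _) (f.integrable _)]
    rw [e]
    exact (A2 f).add (B2 f)
  · -- compactness of the support
    intro x h
    rw [hsupp]
    refine IsCompact.union ?_ ?_
    · exact isCompact_univ.image (cfa.comp (f := fun a => ((x, h), a)) (by fun_prop))
    · exact isCompact_univ.image (cfb.comp (f := fun a => ((x, h), a)) (by fun_prop))
  · -- continuity of the support
    have e : (fun p : (X₀ × X₁) × D => (KK m act₀ act₁ w₀ w₁ p.1 p.2).support) =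
        fun p => fa p '' Set.univ ∪ fb p '' Set.univ := by
      funext p
      exact hsupp p.1 p.2
    rw [e]
    exact setContinuous_union A4 B4
  · -- points of the support
    intro x y h
    have n1 : 0 ≤ h.1.2 := h.2.1
    have n2 : 0 ≤ h.1.1 := h.2.1.trans h.2.2
    rw [hsupp]
    simp only [Set.image_univ, Set.mem_union, Set.mem_range, hfa, hfb]
    constructor
    · rintro (⟨a, rfl⟩ | ⟨a, rfl⟩)
      · simp only [pim]
        rw [g₀.d_act _ _ _ n2, g₁.d_act _ _ _ n1, srt_self]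
      · simp only [pim]
        rw [g₀.d_act _ _ _ n1, g₁.d_act _ _ _ n2, srt_comm, srt_self]
    · rintro rfl
      obtain ⟨a, ha⟩ := g₀.surj x.1 y.1
      obtain ⟨b, hb⟩ := g₁.surj x.2 y.2
      have k₀ := g₀.d_nonneg x.1 y.1
      have k₁ := g₁.d_nonneg x.2 y.2
      rcases le_total (d₁ x.2 y.2) (d₀ x.1 y.1) with hle | hle
      · left
        refine ⟨(a, b), ?_⟩
        simp only [pim, srt]
        rw [abs_of_nonneg k₀, abs_of_nonneg k₁, max_eq_left hle, min_eq_right hle, ha, hb]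
      · right
        refine ⟨(a, b), ?_⟩
        simp only [pim, srt]
        rw [abs_of_nonneg k₀, abs_of_nonneg k₁, max_eq_right hle, min_eq_left hle, ha, hb]
  · -- the unit
    intro x
    have z₀ : ∀ (u : X₀) (a : Ω), act₀ u 0 a = u := fun u a =>
      (g₀.d_eq _ _ (g₀.d_act u 0 a le_rfl)).symm
    have z₁ : ∀ (u : X₁) (a : Ω), act₁ u 0 a = u := fun u a =>
      (g₁.d_eq _ _ (g₁.d_act u 0 a le_rfl)).symm
    have s0 : (srt 0 0).1 = (0, 0) := by simp [srt]
    have s1 : (srt 0 0).1.1 = 0 := by rw [s0]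
    have s2 : (srt 0 0).1.2 = 0 := by rw [s0]
    have ea : fa (x, srt 0 0) = fun _ => x := by
      funext a
      simp only [hfa, s1, s2, z₀, z₁]
    have eb : fb (x, srt 0 0) = fun _ => x := by
      funext a
      simp only [hfb, s1, s2, z₀, z₁]
    rw [hKK]
    unfold prm
    rw [ea, eb, Measure.map_const, Measure.map_const, ← add_smul,
      withDensity_apply _ MeasurableSet.univ, withDensity_apply _ MeasurableSet.univ,
      Measure.restrict_univ]
    simp only [hwa, hwb, lintegral_const, measure_univ, mul_one]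
    rw [← ENNReal.ofReal_add (div_pos (mul_pos (h₀.pos _) (h₁.pos _)) (hsW _)).le
      (div_pos (mul_pos (h₀.pos _) (h₁.pos _)) (hsW _)).le, hwab, ENNReal.ofReal_one, one_smul]
  · -- continuity of the partition map
    unfold pim
    refine srt_cont.comp (f := fun p : (X₀ × X₁) × (X₀ × X₁) => (d₀ p.1.1 p.2.1, d₁ p.1.2 p.2.2)) ?_
    refine Continuous.prodMk ?_ ?_
    · exact g₀.d_cont.comp (f := fun p : (X₀ × X₁) × (X₀ × X₁) => (p.1.1, p.2.1)) (by fun_prop)
    · exact g₁.d_cont.comp (f := fun p : (X₀ × X₁) × (X₀ × X₁) => (p.1.2, p.2.2)) (by fun_prop)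

end Pool.Agent.H204.CS.P_KREG
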