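import Pool.Agent.H204.CS.Stm

/-! KREV (project CS of helper204): reversibility of the kernel. -/

set_option autoImplicit false
set_option linter.unusedSectionVars false

namespace Pool.Agent.H204.CS.P_KREV

open MeasureTheory Topology Filter Pool.Agent.V1135.CAS
open scoped ENNReal

section

variable {X₀ X₁ Ω : Type}
  [TopologicalSpace X₀] [T2Space X₀] [LocallyCompactSpace X₀] [SecondCountableTopology X₀]
  [MeasurableSpace X₀] [BorelSpace X₀]
  [TopologicalSpace X₁] [T2Space X₁] [LocallyCompactSpace X₁] [SecondCountableTopology X₁]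
  [MeasurableSpace X₁] [BorelSpace X₁]
  [TopologicalSpace Ω] [T2Space Ω] [CompactSpace Ω] [SecondCountableTopology Ω]
  [MeasurableSpace Ω] [BorelSpace Ω]
  (m : Measure Ω) [IsProbabilityMeasure m]

/-- reversibility as an identity on the product space -/
theorem rev_prod {act : X₀ → ℝ → Ω → X₀} {vol : Measure X₀} [SFinite vol]
    (hact : Continuous fun p : X₀ × ℝ × Ω => act p.1 p.2.1 p.2.2) (hrev : Rev m act vol) {r : ℝ}
    (hr : 0 ≤ r) {F : X₀ × X₀ → ENNReal} (hF : Measurable F) :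
    ∫⁻ z, F (z.1, act z.1 r z.2) ∂(vol.prod m) = ∫⁻ z, F (act z.1 r z.2, z.1) ∂(vol.prod m) := by
  have ha : Measurable fun z : X₀ × Ω => act z.1 r z.2 :=
    (hact.comp (continuous_fst.prodMk (continuous_const.prodMk continuous_snd))).measurable
  have m1 : Measurable fun z : X₀ × Ω => F (z.1, act z.1 r z.2) := hF.comp (measurable_fst.prodMk ha)
  have m2 : Measurable fun z : X₀ × Ω => F (act z.1 r z.2, z.1) := hF.comp (ha.prodMk measurable_fst)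
  rw [lintegral_prod _ m1.aemeasurable, lintegral_prod _ m2.aemeasurable]
  exact hrev F hF r hr

/-- the two orders of the variables -/
theorem shuffle {vol₀ : Measure X₀} {vol₁ : Measure X₁} [SFinite vol₀] [SFinite vol₁]
    {H : (X₀ × X₁) × (Ω × Ω) → ENNReal} (hH : Measurable H) :
    ∫⁻ p, H p ∂((vol₀.prod vol₁).prod (m.prod m)) =
      ∫⁻ z₀, ∫⁻ z₁, H ((z₀.1, z₁.1), (z₀.2, z₁.2)) ∂(vol₁.prod m) ∂(vol₀.prod m) := by
  have m1 : Measurable fun x : X₀ × X₁ => ∫⁻ w, H (x, w) ∂(m.prod m) :=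
    hH.lintegral_prod_right'
  rw [lintegral_prod _ hH.aemeasurable, lintegral_prod _ m1.aemeasurable]
  have m2 : Measurable fun z₀ : X₀ × Ω =>
      ∫⁻ z₁ : X₁ × Ω, H ((z₀.1, z₁.1), (z₀.2, z₁.2)) ∂(vol₁.prod m) := by
    apply Measurable.lintegral_prod_right' (f := fun q : (X₀ × Ω) × (X₁ × Ω) =>
      H ((q.1.1, q.2.1), (q.1.2, q.2.2)))
    exact hH.comp (by fun_prop)
  rw [lintegral_prod _ m2.aemeasurable]
  refine lintegral_congr fun x₀ => ?_
  have e1 : ∀ x₁ : X₁, ∫⁻ w, H ((x₀, x₁), w) ∂(m.prod m) =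
      ∫⁻ a, ∫⁻ b, H ((x₀, x₁), (a, b)) ∂m ∂m := by
    intro x₁
    exact lintegral_prod _ (hH.comp measurable_prodMk_left).aemeasurable
  have e2 : ∀ a : Ω, ∫⁻ z₁ : X₁ × Ω, H ((x₀, z₁.1), (a, z₁.2)) ∂(vol₁.prod m) =
      ∫⁻ x₁, ∫⁻ b, H ((x₀, x₁), (a, b)) ∂m ∂vol₁ := by
    intro a
    apply lintegral_prod
    exact (hH.comp (by fun_prop)).aemeasurable
  change ∫⁻ x₁, ∫⁻ w, H ((x₀, x₁), w) ∂(m.prod m) ∂vol₁ =
    ∫⁻ a, ∫⁻ z₁ : X₁ × Ω, H ((x₀, z₁.1), (a, z₁.2)) ∂(vol₁.prod m) ∂m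
  simp_rw [e1, e2]
  apply lintegral_lintegral_swap
  apply Measurable.aemeasurable
  apply Measurable.lintegral_prod_right' (f := fun q : (X₁ × Ω) × Ω =>
      H ((x₀, q.1.1), (q.1.2, q.2)))
  exact hH.comp (by fun_prop)

/-- symmetry for the product -/
theorem sym_two {vol₀ : Measure X₀} {vol₁ : Measure X₁} [SFinite vol₀] [SFinite vol₁]
    {act₀ : X₀ → ℝ → Ω → X₀} {act₁ : X₁ → ℝ → Ω → X₁}
    (h₀ : Continuous fun p : X₀ × ℝ × Ω => act₀ p.1 p.2.1 p.2.2)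
    (h₁ : Continuous fun p : X₁ × ℝ × Ω => act₁ p.1 p.2.1 p.2.2)
    (hrev₀ : Rev m act₀ vol₀) (hrev₁ : Rev m act₁ vol₁) {r s : ℝ} (hr : 0 ≤ r) (hs : 0 ≤ s)
    {G : (X₀ × X₁) × (X₀ × X₁) → ENNReal} (hG : Measurable G) :
    ∫⁻ p : (X₀ × X₁) × (Ω × Ω), G (p.1, (act₀ p.1.1 r p.2.1, act₁ p.1.2 s p.2.2))
        ∂((vol₀.prod vol₁).prod (m.prod m)) =
      ∫⁻ p : (X₀ × X₁) × (Ω × Ω), G ((act₀ p.1.1 r p.2.1, act₁ p.1.2 s p.2.2), p.1)
        ∂((vol₀.prod vol₁).prod (m.prod m)) := by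
  have a₀ : Measurable fun z : X₀ × Ω => act₀ z.1 r z.2 :=
    (h₀.comp (continuous_fst.prodMk (continuous_const.prodMk continuous_snd))).measurable
  have a₁ : Measurable fun z : X₁ × Ω => act₁ z.1 s z.2 :=
    (h₁.comp (continuous_fst.prodMk (continuous_const.prodMk continuous_snd))).measurable
  have b₀ : Measurable fun p : (X₀ × X₁) × (Ω × Ω) => act₀ p.1.1 r p.2.1 :=
    a₀.comp (by fun_prop : Measurable fun p : (X₀ × X₁) × (Ω × Ω) => (p.1.1, p.2.1))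
  have b₁ : Measurable fun p : (X₀ × X₁) × (Ω × Ω) => act₁ p.1.2 s p.2.2 :=
    a₁.comp (by fun_prop : Measurable fun p : (X₀ × X₁) × (Ω × Ω) => (p.1.2, p.2.2))
  have mH1 : Measurable fun p : (X₀ × X₁) × (Ω × Ω) =>
      G (p.1, (act₀ p.1.1 r p.2.1, act₁ p.1.2 s p.2.2)) :=
    hG.comp (measurable_fst.prodMk (b₀.prodMk b₁))
  have mH2 : Measurable fun p : (X₀ × X₁) × (Ω × Ω) =>
      G ((act₀ p.1.1 r p.2.1, act₁ p.1.2 s p.2.2), p.1) :=
    hG.comp ((b₀.prodMk b₁).prodMk measurable_fst)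
  rw [shuffle m mH1, shuffle m mH2]
  -- the first factor fixed
  have e1 : ∀ z₀ : X₀ × Ω,
      ∫⁻ z₁ : X₁ × Ω, G ((z₀.1, z₁.1), (act₀ z₀.1 r z₀.2, act₁ z₁.1 s z₁.2)) ∂(vol₁.prod m) =
      ∫⁻ z₁ : X₁ × Ω, G ((z₀.1, act₁ z₁.1 s z₁.2), (act₀ z₀.1 r z₀.2, z₁.1)) ∂(vol₁.prod m) := by
    intro z₀
    exact rev_prod m h₁ hrev₁ hs (F := fun q : X₁ × X₁ =>
      G ((z₀.1, q.1), (act₀ z₀.1 r z₀.2, q.2))) (hG.comp (by fun_prop))
  have e2 : ∀ z₁ : X₁ × Ω,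
      ∫⁻ z₀ : X₀ × Ω, G ((z₀.1, act₁ z₁.1 s z₁.2), (act₀ z₀.1 r z₀.2, z₁.1)) ∂(vol₀.prod m) =
      ∫⁻ z₀ : X₀ × Ω, G ((act₀ z₀.1 r z₀.2, act₁ z₁.1 s z₁.2), (z₀.1, z₁.1)) ∂(vol₀.prod m) := by
    intro z₁
    exact rev_prod m h₀ hrev₀ hr (F := fun q : X₀ × X₀ =>
      G ((q.1, act₁ z₁.1 s z₁.2), (q.2, z₁.1))) (hG.comp (by fun_prop))
  change ∫⁻ z₀ : X₀ × Ω, ∫⁻ z₁ : X₁ × Ω,
      G ((z₀.1, z₁.1), (act₀ z₀.1 r z₀.2, act₁ z₁.1 s z₁.2)) ∂(vol₁.prod m) ∂(vol₀.prod m) =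
    ∫⁻ z₀ : X₀ × Ω, ∫⁻ z₁ : X₁ × Ω,
      G ((act₀ z₀.1 r z₀.2, act₁ z₁.1 s z₁.2), (z₀.1, z₁.1)) ∂(vol₁.prod m) ∂(vol₀.prod m)
  have c₀ : Measurable fun q : (X₀ × Ω) × (X₁ × Ω) => act₀ q.1.1 r q.1.2 := a₀.comp measurable_fst
  have c₁ : Measurable fun q : (X₀ × Ω) × (X₁ × Ω) => act₁ q.2.1 s q.2.2 := a₁.comp measurable_snd
  simp_rw [e1]
  rw [lintegral_lintegral_swap]
  · simp_rw [e2]
    rw [lintegral_lintegral_swap]
    apply Measurable.aemeasurable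
    have c₀' : Measurable fun q : (X₁ × Ω) × (X₀ × Ω) => act₀ q.2.1 r q.2.2 := a₀.comp measurable_snd
    have c₁' : Measurable fun q : (X₁ × Ω) × (X₀ × Ω) => act₁ q.1.1 s q.1.2 := a₁.comp measurable_fst
    exact hG.comp ((c₀'.prodMk c₁').prodMk (by fun_prop))
  · apply Measurable.aemeasurable
    exact hG.comp (((by fun_prop : Measurable fun q : (X₀ × Ω) × (X₁ × Ω) => q.1.1).prodMk c₁).prodMk
      (c₀.prodMk (by fun_prop)))

/-- the real form, for continuous functions with compact support -/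
theorem sym_real {vol₀ : Measure X₀} {vol₁ : Measure X₁} [IsFiniteMeasureOnCompacts vol₀]
    [IsFiniteMeasureOnCompacts vol₁]
    {act₀ : X₀ → ℝ → Ω → X₀} {act₁ : X₁ → ℝ → Ω → X₁}
    (h₀ : Continuous fun p : X₀ × ℝ × Ω => act₀ p.1 p.2.1 p.2.2)
    (h₁ : Continuous fun p : X₁ × ℝ × Ω => act₁ p.1 p.2.1 p.2.2)
    (hrev₀ : Rev m act₀ vol₀) (hrev₁ : Rev m act₁ vol₁) {r s : ℝ} (hr : 0 ≤ r) (hs : 0 ≤ s)
    {f g : X₀ × X₁ → ℝ} (hf : Continuous f) (hfc : HasCompactSupport f) (hg : Continuous g)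
    (hgc : HasCompactSupport g) :
    ∫ x, (∫ w : Ω × Ω, f (act₀ x.1 r w.1, act₁ x.2 s w.2) ∂(m.prod m)) * g x ∂(vol₀.prod vol₁) =
      ∫ x, f x * (∫ w : Ω × Ω, g (act₀ x.1 r w.1, act₁ x.2 s w.2) ∂(m.prod m))
        ∂(vol₀.prod vol₁) := by
  set μ := (vol₀.prod vol₁).prod (m.prod m) with hμ
  let Φ : (X₀ × X₁) × (Ω × Ω) → X₀ × X₁ := fun p => (act₀ p.1.1 r p.2.1, act₁ p.1.2 s p.2.2)
  have hΦ : Continuous Φ := by
    refine Continuous.prodMk ?_ ?_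
    · exact h₀.comp ((continuous_fst.comp continuous_fst).prodMk
        (continuous_const.prodMk (continuous_fst.comp continuous_snd)))
    · exact h₁.comp ((continuous_snd.comp continuous_fst).prodMk
        (continuous_const.prodMk (continuous_snd.comp continuous_snd)))
  have hmeas : μ.map (fun p => (p.1, Φ p)) = μ.map (fun p => (Φ p, p.1)) := by
    have m1 : Measurable fun p : (X₀ × X₁) × (Ω × Ω) => (p.1, Φ p) :=
      measurable_fst.prodMk hΦ.measurable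
    have m2 : Measurable fun p : (X₀ × X₁) × (Ω × Ω) => (Φ p, p.1) :=
      hΦ.measurable.prodMk measurable_fst
    ext A hA
    have h := sym_two m h₀ h₁ hrev₀ hrev₁ hr hs (G := A.indicator fun _ => 1)
      (measurable_const.indicator hA)
    rw [Measure.map_apply m1 hA, Measure.map_apply m2 hA]
    have e1 : μ ((fun p => (p.1, Φ p)) ⁻¹' A) = ∫⁻ p, (A.indicator fun _ => 1) (p.1, Φ p) ∂μ := by
      have : (fun p => (A.indicator fun _ => (1 : ENNReal)) (p.1, Φ p)) =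
          ((fun p => (p.1, Φ p)) ⁻¹' A).indicator fun _ => 1 := by
        funext p
        rfl
      rw [this, lintegral_indicator_const (m1 hA), one_mul]
    have e2 : μ ((fun p => (Φ p, p.1)) ⁻¹' A) = ∫⁻ p, (A.indicator fun _ => 1) (Φ p, p.1) ∂μ := by
      have : (fun p => (A.indicator fun _ => (1 : ENNReal)) (Φ p, p.1)) =
          ((fun p => (Φ p, p.1)) ⁻¹' A).indicator fun _ => 1 := by
        funext p
        rfl
      rw [this, lintegral_indicator_const (m2 hA), one_mul]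
    rw [e1, e2]
    exact h
  have i1 : Integrable (fun p : (X₀ × X₁) × (Ω × Ω) => f (Φ p) * g p.1) μ := by
    refine ((hf.comp hΦ).mul (hg.comp continuous_fst)).integrable_of_hasCompactSupport ?_
    refine HasCompactSupport.intro (hgc.isCompact.prod isCompact_univ) ?_
    intro p hp
    have : p.1 ∉ tsupport g := fun h => hp ⟨h, Set.mem_univ _⟩
    change f (Φ p) * g p.1 = 0
    rw [image_eq_zero_of_notMem_tsupport this, mul_zero]
  have i2 : Integrable (fun p : (X₀ × X₁) × (Ω × Ω) => f p.1 * g (Φ p)) μ := by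
    refine ((hf.comp continuous_fst).mul (hg.comp hΦ)).integrable_of_hasCompactSupport ?_
    refine HasCompactSupport.intro (hfc.isCompact.prod isCompact_univ) ?_
    intro p hp
    have : p.1 ∉ tsupport f := fun h => hp ⟨h, Set.mem_univ _⟩
    change f p.1 * g (Φ p) = 0
    rw [image_eq_zero_of_notMem_tsupport this, zero_mul]
  have key : ∫ p, f (Φ p) * g p.1 ∂μ = ∫ p, f p.1 * g (Φ p) ∂μ := by
    have hc : Continuous fun q : (X₀ × X₁) × (X₀ × X₁) => f q.2 * g q.1 :=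
      (hf.comp continuous_snd).mul (hg.comp continuous_fst)
    have k1 := integral_map (μ := μ) (φ := fun p => (p.1, Φ p))
      (measurable_fst.prodMk hΦ.measurable).aemeasurable (hc.measurable.aestronglyMeasurable)
    have k2 := integral_map (μ := μ) (φ := fun p => (Φ p, p.1))
      (hΦ.measurable.prodMk measurable_fst).aemeasurable (hc.measurable.aestronglyMeasurable)
    rw [hmeas] at k1
    exact k1.symm.trans k2
  rw [hμ, integral_prod _ i1, integral_prod _ i2] at key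
  have e3 : ∀ x : X₀ × X₁, ∫ w : Ω × Ω, f (Φ (x, w)) * g x ∂(m.prod m) =
      (∫ w : Ω × Ω, f (act₀ x.1 r w.1, act₁ x.2 s w.2) ∂(m.prod m)) * g x := fun x =>
    integral_mul_const _ _
  have e4 : ∀ x : X₀ × X₁, ∫ w : Ω × Ω, f x * g (Φ (x, w)) ∂(m.prod m) =
      f x * (∫ w : Ω × Ω, g (act₀ x.1 r w.1, act₁ x.2 s w.2) ∂(m.prod m)) := fun x =>
    integral_const_mul _ _
  simp_rw [e3, e4] at key
  exact key

/-- continuity of the spherical means -/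
theorem mean_cont {act₀ : X₀ → ℝ → Ω → X₀} {act₁ : X₁ → ℝ → Ω → X₁}
    (h₀ : Continuous fun p : X₀ × ℝ × Ω => act₀ p.1 p.2.1 p.2.2)
    (h₁ : Continuous fun p : X₁ × ℝ × Ω => act₁ p.1 p.2.1 p.2.2) (r s : ℝ)
    {f : X₀ × X₁ → ℝ} (hf : Continuous f) :
    Continuous fun x : X₀ × X₁ => ∫ w : Ω × Ω, f (act₀ x.1 r w.1, act₁ x.2 s w.2) ∂(m.prod m) := by
  refine continuous_param (F := fun (x : X₀ × X₁) (w : Ω × Ω) =>
    f (act₀ x.1 r w.1, act₁ x.2 s w.2)) ?_ isCompact_univ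
    (fun x w hw => absurd (Set.mem_univ w) hw)
  refine hf.comp (Continuous.prodMk ?_ ?_)
  · exact h₀.comp ((continuous_fst.comp continuous_fst).prodMk
      (continuous_const.prodMk (continuous_fst.comp continuous_snd)))
  · exact h₁.comp ((continuous_snd.comp continuous_fst).prodMk
      (continuous_const.prodMk (continuous_snd.comp continuous_snd)))

/-- integrals with respect to one summand of the kernel -/
theorem int_prm {φ : Ω × Ω → X₀ × X₁} (hφ : Measurable φ) {c : ℝ} (hc : 0 ≤ c) {f : X₀ × X₁ → ℝ}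
    (hf : Continuous f) :
    ∫ y, f y ∂(((m.prod m).withDensity fun _ => ENNReal.ofReal c).map φ) =
      c * ∫ w, f (φ w) ∂(m.prod m) := by
  rw [integral_map hφ.aemeasurable hf.measurable.aestronglyMeasurable, withDensity_const,
    integral_smul_measure, ENNReal.toReal_ofReal hc, smul_eq_mul]

theorem int_KK {act₀ : X₀ → ℝ → Ω → X₀} {act₁ : X₁ → ℝ → Ω → X₁} {w₀ w₁ : ℝ → ℝ}
    (h₀ : Continuous fun p : X₀ × ℝ × Ω => act₀ p.1 p.2.1 p.2.2)
    (h₁ : Continuous fun p : X₁ × ℝ × Ω => act₁ p.1 p.2.1 p.2.2) (hw₀ : ∀ r, 0 < w₀ r)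
    (hw₁ : ∀ r, 0 < w₁ r) (x : X₀ × X₁) (h : D) {f : X₀ × X₁ → ℝ} (hf : Continuous f)
    (hfc : HasCompactSupport f) :
    ∫ y, f y ∂(KK m act₀ act₁ w₀ w₁ x h) =
      w₀ h.1.1 * w₁ h.1.2 / sW w₀ w₁ h *
        (∫ w : Ω × Ω, f (act₀ x.1 h.1.1 w.1, act₁ x.2 h.1.2 w.2) ∂(m.prod m)) +
      w₀ h.1.2 * w₁ h.1.1 / sW w₀ w₁ h *
        (∫ w : Ω × Ω, f (act₀ x.1 h.1.2 w.1, act₁ x.2 h.1.1 w.2) ∂(m.prod m)) := by
  have hsW : 0 < sW w₀ w₁ h := add_pos (mul_pos (hw₀ _) (hw₁ _)) (mul_pos (hw₀ _) (hw₁ _))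
  have hφ : ∀ r s : ℝ, Measurable fun w : Ω × Ω => (act₀ x.1 r w.1, act₁ x.2 s w.2) := by
    intro r s
    refine (Continuous.prodMk ?_ ?_).measurable
    · exact h₀.comp (continuous_const.prodMk (continuous_const.prodMk continuous_fst))
    · exact h₁.comp (continuous_const.prodMk (continuous_const.prodMk continuous_snd))
  have hint : ∀ (c : ℝ) (φ : Ω × Ω → X₀ × X₁), Integrable f
      (((m.prod m).withDensity fun _ => ENNReal.ofReal c).map φ) := by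
    intro c φ
    have : IsFiniteMeasure ((m.prod m).withDensity fun _ => ENNReal.ofReal c) := by
      rw [withDensity_const]
      exact Measure.smul_finite _ ENNReal.ofReal_ne_top
    obtain ⟨M, hM⟩ := hfc.exists_bound_of_continuous hf
    exact Integrable.mono' (integrable_const M) hf.measurable.aestronglyMeasurable
      (Eventually.of_forall hM)
  unfold KK prm
  rw [integral_add_measure (hint _ _) (hint _ _),
    int_prm m (hφ h.1.1 h.1.2) (div_nonneg (mul_nonneg (hw₀ _).le (hw₁ _).le) hsW.le) hf,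
    int_prm m (hφ h.1.2 h.1.1) (div_nonneg (mul_nonneg (hw₀ _).le (hw₁ _).le) hsW.le) hf]

end

theorem main : S_KREV := by
  intro X₀ X₁ Ω _ _ _ _ _ _ _ _ _ _ _ _ _ _ _ _ _ _ m _ _ act₀ act₁ d₀ d₁ w₀ w₁ vol₀ vol₁ _ _
    g₀ g₁ hw₀ hw₁ hrev₀ hrev₁ h f g hf hfc hg hgc
  have h₀ := g₀.act_cont
  have h₁ := g₁.act_cont
  have hr : 0 ≤ h.1.1 := h.2.1.trans h.2.2
  have hs : 0 ≤ h.1.2 := h.2.1
  simp_rw [fun x => int_KK m h₀ h₁ hw₀.pos hw₁.pos x h hf hfc,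
    fun x => int_KK m h₀ h₁ hw₀.pos hw₁.pos x h hg hgc]
  set c := w₀ h.1.1 * w₁ h.1.2 / sW w₀ w₁ h
  set c' := w₀ h.1.2 * w₁ h.1.1 / sW w₀ w₁ h
  have s1 := sym_real m h₀ h₁ hrev₀ hrev₁ hr hs hf hfc hg hgc
  have s2 := sym_real m h₀ h₁ hrev₀ hrev₁ hs hr hf hfc hg hgc
  have i1 : ∀ r s : ℝ, Integrable (fun x : X₀ × X₁ =>
      (∫ w : Ω × Ω, f (act₀ x.1 r w.1, act₁ x.2 s w.2) ∂(m.prod m)) * g x) (vol₀.prod vol₁) :=
    fun r s => ((mean_cont m h₀ h₁ r s hf).mul hg).integrable_of_hasCompactSupport hgc.mul_left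
  have i2 : ∀ r s : ℝ, Integrable (fun x : X₀ × X₁ =>
      f x * (∫ w : Ω × Ω, g (act₀ x.1 r w.1, act₁ x.2 s w.2) ∂(m.prod m))) (vol₀.prod vol₁) :=
    fun r s => (hf.mul (mean_cont m h₀ h₁ r s hg)).integrable_of_hasCompactSupport hfc.mul_right
  have eL : ∀ A B u : ℝ, (c * A + c' * B) * u = c * (A * u) + c' * (B * u) := fun A B u => by ring
  have eR : ∀ A B u : ℝ, u * (c * A + c' * B) = c * (u * A) + c' * (u * B) := fun A B u => by ring
  simp_rw [eL, eR]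
  rw [integral_add ((i1 _ _).const_mul c) ((i1 _ _).const_mul c'),
    integral_add ((i2 _ _).const_mul c) ((i2 _ _).const_mul c'), integral_const_mul,
    integral_const_mul, integral_const_mul, integral_const_mul, s1, s2]

end Pool.Agent.H204.CS.P_KREV
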