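import Pool.Agent.H204.CS.Stm

/-!
# Project CS of helper204: the piece MAT (algebra of the two by two matrices)
-/

set_option autoImplicit false

namespace Pool.Agent.H204.CS.P_MAT

open MeasureTheory Topology Pool.Agent.V1135.CAS Matrix

lemma unit1 (k : U) : k.1 * k.1ᴴ = 1 := by
  have := Matrix.mem_unitaryGroup_iff.1 k.2
  rwa [Matrix.star_eq_conjTranspose] at this

lemma unit2 (k : U) : k.1ᴴ * k.1 = 1 := by
  have := Matrix.mem_unitaryGroup_iff'.1 k.2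
  rwa [Matrix.star_eq_conjTranspose] at this

lemma dg_eq (s : ℝ) : dg s = (Real.cosh s : ℂ) • (1 : Matrix (Fin 2) (Fin 2) ℂ) +
    (Real.sinh s : ℂ) • !![1, 0; 0, -1] := by
  have h1 : Real.exp s = Real.cosh s + Real.sinh s := (Real.cosh_add_sinh s).symm
  have h2 : Real.exp (-s) = Real.cosh s - Real.sinh s := (Real.cosh_sub_sinh s).symm
  unfold dg
  rw [h1, h2]
  ext i j
  fin_cases i <;> fin_cases j <;> simp [sub_eq_add_neg]

lemma em_eq (h : S_HOPF) (s : ℝ) (k : U) : em s k =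
    !![((Real.cosh s + Real.sinh s * zt k : ℝ) : ℂ), (Real.sinh s : ℂ) * xi k;
      (Real.sinh s : ℂ) * starRingEnd ℂ (xi k), ((Real.cosh s - Real.sinh s * zt k : ℝ) : ℂ)] := by
  have h3 := h.2.2 k
  unfold em
  rw [dg_eq, Matrix.mul_add, Matrix.add_mul, Matrix.mul_smul, Matrix.smul_mul, Matrix.mul_one,
    unit1, Matrix.mul_smul, Matrix.smul_mul, h3]
  ext i j
  fin_cases i <;> fin_cases j <;> simp [sub_eq_add_neg]

lemma zt_le (h : S_HOPF) (k : U) : |zt k| ≤ 1 := by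
  have h1 := h.1 k
  have h2 := Complex.normSq_nonneg (xi k)
  rw [abs_le_one_iff_mul_self_le_one]
  nlinarith

lemma q_pos (h : S_HOPF) (s : ℝ) (k : U) : 0 < Real.cosh s + Real.sinh s * zt k := by
  have h1 := zt_le h k
  have h2 : |Real.sinh s| < Real.cosh s := by
    apply abs_lt_of_sq_lt_sq _ (Real.cosh_pos s).le
    rw [Real.cosh_sq]
    linarith
  have h3 : |Real.sinh s * zt k| ≤ |Real.sinh s| := by
    rw [abs_mul]
    exact mul_le_of_le_one_right (abs_nonneg _) h1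
  have h4 := neg_abs_le (Real.sinh s * zt k)
  linarith

/-- the matrix of a point -/
lemma gg_eq (x : ℝ × ℂ) : gm x * (gm x)ᴴ =
    !![(Real.exp x.1 : ℂ), (Real.exp (x.1 / 2) : ℂ) * starRingEnd ℂ x.2;
      (Real.exp (x.1 / 2) : ℂ) * x.2, (Complex.normSq x.2 : ℂ) + (Real.exp (-x.1) : ℂ)] := by
  have h1 : Real.exp x.1 = Real.exp (x.1 / 2) * Real.exp (x.1 / 2) := by
    rw [← Real.exp_add]; congr 1; ring
  have h2 : Real.exp (-x.1) = Real.exp (-x.1 / 2) * Real.exp (-x.1 / 2) := by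
    rw [← Real.exp_add]; congr 1; ring
  rw [h1, h2]
  unfold gm
  ext i j
  fin_cases i <;> fin_cases j <;>
    simp [Matrix.mul_apply, Fin.sum_univ_two, Matrix.conjTranspose_apply, -Complex.ofReal_exp,
      Complex.conj_ofReal, Complex.normSq_eq_conj_mul_self, mul_comm]

lemma alg11 (b c S z r : ℝ) (w ξ : ℂ) (hr : 0 < r) (hq : r ^ 2 = c + S * z)
    (hc : c ^ 2 = S ^ 2 + 1) (hξ : z ^ 2 + Complex.normSq ξ = 1) :
    (Complex.normSq (w * (r : ℂ) + ((b * S / r : ℝ) : ℂ) * starRingEnd ℂ ξ) : ℂ) +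
      ((b ^ 2 / r ^ 2 : ℝ) : ℂ) =
    (w * ((c + S * z : ℝ) : ℂ) + (b : ℂ) * ((S : ℂ) * starRingEnd ℂ ξ)) * starRingEnd ℂ w +
      (w * ((S : ℂ) * ξ) + (b : ℂ) * ((c - S * z : ℝ) : ℂ)) * (b : ℂ) := by
  have hr' : (r : ℂ) ≠ 0 := by exact_mod_cast hr.ne'
  have hq' : (r : ℂ) ^ 2 = (c : ℂ) + S * z := by exact_mod_cast hq
  have hc' : (c : ℂ) ^ 2 = (S : ℂ) ^ 2 + 1 := by exact_mod_cast hc
  have hξ' : (z : ℂ) ^ 2 + starRingEnd ℂ ξ * ξ = 1 := by
    rw [← Complex.normSq_eq_conj_mul_self]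
    exact_mod_cast hξ
  rw [Complex.normSq_eq_conj_mul_self]
  simp only [map_add, map_mul, Complex.conj_ofReal, Complex.conj_conj]
  push_cast
  have e1 : (b : ℂ) * S / r * (b * S / r) = b ^ 2 * S ^ 2 / r ^ 2 := by
    field_simp
  have e2 : (b : ℂ) ^ 2 * S ^ 2 / r ^ 2 * (starRingEnd ℂ ξ * ξ) + b ^ 2 / r ^ 2 =
      b ^ 2 * (c - S * z) := by
    have h1 : starRingEnd ℂ ξ * ξ = 1 - (z : ℂ) ^ 2 := by linear_combination hξ'
    rw [h1]
    have h2 : (b : ℂ) ^ 2 * S ^ 2 / r ^ 2 * (1 - z ^ 2) + b ^ 2 / r ^ 2 =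
        b ^ 2 * (S ^ 2 * (1 - z ^ 2) + 1) / r ^ 2 := by ring
    rw [h2, div_eq_iff (pow_ne_zero 2 hr'), hq']
    linear_combination (-(b : ℂ) ^ 2) * hc'
  have e3 : (r : ℂ) * (b * S / r) = b * S := by field_simp
  linear_combination (starRingEnd ℂ w * w) * hq' + (starRingEnd ℂ ξ * ξ) * e1 + e2 +
    (w * ξ + starRingEnd ℂ w * starRingEnd ℂ ξ) * e3

theorem part1 (h : S_HOPF) (x : ℝ × ℂ) (s : ℝ) (k : U) :
    gm (act1 x s k) * (gm (act1 x s k))ᴴ = gm x * em s k * (gm x)ᴴ := by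
  obtain ⟨c, hc⟩ : ∃ c, c = Real.cosh s := ⟨_, rfl⟩
  obtain ⟨S, hS⟩ : ∃ S, S = Real.sinh s := ⟨_, rfl⟩
  obtain ⟨z, hz⟩ : ∃ z, z = zt k := ⟨_, rfl⟩
  obtain ⟨ξ, hξ⟩ : ∃ ξ, ξ = xi k := ⟨_, rfl⟩
  have hq0 : 0 < c + S * z := by rw [hc, hS, hz]; exact q_pos h s k
  obtain ⟨r, hr⟩ : ∃ r, r = Real.sqrt (c + S * z) := ⟨_, rfl⟩
  have hr0 : 0 < r := by rw [hr]; exact Real.sqrt_pos.2 hq0
  have hr2 : r ^ 2 = c + S * z := by rw [hr]; exact Real.sq_sqrt hq0.le
  obtain ⟨t, w⟩ := x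
  have hact : act1 (t, w) s k = (t + Real.log (c + S * z),
      w * (r : ℂ) + ((Real.exp (-t / 2) * S / r : ℝ) : ℂ) * starRingEnd ℂ ξ) := by
    unfold act1
    rw [hr, hc, hS, hz, hξ]
  have hcs : c ^ 2 = S ^ 2 + 1 := by rw [hc, hS, Real.cosh_sq]
  have hxi : z ^ 2 + Complex.normSq ξ = 1 := by rw [hz, hξ]; exact h.1 k
  have key := alg11 (Real.exp (-t / 2)) c S z r w ξ hr0 hr2 hcs hxi
  have E1 : Real.exp (t + Real.log (c + S * z)) = Real.exp (t / 2) ^ 2 * (c + S * z) := by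
    rw [Real.exp_add, Real.exp_log hq0, sq, ← Real.exp_add]
    congr 2; ring
  have E2 : Real.exp ((t + Real.log (c + S * z)) / 2) = Real.exp (t / 2) * r := by
    have h1 : 0 ≤ Real.exp (t / 2) * r := by positivity
    rw [← Real.sqrt_sq h1, mul_pow, hr2, ← E1, ← Real.sqrt_sq (Real.exp_pos _).le, sq,
      ← Real.exp_add]
    congr 2; ring
  have E3 : Real.exp (-(t + Real.log (c + S * z))) = Real.exp (-t / 2) ^ 2 / r ^ 2 := by
    rw [neg_add, Real.exp_add, Real.exp_neg (Real.log _), Real.exp_log hq0, hr2, sq,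
      ← Real.exp_add]
    have : -t / 2 + -t / 2 = -t := by ring
    rw [this]
    rfl
  have E4 : Real.exp (t / 2) * Real.exp (-t / 2) = 1 := by
    rw [← Real.exp_add]
    have : t / 2 + -t / 2 = 0 := by ring
    rw [this, Real.exp_zero]
  rw [gg_eq, em_eq h, hact, ← hc, ← hS, ← hz, ← hξ]
  dsimp only
  rw [E1, E2, E3]
  unfold gm
  dsimp only
  obtain ⟨a, ha⟩ : ∃ a, a = Real.exp (t / 2) := ⟨_, rfl⟩
  obtain ⟨b, hb⟩ : ∃ b, b = Real.exp (-t / 2) := ⟨_, rfl⟩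
  rw [← ha, ← hb]
  rw [← hb] at key
  rw [← ha, ← hb] at E4
  have hr' : (r : ℂ) ≠ 0 := by exact_mod_cast hr0.ne'
  have hr2' : (r : ℂ) ^ 2 = (c : ℂ) + S * z := by exact_mod_cast hr2
  have E4' : (a : ℂ) * b = 1 := by exact_mod_cast E4
  have e3 : (r : ℂ) * (b * S / r) = b * S := by field_simp
  ext i j
  fin_cases i <;> fin_cases j
  · simp [Matrix.mul_apply, Fin.sum_univ_two, Matrix.conjTranspose_apply, Complex.conj_ofReal]
    ring
  · simp [Matrix.mul_apply, Fin.sum_univ_two, Matrix.conjTranspose_apply, Complex.conj_ofReal]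
    linear_combination (a * starRingEnd ℂ w) * hr2' + (a * ξ) * e3
  · simp [Matrix.mul_apply, Fin.sum_univ_two, Matrix.conjTranspose_apply, Complex.conj_ofReal]
    linear_combination (a * w) * hr2' + (a * starRingEnd ℂ ξ) * e3
  · simp only [Matrix.mul_apply, Fin.sum_univ_two, Matrix.conjTranspose_apply]
    simp only [Fin.mk_one, Fin.isValue, Fin.zero_eta, Matrix.of_apply, Matrix.cons_val',
      Matrix.cons_val_zero, Matrix.cons_val_one, Matrix.cons_val_fin_one, RCLike.star_def,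
      Complex.conj_ofReal, map_zero]
    rw [key]

theorem part2 (x y : ℝ × ℂ) (h : gm x * (gm x)ᴴ = gm y * (gm y)ᴴ) : x = y := by
  rw [gg_eq, gg_eq] at h
  have h0 := congrFun (congrFun h 0) 0
  have h1 := congrFun (congrFun h 1) 0
  simp only [Fin.isValue, Matrix.of_apply, Matrix.cons_val', Matrix.cons_val_zero,
    Matrix.cons_val_one, Matrix.cons_val_fin_one] at h0 h1
  have h2 : x.1 = y.1 := Real.exp_injective (by exact_mod_cast h0)
  rw [h2] at h1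
  have h3 : (Real.exp (y.1 / 2) : ℂ) ≠ 0 := by exact_mod_cast (Real.exp_pos _).ne'
  exact Prod.ext h2 (mul_left_cancel₀ h3 h1)

theorem part3 (x : ℝ × ℂ) : (gm x).det = 1 := by
  unfold gm
  rw [Matrix.det_fin_two_of, zero_mul, sub_zero, ← Complex.ofReal_mul, ← Real.exp_add]
  have : x.1 / 2 + -x.1 / 2 = 0 := by ring
  rw [this, Real.exp_zero, Complex.ofReal_one]

/-- the inverse of `gm x` -/
noncomputable def gi (x : ℝ × ℂ) : Matrix (Fin 2) (Fin 2) ℂ :=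
  !![(Real.exp (-x.1 / 2) : ℂ), 0; -x.2, (Real.exp (x.1 / 2) : ℂ)]

lemma gi_gm (x : ℝ × ℂ) : gi x * gm x = 1 := by
  have h : Real.exp (x.1 / 2) * Real.exp (-x.1 / 2) = 1 := by
    rw [← Real.exp_add]
    have : x.1 / 2 + -x.1 / 2 = 0 := by ring
    rw [this, Real.exp_zero]
  have h' : (Real.exp (x.1 / 2) : ℂ) * (Real.exp (-x.1 / 2) : ℂ) = 1 := by exact_mod_cast h
  unfold gi gm
  rw [Matrix.mul_fin_two, Matrix.one_fin_two]
  congr 1
  ext i j
  fin_cases i <;> fin_cases j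
  · show (Real.exp (-x.1 / 2) : ℂ) * (Real.exp (x.1 / 2) : ℂ) + 0 * x.2 = 1
    linear_combination h'
  · show (Real.exp (-x.1 / 2) : ℂ) * 0 + 0 * (Real.exp (-x.1 / 2) : ℂ) = 0
    ring
  · show -x.2 * (Real.exp (x.1 / 2) : ℂ) + (Real.exp (x.1 / 2) : ℂ) * x.2 = 0
    ring
  · show -x.2 * 0 + (Real.exp (x.1 / 2) : ℂ) * (Real.exp (-x.1 / 2) : ℂ) = 1
    linear_combination h'

theorem part4 (x y : ℝ × ℂ) (P : Matrix (Fin 2) (Fin 2) ℂ)
    (hP : gm y * (gm y)ᴴ = gm x * P * (gm x)ᴴ) : (Real.cosh (d1 x y) : ℂ) = P.trace / 2 := by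
  have h1 : P = (gi x * gm y) * (gi x * gm y)ᴴ := by
    rw [Matrix.conjTranspose_mul]
    have h2 : gi x * gm y * ((gm y)ᴴ * (gi x)ᴴ) = gi x * (gm y * (gm y)ᴴ) * (gi x)ᴴ := by
      simp only [Matrix.mul_assoc]
    rw [h2, hP]
    have h3 : gi x * (gm x * P * (gm x)ᴴ) * (gi x)ᴴ =
        (gi x * gm x) * P * ((gi x * gm x)ᴴ) := by
      rw [Matrix.conjTranspose_mul]
      simp only [Matrix.mul_assoc]
    rw [h3, gi_gm, Matrix.one_mul, Matrix.conjTranspose_one, Matrix.mul_one]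
  have h4 : 1 ≤ Real.cosh (y.1 - x.1) + Complex.normSq
    ((Real.exp (x.1 / 2) : ℂ) * y.2 - (Real.exp (y.1 / 2) : ℂ) * x.2) / 2 := by
    have := Real.one_le_cosh (y.1 - x.1)
    have := Complex.normSq_nonneg ((Real.exp (x.1 / 2) : ℂ) * y.2 - (Real.exp (y.1 / 2) : ℂ) * x.2)
    linarith
  have h5 : Real.cosh (d1 x y) = Real.cosh (y.1 - x.1) + Complex.normSq
    ((Real.exp (x.1 / 2) : ℂ) * y.2 - (Real.exp (y.1 / 2) : ℂ) * x.2) / 2 := by
    unfold d1
    exact Real.cosh_arcosh h4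
  rw [h5, h1]
  obtain ⟨t, w⟩ := x
  obtain ⟨t', w'⟩ := y
  dsimp only
  have h6 : gi (t, w) * gm (t', w') = !![(Real.exp ((t' - t) / 2) : ℂ), 0;
      (Real.exp (t / 2) : ℂ) * w' - (Real.exp (t' / 2) : ℂ) * w,
      (Real.exp (-(t' - t) / 2) : ℂ)] := by
    have a1 : Real.exp ((t' - t) / 2) = Real.exp (-t / 2) * Real.exp (t' / 2) := by
      rw [← Real.exp_add]; congr 1; ring
    have a2 : Real.exp (-(t' - t) / 2) = Real.exp (t / 2) * Real.exp (-t' / 2) := by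
      rw [← Real.exp_add]; congr 1; ring
    rw [a1, a2]
    unfold gi gm
    dsimp only
    rw [Matrix.mul_fin_two]
    congr 1
    ext i j
    fin_cases i <;> fin_cases j <;> simp <;> ring
  rw [h6, Matrix.trace_fin_two]
  simp only [Matrix.mul_apply, Fin.sum_univ_two, Matrix.conjTranspose_apply]
  simp only [Fin.isValue, Matrix.of_apply, Matrix.cons_val', Matrix.cons_val_zero,
    Matrix.cons_val_one, Matrix.cons_val_fin_one, RCLike.star_def, Complex.conj_ofReal, map_zero]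
  have a3 : 2 * Real.cosh (t' - t) = Real.exp ((t' - t) / 2) * Real.exp ((t' - t) / 2) +
      Real.exp (-(t' - t) / 2) * Real.exp (-(t' - t) / 2) := by
    rw [← Real.exp_add, ← Real.exp_add, Real.cosh_eq]
    have b1 : (t' - t) / 2 + (t' - t) / 2 = t' - t := by ring
    have b2 : -(t' - t) / 2 + -(t' - t) / 2 = -(t' - t) := by ring
    rw [b1, b2]
    ring
  have a3' : 2 * (Real.cosh (t' - t) : ℂ) = (Real.exp ((t' - t) / 2) : ℂ) *
      (Real.exp ((t' - t) / 2) : ℂ) + (Real.exp (-(t' - t) / 2) : ℂ) *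
      (Real.exp (-(t' - t) / 2) : ℂ) := by exact_mod_cast a3
  have a4 := Complex.normSq_eq_conj_mul_self
    (z := (Real.exp (t / 2) : ℂ) * w' - (Real.exp (t' / 2) : ℂ) * w)
  push_cast at a3' a4 ⊢
  rw [a4]
  linear_combination (1 / 2 : ℂ) * a3'

theorem part5 (s : ℝ) (k : U) : (em s k).trace = 2 * Real.cosh s := by
  unfold em
  rw [Matrix.trace_mul_comm, ← Matrix.mul_assoc, unit2, Matrix.one_mul]
  unfold dg
  rw [Matrix.trace_fin_two]
  simp only [Fin.isValue, Matrix.of_apply, Matrix.cons_val', Matrix.cons_val_zero,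
    Matrix.cons_val_one, Matrix.cons_val_fin_one]
  rw [Real.cosh_eq]
  push_cast
  ring

theorem main : S_MAT := fun h =>
  ⟨part1 h, part2, part3, part4, part5⟩

end Pool.Agent.H204.CS.P_MAT
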