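import Pool.Agent.H204.CS.Stm

/-!
# Project CS, task NUM: numerical contradiction of the volumes
-/

set_option autoImplicit false

namespace Pool.Agent.H204.CS.P_NUM

open MeasureTheory Topology Filter Pool.Agent.H204.CS

theorem shell {X : Type} [MeasurableSpace X] (μ : Measure X) (d : X → ℝ) (hd : Measurable d)
    (V : ℝ → ℝ) (hV : Continuous V) (h : ∀ R : ℝ, 0 ≤ R → μ {y | d y < R} = ENNReal.ofReal (V R))
    (h1 : 0 ≤ V 1) : μ {y | 1 < d y ∧ d y < 2} = ENNReal.ofReal (V 2 - V 1) := by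
  have hle : MeasurableSet {y | d y ≤ 1} := measurableSet_le hd measurable_const
  have e1 : μ {y | d y ≤ 1} = ENNReal.ofReal (V 1) := by
    apply le_antisymm
    · have ht : Tendsto (fun n : ℕ => ENNReal.ofReal (V (1 + 1 / ((n : ℝ) + 1)))) atTop
          (𝓝 (ENNReal.ofReal (V 1))) := by
        have h2 : Tendsto (fun n : ℕ => 1 + 1 / ((n : ℝ) + 1)) atTop (𝓝 (1 + 0)) :=
          tendsto_const_nhds.add tendsto_one_div_add_atTop_nhds_zero_nat
        rw [add_zero] at h2
        exact ((ENNReal.continuous_ofReal.comp hV).tendsto 1).comp h2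
      refine ge_of_tendsto' ht fun n => ?_
      have hp : (0 : ℝ) < 1 / ((n : ℝ) + 1) := by positivity
      rw [← h _ (by linarith)]
      refine measure_mono fun y hy => ?_
      change d y ≤ 1 at hy
      change d y < _
      linarith
    · rw [← h 1 zero_le_one]
      exact measure_mono fun y (hy : d y < 1) => (le_of_lt hy : d y ≤ 1)
  have e2 : {y | 1 < d y ∧ d y < 2} = {y | d y < 2} \ {y | d y ≤ 1} := by
    ext y
    constructor
    · rintro ⟨a, b⟩
      exact ⟨b, not_le.mpr a⟩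
    · rintro ⟨a, b⟩
      exact ⟨not_le.mp b, a⟩
  rw [e2, measure_sdiff _ hle.nullMeasurableSet (by rw [e1]; exact ENNReal.ofReal_ne_top), e1,
    h 2 zero_le_two, ENNReal.ofReal_sub _ h1]
  intro y hy
  change d y ≤ 1 at hy
  change d y < 2
  linarith

theorem exp2 : 7 < Real.exp 2 ∧ Real.exp 2 < 8 := by
  have h1 := Real.exp_one_gt_d9
  have h2 := Real.exp_one_lt_d9
  have h3 : Real.exp 2 = Real.exp 1 * Real.exp 1 := by
    rw [← Real.exp_add]; norm_num
  rw [h3]
  constructor <;> nlinarith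

theorem main : S_NUM := by
  intro hV0 _ hH hC hV1
  obtain ⟨-, c1, -⟩ := hC hH
  have m0 : Measurable (fun y : ℝ × ℂ => d0 0 y) := by
    have : Continuous (fun y : ℝ × ℂ => d0 0 y) := by
      unfold d0
      have := Complex.continuous_normSq
      fun_prop
    exact this.measurable
  have m1 : Measurable (fun y : ℝ × ℂ => d1 0 y) := by
    have : Continuous (fun y : ℝ × ℂ => d1 0 y) :=
      c1.comp (continuous_const.prodMk continuous_id)
    exact this.measurable
  have hpi := Real.pi_pos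
  obtain ⟨g1, g2⟩ := exp2
  have hexp : Real.exp (-2) = 1 / Real.exp 2 := by rw [Real.exp_neg, one_div]
  have hb : 0 < Real.exp (-2) ∧ Real.exp (-2) < 1 := by
    rw [hexp]
    constructor
    · positivity
    · rw [div_lt_one (by positivity)]; linarith
  have hs : Real.sinh 2 = (Real.exp 2 - Real.exp (-2)) / 2 := Real.sinh_eq 2
  have hc : Real.cosh 2 = (Real.exp 2 + Real.exp (-2)) / 2 := Real.cosh_eq 2
  have hs1 : 3 ≤ Real.sinh 2 ∧ Real.sinh 2 < 4 := by
    rw [hs]; constructor <;> linarith [hb.1, hb.2]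
  have hc1 : 7 / 2 < Real.cosh 2 := by rw [hc]; linarith [hb.1, hb.2]
  have h4 : Real.sinh 4 = 2 * Real.sinh 2 * Real.cosh 2 := by
    rw [← Real.sinh_two_mul]; norm_num
  have s0 := shell volume (fun y : ℝ × ℂ => d0 0 y) m0 (fun R => 4 / 3 * Real.pi * R ^ 3)
    (by fun_prop) hV0.2 (by positivity)
  have s1 := shell vol1 (fun y : ℝ × ℂ => d1 0 y) m1
    (fun R => Real.pi * (Real.sinh (2 * R) - 2 * R)) (by
      have := Real.continuous_sinh
      fun_prop) hV1 (by
      simp only [mul_one]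
      exact mul_nonneg hpi.le (by linarith [hs1.1]))
  rw [s0, s1, hV0.2 1 zero_le_one, hV1 1 zero_le_one]
  have e4 : (2 : ℝ) * 2 = 4 := by norm_num
  simp only [mul_one, e4, one_pow]
  have hbig : 21 < Real.sinh 4 := by
    rw [h4]
    nlinarith [hs1.1]
  rw [← ENNReal.ofReal_mul (by nlinarith), ← ENNReal.ofReal_mul (by positivity)]
  intro he
  rw [ENNReal.ofReal_eq_ofReal_iff] at he
  · have h5 : (28 / 3 * Real.pi ^ 2) * (Real.sinh 2 - 2) =
        (4 / 3 * Real.pi ^ 2) * (Real.sinh 4 - 4 - (Real.sinh 2 - 2)) := by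
      nlinarith [he]
    have h6 : 7 * (Real.sinh 2 - 2) = Real.sinh 4 - 4 - (Real.sinh 2 - 2) := by
      have h7 : (4 / 3 * Real.pi ^ 2) * (7 * (Real.sinh 2 - 2)) =
          (4 / 3 * Real.pi ^ 2) * (Real.sinh 4 - 4 - (Real.sinh 2 - 2)) := by linarith
      exact mul_left_cancel₀ (by positivity) h7
    rw [h4] at h6
    nlinarith [hs1.1, hs1.2]
  · have : 0 ≤ Real.sinh 2 - 2 := by linarith [hs1.1]
    have h8 : 0 ≤ 4 / 3 * Real.pi * 2 ^ 3 - 4 / 3 * Real.pi := by nlinarith
    positivity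
  · have : 0 ≤ Real.pi * (Real.sinh 4 - 4) - Real.pi * (Real.sinh 2 - 2) := by
      rw [← mul_sub]
      exact mul_nonneg hpi.le (by linarith [hs1.2])
    positivity

end Pool.Agent.H204.CS.P_NUM
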