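import Pool.Agent.H204.CS.Stm

/-!
# Project CS (helper204): parametrised measures (`S_PARAM`)
-/

set_option autoImplicit false

open MeasureTheory Topology Set Filter

namespace Pool.Agent.H204.CS.P_PARAM

open Pool.Agent.H204.CS Pool.Agent.V1135.CAS

theorem main : S_PARAM := by
  intro P Y Ω _ _ _ _ _ _ _ _ _ _ _ _ _ m _ S hS hmS w φ hw hφ hpos
  have hwp : ∀ p, Continuous (w p) := fun p => hw.comp (Continuous.prodMk_right p)
  have hφp : ∀ p, Continuous (φ p) := fun p => hφ.comp (Continuous.prodMk_right p)
  have hae : ∀ᵐ a ∂m, a ∈ S := by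
    have h := Measure.support_mem_ae (μ := m)
    rw [hmS] at h
    exact h
  have hres : m.restrict S = m := Measure.restrict_eq_self_of_ae_mem hae
  have hint : ∀ p, Integrable (w p) m := by
    intro p
    have h : IntegrableOn (w p) S m := (hwp p).continuousOn.integrableOn_compact hS
    rwa [IntegrableOn, hres] at h
  have hfin : ∀ p, IsFiniteMeasure (m.withDensity fun ω => ENNReal.ofReal (w p ω)) := fun p =>
    isFiniteMeasure_withDensity_ofReal (hint p).2
  have hmeas : ∀ p, Measurable fun ω => ENNReal.ofReal (w p ω) := fun p =>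
    ENNReal.measurable_ofReal.comp (hwp p).measurable
  refine ⟨fun p => ?_, fun f => ?_, fun p => ?_, ?_⟩
  · have := hfin p
    unfold prm
    infer_instance
  · have h1 : (fun p => ∫ y, f y ∂(prm m w φ p)) =
        fun p => ∫ a in S, w p a * f (φ p a) ∂m := by
      funext p
      unfold prm
      rw [integral_map (hφp p).measurable.aemeasurable f.continuous.aestronglyMeasurable,
        integral_withDensity_eq_integral_toReal_smul (hmeas p) (by
          filter_upwards with a using ENNReal.ofReal_lt_top), hres]
      apply integral_congr_ae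
      filter_upwards with a
      rw [ENNReal.toReal_ofReal (hpos p a).le, smul_eq_mul]
    rw [h1]
    refine continuous_parametric_integral_of_continuous ?_ hS
    exact hw.mul (f.continuous.comp hφ)
  · apply Set.Subset.antisymm
    · have hcl : IsClosed (φ p '' S) := (hS.image (hφp p)).isClosed
      refine Measure.support_subset_of_isClosed hcl ?_
      rw [mem_ae_iff]
      unfold prm
      rw [Measure.map_apply (hφp p).measurable hcl.measurableSet.compl]
      refine measure_mono_null ?_ ((withDensity_absolutelyContinuous m _) (hae : m Sᶜ = 0))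
      intro a ha haS
      exact ha ⟨a, haS, rfl⟩
    · rintro _ ⟨a, ha, rfl⟩
      rw [Measure.support_eq_forall_isOpen]
      intro U haU hU
      unfold prm
      rw [Measure.map_apply (hφp p).measurable hU.measurableSet]
      have hpre : IsOpen (φ p ⁻¹' U) := hU.preimage (hφp p)
      have h0 : 0 < m (φ p ⁻¹' U) := by
        rw [← hmS, Measure.support_eq_forall_isOpen] at ha
        exact ha _ haU hpre
      rw [pos_iff_ne_zero]
      intro h
      rw [withDensity_apply_eq_zero (hmeas p)] at h
      apply h0.ne'
      refine measure_mono_null ?_ h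
      intro b hb
      refine ⟨?_, hb⟩
      change ENNReal.ofReal (w p b) ≠ 0
      rw [Ne, ENNReal.ofReal_eq_zero, not_le]
      exact hpos p b
  · intro U hU
    constructor
    · rw [isOpen_iff_mem_nhds]
      intro p hp
      have h : ∀ᶠ q in 𝓝 p, ∀ a ∈ S, φ q a ∈ U := by
        refine hS.eventually_forall_of_forall_eventually ?_
        intro a ha
        have h1 : φ p a ∈ U := hp ⟨a, ha, rfl⟩
        exact hφ.continuousAt.eventually (hU.mem_nhds h1)
      filter_upwards [h] with q hq
      rintro _ ⟨a, ha, rfl⟩
      exact hq a ha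
    · have h : {p | (φ p '' S ∩ U).Nonempty} = ⋃ a ∈ S, {p | φ p a ∈ U} := by
        ext p
        simp only [Set.mem_iUnion]
        constructor
        · rintro ⟨_, ⟨a, ha, rfl⟩, hU'⟩
          exact ⟨a, ha, hU'⟩
        · rintro ⟨a, ha, hU'⟩
          exact ⟨_, ⟨a, ha, rfl⟩, hU'⟩
      rw [h]
      refine isOpen_biUnion fun a _ => ?_
      exact hU.preimage (hφ.comp (Continuous.prodMk_left a))

end Pool.Agent.H204.CS.P_PARAM
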