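import Pool.Agent.H204.CS.Stm

/-!
# Project CS, task R3COMP: the product formula of the Euclidean spherical means
-/

set_option autoImplicit false

namespace Pool.Agent.H204.CS.P_R3COMP

open MeasureTheory Topology Matrix Pool.Agent.H204.CS

/-- the reference matrix -/
noncomputable def H0 : Matrix (Fin 2) (Fin 2) ℂ := !![1, 0; 0, -1]

theorem N_mul (a b : U) : (a * b).1 * H0 * (a * b).1ᴴ = a.1 * (b.1 * H0 * b.1ᴴ) * a.1ᴴ := by
  have h : (a * b).1 = a.1 * b.1 := rfl
  rw [h, Matrix.conjTranspose_mul]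
  simp only [Matrix.mul_assoc]

theorem cont_zt : Continuous (zt : U → ℝ) := by
  unfold zt
  have h : Continuous (fun k : U => (k.1 0 0 : ℂ)) :=
    (continuous_subtype_val (p := fun A : Matrix (Fin 2) (Fin 2) ℂ => A ∈ unitaryGroup (Fin 2) ℂ)).matrix_elem 0 0
  exact (continuous_const.mul (Complex.continuous_normSq.comp h)).sub continuous_const

theorem cont_xi : Continuous (xi : U → ℂ) := by
  unfold xi
  have h : ∀ i j, Continuous (fun k : U => (k.1 i j : ℂ)) := fun i j =>
    (continuous_subtype_val (p := fun A : Matrix (Fin 2) (Fin 2) ℂ => A ∈ unitaryGroup (Fin 2) ℂ)).matrix_elem i j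
  exact (continuous_const.mul (h 0 0)).mul (Complex.continuous_conj.comp (h 1 0))

/-- the basic identity -/
theorem key (hH : S_HOPF) {r t : ℝ} (b : U) : ∃ l : U, ∀ a : U,
    r * zt a + t * zt (a * b) = ut r t (zt b) * zt (a * l) ∧
    (r : ℂ) * xi a + (t : ℂ) * xi (a * b) = (ut r t (zt b) : ℂ) * xi (a * l) := by
  obtain ⟨h1, h2, h3⟩ := hH
  have hN : ∀ k : U, k.1 * H0 * k.1ᴴ =
      !![(zt k : ℂ), xi k; starRingEnd ℂ (xi k), -(zt k : ℂ)] := h3
  have hsq : (r + t * zt b) ^ 2 + t ^ 2 * Complex.normSq (xi b) = r ^ 2 + t ^ 2 + 2 * r * t * zt b := by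
    have := h1 b
    linear_combination t ^ 2 * this
  have hnn : 0 ≤ r ^ 2 + t ^ 2 + 2 * r * t * zt b := by
    rw [← hsq]
    have := Complex.normSq_nonneg (xi b)
    positivity
  have hu2 : ut r t (zt b) ^ 2 = r ^ 2 + t ^ 2 + 2 * r * t * zt b := Real.sq_sqrt hnn
  obtain ⟨l, hl1, hl2⟩ : ∃ l : U, r + t * zt b = ut r t (zt b) * zt l ∧
      (t : ℂ) * xi b = (ut r t (zt b) : ℂ) * xi l := by
    rcases eq_or_ne (ut r t (zt b)) 0 with hu | hu
    · refine ⟨1, ?_, ?_⟩
      · rw [hu, zero_mul]
        rw [hu] at hu2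
        have h4 : (r + t * zt b) ^ 2 ≤ 0 := by
          have : 0 ≤ t ^ 2 * Complex.normSq (xi b) :=
            mul_nonneg (sq_nonneg _) (Complex.normSq_nonneg _)
          nlinarith
        exact pow_eq_zero_iff (two_ne_zero) |>.mp (le_antisymm h4 (sq_nonneg _))
      · rw [hu]
        rw [hu] at hu2
        have h4 : Complex.normSq ((t : ℂ) * xi b) = 0 := by
          rw [Complex.normSq_mul, Complex.normSq_ofReal]
          have h5 : 0 ≤ t ^ 2 * Complex.normSq (xi b) :=
            mul_nonneg (sq_nonneg _) (Complex.normSq_nonneg _)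
          nlinarith [sq_nonneg (r + t * zt b)]
        rw [Complex.normSq_eq_zero] at h4
        rw [h4]; simp
    · obtain ⟨l, e1, e2⟩ := h2 ((r + t * zt b) / ut r t (zt b)) ((t : ℂ) * xi b / (ut r t (zt b) : ℂ)) (by
        rw [Complex.normSq_div, Complex.normSq_mul, Complex.normSq_ofReal, Complex.normSq_ofReal]
        field_simp
        rw [hu2]
        linarith)
      refine ⟨l, ?_, ?_⟩
      · rw [e1]; field_simp
      · rw [e2]
        have : (ut r t (zt b) : ℂ) ≠ 0 := by exact_mod_cast hu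
        field_simp
  refine ⟨l, fun a => ?_⟩
  have e0 : (r : ℂ) • H0 + (t : ℂ) • (b.1 * H0 * b.1ᴴ) = (ut r t (zt b) : ℂ) • (l.1 * H0 * l.1ᴴ) := by
    rw [hN b, hN l]
    have c1 : (r : ℂ) + (t : ℂ) * (zt b : ℂ) = (ut r t (zt b) : ℂ) * (zt l : ℂ) := by
      exact_mod_cast hl1
    have c2 := congrArg (starRingEnd ℂ) hl2
    simp only [map_mul, Complex.conj_ofReal] at c2
    ext i j
    fin_cases i <;> fin_cases j
    · simpa [H0] using c1
    · simpa [H0] using hl2
    · simpa [H0] using c2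
    · simp only [H0, Matrix.add_apply, Matrix.smul_apply]
      simp
      linear_combination (-1 : ℂ) * c1
  have e1 : (r : ℂ) • (a.1 * H0 * a.1ᴴ) + (t : ℂ) • ((a * b).1 * H0 * (a * b).1ᴴ) =
      (ut r t (zt b) : ℂ) • ((a * l).1 * H0 * (a * l).1ᴴ) := by
    rw [N_mul, N_mul]
    have e2 : a.1 * ((r : ℂ) • H0 + (t : ℂ) • (b.1 * H0 * b.1ᴴ)) * a.1ᴴ =
        a.1 * ((ut r t (zt b) : ℂ) • (l.1 * H0 * l.1ᴴ)) * a.1ᴴ := by rw [e0]
    simpa [Matrix.mul_add, Matrix.add_mul] using e2
  rw [hN, hN, hN] at e1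
  constructor
  · have := congrFun (congrFun e1 0) 0
    simp only [Matrix.add_apply, Matrix.smul_apply] at this
    simp at this
    exact_mod_cast this
  · have := congrFun (congrFun e1 0) 1
    simp only [Matrix.add_apply, Matrix.smul_apply] at this
    simpa using this

theorem main : S_R3COMP := by
  intro hHaar hArch hHopf m hm F hF x r t hr ht
  obtain ⟨hc, hsc, -⟩ := hHaar
  have hp := hm.prob
  have ca : ∀ s : ℝ, ∀ y : ℝ × ℂ, Continuous (fun k : U => act0 y s k) := by
    intro s y
    unfold act0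
    have := cont_zt
    have := cont_xi
    fun_prop
  have c2 : Continuous (fun p : U × U => act0 (act0 x r p.1) t (p.1 * p.2)) := by
    unfold act0
    have h1 := cont_zt
    have h2 := cont_xi
    have h3 : Continuous (fun p : U × U => p.1 * p.2) := continuous_mul
    have h4 : Continuous (fun p : U × U => zt (p.1 * p.2)) := h1.comp h3
    have h5 : Continuous (fun p : U × U => xi (p.1 * p.2)) := h2.comp h3
    fun_prop
  have c3 : Continuous (fun p : ℝ × U => act0 x (ut r t p.1) p.2) := by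
    unfold act0 ut
    have h1 := cont_zt
    have h2 := cont_xi
    fun_prop
  simp only [mul_one, ENNReal.ofReal_one, one_mul]
  calc ∫⁻ a, ∫⁻ b, F (act0 (act0 x r a) t b) ∂m ∂m
      = ∫⁻ a, ∫⁻ b, F (act0 (act0 x r a) t (a * b)) ∂m ∂m := by
        refine lintegral_congr fun a => ?_
        exact (hm.left a (fun b => F (act0 (act0 x r a) t b)) (hF.comp (ca _ _).measurable)).symm
    _ = ∫⁻ b, ∫⁻ a, F (act0 (act0 x r a) t (a * b)) ∂m ∂m := by
        refine lintegral_lintegral_swap ?_
        exact (hF.comp c2.measurable).aemeasurable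
    _ = ∫⁻ b, ∫⁻ a, F (act0 x (ut r t (zt b)) a) ∂m ∂m := by
        refine lintegral_congr fun b => ?_
        obtain ⟨l, hl⟩ := key hHopf (r := r) (t := t) b
        have h1 : ∀ a : U, act0 (act0 x r a) t (a * b) = act0 x (ut r t (zt b)) (a * l) := by
          intro a
          obtain ⟨e1, e2⟩ := hl a
          unfold act0
          ext
          · simp only
            linarith
          · simp only
            rw [add_assoc, e2]
        simp_rw [h1]
        exact hm.right l (fun a => F (act0 x (ut r t (zt b)) a)) (hF.comp (ca _ _).measurable)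
    _ = ∫⁻ z, ∫⁻ a, F (act0 x (ut r t z) a) ∂m ∂uni := by
        refine hArch m hm (fun z => ∫⁻ a, F (act0 x (ut r t z) a) ∂m) ?_
        exact (hF.comp c3.measurable).lintegral_prod_right'

end Pool.Agent.H204.CS.P_R3COMP
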