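import Pool.Agent.H204.CS.Stm

set_option autoImplicit false

namespace Pool.Agent.H204.CS.P_R3GEO

open MeasureTheory Topology Pool.Agent.V1135.CAS Matrix Pool.Agent.H204.CS

theorem cont_entry (i j : Fin 2) : Continuous fun k : U => k.1 i j := by
  have h1 : Continuous fun k : U => k.1 := continuous_subtype_val
  have h2 : Continuous fun M : Matrix (Fin 2) (Fin 2) ℂ => M i j :=
    (continuous_apply j).comp (continuous_apply i)
  exact h2.comp h1

theorem cont_zt : Continuous zt := by
  unfold zt
  have := cont_entry 0 0
  exact (continuous_const.mul (Complex.continuous_normSq.comp this)).sub continuous_const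

theorem cont_xi : Continuous xi := by
  unfold xi
  have h0 := cont_entry 0 0
  have h1 := cont_entry 1 0
  exact (continuous_const.mul h0).mul (Complex.continuous_conj.comp h1)

/-- the distance as a norm -/
theorem d0_eq (x y : ℝ × ℂ) : d0 x y = ‖(WithLp.toLp 2 (y - x) : WithLp 2 (ℝ × ℂ))‖ := by
  unfold d0
  rw [WithLp.prod_norm_eq_of_L2]
  congr 1
  simp [Complex.normSq_eq_norm_sq]

theorem main : S_R3GEO := by
  intro hopf
  obtain ⟨h1, h2, -⟩ := hopf
  refine ⟨?_, ?_, ?_, ?_, ?_, ?_, ?_, ?_⟩
  · unfold act0
    have hz := cont_zt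
    have hx := cont_xi
    fun_prop
  · unfold d0
    have hn := Complex.continuous_normSq
    exact Real.continuous_sqrt.comp (by fun_prop)
  · intro x y; exact Real.sqrt_nonneg _
  · intro x y h
    rw [d0_eq, norm_eq_zero] at h
    have h' : y - x = 0 := by
      have := congrArg WithLp.ofLp h
      simpa using this
    exact (sub_eq_zero.mp h').symm
  · intro x y
    rw [d0_eq, d0_eq, ← norm_neg]
    congr 1
    rw [← WithLp.toLp_neg]
    congr 1
    abel
  · intro x y z
    rw [d0_eq, d0_eq, d0_eq]
    have : (WithLp.toLp 2 (z - x) : WithLp 2 (ℝ × ℂ)) =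
        WithLp.toLp 2 (y - x) + WithLp.toLp 2 (z - y) := by
      rw [← WithLp.toLp_add]
      congr 1
      abel
    rw [this]
    exact norm_add_le _ _
  · intro x r a hr
    unfold d0 act0
    have e : (x.1 + r * zt a - x.1) ^ 2 + Complex.normSq (x.2 + (r : ℂ) * xi a - x.2) = r ^ 2 := by
      have e1 : x.2 + (r : ℂ) * xi a - x.2 = (r : ℂ) * xi a := by ring
      rw [e1, map_mul, Complex.normSq_ofReal]
      have := h1 a
      linear_combination r ^ 2 * this
    simp only [e]
    exact Real.sqrt_sq hr
  · intro x y
    by_cases hR : d0 x y = 0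
    · obtain ⟨k, -, -⟩ := h2 1 0 (by simp)
      have hxy : x = y := by
        have h := hR
        rw [d0_eq, norm_eq_zero] at h
        have h' : y - x = 0 := by
          have := congrArg WithLp.ofLp h
          simpa using this
        exact (sub_eq_zero.mp h').symm
      refine ⟨k, ?_⟩
      rw [hR]
      unfold act0
      subst hxy
      simp
    · have hpos : 0 < d0 x y := lt_of_le_of_ne (Real.sqrt_nonneg _) (Ne.symm hR)
      set R := d0 x y with hRdef
      have hsq : R ^ 2 = (y.1 - x.1) ^ 2 + Complex.normSq (y.2 - x.2) := by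
        rw [hRdef]; unfold d0
        exact Real.sq_sqrt (add_nonneg (sq_nonneg _) (Complex.normSq_nonneg _))
      obtain ⟨k, hk1, hk2⟩ := h2 ((y.1 - x.1) / R) ((y.2 - x.2) / (R : ℂ)) (by
        rw [map_div₀, Complex.normSq_ofReal, div_pow]
        field_simp
        linarith)
      refine ⟨k, ?_⟩
      unfold act0
      rw [hk1, hk2]
      have hRc : (R : ℂ) ≠ 0 := by exact_mod_cast hR
      ext1
      · simp only
        field_simp
        ring
      · simp only
        field_simp
        ring

end Pool.Agent.H204.CS.P_R3GEO
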