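import Pool.Agent.H204.CS.Stm

/-!
# R3REV: reversibility of the Euclidean spherical means
-/

set_option autoImplicit false

namespace Pool.Agent.H204.CS.P_R3REV

open MeasureTheory Pool.Agent.H204.CS

/-- the flip `(0, 1; 1, 0)` -/
def flipM : Matrix (Fin 2) (Fin 2) ℂ := !![0, 1; 1, 0]

lemma flipM_mem : flipM ∈ Matrix.unitaryGroup (Fin 2) ℂ := by
  rw [Matrix.mem_unitaryGroup_iff]
  ext i j
  fin_cases i <;> fin_cases j <;>
    simp [flipM, Matrix.mul_apply, Fin.sum_univ_two, Matrix.star_apply]

/-- the flip as an element of `U(2)` -/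
def sg : U := ⟨flipM, flipM_mem⟩

lemma mul_star_self (k : U) : k.1 * star k.1 = 1 := Matrix.mem_unitaryGroup_iff.1 k.2

lemma e00 (k : U) : Complex.normSq (k.1 0 0) + Complex.normSq (k.1 0 1) = 1 := by
  have h := congrFun (congrFun (mul_star_self k) 0) 0
  rw [Matrix.mul_apply, Fin.sum_univ_two, Matrix.star_apply, Matrix.star_apply,
    Matrix.one_apply_eq] at h
  simp only [RCLike.star_def, Complex.mul_conj] at h
  exact_mod_cast h

lemma e01 (k : U) : k.1 0 0 * starRingEnd ℂ (k.1 1 0) + k.1 0 1 * starRingEnd ℂ (k.1 1 1) = 0 := by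
  have h := congrFun (congrFun (mul_star_self k) 0) 1
  rw [Matrix.mul_apply, Fin.sum_univ_two, Matrix.star_apply, Matrix.star_apply,
    Matrix.one_apply_ne (by decide)] at h
  simpa only [RCLike.star_def] using h

lemma sg00 (k : U) : (k * sg).1 0 0 = k.1 0 1 := by
  show (k.1 * flipM) 0 0 = _
  rw [Matrix.mul_apply, Fin.sum_univ_two]
  simp [flipM]

lemma sg10 (k : U) : (k * sg).1 1 0 = k.1 1 1 := by
  show (k.1 * flipM) 1 0 = _
  rw [Matrix.mul_apply, Fin.sum_univ_two]
  simp [flipM]

lemma zt_sg (k : U) : zt (k * sg) = - zt k := by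
  unfold zt
  rw [sg00]
  have := e00 k
  linarith

lemma xi_sg (k : U) : xi (k * sg) = - xi k := by
  unfold xi
  rw [sg00, sg10]
  have := e01 k
  linear_combination 2 * this

lemma act0_sg (x : ℝ × ℂ) (r : ℝ) (k : U) :
    act0 x r (k * sg) = x - (r * zt k, (r : ℂ) * xi k) := by
  unfold act0
  rw [zt_sg, xi_sg]
  apply Prod.ext
  · simp only [Prod.fst_sub]; ring
  · simp only [Prod.snd_sub]; ring

lemma act0_eq (x : ℝ × ℂ) (r : ℝ) (k : U) :
    act0 x r k = x + (r * zt k, (r : ℂ) * xi k) := rfl

lemma continuous_entry (i j : Fin 2) : Continuous fun k : U => k.1 i j := by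
  have h : Continuous fun k : U => (k.1 : Matrix (Fin 2) (Fin 2) ℂ) := continuous_subtype_val
  exact (continuous_apply_apply i j).comp h

lemma continuous_zt : Continuous zt := by
  unfold zt
  exact (continuous_const.mul (Complex.continuous_normSq.comp (continuous_entry 0 0))).sub
    continuous_const

lemma continuous_xi : Continuous xi := by
  unfold xi
  exact (continuous_const.mul (continuous_entry 0 0)).mul
    (Complex.continuous_conj.comp (continuous_entry 1 0))

lemma measurable_vec (r : ℝ) : Measurable fun k : U => ((r * zt k, (r : ℂ) * xi k) : ℝ × ℂ) :=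
  (continuous_zt.measurable.const_mul r).prodMk (continuous_xi.measurable.const_mul (r : ℂ))

theorem main : S_R3REV := by
  intro _ m hm F hF r _
  have := hm.prob
  have hv := measurable_vec r
  set v : U → ℝ × ℂ := fun k => (r * zt k, (r : ℂ) * xi k) with hvd
  have h1 : ∀ x a, act0 x r a = x + v a := fun x a => rfl
  have h2 : ∀ x a, act0 x r (a * sg) = x - v a := fun x a => act0_sg x r a
  calc ∫⁻ x, ∫⁻ a, F (x, act0 x r a) ∂m ∂volume
      = ∫⁻ x, ∫⁻ a, F (x, x + v a) ∂m ∂volume := rfl
    _ = ∫⁻ a, ∫⁻ x, F (x, x + v a) ∂volume ∂m := by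
        rw [lintegral_lintegral_swap]
        apply Measurable.aemeasurable
        exact hF.comp (measurable_fst.prodMk (measurable_fst.add (hv.comp measurable_snd)))
    _ = ∫⁻ a, ∫⁻ x, F (x - v a, x) ∂volume ∂m := by
        refine lintegral_congr fun a => ?_
        have hinv : (volume : Measure (ℝ × ℂ)).IsAddRightInvariant := by
          rw [Measure.volume_eq_prod]
          infer_instance
        rw [← lintegral_add_right_eq_self (μ := (volume : Measure (ℝ × ℂ)))
          (fun x => F (x - v a, x)) (v a)]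
        simp only [add_sub_cancel_right]
    _ = ∫⁻ x, ∫⁻ a, F (x - v a, x) ∂m ∂volume := by
        rw [lintegral_lintegral_swap]
        apply Measurable.aemeasurable
        exact hF.comp ((measurable_snd.sub (hv.comp measurable_fst)).prodMk measurable_snd)
    _ = ∫⁻ x, ∫⁻ a, F (act0 x r a, x) ∂m ∂volume := by
        refine lintegral_congr fun x => ?_
        rw [← hm.right sg (fun a => F (act0 x r a, x))
          (hF.comp ((measurable_const.add hv).prodMk measurable_const))]
        refine lintegral_congr fun a => ?_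
        rw [h2]

end Pool.Agent.H204.CS.P_R3REV
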