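import Pool.Agent.H204.CS.Stm

/-!
# Project CS, task R3VOL: translation invariance and the volume of the ball in `ℝ × ℂ`
-/

set_option autoImplicit false

namespace Pool.Agent.H204.CS.P_R3VOL

open MeasureTheory Topology Pool.Agent.H204.CS

theorem d0_sub (x z : ℝ × ℂ) : d0 x z = d0 0 (z - x) := by
  unfold d0
  simp

theorem unif : Unif d0 (volume : Measure (ℝ × ℂ)) := by
  intro F _ x y
  have h : ∀ x : ℝ × ℂ, ∫⁻ z, F (d0 x z) = ∫⁻ z : ℝ × ℂ, F (d0 0 z) := by
    intro x
    simp_rw [d0_sub x]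
    have h1 : (volume : Measure (ℝ × ℂ)).IsAddLeftInvariant := by
      rw [Measure.volume_eq_prod]; infer_instance
    have h2 : (volume : Measure (ℝ × ℂ)).IsAddRightInvariant :=
      inferInstance
    exact lintegral_sub_right_eq_self (fun z : ℝ × ℂ => F (d0 0 z)) x
  rw [h x, h y]

theorem slice (R t : ℝ) (hR : 0 ≤ R) :
    (Prod.mk t ⁻¹' {y : ℝ × ℂ | d0 0 y < R} : Set ℂ) = Metric.ball 0 (Real.sqrt (R ^ 2 - t ^ 2)) := by
  ext w
  have h0 : 0 ≤ t ^ 2 + Complex.normSq w := add_nonneg (sq_nonneg _) (Complex.normSq_nonneg _)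
  have h1 : d0 0 (t, w) = Real.sqrt (t ^ 2 + Complex.normSq w) := by
    unfold d0; simp
  change d0 0 (t, w) < R ↔ _
  rw [mem_ball_zero_iff, h1, Real.sqrt_lt h0 hR, Real.lt_sqrt (norm_nonneg _),
    Complex.normSq_eq_norm_sq]
  constructor <;> intro h <;> linarith

theorem vol (R : ℝ) (hR : 0 ≤ R) : (volume : Measure (ℝ × ℂ)) {y | d0 0 y < R} =
    ENNReal.ofReal (4 / 3 * Real.pi * R ^ 3) := by
  have hmeas : MeasurableSet {y : ℝ × ℂ | d0 0 y < R} := by
    refine measurableSet_lt ?_ measurable_const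
    have : Continuous (fun y : ℝ × ℂ => d0 0 y) := by
      unfold d0
      have := Complex.continuous_normSq
      fun_prop
    exact this.measurable
  rw [Measure.volume_eq_prod, Measure.prod_apply hmeas]
  have h1 : ∀ t : ℝ, (volume : Measure ℂ) (Prod.mk t ⁻¹' {y : ℝ × ℂ | d0 0 y < R}) =
      (Set.Icc (-R) R).indicator (fun t => ENNReal.ofReal (Real.pi * (R ^ 2 - t ^ 2))) t := by
    intro t
    rw [slice R t hR, Complex.volume_ball]
    by_cases ht : t ∈ Set.Icc (-R) R
    · have h2 : 0 ≤ R ^ 2 - t ^ 2 := by nlinarith [ht.1, ht.2]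
      rw [Set.indicator_of_mem ht, ← ENNReal.ofReal_pow (Real.sqrt_nonneg _), Real.sq_sqrt h2,
        mul_comm Real.pi, ENNReal.ofReal_mul h2]
      congr 1
      exact (ENNReal.ofReal_coe_nnreal (p := NNReal.pi)).symm
    · rw [Set.indicator_of_notMem ht]
      have h2 : R ^ 2 - t ^ 2 ≤ 0 := by
        by_contra hlt
        push Not at hlt
        apply ht
        constructor <;> nlinarith
      rw [Real.sqrt_eq_zero_of_nonpos h2]
      simp
  simp_rw [h1]
  rw [lintegral_indicator measurableSet_Icc]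
  have hcont : Continuous (fun t : ℝ => Real.pi * (R ^ 2 - t ^ 2)) := by fun_prop
  rw [← ofReal_integral_eq_lintegral_ofReal (hcont.continuousOn.integrableOn_Icc)]
  · congr 1
    rw [integral_Icc_eq_integral_Ioc, ← intervalIntegral.integral_of_le (by linarith)]
    rw [intervalIntegral.integral_const_mul, intervalIntegral.integral_sub, integral_pow]
    · simp
      ring
    · exact intervalIntegrable_const
    · exact (continuous_pow 2).intervalIntegrable _ _
  · refine (ae_restrict_iff' measurableSet_Icc).mpr (Filter.Eventually.of_forall fun t ht => ?_)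
    have h2 : 0 ≤ R ^ 2 - t ^ 2 := by nlinarith [ht.1, ht.2]
    exact mul_nonneg Real.pi_pos.le h2

theorem main : S_R3VOL := ⟨unif, vol⟩

end Pool.Agent.H204.CS.P_R3VOL
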