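import Pool.Agent.H204.CS.Stm

/-! RECT (project CS of helper204). -/

set_option autoImplicit false

namespace Pool.Agent.H204.CS.P_RECT

open MeasureTheory Topology Filter Pool.Agent.V1135.CAS

/-- positive exactly on the rectangle -/
noncomputable def mm (h : D) : ℝ := min (min (h.1.1 - 1) (2 - h.1.1)) (1 - h.1.2)

theorem mm_cont : Continuous mm := by
  unfold mm
  fun_prop

/-- the test functions -/
noncomputable def ph (n : ℕ) (h : D) : ℝ := max 0 (min 1 ((n : ℝ) * mm h - 1))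

theorem ph_cont (n : ℕ) : Continuous (ph n) := by
  unfold ph
  have := mm_cont
  fun_prop

theorem ph_nonneg (n : ℕ) (h : D) : 0 ≤ ph n h := le_max_left _ _

theorem ph_le_one (n : ℕ) (h : D) : ph n h ≤ 1 := max_le zero_le_one (min_le_left _ _)

theorem ph_zero {n : ℕ} {h : D} (hh : (n : ℝ) * mm h ≤ 1) : ph n h = 0 := by
  unfold ph
  apply max_eq_left
  exact (min_le_right _ _).trans (by linarith)

theorem ph_lim_pos {h : D} (hh : 0 < mm h) : Tendsto (fun n : ℕ => ph n h) atTop (𝓝 1) := by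
  apply tendsto_const_nhds.congr'
  obtain ⟨N, hN⟩ := exists_nat_gt (2 / mm h)
  filter_upwards [eventually_ge_atTop N] with n hn
  have h1 : 2 < (n : ℝ) * mm h := by
    rw [div_lt_iff₀ hh] at hN
    have : (N : ℝ) ≤ n := by exact_mod_cast hn
    nlinarith
  unfold ph
  rw [min_eq_left (by linarith), max_eq_right zero_le_one]

theorem ph_nonpos {h : D} (hh : mm h ≤ 0) (n : ℕ) : ph n h = 0 := by
  apply ph_zero
  have : (n : ℝ) * mm h ≤ 0 := mul_nonpos_of_nonneg_of_nonpos (by positivity) hh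
  linarith

/-- the closed subset of the rectangle -/
theorem ph_tsupport (n : ℕ) : tsupport (ph n) ⊆ {h : D | 1 ≤ (n : ℝ) * mm h} := by
  apply closure_minimal
  · intro h hh
    by_contra hcon
    apply hh
    apply ph_zero
    exact le_of_lt (not_le.1 hcon)
  · exact isClosed_le continuous_const (continuous_const.mul mm_cont)

theorem mm_pos_of {n : ℕ} {h : D} (hh : 1 ≤ (n : ℝ) * mm h) : 0 < mm h := by
  by_contra hcon
  push Not at hcon
  have : (n : ℝ) * mm h ≤ 0 := mul_nonpos_of_nonneg_of_nonpos (by positivity) hcon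
  linarith

theorem mm_pos {h : D} (hh : 0 < mm h) : 1 < h.1.1 ∧ h.1.1 < 2 ∧ h.1.2 < 1 := by
  unfold mm at hh
  rw [lt_min_iff, lt_min_iff] at hh
  exact ⟨by linarith [hh.1.1], by linarith [hh.1.2], by linarith [hh.2]⟩

theorem mm_pos_iff {h : D} : 0 < mm h ↔ 1 < h.1.1 ∧ h.1.1 < 2 ∧ h.1.2 < 1 := by
  refine ⟨mm_pos, fun hh => ?_⟩
  unfold mm
  rw [lt_min_iff, lt_min_iff]
  exact ⟨⟨by linarith [hh.1], by linarith [hh.2.1]⟩, by linarith [hh.2.2]⟩

theorem ph_supp (n : ℕ) : HasCompactSupport (ph n) := by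
  have hc : IsCompact (Subtype.val ⁻¹' (Set.Icc (0 : ℝ) 2 ×ˢ Set.Icc (0 : ℝ) 2) : Set D) :=
    isClosed_D.isClosedEmbedding_subtypeVal.isCompact_preimage (isCompact_Icc.prod isCompact_Icc)
  refine hc.of_isClosed_subset (isClosed_tsupport _) ?_
  intro h hh
  have h1 := mm_pos (mm_pos_of (ph_tsupport n hh))
  have h2 := h.2
  exact ⟨⟨h2.1.trans h2.2, h1.2.1.le⟩, ⟨h2.1, h2.2.trans h1.2.1.le⟩⟩

/-- balls have finite volume -/
theorem ball_fin {X Ω : Type} [TopologicalSpace X] [MeasurableSpace X] [TopologicalSpace Ω]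
    [CompactSpace Ω] {act : X → ℝ → Ω → X} {d : X → X → ℝ} (g : Geo act d) (vol : Measure X)
    [IsFiniteMeasureOnCompacts vol] (x : X) (R : ℝ) : vol {y | d x y ≤ R} < ⊤ := by
  have hc : IsCompact ((fun p : ℝ × Ω => act x p.1 p.2) '' (Set.Icc 0 R ×ˢ Set.univ)) := by
    refine (isCompact_Icc.prod isCompact_univ).image ?_
    exact g.act_cont.comp (continuous_const.prodMk continuous_id)
  refine (measure_mono ?_).trans_lt hc.measure_lt_top
  intro y hy
  obtain ⟨a, ha⟩ := g.surj x y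
  exact ⟨(d x y, a), ⟨⟨g.d_nonneg _ _, hy⟩, Set.mem_univ _⟩, ha⟩

theorem main : S_RECT := by
  intro X₀ X₁ Ω _ _ _ _ _ _ _ _ _ _ _ _ _ _ act₀ act₁ d₀ d₁ vol₀ vol₁ _ _ g₀ g₁ x hyp
  set μ := vol₀.prod vol₁ with hμ
  have c1 : Continuous fun y : X₀ × X₁ => d₁ x.2 y.2 :=
    g₁.d_cont.comp (continuous_const.prodMk continuous_snd)
  have c0 : Continuous fun y : X₀ × X₁ => d₀ x.1 y.1 :=
    g₀.d_cont.comp (continuous_const.prodMk continuous_fst)
  have cpi : Continuous fun y : X₀ × X₁ => pim d₀ d₁ x y := by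
    unfold pim srt
    apply Continuous.subtype_mk
    exact (c0.abs.max c1.abs).prodMk (c0.abs.min c1.abs)
  set A₀ : Set X₀ := {y | 1 < d₀ x.1 y ∧ d₀ x.1 y < 2} with hA₀
  set A₁ : Set X₁ := {y | d₁ x.2 y < 1} with hA₁
  set B₀ : Set X₀ := {y | d₀ x.1 y < 1} with hB₀
  set B₁ : Set X₁ := {y | 1 < d₁ x.2 y ∧ d₁ x.2 y < 2} with hB₁
  have e0 : Continuous fun y : X₀ => d₀ x.1 y := g₀.d_cont.comp (continuous_const.prodMk continuous_id)
  have e1 : Continuous fun y : X₁ => d₁ x.2 y := g₁.d_cont.comp (continuous_const.prodMk continuous_id)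
  have mA₀ : MeasurableSet A₀ :=
    ((isOpen_lt continuous_const e0).inter (isOpen_lt e0 continuous_const)).measurableSet
  have mB₁ : MeasurableSet B₁ :=
    ((isOpen_lt continuous_const e1).inter (isOpen_lt e1 continuous_const)).measurableSet
  have mA₁ : MeasurableSet A₁ := (isOpen_lt e1 continuous_const).measurableSet
  have mB₀ : MeasurableSet B₀ := (isOpen_lt e0 continuous_const).measurableSet
  have fA₀ : vol₀ A₀ < ⊤ :=
    (measure_mono fun y (hy : y ∈ A₀) => hy.2.le).trans_lt (ball_fin g₀ vol₀ x.1 2)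
  have fB₀ : vol₀ B₀ < ⊤ :=
    (measure_mono fun y (hy : d₀ x.1 y < 1) => (hy.le : d₀ x.1 y ≤ 1)).trans_lt (ball_fin g₀ vol₀ x.1 1)
  have fA₁ : vol₁ A₁ < ⊤ :=
    (measure_mono fun y (hy : d₁ x.2 y < 1) => (hy.le : d₁ x.2 y ≤ 1)).trans_lt (ball_fin g₁ vol₁ x.2 1)
  have fB₁ : vol₁ B₁ < ⊤ :=
    (measure_mono fun y (hy : y ∈ B₁) => hy.2.le).trans_lt (ball_fin g₁ vol₁ x.2 2)
  have fA : μ (A₀ ×ˢ A₁) < ⊤ := by
    rw [hμ, Measure.prod_prod]
    exact ENNReal.mul_lt_top fA₀ fA₁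
  have fB : μ (B₀ ×ˢ B₁) < ⊤ := by
    rw [hμ, Measure.prod_prod]
    exact ENNReal.mul_lt_top fB₀ fB₁
  have mA : MeasurableSet (A₀ ×ˢ A₁) := mA₀.prod mA₁
  have mB : MeasurableSet (B₀ ×ˢ B₁) := mB₀.prod mB₁
  have hdisj : Disjoint (A₀ ×ˢ A₁) (B₀ ×ˢ B₁) := by
    rw [Set.disjoint_left]
    rintro y ⟨h1, h2⟩ ⟨h3, h4⟩
    have h5 : d₀ x.1 y.1 < 1 := h3
    exact absurd h1.1 (not_lt.2 h5.le)
  -- where the parameter is in the rectangle
  have hcase : ∀ y : X₀ × X₁, 0 < mm (pim d₀ d₁ x y) ↔ y ∈ A₀ ×ˢ A₁ ∨ y ∈ B₀ ×ˢ B₁ := by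
    intro y
    rw [mm_pos_iff]
    have n0 := g₀.d_nonneg x.1 y.1
    have n1 := g₁.d_nonneg x.2 y.2
    simp only [pim, srt, abs_of_nonneg n0, abs_of_nonneg n1]
    constructor
    · rintro ⟨h1, h2, h3⟩
      rw [max_lt_iff] at h2
      rcases lt_max_iff.1 h1 with h | h
      · left
        refine ⟨⟨h, h2.1⟩, ?_⟩
        rcases min_lt_iff.1 h3 with h' | h'
        · exact absurd h (not_lt.2 h'.le)
        · exact h'
      · right
        refine ⟨?_, ⟨h, h2.2⟩⟩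
        rcases min_lt_iff.1 h3 with h' | h'
        · exact h'
        · exact absurd h (not_lt.2 h'.le)
    · rintro (⟨h1, h2⟩ | ⟨h1, h2⟩)
      · have a1 : 1 < d₀ x.1 y.1 := h1.1
        have a2 : d₀ x.1 y.1 < 2 := h1.2
        have a3 : d₁ x.2 y.2 < 1 := h2
        exact ⟨lt_max_of_lt_left a1, max_lt a2 (by linarith), min_lt_of_right_lt a3⟩
      · have a1 : 1 < d₁ x.2 y.2 := h2.1
        have a2 : d₁ x.2 y.2 < 2 := h2.2
        have a3 : d₀ x.1 y.1 < 1 := h1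
        exact ⟨lt_max_of_lt_right a1, max_lt (by linarith) a2, min_lt_of_left_lt a3⟩
  have hint : Integrable ((A₀ ×ˢ A₁ ∪ B₀ ×ˢ B₁).indicator (fun _ => (1 : ℝ))) μ := by
    refine (integrable_indicator_iff (mA.union mB)).2 ?_
    have q1 : μ (A₀ ×ˢ A₁ ∪ B₀ ×ˢ B₁) ≠ ⊤ :=
      ((measure_union_le _ _).trans_lt (ENNReal.add_lt_top.2 ⟨fA, fB⟩)).ne
    have q2 : ‖(1 : ℝ)‖ₑ ≠ ⊤ := enorm_ne_top
    exact integrableOn_const q1 q2
  have hbound : ∀ (n : ℕ) (y : X₀ × X₁), ph n (pim d₀ d₁ x y) ≤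
      (A₀ ×ˢ A₁ ∪ B₀ ×ˢ B₁).indicator (fun _ => (1 : ℝ)) y := by
    intro n y
    by_cases hy : y ∈ A₀ ×ˢ A₁ ∪ B₀ ×ˢ B₁
    · rw [Set.indicator_of_mem hy]
      exact ph_le_one _ _
    · rw [Set.indicator_of_notMem hy]
      have : mm (pim d₀ d₁ x y) ≤ 0 := by
        by_contra hcon
        exact hy ((hcase y).1 (not_le.1 hcon))
      rw [ph_nonpos this]
  have hlim : ∀ y, Tendsto (fun n : ℕ => ph n (pim d₀ d₁ x y)) atTop
      (𝓝 ((A₀ ×ˢ A₁ ∪ B₀ ×ˢ B₁).indicator (fun _ => (1 : ℝ)) y)) := by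
    intro y
    by_cases hy : y ∈ A₀ ×ˢ A₁ ∪ B₀ ×ˢ B₁
    · rw [Set.indicator_of_mem hy]
      exact ph_lim_pos ((hcase y).2 hy)
    · rw [Set.indicator_of_notMem hy]
      have : mm (pim d₀ d₁ x y) ≤ 0 := by
        by_contra hcon
        exact hy ((hcase y).1 (not_le.1 hcon))
      simp_rw [ph_nonpos this]
      exact tendsto_const_nhds
  have L1 : Tendsto (fun n : ℕ => ∫ y, ph n (pim d₀ d₁ x y) ∂μ) atTop
      (𝓝 (∫ y, (A₀ ×ˢ A₁ ∪ B₀ ×ˢ B₁).indicator (fun _ => (1 : ℝ)) y ∂μ)) := by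
    refine tendsto_integral_of_dominated_convergence _ (fun n => ?_) hint (fun n => ?_) ?_
    · exact ((ph_cont n).comp cpi).measurable.aestronglyMeasurable
    · filter_upwards with y
      rw [Real.norm_eq_abs, abs_of_nonneg (ph_nonneg _ _)]
      exact hbound n y
    · filter_upwards with y
      exact hlim y
  have hSm : MeasurableSet {y : X₀ × X₁ | d₁ x.2 y.2 < d₀ x.1 y.1} := (isOpen_lt c1 c0).measurableSet
  have L2 : Tendsto (fun n : ℕ => ∫ y, (if d₁ x.2 y.2 < d₀ x.1 y.1 then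
      ph n (pim d₀ d₁ x y) else 0) ∂μ) atTop
      (𝓝 (∫ y, (A₀ ×ˢ A₁).indicator (fun _ => (1 : ℝ)) y ∂μ)) := by
    refine tendsto_integral_of_dominated_convergence _ (fun n => ?_) hint (fun n => ?_) ?_
    · exact (Measurable.ite hSm ((ph_cont n).comp cpi).measurable measurable_const).aestronglyMeasurable
    · filter_upwards with y
      split_ifs with h
      · rw [Real.norm_eq_abs, abs_of_nonneg (ph_nonneg _ _)]
        exact hbound n y
      · rw [norm_zero]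
        exact (ph_nonneg n _).trans (hbound n y)
    · filter_upwards with y
      by_cases h : d₁ x.2 y.2 < d₀ x.1 y.1
      · simp_rw [if_pos h]
        have h1 : (A₀ ×ˢ A₁).indicator (fun _ => (1 : ℝ)) y =
            (A₀ ×ˢ A₁ ∪ B₀ ×ˢ B₁).indicator (fun _ => (1 : ℝ)) y := by
          by_cases hy : y ∈ A₀ ×ˢ A₁
          · rw [Set.indicator_of_mem hy, Set.indicator_of_mem (Set.mem_union_left _ hy)]
          · rw [Set.indicator_of_notMem hy, Set.indicator_of_notMem]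
            rintro (h2 | ⟨h2, h3⟩)
            · exact hy h2
            · have a1 : d₀ x.1 y.1 < 1 := h2
              have a2 : 1 < d₁ x.2 y.2 := h3.1
              linarith
        rw [h1]
        exact hlim y
      · simp_rw [if_neg h]
        have h1 : (A₀ ×ˢ A₁).indicator (fun _ => (1 : ℝ)) y = 0 := by
          apply Set.indicator_of_notMem
          rintro ⟨h2, h3⟩
          have a1 : 1 < d₀ x.1 y.1 := h2.1
          have a2 : d₁ x.2 y.2 < 1 := h3
          exact h (by linarith)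
        rw [h1]
        exact tendsto_const_nhds
  have hsub : ∀ n : ℕ, tsupport (ph n) ⊆ {h : D | h.1.2 < h.1.1} := by
    intro n h hh
    have h1 := mm_pos (mm_pos_of (ph_tsupport n hh))
    change h.1.2 < h.1.1
    linarith [h1.1, h1.2.2]
  have heq : ∀ n : ℕ, 2 * ∫ y, (if d₁ x.2 y.2 < d₀ x.1 y.1 then
      ph n (pim d₀ d₁ x y) else 0) ∂μ = ∫ y, ph n (pim d₀ d₁ x y) ∂μ := fun n =>
    hyp (ph n) (ph_cont n) (ph_supp n) (hsub n)
  have hfin := tendsto_nhds_unique (L2.const_mul 2) (by simpa only [heq] using L1)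
  rw [integral_indicator_const _ mA, integral_indicator_const _ (mA.union mB),
    measureReal_union hdisj mB fA.ne fB.ne, smul_eq_mul, smul_eq_mul, mul_one, mul_one] at hfin
  have h9 : μ.real (A₀ ×ˢ A₁) = μ.real (B₀ ×ˢ B₁) := by linarith
  have h10 : μ (A₀ ×ˢ A₁) = μ (B₀ ×ˢ B₁) := by
    rw [measureReal_def, measureReal_def, ENNReal.toReal_eq_toReal_iff' fA.ne fB.ne] at h9
    exact h9
  rw [hμ, Measure.prod_prod, Measure.prod_prod] at h10
  exact h10

end Pool.Agent.H204.CS.P_RECT
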