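import Pool.Agent.H204.CS.Stm

/-! SPLIT (project CS of helper204). -/

set_option autoImplicit false

namespace Pool.Agent.H204.CS.P_SPLIT

open MeasureTheory Topology Filter Pool.Agent.V1135.CAS

theorem main : S_SPLIT := by
  intro X₀ X₁ Ω _ _ _ _ _ _ _ _ _ _ _ _ _ _ act₀ act₁ d₀ d₁ g₀ g₁ C hπ hhalf ω ωD hω hωD hT2
  have i1 : IsFiniteMeasureOnCompacts ω := hω.1
  have i2 : IsFiniteMeasureOnCompacts ωD := hωD.1
  -- the first identity
  have hA : ∀ φ : D → ℝ, Continuous φ → HasCompactSupport φ → ∀ x,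
      ∫ z, φ (C.π x z) ∂ω = ∫ l, φ l ∂ωD := by
    intro φ hφ hφc x
    obtain ⟨g, hg, hgc, hg1, -⟩ := exists_one (isCompact_pre1 C x hφc)
    have h1 := hT2 φ g hφ hφc hg hgc x
    have e1 : ∀ l, (∫ y, g y ∂(C.K x l)) * φ l = φ l := by
      intro l
      by_cases hl : l ∈ tsupport φ
      · have : C.T l g x = 1 := T_const C fun y hy => hg1 y (by
          change C.π x y ∈ tsupport φ
          rw [hy]
          exact hl)
        unfold CAS.T at this
        rw [this, one_mul]
      · rw [image_eq_zero_of_notMem_tsupport hl, mul_zero]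
    have e2 : ∀ y, φ (C.π x y) * g y = φ (C.π x y) := by
      intro y
      by_cases hy : C.π x y ∈ tsupport φ
      · rw [hg1 y hy, mul_one]
      · rw [image_eq_zero_of_notMem_tsupport hy, zero_mul]
    simp_rw [e1, e2] at h1
    exact h1.symm
  refine ⟨hA, ?_⟩
  intro φ hφ hφc hφt x
  set S : Set (X₀ × X₁) := {y | d₁ x.2 y.2 < d₀ x.1 y.1} with hS
  have c1 : Continuous fun y : X₀ × X₁ => d₁ x.2 y.2 :=
    g₁.d_cont.comp (continuous_const.prodMk continuous_snd)
  have c0 : Continuous fun y : X₀ × X₁ => d₀ x.1 y.1 :=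
    g₀.d_cont.comp (continuous_const.prodMk continuous_fst)
  have hSo : IsOpen S := isOpen_lt c1 c0
  have hSm : MeasurableSet S := hSo.measurableSet
  set G : X₀ × X₁ → ℝ := fun y => if d₁ x.2 y.2 < d₀ x.1 y.1 then φ (C.π x y) else 0 with hG
  have hGc : Continuous G := by
    rw [continuous_iff_continuousAt]
    intro y
    by_cases hy : C.π x y ∈ tsupport φ
    · have h1 : (C.π x y).1.2 < (C.π x y).1.1 := hφt hy
      have hne : d₁ x.2 y.2 ≠ d₀ x.1 y.1 := by
        intro heq
        rw [hπ] at h1
        unfold pim srt at h1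
        simp only [heq, max_self, min_self] at h1
        exact lt_irrefl _ h1
      rcases lt_or_gt_of_ne hne with hlt | hgt
      · have : G =ᶠ[𝓝 y] fun y => φ (C.π x y) := by
          filter_upwards [hSo.mem_nhds hlt] with z hz
          exact if_pos hz
        exact ((compPi_cont C x hφ).continuousAt).congr this.symm
      · have ho : IsOpen {z : X₀ × X₁ | d₀ x.1 z.1 < d₁ x.2 z.2} := isOpen_lt c0 c1
        have : G =ᶠ[𝓝 y] fun _ => 0 := by
          filter_upwards [ho.mem_nhds hgt] with z hz
          exact if_neg (not_lt.2 (le_of_lt hz))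
        exact continuousAt_const.congr this.symm
    · have ho : IsOpen {z : X₀ × X₁ | C.π x z ∈ (tsupport φ)ᶜ} :=
        (isClosed_tsupport φ).isOpen_compl.preimage (continuous_pi C x)
      have : G =ᶠ[𝓝 y] fun _ => 0 := by
        filter_upwards [ho.mem_nhds hy] with z hz
        change (if d₁ x.2 z.2 < d₀ x.1 z.1 then φ (C.π x z) else 0) = 0
        rw [image_eq_zero_of_notMem_tsupport hz, ite_self]
      exact continuousAt_const.congr this.symm
  have hGs : HasCompactSupport G := by
    refine HasCompactSupport.intro (isCompact_pre1 C x hφc) fun y hy => ?_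
    change (if d₁ x.2 y.2 < d₀ x.1 y.1 then φ (C.π x y) else 0) = 0
    rw [image_eq_zero_of_notMem_tsupport hy, ite_self]
  obtain ⟨f, hf, hfc, hf1, -⟩ := exists_one hφc
  have h1 := hT2 f G hf hfc hGc hGs x
  have e1 : ∀ y, f (C.π x y) * G y = G y := by
    intro y
    by_cases hy : C.π x y ∈ tsupport φ
    · rw [hf1 _ hy, one_mul]
    · have : G y = 0 := by
        change (if d₁ x.2 y.2 < d₀ x.1 y.1 then φ (C.π x y) else 0) = 0
        rw [image_eq_zero_of_notMem_tsupport hy, ite_self]
      rw [this, mul_zero]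
  have e2 : ∀ l, (∫ y, G y ∂(C.K x l)) * f l = 2⁻¹ * φ l := by
    intro l
    by_cases hl : l ∈ tsupport φ
    · have hl' : l.1.2 < l.1.1 := hφt hl
      have h2 : ∫ y, G y ∂(C.K x l) = ∫ y, S.indicator (fun _ => φ l) y ∂(C.K x l) := by
        apply integral_congr_supp
        intro y hy
        rw [C.mem_supp] at hy
        by_cases hyS : y ∈ S
        · rw [Set.indicator_of_mem hyS, ← hy]
          exact if_pos hyS
        · rw [Set.indicator_of_notMem hyS]
          exact if_neg hyS
      rw [h2, integral_indicator_const _ hSm, hf1 _ hl, mul_one, smul_eq_mul]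
      have h3 : (C.K x l).real S = 2⁻¹ := by
        have h4 : C.K x l S = 2⁻¹ := hhalf x l hl'
        rw [measureReal_def, h4, ENNReal.toReal_inv]
        norm_num
      rw [h3]
    · have h2 : ∫ y, G y ∂(C.K x l) = 0 := by
        have : C.T l G x = 0 := T_const C fun y hy => by
          change (if d₁ x.2 y.2 < d₀ x.1 y.1 then φ (C.π x y) else 0) = 0
          rw [hy, image_eq_zero_of_notMem_tsupport hl, ite_self]
        exact this
      rw [h2, zero_mul, image_eq_zero_of_notMem_tsupport hl, mul_zero]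
  simp_rw [e1, e2] at h1
  rw [integral_const_mul, ← hA φ hφ hφc x] at h1
  change 2 * ∫ y, G y ∂ω = _
  rw [← h1]
  ring

end Pool.Agent.H204.CS.P_SPLIT
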