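import Pool.Agent.H204.CS.Stm

set_option autoImplicit false

/-! STEP of the project CS (helper204). -/

namespace Pool.Agent.H204.CS.P_STEP

open MeasureTheory Topology Matrix Pool.Agent.H204.CS

lemma dg_mul (s t : ℝ) : dg s * dg t = dg (s + t) := by
  unfold dg
  ext i j
  fin_cases i <;> fin_cases j <;> simp [Matrix.mul_apply, Fin.sum_univ_two, ← Complex.exp_add]
  ring_nf

lemma dg_zero : dg 0 = 1 := by
  unfold dg
  ext i j
  fin_cases i <;> fin_cases j <;> simp

lemma dg_star (s : ℝ) : (dg s)ᴴ = dg s := by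
  unfold dg
  ext i j
  fin_cases i <;> fin_cases j <;> simp [Matrix.conjTranspose_apply, ← Complex.ofReal_exp, ← Complex.ofReal_neg]

lemma gm_cont : Continuous gm := by
  unfold gm
  refine continuous_matrix fun i j => ?_
  fin_cases i <;> fin_cases j <;> simp <;> fun_prop

lemma zt_cont : Continuous zt := by
  unfold zt
  have h : Continuous fun k : U => k.1 0 0 := (continuous_subtype_val.matrix_elem 0 0)
  have := Complex.continuous_normSq.comp h
  exact (continuous_const.mul this).sub continuous_const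

lemma xi_cont : Continuous xi := by
  unfold xi
  have h : Continuous fun k : U => k.1 0 0 := (continuous_subtype_val.matrix_elem 0 0)
  have h' : Continuous fun k : U => k.1 1 0 := (continuous_subtype_val.matrix_elem 1 0)
  exact (continuous_const.mul h).mul (Complex.continuous_conj.comp h')

lemma q_pos (hH : S_HOPF) (r : ℝ) (k : U) : 0 < Real.cosh r + Real.sinh r * zt k := by
  have h1 := hH.1 k
  have h2 : zt k ^ 2 ≤ 1 := by
    have := Complex.normSq_nonneg (xi k)
    linarith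
  have h3 := Real.cosh_sq r
  have h4 := Real.cosh_pos r
  have h5 : (Real.sinh r * zt k) ^ 2 < Real.cosh r ^ 2 := by
    rw [mul_pow, h3]
    nlinarith [sq_nonneg (Real.sinh r)]
  have h6 := abs_lt_of_sq_lt_sq h5 h4.le
  linarith [(abs_lt.1 h6).1]

lemma act_cont (hH : S_HOPF) (x : ℝ × ℂ) (r : ℝ) : Continuous fun a : U => act1 x r a := by
  unfold act1
  have hq : Continuous fun a : U => Real.cosh r + Real.sinh r * zt a :=
    continuous_const.add (continuous_const.mul zt_cont)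
  have hs : Continuous fun a : U => Real.sqrt (Real.cosh r + Real.sinh r * zt a) := Real.continuous_sqrt.comp hq
  refine Continuous.prodMk ?_ ?_
  · exact continuous_const.add (hq.log fun a => (q_pos hH r a).ne')
  · refine Continuous.add ?_ ?_
    · exact continuous_const.mul (Complex.continuous_ofReal.comp hs)
    · refine Continuous.mul (Complex.continuous_ofReal.comp ?_) (Complex.continuous_conj.comp xi_cont)
      exact continuous_const.div hs fun a => (Real.sqrt_pos.2 (q_pos hH r a)).ne'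

/-- the change of frame -/
noncomputable def Lm (x : ℝ × ℂ) (r : ℝ) (a : U) : Matrix (Fin 2) (Fin 2) ℂ :=
  dg (-(r / 2)) * a.1ᴴ * (gm x)⁻¹ * gm (act1 x r a)

lemma Lm_cont (hH : S_HOPF) (x : ℝ × ℂ) (r : ℝ) : Continuous (Lm x r) := by
  unfold Lm
  have h1 : Continuous fun a : U => a.1ᴴ := continuous_subtype_val.matrix_conjTranspose
  have h2 : Continuous fun a : U => gm (act1 x r a) := gm_cont.comp (act_cont hH x r)
  exact ((continuous_const.matrix_mul h1).matrix_mul continuous_const).matrix_mul h2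

lemma frame (hH : S_HOPF) (hM : S_MAT) (x : ℝ × ℂ) (r : ℝ) (a : U) :
    gm x * a.1 * dg (r / 2) * Lm x r a = gm (act1 x r a) ∧ Lm x r a * (Lm x r a)ᴴ = 1 := by
  obtain ⟨m1, -, m3, -, -⟩ := hM hH
  have hu : IsUnit (gm x).det := by rw [m3]; exact isUnit_one
  have hG : (gm x)⁻¹ * gm x = 1 := Matrix.nonsing_inv_mul _ hu
  have hG' : gm x * (gm x)⁻¹ = 1 := Matrix.mul_nonsing_inv _ hu
  have hA : a.1 * a.1ᴴ = 1 := Matrix.mem_unitaryGroup_iff.1 a.2
  have hA' : a.1ᴴ * a.1 = 1 := Matrix.mem_unitaryGroup_iff'.1 a.2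
  have hd : dg (r / 2) * dg (-(r / 2)) = 1 := by rw [dg_mul, add_neg_cancel, dg_zero]
  have hd' : dg (-(r / 2)) * dg (r / 2) = 1 := by rw [dg_mul, neg_add_cancel, dg_zero]
  have hd2 : dg (r / 2) * dg (r / 2) = dg r := by rw [dg_mul]; congr 1; ring
  have hh1 : (gm x * a.1 * dg (r / 2)) * (dg (-(r / 2)) * a.1ᴴ * (gm x)⁻¹) = 1 := by
    calc (gm x * a.1 * dg (r / 2)) * (dg (-(r / 2)) * a.1ᴴ * (gm x)⁻¹)
        = gm x * (a.1 * (dg (r / 2) * dg (-(r / 2))) * a.1ᴴ) * (gm x)⁻¹ := by noncomm_ring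
      _ = 1 := by rw [hd, Matrix.mul_one, hA, Matrix.mul_one, hG']
  have hh2 : (dg (-(r / 2)) * a.1ᴴ * (gm x)⁻¹) * (gm x * a.1 * dg (r / 2)) = 1 := by
    calc (dg (-(r / 2)) * a.1ᴴ * (gm x)⁻¹) * (gm x * a.1 * dg (r / 2))
        = dg (-(r / 2)) * (a.1ᴴ * ((gm x)⁻¹ * gm x) * a.1) * dg (r / 2) := by noncomm_ring
      _ = 1 := by rw [hG, Matrix.mul_one, hA', Matrix.mul_one, hd']
  refine ⟨?_, ?_⟩
  · unfold Lm
    rw [← Matrix.mul_assoc, hh1, Matrix.one_mul]
  · unfold Lm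
    have hg : gm (act1 x r a) * (gm (act1 x r a))ᴴ = (gm x * a.1 * dg (r / 2)) * (gm x * a.1 * dg (r / 2))ᴴ := by
      rw [m1, Matrix.conjTranspose_mul, Matrix.conjTranspose_mul, dg_star]
      unfold em
      rw [← hd2]
      noncomm_ring
    rw [Matrix.conjTranspose_mul]
    calc (dg (-(r / 2)) * a.1ᴴ * (gm x)⁻¹) * gm (act1 x r a) * ((gm (act1 x r a))ᴴ * (dg (-(r / 2)) * a.1ᴴ * (gm x)⁻¹)ᴴ)
        = (dg (-(r / 2)) * a.1ᴴ * (gm x)⁻¹) * (gm (act1 x r a) * (gm (act1 x r a))ᴴ) * (dg (-(r / 2)) * a.1ᴴ * (gm x)⁻¹)ᴴ := by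
          noncomm_ring
      _ = ((dg (-(r / 2)) * a.1ᴴ * (gm x)⁻¹) * (gm x * a.1 * dg (r / 2))) *
          ((dg (-(r / 2)) * a.1ᴴ * (gm x)⁻¹) * (gm x * a.1 * dg (r / 2)))ᴴ := by
          rw [hg, Matrix.conjTranspose_mul (dg (-(r / 2)) * a.1ᴴ * (gm x)⁻¹) (gm x * a.1 * dg (r / 2))]
          simp only [Matrix.mul_assoc]
      _ = 1 := by rw [hh2, Matrix.conjTranspose_one, Matrix.one_mul]

theorem main : S_STEP := by
  intro hH hM
  refine ⟨fun x r a => ⟨Lm x r a, Matrix.mem_unitaryGroup_iff.2 (frame hH hM x r a).2⟩, ?_, ?_⟩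
  · intro x r
    exact (Lm_cont hH x r).subtype_mk _
  · intro x r a t b
    obtain ⟨m1, -⟩ := hM hH
    obtain ⟨f1, -⟩ := frame hH hM x r a
    rw [m1]
    have e : em t ((⟨Lm x r a, Matrix.mem_unitaryGroup_iff.2 (frame hH hM x r a).2⟩ : U) * b) =
        Lm x r a * em t b * (Lm x r a)ᴴ := by
      unfold em
      have : ((⟨Lm x r a, Matrix.mem_unitaryGroup_iff.2 (frame hH hM x r a).2⟩ : U) * b).1 = Lm x r a * b.1 := rfl
      rw [this, Matrix.conjTranspose_mul]
      simp only [Matrix.mul_assoc]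
    rw [e]
    nth_rewrite 1 2 [← f1]
    rw [Matrix.conjTranspose_mul, Matrix.conjTranspose_mul, Matrix.conjTranspose_mul, dg_star]
    simp only [Matrix.mul_assoc]

end Pool.Agent.H204.CS.P_STEP
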