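import Pool.Agent.H204.CS.Stm

/-!
Project CS (helper204), task SUBST: one-dimensional substitution.
-/

set_option autoImplicit false

namespace Pool.Agent.H204.CS.P_SUBST

open MeasureTheory Topology Set Pool.Agent.H204.CS

/-- substitution in an integral over `[-1, 1]` -/
theorem subst {φ φ' : ℝ → ℝ} {a b : ℝ} (hab : a ≤ b) (ha : φ a = -1) (hb : φ b = 1)
    (hφ : ∀ u ∈ Icc a b, HasDerivAt φ (φ' u) u) (hm : StrictMonoOn φ (Icc a b))
    (h0 : ∀ u ∈ Icc a b, 0 ≤ φ' u) (g : ℝ → ENNReal) :
    ∫⁻ z, g z ∂uni = 2⁻¹ * ∫⁻ u in Icc a b, ENNReal.ofReal (φ' u) * g (φ u) := by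
  have him : φ '' Icc a b = Icc (-1) 1 := by
    apply Subset.antisymm
    · rintro _ ⟨u, hu, rfl⟩
      rw [← ha, ← hb]
      exact ⟨hm.monotoneOn (left_mem_Icc.2 hab) hu hu.1, hm.monotoneOn hu (right_mem_Icc.2 hab) hu.2⟩
    · rw [← ha, ← hb]
      exact intermediate_value_Icc hab fun u hu => (hφ u hu).continuousAt.continuousWithinAt
  have h1 := lintegral_image_eq_lintegral_abs_deriv_mul (s := Icc a b) (f := φ) (f' := φ')
    measurableSet_Icc (fun u hu => (hφ u hu).hasDerivWithinAt) hm.injOn g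
  rw [him] at h1
  unfold uni
  rw [lintegral_smul_measure, h1, smul_eq_mul]
  congr 1
  refine setLIntegral_congr_fun measurableSet_Icc fun u hu => ?_
  rw [abs_of_nonneg (h0 u hu)]

theorem main : S_SUBST := by
  intro G _ r t hr ht
  rcases hr.eq_or_lt with rfl | hr0
  · have h1 : ∀ z, ut 0 t z = t := by
      intro z
      unfold ut
      rw [show (0 : ℝ) ^ 2 + t ^ 2 + 2 * 0 * t * z = t ^ 2 by ring, Real.sqrt_sq ht]
    have h2 : wh 0 = 1 := by simp [wh]
    simp only [h1, Real.cosh_zero, Real.sinh_zero, one_mul, zero_mul, mul_zero, add_zero,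
      Real.arcosh_cosh ht, h2, lintegral_const]
    ring
  rcases ht.eq_or_lt with rfl | ht0
  · have h1 : ∀ z, ut r 0 z = r := by
      intro z
      unfold ut
      rw [show r ^ 2 + (0 : ℝ) ^ 2 + 2 * r * 0 * z = r ^ 2 by ring, Real.sqrt_sq hr]
    have h2 : wh 0 = 1 := by simp [wh]
    simp only [h1, Real.cosh_zero, Real.sinh_zero, mul_one, mul_zero, add_zero,
      Real.arcosh_cosh hr, h2, lintegral_const]
    ring
  have hsr : 0 < Real.sinh r := Real.sinh_pos_iff.2 hr0
  have hst : 0 < Real.sinh t := Real.sinh_pos_iff.2 ht0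
  have hss : Real.sinh r * Real.sinh t ≠ 0 := (mul_pos hsr hst).ne'
  have hab : |r - t| ≤ r + t := abs_le.2 ⟨by linarith, by linarith⟩
  have hnn : ∀ u ∈ Icc |r - t| (r + t), 0 ≤ u := fun u hu => (abs_nonneg _).trans hu.1
  -- the two substitutions
  have e1 := subst (φ := fun u => (Real.cosh u - Real.cosh r * Real.cosh t) /
      (Real.sinh r * Real.sinh t)) (φ' := fun u => Real.sinh u / (Real.sinh r * Real.sinh t)) hab
    (by
      rw [Real.cosh_abs, Real.cosh_sub, div_eq_iff hss]
      ring)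
    (by
      rw [Real.cosh_add, div_eq_iff hss]
      ring)
    (fun u _ => ((Real.hasDerivAt_cosh u).sub_const _).div_const _)
    (by
      intro u hu v hv huv
      apply div_lt_div_of_pos_right _ (mul_pos hsr hst)
      have := Real.cosh_strictMonoOn (hnn u hu) (hnn v hv) huv
      linarith)
    (fun u hu => div_nonneg (Real.sinh_nonneg_iff.2 (hnn u hu)) (mul_pos hsr hst).le)
    (fun z => G (Real.arcosh (Real.cosh r * Real.cosh t + z * (Real.sinh r * Real.sinh t))))
  have e2 := subst (φ := fun u => (u ^ 2 - (r ^ 2 + t ^ 2)) / (2 * r * t))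
      (φ' := fun u => u / (r * t)) hab
    (by
      rw [sq_abs, div_eq_iff (by positivity)]
      ring)
    (by
      rw [div_eq_iff (by positivity)]
      ring)
    (fun u _ => by
      refine (((hasDerivAt_pow 2 u).sub_const _).div_const _).congr_deriv ?_
      field_simp
      norm_num)
    (by
      intro u hu v hv huv
      apply div_lt_div_of_pos_right _ (by positivity)
      have := hnn u hu
      nlinarith)
    (fun u hu => div_nonneg (hnn u hu) (by positivity))
    (fun z => ENNReal.ofReal (wh (ut r t z)) * G (ut r t z))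
  rw [e1, e2, ← mul_assoc, mul_comm (ENNReal.ofReal (wh r * wh t)), mul_assoc]
  congr 1
  rw [← lintegral_const_mul' _ _ ENNReal.ofReal_ne_top]
  refine setLIntegral_congr_fun measurableSet_Icc fun u hu => ?_
  have hu0 := hnn u hu
  have f1 : Real.cosh r * Real.cosh t + (Real.cosh u - Real.cosh r * Real.cosh t) /
      (Real.sinh r * Real.sinh t) * (Real.sinh r * Real.sinh t) = Real.cosh u := by
    rw [div_mul_cancel₀ _ hss]
    ring
  have f2 : ut r t ((u ^ 2 - (r ^ 2 + t ^ 2)) / (2 * r * t)) = u := by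
    unfold ut
    have : r ^ 2 + t ^ 2 + 2 * r * t * ((u ^ 2 - (r ^ 2 + t ^ 2)) / (2 * r * t)) = u ^ 2 := by
      field_simp
      ring
    rw [this, Real.sqrt_sq hu0]
  simp only [f1, f2, Real.arcosh_cosh hu0]
  rw [← mul_assoc, ← mul_assoc]
  congr 1
  have hwr : wh r = Real.sinh r / r := by simp [wh, hr0.ne']
  have hwt : wh t = Real.sinh t / t := by simp [wh, ht0.ne']
  rw [← ENNReal.ofReal_mul (by rw [hwr, hwt]; positivity), ← ENNReal.ofReal_mul (by positivity)]
  congr 1
  rw [hwr, hwt]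
  rcases hu0.eq_or_lt with rfl | hup
  · simp
  · have hwu : wh u = Real.sinh u / u := by simp [wh, hup.ne']
    rw [hwu]
    field_simp

end Pool.Agent.H204.CS.P_SUBST
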