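import Pool.Agent.H204.CS.Stm

/-!
# Project CS, task TRACE
-/

set_option autoImplicit false

namespace Pool.Agent.H204.CS.P_TRACE

open Pool.Agent.H204.CS Matrix

theorem dg_eq (t : ℝ) : dg t = (Real.cosh t : ℂ) • (1 : Matrix (Fin 2) (Fin 2) ℂ) +
    (Real.sinh t : ℂ) • !![1, 0; 0, -1] := by
  have h1 : Real.cosh t + Real.sinh t = Real.exp t := Real.cosh_add_sinh t
  have h2 : Real.cosh t - Real.sinh t = Real.exp (-t) := Real.cosh_sub_sinh t
  ext i j
  fin_cases i <;> fin_cases j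
  · show (Real.exp t : ℂ) = _
    rw [← h1]; simp
  · simp [dg]
  · simp [dg]
  · show (Real.exp (-t) : ℂ) = _
    rw [← h2]; simp [sub_eq_add_neg]

theorem em_eq (hH : S_HOPF) (t : ℝ) (b : U) : em t b =
    !![((Real.cosh t + Real.sinh t * zt b : ℝ) : ℂ), (Real.sinh t : ℂ) * xi b;
      (Real.sinh t : ℂ) * starRingEnd ℂ (xi b), ((Real.cosh t - Real.sinh t * zt b : ℝ) : ℂ)] := by
  have hb : b.1 * b.1ᴴ = 1 := Matrix.mem_unitaryGroup_iff.1 b.2
  have h3 := hH.2.2 b
  unfold em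
  rw [dg_eq, mul_add, add_mul, Matrix.mul_smul, Matrix.mul_smul, Matrix.smul_mul, Matrix.smul_mul,
    mul_one, hb, h3]
  ext i j
  fin_cases i <;> fin_cases j <;> simp [sub_eq_add_neg]

theorem prod_eq (hH : S_HOPF) (r t : ℝ) (b : U) : dg (r / 2) * em t b * dg (r / 2) =
    !![((Real.exp r * (Real.cosh t + Real.sinh t * zt b) : ℝ) : ℂ), (Real.sinh t : ℂ) * xi b;
      (Real.sinh t : ℂ) * starRingEnd ℂ (xi b),
        ((Real.exp (-r) * (Real.cosh t - Real.sinh t * zt b) : ℝ) : ℂ)] := by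
  have e1 : ((Real.exp (r / 2) : ℝ) : ℂ) * ((Real.exp (r / 2) : ℝ) : ℂ) = (Real.exp r : ℝ) := by
    rw [← Complex.ofReal_mul, ← Real.exp_add, add_halves]
  have e2 : ((Real.exp (-(r / 2)) : ℝ) : ℂ) * ((Real.exp (-(r / 2)) : ℝ) : ℂ) =
      (Real.exp (-r) : ℝ) := by
    rw [← Complex.ofReal_mul, ← Real.exp_add]
    congr 2; ring
  have e3 : ((Real.exp (r / 2) : ℝ) : ℂ) * ((Real.exp (-(r / 2)) : ℝ) : ℂ) = 1 := by
    rw [← Complex.ofReal_mul, ← Real.exp_add, add_neg_cancel, Real.exp_zero, Complex.ofReal_one]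
  rw [em_eq hH]
  unfold dg
  rw [Matrix.mul_fin_two, Matrix.mul_fin_two]
  ext i j
  fin_cases i <;> fin_cases j
  · show _ = ((Real.exp r * (Real.cosh t + Real.sinh t * zt b) : ℝ) : ℂ)
    rw [Complex.ofReal_mul, ← e1]
    simp only [Fin.zero_eta, of_apply, cons_val_zero, cons_val', cons_val_fin_one]
    ring
  · show _ = (Real.sinh t : ℂ) * xi b
    simp only [Fin.zero_eta, Fin.mk_one, of_apply, cons_val_zero, cons_val_one, cons_val', cons_val_fin_one]
    linear_combination ((Real.sinh t : ℂ) * xi b) * e3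
  · show _ = (Real.sinh t : ℂ) * starRingEnd ℂ (xi b)
    simp only [Fin.zero_eta, Fin.mk_one, of_apply, cons_val_zero, cons_val_one, cons_val', cons_val_fin_one]
    linear_combination ((Real.sinh t : ℂ) * starRingEnd ℂ (xi b)) * e3
  · show _ = ((Real.exp (-r) * (Real.cosh t - Real.sinh t * zt b) : ℝ) : ℂ)
    rw [Complex.ofReal_mul, ← e2]
    simp only [Fin.zero_eta, Fin.mk_one, of_apply, cons_val_zero, cons_val_one, cons_val', cons_val_fin_one]
    ring

theorem main : S_TRACE := by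
  intro hH r t b
  rw [prod_eq hH]
  refine ⟨?_, ?_, ?_⟩
  · rw [Matrix.trace_fin_two]
    show ((Real.exp r * (Real.cosh t + Real.sinh t * zt b) : ℝ) : ℂ) +
      ((Real.exp (-r) * (Real.cosh t - Real.sinh t * zt b) : ℝ) : ℂ) = _
    rw [← Real.cosh_add_sinh r, ← Real.cosh_sub_sinh r]
    push_cast
    ring
  · ext i j
    fin_cases i <;> fin_cases j <;> simp [Matrix.conjTranspose_apply, -Complex.ofReal_cosh, -Complex.ofReal_sinh, -Complex.ofReal_exp]
  · rw [Matrix.det_fin_two]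
    show ((Real.exp r * (Real.cosh t + Real.sinh t * zt b) : ℝ) : ℂ) *
      ((Real.exp (-r) * (Real.cosh t - Real.sinh t * zt b) : ℝ) : ℂ) -
      (Real.sinh t : ℂ) * xi b * ((Real.sinh t : ℂ) * starRingEnd ℂ (xi b)) = 1
    have h1 : xi b * starRingEnd ℂ (xi b) = ((Complex.normSq (xi b) : ℝ) : ℂ) := Complex.mul_conj _
    have h2 := hH.1 b
    have h3 : Real.cosh t ^ 2 - Real.sinh t ^ 2 = 1 := Real.cosh_sq_sub_sinh_sq t
    have h4 : Real.exp r * Real.exp (-r) = 1 := by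
      rw [← Real.exp_add, add_neg_cancel, Real.exp_zero]
    have h5 : (Real.exp r * (Real.cosh t + Real.sinh t * zt b)) *
      (Real.exp (-r) * (Real.cosh t - Real.sinh t * zt b)) -
      Real.sinh t * Real.sinh t * Complex.normSq (xi b) = 1 := by
      linear_combination (Real.cosh t + Real.sinh t * zt b) * (Real.cosh t - Real.sinh t * zt b) * h4
        - Real.sinh t ^ 2 * h2 + h3
    have h6 : (Real.sinh t : ℂ) * xi b * ((Real.sinh t : ℂ) * starRingEnd ℂ (xi b)) =
        ((Real.sinh t * Real.sinh t * Complex.normSq (xi b) : ℝ) : ℂ) := by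
      rw [Complex.ofReal_mul, Complex.ofReal_mul, ← h1]
      ring
    rw [h6, ← Complex.ofReal_mul, ← Complex.ofReal_sub, h5, Complex.ofReal_one]

end Pool.Agent.H204.CS.P_TRACE
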