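import Pool.Agent.H204.CS.Stm

/-! UNIQ (project CS of helper204): uniqueness of uniformly distributed measures. -/

set_option autoImplicit false

namespace Pool.Agent.H204.CS.P_UNIQ

open MeasureTheory Topology Filter Pool.Agent.V1135.CAS

section

variable {X E : Type}
  [TopologicalSpace X] [T2Space X] [LocallyCompactSpace X] [SecondCountableTopology X]
  [MeasurableSpace X] [BorelSpace X]
  [TopologicalSpace E] [T2Space E] [LocallyCompactSpace E] [SecondCountableTopology E]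
  [MeasurableSpace E] [BorelSpace E]
  (C : CAS X E)

theorem supp_e {x z : X} (hz : z ∈ (C.K x C.H.e).support) : z = x := by
  rw [C.K_e] at hz
  by_contra hne
  rw [Measure.mem_support_iff_forall] at hz
  have h2 := hz {x}ᶜ (isOpen_compl_singleton.mem_nhds hne)
  rw [Measure.dirac_apply' _ (measurableSet_singleton x).compl] at h2
  simp at h2

/-- uniform continuity with respect to the partition map -/
theorem unif_cont (hsym : ∀ x y, C.π x y = C.π y x) {f : X → ℝ} (hf : Continuous f)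
    (hfc : HasCompactSupport f) {ε : ℝ} (hε : 0 < ε) :
    ∃ W : Set E, IsOpen W ∧ C.H.e ∈ W ∧ ∀ x y, C.π x y ∈ W → |f x - f y| ≤ ε := by
  have key : ∃ W : Set E, IsOpen W ∧ C.H.e ∈ W ∧ ∀ x ∈ tsupport f, ∀ y, C.π x y ∈ W →
      |f x - f y| ≤ ε := by
    refine IsCompact.induction_on (s := tsupport f) hfc
      (p := fun S => ∃ W : Set E, IsOpen W ∧ C.H.e ∈ W ∧ ∀ x ∈ S, ∀ y, C.π x y ∈ W →
        |f x - f y| ≤ ε) ?_ ?_ ?_ ?_
    · exact ⟨Set.univ, isOpen_univ, Set.mem_univ _, fun x hx => absurd hx (Set.notMem_empty x)⟩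
    · rintro s t hst ⟨W, hW, heW, h⟩
      exact ⟨W, hW, heW, fun x hx => h x (hst hx)⟩
    · rintro s t ⟨W, hW, heW, h⟩ ⟨W', hW', heW', h'⟩
      refine ⟨W ∩ W', hW.inter hW', ⟨heW, heW'⟩, ?_⟩
      rintro x (hx | hx) y hy
      · exact h x hx y hy.1
      · exact h' x hx y hy.2
    · intro x _
      have hU : IsOpen {y : X | |f y - f x| < ε / 2} :=
        isOpen_lt (by fun_prop) continuous_const
      have hO := (C.supp_cont _ hU).1
      have hmem : (x, C.H.e) ∈ {p : X × E | (C.K p.1 p.2).support ⊆ {y : X | |f y - f x| < ε / 2}} := by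
        intro z hz
        rw [supp_e C hz]
        change |f x - f x| < ε / 2
        rw [sub_self, abs_zero]
        positivity
      obtain ⟨V, W, hV, hW, hxV, heW, hVW⟩ := isOpen_prod_iff.1 hO x C.H.e hmem
      refine ⟨V ∩ {y : X | |f y - f x| < ε / 2},
        mem_nhdsWithin_of_mem_nhds ((hV.inter hU).mem_nhds ⟨hxV, ?_⟩), W, hW, heW, ?_⟩
      · change |f x - f x| < ε / 2
        rw [sub_self, abs_zero]
        positivity
      · rintro p ⟨hpV, hpU⟩ y hy
        have h1 : y ∈ {y : X | |f y - f x| < ε / 2} :=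
          hVW (Set.mk_mem_prod hpV hy) ((C.mem_supp p y _).2 rfl)
        have h2 : |f y - f x| < ε / 2 := h1
        have h3 : |f p - f x| < ε / 2 := hpU
        have h4 : f p - f y = (f p - f x) - (f y - f x) := by ring
        rw [h4]
        have h5 := abs_sub (f p - f x) (f y - f x)
        linarith
  obtain ⟨W, hW, heW, h⟩ := key
  refine ⟨W, hW, heW, fun x y hxy => ?_⟩
  by_cases hx : x ∈ tsupport f
  · exact h x hx y hxy
  by_cases hy : y ∈ tsupport f
  · rw [abs_sub_comm]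
    exact h y hy x (by rw [hsym]; exact hxy)
  · rw [image_eq_zero_of_notMem_tsupport hx, image_eq_zero_of_notMem_tsupport hy, sub_self,
      abs_zero]
    exact hε.le

/-- the main estimate -/
theorem estimate (hsym : ∀ x y, C.π x y = C.π y x) (ω ω' : Measure X)
    [IsFiniteMeasureOnCompacts ω] [IsFiniteMeasureOnCompacts ω'] (x₀ : X)
    (hu : ∀ φ : E → ℝ, Continuous φ → HasCompactSupport φ → ∀ x y,
      ∫ z, φ (C.π x z) ∂ω = ∫ z, φ (C.π y z) ∂ω)
    (hu' : ∀ φ : E → ℝ, Continuous φ → HasCompactSupport φ → ∀ x y,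
      ∫ z, φ (C.π x z) ∂ω' = ∫ z, φ (C.π y z) ∂ω')
    {f : X → ℝ} (hf : Continuous f) (hfc : HasCompactSupport f) :
    ∃ M : ℝ, 0 ≤ M ∧ ∀ ε : ℝ, 0 < ε → ∃ W : Set E, IsOpen W ∧ C.H.e ∈ W ∧
      ∀ φ : E → ℝ, Continuous φ → HasCompactSupport φ → (∀ h, 0 ≤ φ h) → (∀ h, h ∉ W → φ h = 0) →
        |(∫ x, f x ∂ω') * (∫ z, φ (C.π x₀ z) ∂ω) - (∫ z, φ (C.π x₀ z) ∂ω') * ∫ x, f x ∂ω| ≤
          ε * (∫ z, φ (C.π x₀ z) ∂ω') * M := by
  obtain ⟨B, hB, hBe⟩ := exists_compact_mem_nhds C.H.e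
  set N : Set X := {z | ∃ x ∈ tsupport f, C.π x z ∈ B} with hN
  have hNc : IsCompact N := isCompact_pre C hfc hB
  refine ⟨ω.real N, measureReal_nonneg, fun ε hε => ?_⟩
  obtain ⟨W, hW, heW, hWf⟩ := unif_cont C hsym hf hfc hε
  refine ⟨W ∩ interior B, hW.inter isOpen_interior, ⟨heW, mem_interior_iff_mem_nhds.2 hBe⟩, ?_⟩
  intro φ hφ hφc hφ0 hφW
  set g := ∫ z, φ (C.π x₀ z) ∂ω with hg
  set g' := ∫ z, φ (C.π x₀ z) ∂ω' with hg'
  set t : Set X := {z | ∃ x ∈ tsupport f, C.π x z ∈ tsupport φ} with ht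
  have htc : IsCompact t := isCompact_pre C hfc hφc
  have hF : Continuous (Function.uncurry fun (x y : X) => f x * φ (C.π x y)) :=
    (hf.comp continuous_fst).mul (hφ.comp C.π_cont)
  have z1 : ∀ x y, x ∉ tsupport f → f x * φ (C.π x y) = 0 := fun x y hx => by
    rw [image_eq_zero_of_notMem_tsupport hx, zero_mul]
  have z2 : ∀ x y, y ∉ t → f x * φ (C.π x y) = 0 := fun x y hy => by
    by_cases hx : x ∈ tsupport f
    · rw [image_eq_zero_of_notMem_tsupport (f := φ) (fun h => hy ⟨x, hx, h⟩), mul_zero]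
    · exact z1 x y hx
  have hsw := swap' (μ := ω') (ν := ω) hF hfc htc z1 z2
  have hL : ∫ x, (∫ y, f x * φ (C.π x y) ∂ω) ∂ω' = (∫ x, f x ∂ω') * g := by
    have : ∀ x, ∫ y, f x * φ (C.π x y) ∂ω = f x * g := by
      intro x
      rw [integral_const_mul, hu φ hφ hφc x x₀]
    simp_rw [this]
    rw [integral_mul_const]
  rw [hL] at hsw
  set J : X → ℝ := fun y => ∫ x, f x * φ (C.π x y) ∂ω' with hJ
  have hJc : Continuous J := by
    have hF2 : Continuous (Function.uncurry fun (y x : X) => f x * φ (C.π x y)) :=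
      (hf.comp continuous_snd).mul (hφ.comp (C.π_cont.comp (continuous_snd.prodMk continuous_fst)))
    exact continuous_param hF2 hfc fun y x hx => z1 x y hx
  have hJs : HasCompactSupport J := by
    refine HasCompactSupport.intro htc fun y hy => ?_
    change ∫ x, f x * φ (C.π x y) ∂ω' = 0
    simp_rw [fun x => z2 x y hy]
    exact integral_zero _ _
  have hJi : Integrable J ω := hJc.integrable_of_hasCompactSupport hJs
  have hfi : Integrable (fun y => g' * f y) ω :=
    (hf.integrable_of_hasCompactSupport hfc).const_mul g'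
  have hg'0 : 0 ≤ g' := integral_nonneg fun z => hφ0 _
  have hpi : ∀ y, Integrable (fun x => φ (C.π y x)) ω' := fun y =>
    (compPi_cont C y hφ).integrable_of_hasCompactSupport (compPi_supp C y hφc)
  have hbd : ∀ y, ‖J y - g' * f y‖ ≤ ε * g' := by
    intro y
    have e1 : g' * f y = ∫ x, f y * φ (C.π y x) ∂ω' := by
      rw [integral_const_mul, hu' φ hφ hφc y x₀, mul_comm]
    have i1 : Integrable (fun x => f x * φ (C.π x y)) ω' := by
      have hc : Continuous fun x => f x * φ (C.π x y) := hF.comp (Continuous.prodMk_left y)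
      exact hc.integrable_of_hasCompactSupport hfc.mul_right
    have e2 : J y - g' * f y = ∫ x, (f x - f y) * φ (C.π y x) ∂ω' := by
      rw [e1]
      change (∫ x, f x * φ (C.π x y) ∂ω') - _ = _
      rw [← integral_sub i1 ((hpi y).const_mul (f y))]
      congr 1
      funext x
      rw [hsym x y]
      ring
    rw [e2]
    calc ‖∫ x, (f x - f y) * φ (C.π y x) ∂ω'‖ ≤ ∫ x, ε * φ (C.π y x) ∂ω' := by
          apply norm_integral_le_of_norm_le ((hpi y).const_mul ε)
          filter_upwards with x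
          rw [norm_mul, Real.norm_eq_abs, Real.norm_eq_abs, abs_of_nonneg (hφ0 _)]
          by_cases hxy : C.π y x ∈ W ∩ interior B
          · refine mul_le_mul_of_nonneg_right ?_ (hφ0 _)
            exact hWf x y (by rw [hsym]; exact hxy.1)
          · rw [hφW _ hxy, mul_zero, mul_zero]
      _ = ε * g' := by rw [integral_const_mul, hu' φ hφ hφc y x₀]
  have hz : ∀ y, y ∉ N → J y - g' * f y = 0 := by
    intro y hy
    have h1 : f y = 0 := by
      by_contra hne
      apply hy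
      refine ⟨y, subset_tsupport _ hne, ?_⟩
      rw [pi_self C y]
      exact mem_of_mem_nhds hBe
    have h2 : J y = 0 := by
      change ∫ x, f x * φ (C.π x y) ∂ω' = 0
      have : ∀ x, f x * φ (C.π x y) = 0 := by
        intro x
        by_cases hx : x ∈ tsupport f
        · have h3 : C.π x y ∉ W ∩ interior B := fun h =>
            hy ⟨x, hx, interior_subset h.2⟩
          rw [hφW _ h3, mul_zero]
        · exact z1 x y hx
      simp_rw [this]
      exact integral_zero _ _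
    rw [h1, h2, mul_zero, sub_zero]
  have hfin : (∫ x, f x ∂ω') * g - g' * ∫ x, f x ∂ω = ∫ y in N, (J y - g' * f y) ∂ω := by
    rw [setIntegral_eq_integral_of_forall_compl_eq_zero hz, integral_sub hJi hfi,
      integral_const_mul, hsw]
  rw [hfin]
  have h5 := norm_setIntegral_le_of_norm_le_const (μ := ω) (s := N) (C := ε * g')
    hNc.measure_lt_top (fun y _ => hbd y)
  rwa [Real.norm_eq_abs] at h5

end

theorem main : S_UNIQ := by
  intro X E _ _ _ _ _ _ hX _ _ _ _ _ _ C ω ω' _ _ _ _ hsym hu hu'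
  obtain ⟨x₀⟩ := hX
  obtain ⟨f₁, hf₁, hf₁c, hf₁1, -, hf₁0⟩ := exists_bump (Z := X) isOpen_univ (Set.mem_univ x₀)
  have hI₁ : 0 < ∫ x, f₁ x ∂ω :=
    Continuous.integral_pos_of_hasCompactSupport_nonneg_nonzero (x := x₀) hf₁ hf₁c hf₁0
      (by rw [hf₁1]; exact one_ne_zero)
  have hI₁' : 0 < ∫ x, f₁ x ∂ω' :=
    Continuous.integral_pos_of_hasCompactSupport_nonneg_nonzero (x := x₀) hf₁ hf₁c hf₁0
      (by rw [hf₁1]; exact one_ne_zero)
  set I₁ := ∫ x, f₁ x ∂ω with hI₁d
  set I₁' := ∫ x, f₁ x ∂ω' with hI₁'d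
  refine ⟨I₁' / I₁, div_pos hI₁' hI₁, fun f hf hfc => ?_⟩
  set I := ∫ x, f x ∂ω with hId
  set I' := ∫ x, f x ∂ω' with hI'd
  obtain ⟨M₁, hM₁, h₁⟩ := estimate C hsym ω ω' x₀ hu hu' hf₁ hf₁c
  obtain ⟨M, hM, h⟩ := estimate C hsym ω ω' x₀ hu hu' hf hfc
  have key : ∀ ε : ℝ, 0 < ε → |I₁ * I' - I₁' * I| ≤ ε * (M₁ * |I'| + M * I₁') := by
    intro ε hε
    obtain ⟨W₁, hW₁, heW₁, hh₁⟩ := h₁ ε hε
    obtain ⟨W, hW, heW, hh⟩ := h ε hε
    obtain ⟨φ, hφ, hφc, hφ1, hφW, hφ0⟩ := exists_bump (hW₁.inter hW) ⟨heW₁, heW⟩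
    have a₁ := hh₁ φ hφ hφc hφ0 (fun k hk => hφW k fun h => hk h.1)
    have a := hh φ hφ hφc hφ0 (fun k hk => hφW k fun h => hk h.2)
    have hg' : 0 < ∫ z, φ (C.π x₀ z) ∂ω' := by
      refine Continuous.integral_pos_of_hasCompactSupport_nonneg_nonzero (x := x₀)
        (compPi_cont C x₀ hφ) (compPi_supp C x₀ hφc) (fun z => hφ0 _) ?_
      rw [pi_self C x₀, hφ1]
      exact one_ne_zero
    set g := ∫ z, φ (C.π x₀ z) ∂ω with hg
    set g' := ∫ z, φ (C.π x₀ z) ∂ω' with hg'd
    have e1 : g' * (I₁ * I' - I₁' * I) = -(I₁' * g - g' * I₁) * I' + I₁' * (I' * g - g' * I) := by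
      ring
    have e2 : g' * |I₁ * I' - I₁' * I| ≤ g' * (ε * (M₁ * |I'| + M * I₁')) := by
      calc g' * |I₁ * I' - I₁' * I| = |g' * (I₁ * I' - I₁' * I)| := by
            rw [abs_mul, abs_of_pos hg']
        _ ≤ |-(I₁' * g - g' * I₁) * I'| + |I₁' * (I' * g - g' * I)| := by
            rw [e1]
            exact abs_add_le _ _
        _ = |I₁' * g - g' * I₁| * |I'| + I₁' * |I' * g - g' * I| := by
            rw [abs_mul, abs_neg, abs_mul, abs_of_pos hI₁']
        _ ≤ (ε * g' * M₁) * |I'| + I₁' * (ε * g' * M) := by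
            gcongr
        _ = g' * (ε * (M₁ * |I'| + M * I₁')) := by ring
    exact le_of_mul_le_mul_left e2 hg'
  have hzero : |I₁ * I' - I₁' * I| = 0 := by
    set T := M₁ * |I'| + M * I₁' with hT
    have hT0 : 0 ≤ T := by positivity
    apply le_antisymm _ (abs_nonneg _)
    apply le_of_forall_pos_le_add
    intro δ hδ
    have h6 := key (δ / (T + 1)) (by positivity)
    refine h6.trans ?_
    rw [zero_add, div_mul_eq_mul_div, div_le_iff₀ (by positivity)]
    nlinarith
  rw [abs_eq_zero, sub_eq_zero] at hzero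
  rw [div_mul_eq_mul_div, eq_div_iff hI₁.ne', ← hzero]
  ring

end Pool.Agent.H204.CS.P_UNIQ
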