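import Pool.Agent.H204.CS.Stm

/-!
# Project CS (helper204): the two weights (`S_WT`)
-/

set_option autoImplicit false

open MeasureTheory Topology Set

namespace Pool.Agent.H204.CS.P_WT

open Pool.Agent.H204.CS

lemma uni_univ : uni Set.univ = 1 := by
  unfold uni
  rw [Measure.smul_apply, Measure.restrict_apply MeasurableSet.univ, Set.univ_inter,
    Real.volume_Icc, smul_eq_mul]
  norm_num
  rw [ENNReal.inv_mul_cancel (by norm_num) (by norm_num)]

lemma lint_uni (c : ENNReal) : ∫⁻ _, c ∂uni = c := by
  rw [lintegral_const, uni_univ, mul_one]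

lemma wh_eq : wh = dslope Real.sinh 0 := by
  funext s
  unfold wh
  split_ifs with h
  · rw [h, dslope_same]; simp
  · rw [dslope_of_ne _ h, slope_def_field]; simp

lemma wh_cont : Continuous wh := by
  rw [wh_eq, ← continuousOn_univ, continuousOn_dslope Filter.univ_mem]
  exact ⟨Real.continuous_sinh.continuousOn, Real.differentiable_sinh 0⟩

lemma wh_pos (s : ℝ) : 0 < wh s := by
  unfold wh
  split_ifs with h
  · norm_num
  · rcases lt_or_gt_of_ne h with h1 | h1
    · exact div_pos_of_neg_of_neg (Real.sinh_neg_iff.2 h1) h1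
    · exact div_pos (Real.sinh_pos_iff.2 h1) h1

theorem main : S_WT := by
  intro hS
  refine ⟨⟨continuous_const, fun _ => one_pos, rfl, ?_⟩, ⟨wh_cont, wh_pos, ?_, ?_⟩⟩
  · intro r t _ _
    rw [lint_uni]; norm_num
  · simp [wh]
  · intro r t hr ht
    have h := hS (fun _ => 1) measurable_const r t hr ht
    simp only [mul_one] at h
    rw [lint_uni, mul_one] at h
    exact h

end Pool.Agent.H204.CS.P_WT
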