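import Pool.Agent.H204.CS.Stm

/-!
# Project CS: a weak form of (T1) for a CAS with (T2)
-/

set_option autoImplicit false

namespace Pool.Agent.H204.CS.P_WT1

open MeasureTheory Topology Pool.Agent.V1135.CAS ProbabilityTheory

theorem bind_int {X Y : Type} [MeasurableSpace X] [MeasurableSpace Y] {μ : Measure X}
    [IsProbabilityMeasure μ] {κ : X → Measure Y} (hκ : Measurable κ)
    (hp : ∀ x, IsProbabilityMeasure (κ x)) {g : Y → ℝ} (hg : Measurable g)
    (hb : ∃ M, ∀ y, |g y| ≤ M) :
    ∫ y, g y ∂(μ.bind κ) = ∫ x, ∫ y, g y ∂κ x ∂μ := by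
  let η : Kernel X Y := ⟨κ, hκ⟩
  have : IsMarkovKernel η := ⟨hp⟩
  have : IsProbabilityMeasure (μ.bind κ) := by
    refine ⟨?_⟩
    rw [Measure.bind_apply MeasurableSet.univ hκ.aemeasurable]
    simp
  obtain ⟨M, hM⟩ := hb
  have hi : Integrable g (μ.bind κ) := by
    refine Integrable.mono' (integrable_const M) hg.aestronglyMeasurable ?_
    filter_upwards with y
    exact hM y
  have e : μ.bind κ = (η ∘ₖ Kernel.const Unit μ) () := Measure.comp_eq_comp_const_apply (κ := η)
  rw [e] at hi ⊢
  rw [Kernel.integral_comp hi]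
  simp [η]

section

variable {X E : Type}
  [TopologicalSpace X] [T2Space X] [LocallyCompactSpace X] [SecondCountableTopology X]
  [MeasurableSpace X] [BorelSpace X]
  [TopologicalSpace E] [T2Space E] [LocallyCompactSpace E] [SecondCountableTopology E]
  [MeasurableSpace E] [BorelSpace E]
  (C : CAS X E)

theorem meas_K (hW : S_WMEAS) (k : E) : Measurable fun z => C.K z k := by
  have h := hW (X × E) X (fun p => C.K p.1 p.2) (fun p => C.prob p.1 p.2) C.K_cont
  exact h.comp (measurable_id.prodMk measurable_const)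

theorem meas_K' (hW : S_WMEAS) (x : X) : Measurable fun l => C.K x l := by
  have h := hW (X × E) X (fun p => C.K p.1 p.2) (fun p => C.prob p.1 p.2) C.K_cont
  exact h.comp (measurable_const.prodMk measurable_id)

theorem comp_int (hW : S_WMEAS) (h k : E) (x : X) {g : X → ℝ} (hg : Continuous g)
    (hgc : HasCompactSupport g) :
    ∫ z, C.T k g z ∂(C.K x h) = ∫ l, C.T l g x ∂(C.H.conv h k) := by
  have := C.prob x h
  have := C.H.prob h k
  obtain ⟨M, hM⟩ := hgc.exists_bound_of_continuous hg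
  have e : (C.K x h).bind (fun z => C.K z k) = (C.H.conv h k).bind (fun l => C.K x l) := by
    ext A hA
    rw [Measure.bind_apply hA (meas_K C hW k).aemeasurable,
      Measure.bind_apply hA (meas_K' C hW x).aemeasurable]
    exact C.K_comp h k x A hA
  have e1 := bind_int (μ := C.K x h) (meas_K C hW k) (fun z => C.prob z k) hg.measurable ⟨M, hM⟩
  have e2 := bind_int (μ := C.H.conv h k) (meas_K' C hW x) (fun z => C.prob x z) hg.measurable
    ⟨M, hM⟩
  rw [e, e2] at e1
  exact e1.symm

section Main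

variable {C} {ω : Measure X} {ωD : Measure E}

theorem compact_pre' (hsymm : ∀ x y, C.π x y = C.π y x) {A : Set X} {B : Set E}
    (hA : IsCompact A) (hB : IsCompact B) : IsCompact {z | ∃ x ∈ A, C.π z x ∈ B} := by
  have := isCompact_pre C hA hB
  convert this using 1
  ext z
  simp only [Set.mem_ofPred_eq]
  constructor
  · rintro ⟨x, hx, hz⟩
    exact ⟨x, hx, by rwa [hsymm]⟩
  · rintro ⟨x, hx, hz⟩
    exact ⟨x, hx, by rwa [hsymm]⟩

theorem eq1 (hW : S_WMEAS) (hsymm : ∀ x y, C.π x y = C.π y x) (hω : C.IsOmega ω)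
    (hωD : C.H.IsLeftHaar ωD) (hT : C.T2For ω ωD) (h : E) {f : E → ℝ} (hf : Continuous f)
    (hfc : HasCompactSupport f) (x : X) {g : X → ℝ} (hg : Continuous g)
    (hgc : HasCompactSupport g) :
    ∫ y, C.T h (fun z => f (C.π y z)) x * g y ∂ω =
      ∫ k, f k * (∫ l, C.T l g x ∂(C.H.conv h k)) ∂ωD := by
  have := C.prob x h
  have := hω.1
  have := hωD.1
  have hs : IsCompact {z | ∃ y ∈ tsupport g, C.π z y ∈ tsupport f} :=
    compact_pre' hsymm hgc hfc
  have hF1 : Continuous fun p : X × X => f (C.π p.1 p.2) * g p.2 :=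
    (hf.comp C.π_cont).mul (hg.comp continuous_snd)
  have hF2 : Continuous fun p : X × E => C.T p.2 g p.1 * f p.2 :=
    (continuous_T C hg hgc continuous_fst continuous_snd).mul (hf.comp continuous_snd)
  calc ∫ y, C.T h (fun z => f (C.π y z)) x * g y ∂ω
      = ∫ y, (∫ z, f (C.π z y) * g y ∂(C.K x h)) ∂ω := by
        congr 1
        funext y
        rw [integral_mul_const]
        unfold CAS.T
        congr 2
        funext z
        rw [hsymm]
    _ = ∫ z, (∫ y, f (C.π z y) * g y ∂ω) ∂(C.K x h) := by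
        symm
        apply swap' (F := fun z y => f (C.π z y) * g y) hF1 hs hgc
        · intro z y hz
          by_cases hy : y ∈ tsupport g
          · have : C.π z y ∉ tsupport f := fun hh => hz ⟨y, hy, hh⟩
            rw [image_eq_zero_of_notMem_tsupport this, zero_mul]
          · rw [image_eq_zero_of_notMem_tsupport hy, mul_zero]
        · intro z y hy
          rw [image_eq_zero_of_notMem_tsupport hy, mul_zero]
    _ = ∫ z, (∫ k, C.T k g z * f k ∂ωD) ∂(C.K x h) := by
        congr 1
        funext z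
        exact (hT f g hf hfc hg hgc z).symm
    _ = ∫ k, (∫ z, C.T k g z * f k ∂(C.K x h)) ∂ωD := by
        apply swap' (F := fun z k => C.T k g z * f k) hF2 hs hfc
        · intro z k hz
          by_cases hk : k ∈ tsupport f
          · rw [T_const C (c := 0), zero_mul]
            intro y hy
            apply image_eq_zero_of_notMem_tsupport
            intro hyg
            exact hz ⟨y, hyg, by rw [hy]; exact hk⟩
          · rw [image_eq_zero_of_notMem_tsupport hk, mul_zero]
        · intro z k hk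
          rw [image_eq_zero_of_notMem_tsupport hk, mul_zero]
    _ = ∫ k, f k * (∫ l, C.T l g x ∂(C.H.conv h k)) ∂ωD := by
        congr 1
        funext k
        rw [integral_mul_const, comp_int C hW h k x hg hgc, mul_comm]

theorem G_cont (h : E) {f : E → ℝ} (hf : Continuous f) (x : X) :
    Continuous fun y => C.T h (fun z => f (C.π y z)) x := by
  have := C.prob x h
  have hr : (C.K x h).restrict (C.K x h).support = C.K x h :=
    Measure.restrict_eq_self_of_ae_mem Measure.support_mem_ae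
  have hF : Continuous (Function.uncurry fun y z : X => f (C.π y z)) := hf.comp C.π_cont
  have h1 := continuous_parametric_integral_of_continuous (μ := C.K x h) hF (C.supp_compact x h)
  rw [hr] at h1
  exact h1

theorem G_supp (hsymm : ∀ x y, C.π x y = C.π y x) (h : E) {f : E → ℝ}
    (hfc : HasCompactSupport f) (x : X) :
    HasCompactSupport fun y => C.T h (fun z => f (C.π y z)) x := by
  refine HasCompactSupport.intro (compact_pre' hsymm (C.supp_compact x h) hfc) ?_
  intro y hy
  apply T_const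
  intro z hz
  apply image_eq_zero_of_notMem_tsupport
  intro hh
  exact hy ⟨z, (C.mem_supp x z h).2 hz, hh⟩

/-- (T2) with `g = 1` -/
theorem unif (hT : C.T2For ω ωD) {φ : E → ℝ} (hφ : Continuous φ) (hφc : HasCompactSupport φ)
    (x : X) : ∫ l, φ l ∂ωD = ∫ y, φ (C.π x y) ∂ω := by
  obtain ⟨g, hg, hgc, hg1, hg0⟩ := exists_one (isCompact_pre1 C x hφc)
  have h1 := hT φ g hφ hφc hg hgc x
  have e1 : ∀ l, (∫ y, g y ∂(C.K x l)) * φ l = φ l := by
    intro l
    by_cases hl : l ∈ tsupport φ
    · have : C.T l g x = 1 := by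
        apply T_const
        intro y hy
        apply hg1
        rw [Set.mem_ofPred_eq, hy]
        exact hl
      unfold CAS.T at this
      rw [this, one_mul]
    · rw [image_eq_zero_of_notMem_tsupport hl, mul_zero]
  have e2 : ∀ y, φ (C.π x y) * g y = φ (C.π x y) := by
    intro y
    by_cases hy : C.π x y ∈ tsupport φ
    · rw [hg1 y hy, mul_one]
    · rw [image_eq_zero_of_notMem_tsupport hy, zero_mul]
  simp only [e1, e2] at h1
  exact h1

theorem exists_pi (x : X) (l : E) : ∃ y, C.π x y = l := by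
  have := C.prob x l
  obtain ⟨y, hy⟩ := Measure.nonempty_support (μ := C.K x l) (IsProbabilityMeasure.ne_zero _)
  exact ⟨y, (C.mem_supp x y l).1 hy⟩

theorem posD (hω : C.IsOmega ω) (hT : C.T2For ω ωD) (x : X) {φ : E → ℝ} (hφ : Continuous φ)
    (hφc : HasCompactSupport φ) (h0 : ∀ l, 0 ≤ φ l) {l : E} (hl : φ l ≠ 0) :
    0 < ∫ l, φ l ∂ωD := by
  obtain ⟨hω1, hω2, -⟩ := hω
  rw [unif hT hφ hφc x]
  obtain ⟨y, hy⟩ := exists_pi (C := C) x l
  refine Continuous.integral_pos_of_hasCompactSupport_nonneg_nonzero (x := y)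
    (compPi_cont C x hφ) (compPi_supp C x hφc) (fun y => h0 _) ?_
  rwa [hy]

theorem eq2 (hW : S_WMEAS) (hsymm : ∀ x y, C.π x y = C.π y x) (hω : C.IsOmega ω)
    (hωD : C.H.IsLeftHaar ωD) (hT : C.T2For ω ωD) (h : E) {f : E → ℝ} (hf : Continuous f)
    (hfc : HasCompactSupport f) (x : X) {φ : E → ℝ} (hφ : Continuous φ)
    (hφc : HasCompactSupport φ) :
    ∫ k, f k * (∫ l, φ l ∂(C.H.conv h k)) ∂ωD =
      ∫ l, C.T l (fun y => C.T h (fun z => f (C.π y z)) x) x * φ l ∂ωD := by
  have h1 := eq1 hW hsymm hω hωD hT h hf hfc x (compPi_cont C x hφ) (compPi_supp C x hφc)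
  have h2 := hT φ (fun y => C.T h (fun z => f (C.π y z)) x) hφ hφc (G_cont h hf x)
    (G_supp hsymm h hfc x) x
  have e1 : ∀ l, C.T l (fun y => φ (C.π x y)) x = φ l := by
    intro l
    apply T_const
    intro y hy
    rw [hy]
  simp only [e1] at h1
  rw [← h1]
  refine Eq.trans ?_ h2.symm
  congr 1
  funext y
  rw [mul_comm]

theorem eq3 (hW : S_WMEAS) (hsymm : ∀ x y, C.π x y = C.π y x) (hω : C.IsOmega ω)
    (hωD : C.H.IsLeftHaar ωD) (hT : C.T2For ω ωD) (h : E) {f : E → ℝ} (hf : Continuous f)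
    (hfc : HasCompactSupport f) (x x' : X) (l : E) :
    C.T l (fun y => C.T h (fun z => f (C.π y z)) x) x =
      C.T l (fun y => C.T h (fun z => f (C.π y z)) x') x' := by
  have hn : ∀ x, Continuous fun l => C.T l (fun y => C.T h (fun z => f (C.π y z)) x) x := fun x =>
    continuous_T C (G_cont h hf x) (G_supp hsymm h hfc x) continuous_const continuous_id
  by_contra hne
  have := hωD.1
  set n := fun l => C.T l (fun y => C.T h (fun z => f (C.π y z)) x) x with hnd
  set n' := fun l => C.T l (fun y => C.T h (fun z => f (C.π y z)) x') x' with hnd'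
  have hnc : Continuous n := hn x
  have hnc' : Continuous n' := hn x'
  have hne' : n l - n' l ≠ 0 := sub_ne_zero.2 hne
  obtain ⟨χ, hχ, hχc, hχ1, -, hχ0⟩ := exists_bump isOpen_univ (Set.mem_univ l)
  have hφ : Continuous fun l => χ l * (n l - n' l) := hχ.mul (hnc.sub hnc')
  have hφc : HasCompactSupport fun l => χ l * (n l - n' l) := hχc.mul_right
  have a1 := eq2 hW hsymm hω hωD hT h hf hfc x hφ hφc
  have a2 := eq2 hW hsymm hω hωD hT h hf hfc x' hφ hφc
  have a3 : ∫ l, n l * (χ l * (n l - n' l)) ∂ωD = ∫ l, n' l * (χ l * (n l - n' l)) ∂ωD :=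
    a1.symm.trans a2
  have a4 : ∫ l, χ l * (n l - n' l) ^ 2 ∂ωD = 0 := by
    have : (fun l => χ l * (n l - n' l) ^ 2) =
        fun l => n l * (χ l * (n l - n' l)) - n' l * (χ l * (n l - n' l)) := by
      funext l
      ring
    rw [this, integral_sub, a3, sub_self]
    · exact (hnc.mul hφ).integrable_of_hasCompactSupport hφc.mul_left
    · exact (hnc'.mul hφ).integrable_of_hasCompactSupport hφc.mul_left
  have a5 := posD (l := l) hω hT x (hχ.mul ((hnc.sub hnc').pow 2)) hχc.mul_right
    (fun l => mul_nonneg (hχ0 l) (sq_nonneg _)) (by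
      simp only [Pi.mul_apply, Pi.sub_apply, Pi.pow_apply, hχ1, one_mul]
      exact pow_ne_zero 2 hne')
  exact a5.ne' a4

theorem eq4 (hW : S_WMEAS) (hsymm : ∀ x y, C.π x y = C.π y x) (hω : C.IsOmega ω)
    (hωD : C.H.IsLeftHaar ωD) (hT : C.T2For ω ωD) (h : E) {f : E → ℝ} (hf : Continuous f)
    (hfc : HasCompactSupport f) (x y : X) :
    C.T h (fun z => f (C.π y z)) x =
      C.T (C.π x y) (fun y => C.T h (fun z => f (C.π y z)) x) x := by
  obtain ⟨hω1, hω2, -⟩ := id hω
  set G := fun y => C.T h (fun z => f (C.π y z)) x with hG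
  set n := fun l => C.T l G x with hnd
  have hGc : Continuous G := G_cont h hf x
  have hGs : HasCompactSupport G := G_supp hsymm h hfc x
  have hn : Continuous n := continuous_T C hGc hGs continuous_const continuous_id
  have hnp : Continuous fun y => n (C.π x y) := hn.comp (continuous_pi C x)
  change G y = n (C.π x y)
  by_contra hne
  have hne' : G y - n (C.π x y) ≠ 0 := sub_ne_zero.2 hne
  obtain ⟨χ, hχ, hχc, hχ1, -, hχ0⟩ := exists_bump isOpen_univ (Set.mem_univ y)
  obtain ⟨φ, hφ, hφc, hφ1, -, hφ0⟩ := exists_bump isOpen_univ (Set.mem_univ (C.π x y))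
  have hg1 : Continuous fun y => χ y * (G y - n (C.π x y)) := hχ.mul (hGc.sub hnp)
  have hg1c : HasCompactSupport fun y => χ y * (G y - n (C.π x y)) := hχc.mul_right
  set g₁ := fun y => χ y * (G y - n (C.π x y)) with hg₁
  have hφp : Continuous fun y => φ (C.π x y) := compPi_cont C x hφ
  -- (1) for `φ(π(x,y)) g₁(y)`
  have b1 := eq1 hW hsymm hω hωD hT h hf hfc x (hφp.mul hg1) (g := fun y => φ (C.π x y) * g₁ y)
    hg1c.mul_left
  have e1 : ∀ l, C.T l (fun y => φ (C.π x y) * g₁ y) x = φ l * C.T l g₁ x := by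
    intro l
    rw [T_congr C (g := fun y => φ l * g₁ y)]
    · unfold CAS.T
      rw [integral_const_mul]
    · intro y hy
      rw [hy]
  simp only [e1] at b1
  have hTc : Continuous fun l => C.T l g₁ x := continuous_T C hg1 hg1c continuous_const continuous_id
  have b2 := eq2 hW hsymm hω hωD hT h hf hfc x (hφ.mul hTc) (φ := fun l => φ l * C.T l g₁ x)
    hφc.mul_right
  rw [b2] at b1
  have b3 := hT (fun l => φ l * n l) g₁ (hφ.mul hn) hφc.mul_right hg1 hg1c x
  have b4 : ∫ l, C.T l (fun y => C.T h (fun z => f (C.π y z)) x) x * (φ l * C.T l g₁ x) ∂ωD =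
      ∫ h, (∫ y, g₁ y ∂(C.K x h)) * (φ h * n h) ∂ωD := by
    congr 1
    funext l
    change n l * (φ l * C.T l g₁ x) = C.T l g₁ x * (φ l * n l)
    ring
  rw [b4, b3] at b1
  -- `∫ χ φ (G - n)² = 0`
  have b5 : ∫ y, χ y * φ (C.π x y) * (G y - n (C.π x y)) ^ 2 ∂ω = 0 := by
    have : (fun y => χ y * φ (C.π x y) * (G y - n (C.π x y)) ^ 2) =
        fun y => C.T h (fun z => f (C.π y z)) x * (φ (C.π x y) * g₁ y) -
          φ (C.π x y) * n (C.π x y) * g₁ y := by
      funext y
      change χ y * φ (C.π x y) * (G y - n (C.π x y)) ^ 2 =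
        G y * (φ (C.π x y) * (χ y * (G y - n (C.π x y)))) -
          φ (C.π x y) * n (C.π x y) * (χ y * (G y - n (C.π x y)))
      ring
    rw [this, integral_sub, b1, sub_self]
    · exact (hGc.mul (hφp.mul hg1)).integrable_of_hasCompactSupport hg1c.mul_left.mul_left
    · exact ((hφp.mul hnp).mul hg1).integrable_of_hasCompactSupport hg1c.mul_left
  have b6 : 0 < ∫ y, χ y * φ (C.π x y) * (G y - n (C.π x y)) ^ 2 ∂ω := by
    refine Continuous.integral_pos_of_hasCompactSupport_nonneg_nonzero (x := y)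
      ((hχ.mul hφp).mul ((hGc.sub hnp).pow 2)) ?_ ?_ ?_
    · exact HasCompactSupport.mul_right (HasCompactSupport.mul_right hχc)
    · intro y
      exact mul_nonneg (mul_nonneg (hχ0 y) (hφ0 _)) (sq_nonneg _)
    · simp only [hχ1, hφ1, one_mul]
      exact pow_ne_zero 2 hne'
  exact b6.ne' b5

end Main

end

theorem main (hW : S_WMEAS) : S_WT1 := by
  intro X E _ _ _ _ _ _ hne _ _ _ _ _ _ C ω ωD hsymm hω hωD hT h f hf hfc
  obtain ⟨x₀⟩ := hne
  refine ⟨fun l => C.T l (fun y => C.T h (fun z => f (C.π y z)) x₀) x₀, fun x y => ?_⟩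
  exact (eq4 hW hsymm hω hωD hT h hf hfc x y).trans
    (eq3 hW hsymm hω hωD hT h hf hfc x x₀ (C.π x y))

end Pool.Agent.H204.CS.P_WT1
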