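import Pool.Agent.H204.CS.Asm
import Pool.Agent.H204.CS.P_HAAR
import Pool.Agent.H204.CS.P_ARCH
import Pool.Agent.H204.CS.P_HOPF
import Pool.Agent.H204.CS.P_R3GEO
import Pool.Agent.H204.CS.P_R3COMP
import Pool.Agent.H204.CS.P_R3REV
import Pool.Agent.H204.CS.P_R3VOL
import Pool.Agent.H204.CS.P_MAT
import Pool.Agent.H204.CS.P_DIAG
import Pool.Agent.H204.CS.P_STEP
import Pool.Agent.H204.CS.P_TRACE
import Pool.Agent.H204.CS.P_H3CONT
import Pool.Agent.H204.CS.P_H3GEO
import Pool.Agent.H204.CS.P_H3COMP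
import Pool.Agent.H204.CS.P_SUBST
import Pool.Agent.H204.CS.P_WT
import Pool.Agent.H204.CS.P_H3LAW
import Pool.Agent.H204.CS.P_H3REV
import Pool.Agent.H204.CS.P_H3UNIF
import Pool.Agent.H204.CS.P_H3VOL
import Pool.Agent.H204.CS.P_PARAM
import Pool.Agent.H204.CS.P_KREG
import Pool.Agent.H204.CS.P_CREG1
import Pool.Agent.H204.CS.P_CREG2
import Pool.Agent.H204.CS.P_KCOMP
import Pool.Agent.H204.CS.P_KREV
import Pool.Agent.H204.CS.P_ASSOC
import Pool.Agent.H204.CS.P_WMEAS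
import Pool.Agent.H204.CS.P_WT1
import Pool.Agent.H204.CS.P_UNIQ
import Pool.Agent.H204.CS.P_HALF
import Pool.Agent.H204.CS.P_SPLIT
import Pool.Agent.H204.CS.P_RECT
import Pool.Agent.H204.CS.P_NUM

/-!
# Project CS: the theorem
-/

set_option autoImplicit false

namespace Pool.Agent.H204.CS

open MeasureTheory Pool.Agent.V1135.CAS

/-- There is a commutative CAS such that no CAS with the same spaces and the same partition map has
property (T2). -/
theorem exists_comm_cas :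
    ∃ C : CAS ((ℝ × ℂ) × (ℝ × ℂ)) D, C.H.Comm ∧
      ∀ C' : CAS ((ℝ × ℂ) × (ℝ × ℂ)) D, C'.π = C.π → ¬ C'.T2 :=
  final P_HAAR.main P_ARCH.main P_HOPF.main P_R3GEO.main P_R3COMP.main P_R3REV.main P_R3VOL.main
    P_MAT.main P_DIAG.main P_STEP.main P_TRACE.main P_H3CONT.main P_H3GEO.main P_H3COMP.main
    P_SUBST.main P_WT.main P_H3LAW.main P_H3REV.main P_H3UNIF.main P_H3VOL.main P_PARAM.main
    P_KREG.main P_CREG1.main P_CREG2.main P_KCOMP.main P_KREV.main P_ASSOC.main P_WMEAS.main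
    (P_WT1.main P_WMEAS.main) P_UNIQ.main P_HALF.main P_SPLIT.main P_RECT.main P_NUM.main

end Pool.Agent.H204.CS
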