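import Pool.Agent.H204.CS.Stm

/-!
# Project CS, H3COMP: the product formula of the hyperbolic spherical means (helper549)
-/

set_option autoImplicit false

namespace Pool.Agent.H204.CS.P_H3COMP

open MeasureTheory Topology Matrix Pool.Agent.H204.CS

theorem em_mul (a k : U) (s : ℝ) : em s (a * k) = a.1 * em s k * a.1ᴴ := by
  unfold em
  have e : (a * k).1 = a.1 * k.1 := rfl
  rw [e, conjTranspose_mul]
  simp only [Matrix.mul_assoc]

theorem main : S_H3COMP := by
  intro hHAAR hARCH hH hMAT hDIAG hSTEP hTRACE hCONT m hm F hF x r t hr ht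
  obtain ⟨hcpt, hsec, -⟩ := hHAAR
  have hprob := hm.prob
  obtain ⟨hact, -⟩ := hCONT hH
  obtain ⟨M1, M2, -, M4, M5⟩ := hMAT hH
  obtain ⟨l, hl, hst⟩ := hSTEP hH hMAT
  -- bounds for `zt`
  have hzt : ∀ b : U, -1 ≤ zt b := by
    intro b
    have h1 := hH.1 b
    have h2 := Complex.normSq_nonneg (xi b)
    nlinarith
  have hpos : ∀ b : U, 0 < Real.cosh r * Real.cosh t + zt b * (Real.sinh r * Real.sinh t) := by
    intro b
    have h1 := Real.sinh_nonneg_iff.2 hr
    have h2 := Real.sinh_nonneg_iff.2 ht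
    have h3 := mul_nonneg h1 h2
    have h4 := mul_le_mul_of_nonneg_right (hzt b) h3
    have h5 := Real.cosh_pos (r - t)
    rw [Real.cosh_sub] at h5
    linarith
  set ρ : ℝ → ℝ := fun z => Real.arcosh (Real.cosh r * Real.cosh t +
    z * (Real.sinh r * Real.sinh t)) with hρ
  -- the key identity
  have key : ∀ b : U, ∃ k : U, ∀ a : U,
      act1 (act1 x r a) t ((l x r a)⁻¹ * b) = act1 x (ρ (zt b)) (a * k) := by
    intro b
    obtain ⟨T1, T2, T3⟩ := hTRACE hH r t b
    obtain ⟨u, k, hu, hP⟩ := hDIAG hH _ T2 T3 (by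
      rw [T1]
      have := hpos b
      rw [← Complex.ofReal_ofNat, ← Complex.ofReal_mul, Complex.ofReal_re]
      linarith)
    have hu2 : u = ρ (zt b) := by
      have h1 := M5 u k
      rw [← hP, T1] at h1
      have h2 : Real.cosh u = Real.cosh r * Real.cosh t + zt b * (Real.sinh r * Real.sinh t) := by
        have h3 : ((Real.cosh u : ℝ) : ℂ) =
            ((Real.cosh r * Real.cosh t + zt b * (Real.sinh r * Real.sinh t) : ℝ) : ℂ) := by
          linear_combination -h1 / 2
        exact_mod_cast h3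
      rw [hρ]
      simp only
      rw [← h2, Real.arcosh_cosh hu]
    refine ⟨k, fun a => M2 _ _ ?_⟩
    rw [hst, M1, ← hu2, mul_inv_cancel_left, em_mul, ← hP]
    simp only [Matrix.mul_assoc]
  -- measurability
  have hc1 : Continuous fun p : U × U => act1 (act1 x r p.1) t ((l x r p.1)⁻¹ * p.2) := by
    have e1 : Continuous fun p : U × U => act1 x r p.1 :=
      hact.comp (continuous_const.prodMk (continuous_const.prodMk continuous_fst))
    have e2 : Continuous fun p : U × U => (l x r p.1)⁻¹ * p.2 :=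
      (((hl x r).comp continuous_fst).inv).mul continuous_snd
    exact hact.comp (e1.prodMk (continuous_const.prodMk e2))
  have hc2 : ∀ a : U, Continuous fun b : U => act1 (act1 x r a) t b := fun a =>
    hact.comp (continuous_const.prodMk (continuous_const.prodMk continuous_id))
  have hc3 : ∀ u : ℝ, Continuous fun a : U => act1 x u a := fun u =>
    hact.comp (continuous_const.prodMk (continuous_const.prodMk continuous_id))
  have hc4 : Continuous fun p : ℝ × U => act1 x p.1 p.2 :=
    hact.comp (continuous_const.prodMk (continuous_fst.prodMk continuous_snd))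
  have hρm : Measurable ρ := by
    rw [hρ]
    unfold Real.arcosh
    fun_prop
  have hHm : Measurable fun z : ℝ => ∫⁻ a, F (act1 x (ρ z) a) ∂m := by
    have h1 : Measurable fun p : ℝ × U => F (act1 x (ρ p.1) p.2) :=
      hF.comp (hc4.measurable.comp ((hρm.comp measurable_fst).prodMk measurable_snd))
    exact h1.lintegral_prod_right'
  calc ∫⁻ a, ∫⁻ b, F (act1 (act1 x r a) t b) ∂m ∂m
      = ∫⁻ a, ∫⁻ b, F (act1 (act1 x r a) t ((l x r a)⁻¹ * b)) ∂m ∂m := by
        refine lintegral_congr fun a => ?_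
        exact (hm.left (l x r a)⁻¹ (fun b => F (act1 (act1 x r a) t b))
          (hF.comp (hc2 a).measurable)).symm
    _ = ∫⁻ b, ∫⁻ a, F (act1 (act1 x r a) t ((l x r a)⁻¹ * b)) ∂m ∂m :=
        lintegral_lintegral_swap (hF.comp hc1.measurable).aemeasurable
    _ = ∫⁻ b, ∫⁻ a, F (act1 x (ρ (zt b)) a) ∂m ∂m := by
        refine lintegral_congr fun b => ?_
        obtain ⟨k, hk⟩ := key b
        simp only [hk]
        exact hm.right k (fun a => F (act1 x (ρ (zt b)) a)) (hF.comp (hc3 _).measurable)
    _ = ∫⁻ z, ∫⁻ a, F (act1 x (ρ z) a) ∂m ∂uni :=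
        hARCH m hm (fun z => ∫⁻ a, F (act1 x (ρ z) a) ∂m) hHm

end Pool.Agent.H204.CS.P_H3COMP
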