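import Pool.Agent.H204.CS.Stm

/-! WMEAS (project CS of helper204). -/

set_option autoImplicit false

namespace Pool.Agent.H204.CS.P_WMEAS

open MeasureTheory Topology Filter Pool.Agent.V1135.CAS
open scoped NNReal

theorem main : S_WMEAS := by
  intro P Y _ _ _ _ _ _ _ _ _ μ hμ hc
  have : TopologicalSpace.MetrizableSpace Y :=
    TopologicalSpace.metrizableSpace_of_t3_secondCountable Y
  let _ : MetricSpace Y := TopologicalSpace.metrizableSpaceMetric Y
  have hprob : ∀ p, IsProbabilityMeasure (μ p) := hμ
  refine Measurable.measure_of_isPiSystem_of_isProbabilityMeasure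
    (S := {s : Set Y | IsClosed s}) ?_ isPiSystem_isClosed ?_
  · rw [← borel_eq_generateFrom_isClosed]
    exact BorelSpace.measurable_eq
  · intro F hF
    have hF' : IsClosed F := hF
    refine measurable_of_tendsto_metrizable (f := fun n p => ∫⁻ y, hF'.apprSeq n y ∂(μ p))
      (fun n => ?_) ?_
    · -- measurability of the integrals of the approximating functions
      have h1 : ∀ p, ∫⁻ y, hF'.apprSeq n y ∂(μ p) =
          ENNReal.ofReal (∫ y, ((hF'.apprSeq n y : ℝ≥0) : ℝ) ∂(μ p)) := by
        intro p
        apply lintegral_coe_eq_integral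
        refine Integrable.mono' (integrable_const (1 : ℝ)) ?_ ?_
        · exact (NNReal.continuous_coe.comp (hF'.apprSeq n).continuous).aestronglyMeasurable
        · filter_upwards with y
          rw [Real.norm_eq_abs, abs_of_nonneg (NNReal.coe_nonneg _)]
          exact_mod_cast HasOuterApproxClosed.apprSeq_apply_le_one hF' n y
      simp_rw [h1]
      let g : BoundedContinuousFunction Y ℝ := BoundedContinuousFunction.ofNormedAddCommGroup
        (fun y => ((hF'.apprSeq n y : ℝ≥0) : ℝ))
        (NNReal.continuous_coe.comp (hF'.apprSeq n).continuous) 1 (fun y => by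
          rw [Real.norm_eq_abs, abs_of_nonneg (NNReal.coe_nonneg _)]
          exact_mod_cast HasOuterApproxClosed.apprSeq_apply_le_one hF' n y)
      exact ((hc g).measurable).ennreal_ofReal
    · rw [tendsto_pi_nhds]
      intro p
      exact HasOuterApproxClosed.tendsto_lintegral_apprSeq hF' (μ p)

end Pool.Agent.H204.CS.P_WMEAS
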