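import Pool.Agent.H204.CS.Defs

/-!
# Project CS: statements
-/

set_option autoImplicit false

namespace Pool.Agent.H204.CS

open MeasureTheory Topology Pool.Agent.V1135.CAS Matrix

/-! ### A. the unitary group -/

/-- HAAR (~80 lines). `U(2)` is compact and second countable and carries a bi-invariant probability
measure.

Proof. `U` is a closed bounded subset of the finite dimensional space of matrices (entries bounded
by `entry_norm_bound_of_unitary`; closedness of `{A | A * star A = 1 ∧ star A * A = 1}`), so it is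
compact (e.g. `Matrix (Fin 2) (Fin 2) ℂ = Fin 2 → Fin 2 → ℂ` is a proper space); second countability is
inherited from `Fin 2 → Fin 2 → ℂ`. `unitary (Matrix ..)` is a topological group (Mathlib
`Topology/Algebra/Star/Unitary`). Take the Haar measure with total mass one
(`Measure.haarMeasure ⊤`). For right invariance: for each `g`, the image of `m` under `k ↦ k g` is a
left invariant probability measure, so equals `m` by uniqueness
(`Measure.isMulLeftInvariant_eq_smul`, `isHaarMeasure_eq_of_isProbabilityMeasure` or similar). -/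
def S_HAAR : Prop :=
  CompactSpace U ∧ SecondCountableTopology U ∧ ∃ m : Measure U, IsHaarU m

/-- ARCH (~200 lines). Archimedes: `zt k` is uniformly distributed on `[-1, 1]`.

Proof 1 (Gaussian). Let `γ` be the measure on `ℂ × ℂ` with density `e^{-|z₁|²-|z₂|²}` (total mass
`π²`). It is invariant under each `k : U` acting on `(z₁, z₂)` (Lebesgue measure is invariant, e.g. as
`k` acts as a linear isometry of the real Euclidean space `ℂ²`). For
`z ≠ 0` there is `l : U` with first column `z / |z|`; then `zt (k * l) = 2 |(k z)₁|² / |z|² - 1`, so by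
right invariance `∫ F (zt k) dm(k) = ∫ F (2 |(k z)₁|²/|z|² - 1) dm(k)` for all `z ≠ 0`; integrate over
`γ / π²` and use Tonelli and the invariance of `γ`:
`∫ F (zt k) dm = π⁻² ∫ F (2|z₁|²/|z|² - 1) dγ(z)`. In polar coordinates
(`Complex.lintegral_comp_polarCoord_symm`) the right side is
`∫_0^∞ ∫_0^∞ F (2 x/(x+y) - 1) e^{-x-y} dx dy`; substitute `y = x v`: it is
`∫_0^∞ F (2/(1+v) - 1) ∫_0^∞ x e^{-x(1+v)} dx dv = ∫_0^∞ F (2/(1+v)-1) (1+v)⁻² dv = ∫_0^1 F(2u-1) du`.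

Proof 2 (moments). Put `a = |k₀₀|²`, `b = |k₀₁|² = 1 - a`, `M_n = E a^n`. Right invariance under
rotations and phases gives `Σ_j C(n,j)² A^j B^{n-j} E[a^j b^{n-j}] = (A+B)^n M_n` for all
`A, B ≥ 0`, hence `C(n,j) E[a^j b^{n-j}] = M_n`, and the sum over `j` gives `1 = (n+1) M_n`;
polynomials are dense in `C[0,1]`, so `a` is uniform on `[0,1]`. -/
def S_ARCH : Prop :=
  ∀ m : Measure U, IsHaarU m → ∀ F : ℝ → ENNReal, Measurable F →
    ∫⁻ k, F (zt k) ∂m = ∫⁻ z, F z ∂uni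

/-- HOPF (~80 lines). Algebra of `n(k) = (zt k, xi k)`: (1) `(zt k, xi k)` is a unit vector;
(2) every unit vector is of this form (with `α = √((1+ζ)/2)`, `β = conj ξ / (2 α)` and
`k = (α, -conj β; β, conj α)`, or `k = (0, 1; 1, 0)` if `ζ = -1`); (3) `k H k* = (zt, xi; conj xi, -zt)`
with `H = diag (1, -1)`. -/
def S_HOPF : Prop :=
  (∀ k : U, zt k ^ 2 + Complex.normSq (xi k) = 1) ∧
  (∀ (ζ : ℝ) (ξ : ℂ), ζ ^ 2 + Complex.normSq ξ = 1 → ∃ k : U, zt k = ζ ∧ xi k = ξ) ∧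
  (∀ k : U, k.1 * !![1, 0; 0, -1] * k.1ᴴ =
    !![(zt k : ℂ), xi k; starRingEnd ℂ (xi k), -(zt k : ℂ)])

/-! ### B. the Euclidean block -/

/-- R3GEO (~120 lines). Use HOPF for `d_act` and `surj`
(`y - x = R (ζ, ξ)` with `(ζ, ξ)` a unit vector if `R = d0 x y ≠ 0`; any `k` if `R = 0`). The
triangle inequality is that of `WithLp 2 (ℝ × ℂ)` (or `EuclideanSpace ℝ (Fin 3)`). -/
def S_R3GEO : Prop := S_HOPF → Geo act0 d0

/-- R3COMP (~150 lines). The product formula of the Euclidean spherical means.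

Proof. Write `n(k) = (zt k, xi k)`, i.e. the matrix `k H k*`. Then `n(k k') = k n(k') k*`, so with left
invariance (`b ↦ a b`) the left side is `∫_a ∫_b F (x + a (r H + t n(b)) a*)` (identify `ℝ × ℂ` with
the traceless Hermitian matrices). For fixed `b`, `r H + t n(b)` is a vector of length
`u = ut r t (zt b)` (as `⟨H, n(b)⟩ = zt b`), so it is `u n(l)` for some `l : U` (HOPF), and
`a (u n(l)) a* = u n(a l)`; right invariance gives `∫_a F (x + u n(a l)) = ∫_a F (act0 x u a)`. Swap the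
integrals (Tonelli) and use ARCH for the function `z ↦ ∫_a F (act0 x (ut r t z) a)`. -/
def S_R3COMP : Prop := S_HAAR → S_ARCH → S_HOPF → ∀ m : Measure U, IsHaarU m →
  Comp m act0 (fun _ => 1)

/-- R3REV (~80 lines). Translation invariance of Lebesgue measure, and `-n(k) = n(k σ)` with
`σ = (0, 1; 1, 0)`: `∫_x ∫_k F(x, x + r n(k)) = ∫_k ∫_y F(y - r n(k), y) = ∫_y ∫_k F(y + r n(k σ), y)`. -/
def S_R3REV : Prop := S_HAAR → ∀ m : Measure U, IsHaarU m →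
  Rev m act0 (volume : Measure (ℝ × ℂ))

/-- R3VOL (~100 lines). Translation invariance, and the volume of the ball by slices:
`∫_{-R}^{R} π (R² - t²) dt`. -/
def S_R3VOL : Prop := Unif d0 (volume : Measure (ℝ × ℂ)) ∧
  ∀ R : ℝ, 0 ≤ R → (volume : Measure (ℝ × ℂ)) {y | d0 0 y < R} =
    ENNReal.ofReal (4 / 3 * Real.pi * R ^ 3)

/-! ### C. the hyperbolic block -/

/-- MAT (~150 lines). Algebra of the matrices: `gm x (gm x)* = (e^t, e^{t/2} conj w; e^{t/2} w,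
|w|² + e^{-t})`. For (1) use `em s k = cosh s + sinh s (zt, xi; conj xi, -zt)` (HOPF (3)) and compare the
entries `00` and `10` (with `q₁ = cosh s + sinh s * zt k > 0`); the entries `01` follow by conjugation and
`11` since both sides have determinant `1` and `00`-entry `≠ 0`. (5): with
`P = (gm x)⁻¹ gm y (gm y)* (gm x)⁻¹*`, `trace P = |e^{x.1/2} y.2 - e^{y.1/2} x.2|² + 2 cosh (y.1 - x.1)`.-/
def S_MAT : Prop := S_HOPF →
  (∀ (x : ℝ × ℂ) (s : ℝ) (k : U),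
    gm (act1 x s k) * (gm (act1 x s k))ᴴ = gm x * em s k * (gm x)ᴴ) ∧
  (∀ x y : ℝ × ℂ, gm x * (gm x)ᴴ = gm y * (gm y)ᴴ → x = y) ∧
  (∀ x : ℝ × ℂ, (gm x).det = 1) ∧
  (∀ (x y : ℝ × ℂ) (P : Matrix (Fin 2) (Fin 2) ℂ),
    gm y * (gm y)ᴴ = gm x * P * (gm x)ᴴ → (Real.cosh (d1 x y) : ℂ) = P.trace / 2) ∧
  (∀ (s : ℝ) (k : U), (em s k).trace = 2 * Real.cosh s)

/-- DIAG (~80 lines). Diagonalisation: a positive definite Hermitian `P = (p, q; conj q, p')`
of determinant one is `cosh u + sinh u (ζ, ξ; conj ξ, -ζ)` with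
`cosh u = (p + p')/2 ≥ 1`, `sinh u ζ = (p - p')/2`, `sinh u ξ = q` (then
`sinh² u = cosh² u - 1 = ((p-p')/2)² + |q|²`); use HOPF (2), (3) (any `k` if `u = 0`). -/
def S_DIAG : Prop := S_HOPF → ∀ P : Matrix (Fin 2) (Fin 2) ℂ, Pᴴ = P → P.det = 1 →
  0 < (P.trace).re → ∃ (u : ℝ) (k : U), 0 ≤ u ∧ P = em u k

/-- STEP (~100 lines). Change of the frame: with `h = gm x * a * dg (r/2)` we have
`gm (act1 x r a) (gm (act1 x r a))* = h h*` by MAT (1) (`em r a = a dg (r/2) dg (r/2)* a*`), so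
`l x r a := h⁻¹ gm (act1 x r a)` is unitary (and continuous in `a`, as `h⁻¹ = dg (-r/2) a* (gm x)⁻¹`), and
`gm (act1 x r a) em t b (gm (act1 x r a))* = h l em t b l* h* = h em t (l b) h*`. -/
def S_STEP : Prop := S_HOPF → S_MAT → ∃ l : (ℝ × ℂ) → ℝ → U → U,
  (∀ x r, Continuous (l x r)) ∧ ∀ (x : ℝ × ℂ) (r : ℝ) (a : U) (t : ℝ) (b : U),
    gm (act1 (act1 x r a) t b) * (gm (act1 (act1 x r a) t b))ᴴ =
      gm x * (a.1 * dg (r / 2) * em t (l x r a * b) * dg (r / 2) * a.1ᴴ) * (gm x)ᴴ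

/-- TRACE (~40 lines). `dg (r/2) em t b dg (r/2)` has trace
`2 (cosh r cosh t + zt b sinh r sinh t)`, is Hermitian, has determinant one. -/
def S_TRACE : Prop := S_HOPF → ∀ (r t : ℝ) (b : U),
  (dg (r / 2) * em t b * dg (r / 2)).trace =
    2 * ((Real.cosh r * Real.cosh t + zt b * (Real.sinh r * Real.sinh t) : ℝ) : ℂ) ∧
  (dg (r / 2) * em t b * dg (r / 2))ᴴ = dg (r / 2) * em t b * dg (r / 2) ∧
  (dg (r / 2) * em t b * dg (r / 2)).det = 1

/-- H3CONT (~80 lines). Continuity of `act1` (jointly) and of `d1`; `d1` is nonnegative, symmetric and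
vanishes only on the diagonal (`Real.arcosh`; the argument of `arcosh` is
`≥ cosh (y.1 - x.1) ≥ 1`; `cosh s + sinh s * zt k > 0` because `|zt k| ≤ 1`). -/
def S_H3CONT : Prop := S_HOPF →
  (Continuous fun p : (ℝ × ℂ) × ℝ × U => act1 p.1 p.2.1 p.2.2) ∧
  (Continuous fun p : (ℝ × ℂ) × (ℝ × ℂ) => d1 p.1 p.2) ∧ (∀ x y, 0 ≤ d1 x y) ∧
  (∀ x y, d1 x y = 0 → x = y) ∧ (∀ x y, d1 x y = d1 y x)

/-- H3GEO (~120 lines). `d_act`: MAT (4) with `P = em r a` and MAT (5). `surj`: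
`P = (gm x)⁻¹ gm y (gm y)* (gm x)⁻¹*` is Hermitian of determinant one and positive trace, so
`P = em u k` (DIAG), `cosh (d1 x y) = cosh u` by MAT (4), (5), so `u = d1 x y`, and `act1 x u k = y` by
MAT (1), (2). `d_tri`: write `y = act1 x r a`, `z = act1 y t b` with `r = d1 x y`, `t = d1 y z`; by
STEP, MAT (4), TRACE `cosh (d1 x z) = cosh r cosh t + zt (l b) sinh r sinh t ≤ cosh (r + t)` as
`zt ≤ 1`. The rest is H3CONT. -/
def S_H3GEO : Prop := S_HOPF → S_MAT → S_DIAG → S_STEP → S_TRACE → S_H3CONT → Geo act1 d1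

/-- H3COMP (~150 lines). The product formula for the spherical means of the hyperbolic space.

Proof. For fixed `a`, by left invariance
`∫_b F (act1 (act1 x r a) t b) = ∫_b F (act1 (act1 x r a) t ((l x r a)⁻¹ b))`. For fixed `b`,
`dg (r/2) em t b dg (r/2) = em u k` for some `u ≥ 0` and `k : U` (DIAG, TRACE), with
`cosh u = cosh r cosh t + zt b sinh r sinh t` (MAT (5)), so by STEP and MAT (1), (2)
`act1 (act1 x r a) t ((l x r a)⁻¹ b) = act1 x u (a k)` for all `a`. Swap the integrals (Tonelli;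
`(a, b) ↦ act1 (act1 x r a) t ((l x r a)⁻¹ b)` is continuous), use right invariance
`∫_a F (act1 x u (a k)) = ∫_a F (act1 x u a)` and finally ARCH. -/
def S_H3COMP : Prop := S_HAAR → S_ARCH → S_HOPF → S_MAT → S_DIAG → S_STEP → S_TRACE → S_H3CONT →
  ∀ m : Measure U, IsHaarU m → ∀ F : ℝ × ℂ → ENNReal, Measurable F →
    ∀ (x : ℝ × ℂ) (r t : ℝ), 0 ≤ r → 0 ≤ t →
      ∫⁻ a, ∫⁻ b, F (act1 (act1 x r a) t b) ∂m ∂m =
        ∫⁻ z, ∫⁻ a, F (act1 x (Real.arcosh (Real.cosh r * Real.cosh t +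
          z * (Real.sinh r * Real.sinh t))) a) ∂m ∂uni

/-- SUBST (~150 lines). One-dimensional substitution. Trivial if `r = 0` or `t = 0`. For `r, t > 0`
both sides are `(2 r t)⁻¹ ∫_{|r-t|}^{r+t} sinh u G(u) du`: substitute
`u = arcosh (cosh r cosh t + z sinh r sinh t)` resp. `u = ut r t z` (inverse functions
`z = (cosh u - cosh r cosh t)/(sinh r sinh t)` resp. `z = (u² - r² - t²)/(2 r t)`), e.g. with
`lintegral_image_eq_lintegral_abs_deriv_mul` on `[|r-t|, r+t]`. -/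
def S_SUBST : Prop := ∀ G : ℝ → ENNReal, Measurable G → ∀ r t : ℝ, 0 ≤ r → 0 ≤ t →
  ENNReal.ofReal (wh r * wh t) * ∫⁻ z, G (Real.arcosh (Real.cosh r * Real.cosh t +
      z * (Real.sinh r * Real.sinh t))) ∂uni =
    ∫⁻ z, ENNReal.ofReal (wh (ut r t z)) * G (ut r t z) ∂uni

/-- WT (~60 lines). The two weights. `wh` is continuous at `0` because `sinh` has derivative `1` there
(e.g. `wh = dslope Real.sinh 0`); `mul` is SUBST with `G = 1`, resp. `uni` is a probability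
measure. -/
def S_WT : Prop := S_SUBST → Wt (fun _ => 1) ∧ Wt wh

/-- H3LAW (~200 lines). The law of `γ(k) = act1 0 s k`, for `s > 0`.

Proof. `q₁ = cosh s + sinh s zt k`, `γ(k) = (log q₁, w)` with `|w|² = sinh² s (1 - zt²)/q₁ =
2 cosh s - q₁ - 1/q₁ = 2 cosh s - 2 cosh τ`, `τ = log q₁`. Left multiplication of `k` by
`diag (e^{-iθ}, 1)` does not change `zt k` and multiplies `conj (xi k)` by `e^{iθ}`, so by left
invariance, averaging over `θ`,
`∫ Ψ(γ(k)) = ∫_k (2π)⁻¹ ∫_θ Ψ(log q₁, e^{iθ} |w|)` (for `w ≠ 0` shift `θ` by the argument of `w`). This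
depends on `zt k` only; by ARCH it is
`½ ∫_{-1}^{1} (2π)⁻¹ ∫_θ Ψ(τ(z), e^{iθ} √(2 cosh s - 2 cosh τ(z))) dθ dz`, `τ(z) = log (cosh s + z sinh s)`,
and `dz = e^τ dτ / sinh s`, `τ ∈ [-s, s]`. -/
def S_H3LAW : Prop := S_HAAR → S_ARCH → S_HOPF → ∀ m : Measure U, IsHaarU m →
  ∀ Ψ : ℝ × ℂ → ENNReal, Measurable Ψ → ∀ s : ℝ, 0 < s →
    ∫⁻ k, Ψ (act1 0 s k) ∂m = ∫⁻ τ in Set.Icc (-s) s, ENNReal.ofReal (Real.exp τ / (2 * Real.sinh s)) *
      (ENNReal.ofReal (2 * Real.pi)⁻¹ * ∫⁻ θ in Set.Ioc (-Real.pi) Real.pi,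
        Ψ (τ, (Real.sqrt (2 * Real.cosh s - 2 * Real.cosh τ) : ℂ) * Complex.exp (θ * Complex.I)))

/-- H3REV (~150 lines). Reversibility. `ℝ × ℂ` is a group with
`(t, w) (t', w') = (t + t', w e^{t'/2} + w' e^{-t/2})`, inverse `(-t, -w)`, and
`act1 x s k = x · act1 0 s k`. The measure `vol1 = e^t dt dw` satisfies
`∫ Φ(x γ) dvol1(x) = e^{-2 γ.1} ∫ Φ(x) dvol1(x)` (substitute in `w` for fixed `t`, then in `t`). So for
`s > 0` `∫_x ∫_k F(x, x γ(k)) = ∫_k e^{-2 γ(k).1} ∫_y F(y γ(k)⁻¹, y)`, and by H3LAW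
`∫_k e^{-2 γ(k).1} Ψ(γ(k)⁻¹) = ∫_k Ψ(γ(k))` (replace `τ` by `-τ` and `θ` by `θ + π`), applied to
`Ψ(γ) = ∫_y F(y γ, y) dvol1(y)`. For `s = 0` `act1 x 0 k = x`. -/
def S_H3REV : Prop := S_HAAR → S_HOPF → S_H3CONT → S_H3LAW → S_ARCH → ∀ m : Measure U, IsHaarU m →
  Rev m act1 vol1

/-- H3UNIF (~100 lines). `vol1` is finite on compact sets and positive on open sets (positive continuous
density); left invariance: `∫ Φ(x y) dvol1(y) = ∫ Φ(y) dvol1(y)` for the product of H3REV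
(`(t,w)(t',w') = (t + t', w e^{t'/2} + w' e^{-t/2})`: substitute in `w'` for fixed `t'`, then in `t'`) and
`d1 x (x y) = d1 0 y`. -/
def S_H3UNIF : Prop := IsFiniteMeasureOnCompacts vol1 ∧ vol1.IsOpenPosMeasure ∧ Unif d1 vol1

/-- H3VOL (~100 lines). `d1 0 (t, w) < R` iff `|w|² < 2 cosh R - 2 cosh t`; so the volume is
`∫_{-R}^{R} e^t π (2 cosh R - 2 cosh t) dt = π (sinh 2R - 2R)`. -/
def S_H3VOL : Prop := ∀ R : ℝ, 0 ≤ R →
  vol1 {y | d1 0 y < R} = ENNReal.ofReal (Real.pi * (Real.sinh (2 * R) - 2 * R))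

/-! ### D. the CAS -/

/-- PARAM (~150 lines). Parametrised measures. The support of the image of a measure with compact
support `S` and positive density under a continuous map is the image of `S` (every open
neighbourhood of a point of `φ p '' S` has positive measure, and `φ p '' S` is closed and conull, use
`Measure.support_mem_ae`). `SetContinuous` by the tube lemma (`S` compact) and because a union of open
sets is open. Continuity of the integral: `continuous_parametric_integral_of_continuous` on the compact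
set `S`. -/
def S_PARAM : Prop := ∀ (P Y Ω : Type) [TopologicalSpace P] [FirstCountableTopology P]
  [LocallyCompactSpace P] [TopologicalSpace Y] [T2Space Y] [SecondCountableTopology Y]
  [MeasurableSpace Y] [BorelSpace Y]
  [TopologicalSpace Ω] [T2Space Ω] [SecondCountableTopology Ω] [MeasurableSpace Ω] [BorelSpace Ω]
  (m : Measure Ω) [IsFiniteMeasure m] (S : Set Ω), IsCompact S → m.support = S →
  ∀ (w : P → Ω → ℝ) (φ : P → Ω → Y), (Continuous fun q : P × Ω => w q.1 q.2) →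
  (Continuous fun q : P × Ω => φ q.1 q.2) → (∀ p a, 0 < w p a) →
  (∀ p, IsFiniteMeasure (prm m w φ p)) ∧
  (∀ f : BoundedContinuousFunction Y ℝ, Continuous fun p => ∫ y, f y ∂(prm m w φ p)) ∧
  (∀ p, (prm m w φ p).support = φ p '' S) ∧
  SetContinuous (fun p => φ p '' S)

section CAS

/-- KREG (~200 lines). Regularity of the kernel. By `S_PARAM` for both summands of `KK` (with
`Ω × Ω` compact, `m.prod m` open-positive so of full support); `support_add`; the union of two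
`SetContinuous` families is `SetContinuous`. `mem_supp` from `Geo.surj`, `Geo.d_act` and
`0 ≤ h.1.2 ≤ h.1.1`. At `h = srt 0 0`: `act x 0 a = x` since `d x (act x 0 a) = 0`. -/
def S_KREG : Prop := S_PARAM → ∀ (X₀ X₁ Ω : Type)
  [TopologicalSpace X₀] [T2Space X₀] [LocallyCompactSpace X₀] [SecondCountableTopology X₀]
  [MeasurableSpace X₀] [BorelSpace X₀]
  [TopologicalSpace X₁] [T2Space X₁] [LocallyCompactSpace X₁] [SecondCountableTopology X₁]
  [MeasurableSpace X₁] [BorelSpace X₁]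
  [TopologicalSpace Ω] [T2Space Ω] [CompactSpace Ω] [SecondCountableTopology Ω]
  [MeasurableSpace Ω] [BorelSpace Ω]
  (m : Measure Ω) [IsProbabilityMeasure m] [m.IsOpenPosMeasure]
  (act₀ : X₀ → ℝ → Ω → X₀) (act₁ : X₁ → ℝ → Ω → X₁) (d₀ : X₀ → X₀ → ℝ) (d₁ : X₁ → X₁ → ℝ)
  (w₀ w₁ : ℝ → ℝ), Geo act₀ d₀ → Geo act₁ d₁ → Wt w₀ → Wt w₁ →
  (∀ x h, IsProbabilityMeasure (KK m act₀ act₁ w₀ w₁ x h)) ∧
  (∀ f : BoundedContinuousFunction (X₀ × X₁) ℝ,
    Continuous fun p : (X₀ × X₁) × D => ∫ y, f y ∂(KK m act₀ act₁ w₀ w₁ p.1 p.2)) ∧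
  (∀ x h, IsCompact (KK m act₀ act₁ w₀ w₁ x h).support) ∧
  (SetContinuous fun p : (X₀ × X₁) × D => (KK m act₀ act₁ w₀ w₁ p.1 p.2).support) ∧
  (∀ x y h, y ∈ (KK m act₀ act₁ w₀ w₁ x h).support ↔ pim d₀ d₁ x y = h) ∧
  (∀ x, KK m act₀ act₁ w₀ w₁ x (srt 0 0) = Measure.dirac x) ∧
  (Continuous fun p : (X₀ × X₁) × (X₀ × X₁) => pim d₀ d₁ p.1 p.2)

/-- CREG1 (~150 lines). Regularity of the convolution. The support of `uni.prod uni` is the square
`[-1,1]²`; `PARAM` for both summands. Total mass one: with `W(r,s) = w₀ r w₁ s`,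
`sW (srt a b) = W(a,b) + W(b,a)` for `a, b ≥ 0`, and by `Wt.mul` the total mass of the numerators is
`(W(h₁,h₂) + W(h₂,h₁)) (W(k₁,k₂) + W(k₂,k₁))`. -/
def S_CREG1 : Prop := S_PARAM → ∀ (w₀ w₁ : ℝ → ℝ), Wt w₀ → Wt w₁ →
  (∀ h k, IsProbabilityMeasure (cnv w₀ w₁ h k)) ∧
  (∀ f : BoundedContinuousFunction D ℝ,
    Continuous fun p : D × D => ∫ y, f y ∂(cnv w₀ w₁ p.1 p.2)) ∧
  (∀ h k, IsCompact (cnv w₀ w₁ h k).support) ∧
  (SetContinuous fun p : D × D => (cnv w₀ w₁ p.1 p.2).support) ∧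
  (∀ h k, srt 0 0 ∈ (cnv w₀ w₁ h k).support ↔ k = h)

/-- CREG2 (~120 lines). `cnv h k = cnv k h` (`ut r t z = ut t r z`; in the second summand swap the two
coordinates of `z`, `srt a b = srt b a`), and `cnv h (srt 0 0) = dirac h` (`ut r 0 z = r`, both summands
have total mass `1/2`). -/
def S_CREG2 : Prop := ∀ (w₀ w₁ : ℝ → ℝ), Wt w₀ → Wt w₁ →
  (∀ h k, cnv w₀ w₁ h k = cnv w₀ w₁ k h) ∧
  (∀ h, cnv w₀ w₁ h (srt 0 0) = Measure.dirac h)

/-- KCOMP (~200 lines). Composition of the kernels.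

Proof. Put `A(x; r, s) = ∫∫ F(act₀ x₀ r a, act₁ x₁ s b)` and `W(r,s) = w₀ r w₁ s`, `h = (r, s)`,
`k = (r', s')`. The two product formulas give (Tonelli)
`W(r,s) W(r',s') A_{(r,s)} A_{(r',s')} = ∫∫ W(u,v) A_{(u,v)} duni duni`, `u = ut r r' z₁`,
`v = ut s s' z₂`. Expand
`(W(r,s) A_{(r,s)} + W(s,r) A_{(s,r)}) (W(r',s') A_{(r',s')} + W(s',r') A_{(s',r')})` into four terms;
the terms (1,1), (2,2) together are `∫∫ (W(u,v) A_{(u,v)} + W(v,u) A_{(v,u)})` (swap the two integration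
variables in the second), i.e. `∫∫ sW(srt u v) K_{srt u v}`, and the terms (1,2), (2,1) are the same with
`u = ut r s' z₁`, `v = ut s r' z₂`. Here `W(r,s) A_{(r,s)} + W(s,r) A_{(s,r)} = sW(h) K_h` also for
unsorted pairs by symmetry. Divide by `sW h * sW k`. -/
def S_KCOMP : Prop := ∀ (X₀ X₁ Ω : Type)
  [TopologicalSpace X₀] [T2Space X₀] [LocallyCompactSpace X₀] [SecondCountableTopology X₀]
  [MeasurableSpace X₀] [BorelSpace X₀]
  [TopologicalSpace X₁] [T2Space X₁] [LocallyCompactSpace X₁] [SecondCountableTopology X₁]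
  [MeasurableSpace X₁] [BorelSpace X₁]
  [TopologicalSpace Ω] [T2Space Ω] [CompactSpace Ω] [SecondCountableTopology Ω]
  [MeasurableSpace Ω] [BorelSpace Ω]
  (m : Measure Ω) [IsProbabilityMeasure m] [m.IsOpenPosMeasure]
  (act₀ : X₀ → ℝ → Ω → X₀) (act₁ : X₁ → ℝ → Ω → X₁) (d₀ : X₀ → X₀ → ℝ) (d₁ : X₁ → X₁ → ℝ)
  (w₀ w₁ : ℝ → ℝ), Geo act₀ d₀ → Geo act₁ d₁ → Wt w₀ → Wt w₁ → Comp m act₀ w₀ → Comp m act₁ w₁ →
  ∀ (h k : D) (x : X₀ × X₁) (A : Set (X₀ × X₁)), MeasurableSet A →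
    ∫⁻ y, KK m act₀ act₁ w₀ w₁ y k A ∂(KK m act₀ act₁ w₀ w₁ x h) =
      ∫⁻ l, KK m act₀ act₁ w₀ w₁ x l A ∂(cnv w₀ w₁ h k)

/-- KREV (~150 lines). Reversibility of the kernel with respect to `vol₀.prod vol₁`.

Proof. With `G(x,y) ≥ 0` measurable, the two `Rev` properties and Tonelli give
`∫_x ∫_y G(x,y) K(x,h;dy) = ∫_x ∫_y G(y,x) K(x,h;dy)` (both summands separately). Apply this to the
positive and negative parts of `G(x,y) = f(y) g(x)` (all integrals are finite because `f`, `g` are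
continuous with compact support and `K(x,h;·)` is a probability measure). -/
def S_KREV : Prop := ∀ (X₀ X₁ Ω : Type)
  [TopologicalSpace X₀] [T2Space X₀] [LocallyCompactSpace X₀] [SecondCountableTopology X₀]
  [MeasurableSpace X₀] [BorelSpace X₀]
  [TopologicalSpace X₁] [T2Space X₁] [LocallyCompactSpace X₁] [SecondCountableTopology X₁]
  [MeasurableSpace X₁] [BorelSpace X₁]
  [TopologicalSpace Ω] [T2Space Ω] [CompactSpace Ω] [SecondCountableTopology Ω]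
  [MeasurableSpace Ω] [BorelSpace Ω]
  (m : Measure Ω) [IsProbabilityMeasure m] [m.IsOpenPosMeasure]
  (act₀ : X₀ → ℝ → Ω → X₀) (act₁ : X₁ → ℝ → Ω → X₁) (d₀ : X₀ → X₀ → ℝ) (d₁ : X₁ → X₁ → ℝ)
  (w₀ w₁ : ℝ → ℝ) (vol₀ : Measure X₀) (vol₁ : Measure X₁) [IsFiniteMeasureOnCompacts vol₀]
  [IsFiniteMeasureOnCompacts vol₁], Geo act₀ d₀ → Geo act₁ d₁ → Wt w₀ → Wt w₁ →
  Rev m act₀ vol₀ → Rev m act₁ vol₁ →
  ∀ (h : D) (f g : X₀ × X₁ → ℝ), Continuous f → HasCompactSupport f → Continuous g →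
      HasCompactSupport g →
      ∫ x, (∫ y, f y ∂(KK m act₀ act₁ w₀ w₁ x h)) * g x ∂(vol₀.prod vol₁) =
        ∫ x, f x * (∫ y, g y ∂(KK m act₀ act₁ w₀ w₁ x h)) ∂(vol₀.prod vol₁)

/-- ASSOC (~120 lines). Associativity of a convolution that describes the composition of kernels.

Proof. Fix `x : X`. The image of `K x h` under `π x` is `dirac h`, so for measurable `F : D → ℝ≥0∞`
`∫ F dc(h,k) = ∫_l ∫_y F(π x y) K(x,l;dy) c(h,k;dl) = ∫_w ∫_y F(π x y) K(w,k;dy) K(x,h;dw)`. Hence both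
`∫_u ∫_w F dc(u,z) dc(x',y')` and `∫_v ∫_w F dc(x',v) dc(y',z)` are equal to
`∫∫∫ F(π x y₃) K(y₂,z;dy₃) K(y₁,y';dy₂) K(x,x';dy₁)`; for bounded continuous `f` add a constant to make
it nonnegative (all measures are probability measures). (First extend `K_comp` from sets to
nonnegative measurable functions; measurability of `h ↦ K x h A`, `x ↦ K x h A` and `l ↦ c(l,k) A`
follows from weak continuity, see `hKm`, `hcm`.) -/
def S_ASSOC : Prop := ∀ (X E : Type) [Nonempty X] [MeasurableSpace X] [TopologicalSpace E]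
  [MeasurableSpace E] [BorelSpace E] (K : X → E → Measure X) (c : E → E → Measure E)
  (π : X → X → E) (_ : ∀ x h, IsProbabilityMeasure (K x h)) (_ : ∀ h k, IsProbabilityMeasure (c h k))
  (_hKm : Measurable fun p : X × E => K p.1 p.2) (_hcm : Measurable fun p : E × E => c p.1 p.2)
  (_hπm : ∀ x, Measurable (π x)) (_hπ : ∀ x h, ∀ᵐ y ∂(K x h), π x y = h)
  (_hcomp : ∀ (h k : E) (x : X) (A : Set X), MeasurableSet A →
    ∫⁻ y, K y k A ∂(K x h) = ∫⁻ l, K x l A ∂(c h k)),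
  ∀ (f : BoundedContinuousFunction E ℝ) (x y z : E),
    ∫ u, (∫ w, f w ∂(c u z)) ∂(c x y) = ∫ v, (∫ w, f w ∂(c x v)) ∂(c y z)

/-- WMEAS (~60 lines). A weakly continuous family of probability measures is measurable.
Proof. For an open set `O` there are continuous `0 ≤ f_n ↑ 1_O` (metrizable space), so `p ↦ μ p O` is a
supremum of continuous functions; then `Measurable.measure_of_isPiSystem_of_isProbabilityMeasure`.
(The measurable space on `P` is Borel.) -/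
def S_WMEAS : Prop := ∀ (P Y : Type) [TopologicalSpace P] [MeasurableSpace P] [BorelSpace P]
  [TopologicalSpace Y] [T2Space Y] [LocallyCompactSpace Y] [SecondCountableTopology Y]
  [MeasurableSpace Y] [BorelSpace Y] (μ : P → Measure Y), (∀ p, IsProbabilityMeasure (μ p)) →
  (∀ f : BoundedContinuousFunction Y ℝ, Continuous fun p => ∫ y, f y ∂(μ p)) → Measurable μ

end CAS

/-! ### E. no CAS with the same partition map has (T2) -/

/-- WT1 (~250 lines). A weak form of (T1): for a CAS with (T2) and symmetric `π` the integral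
`∫ f(π(y,z)) K(x,h;dz)` depends only on `π(x,y)`.

Proof. (Useful lemmas on CAS are in the library file `V1135/CAS.lean`: `continuous_T`, `T_congr`,
`T_const`, `pi_self`, `isCompact_pre`, `compPi_supp`, `T_supp`, `continuous_param`, `swap'`, ...) Put
`G(x,y) = ∫ f(π(y,z)) K(x,h;dz)`; it is continuous and for fixed `x` it has compact support in `y`. For
`g ∈ C_c(X)`: `∫_z ∫_k f(k) T_k g(z) dω_D(k) K(x,h;dz)` is equal to `∫ G(x,y) g(y) dω(y)` by (T2) at the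
point `z` and Fubini, and to `∫_k f(k) (∫_l T_l g(x) d(h*k)(l)) dω_D(k)` by Fubini and `K_comp`. Write
`I(ψ) = ∫_k f(k) ∫_l ψ(l) d(h*k)(l) dω_D(k)`; so
(1) `∫ G(x,y) g(y) dω(y) = I(l ↦ T_l g(x))` for all `x`, `g`.
With `g(y) = φ(π(x,y))`, `φ ∈ C_c(D)`: `T_l g(x) = φ(l)`, so `∫ G(x,y) φ(π(x,y)) dω(y) = I(φ)`. By (T2)
for `φ` and the function `G(x,·)` the left side is `∫ φ(l) n_x(l) dω_D(l)`,
`n_x(l) = ∫ G(x,y) K(x,l;dy)` (continuous in `l`). Hence `I(φ) = ∫ φ n_x dω_D` for every `x` and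
`φ ∈ C_c(D)`, so `n_x = n_{x'}` on the support of `ω_D`, which is `D` (if `φ ≥ 0` is not zero then
`∫ φ dω_D = ∫ φ(π(x,y)) dω(y) > 0`). Put `n = n_x`. With `g(y) = φ(π(x,y)) g₁(y)` in (1),
`T_l g(x) = φ(l) T_l g₁(x)`, so
`∫ G(x,y) φ(π(x,y)) g₁(y) dω(y) = ∫ φ(l) T_l g₁(x) n(l) dω_D(l) = ∫ φ(π(x,y)) n(π(x,y)) g₁(y) dω(y)` by
(T2) for `φ n` and `g₁`. As `g₁` and `φ` are arbitrary and `ω` has full support,
`G(x,y) = n(π(x,y))`. -/
def S_WT1 : Prop := ∀ (X E : Type)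
  [TopologicalSpace X] [T2Space X] [LocallyCompactSpace X] [SecondCountableTopology X]
  [MeasurableSpace X] [BorelSpace X] [Nonempty X]
  [TopologicalSpace E] [T2Space E] [LocallyCompactSpace E] [SecondCountableTopology E]
  [MeasurableSpace E] [BorelSpace E]
  (C : CAS X E) (ω : Measure X) (ωD : Measure E), (∀ x y, C.π x y = C.π y x) →
  C.IsOmega ω → C.H.IsLeftHaar ωD → C.T2For ω ωD →
  ∀ (h : E) (f : E → ℝ), Continuous f → HasCompactSupport f →
    ∃ n : E → ℝ, ∀ x y, ∫ z, f (C.π y z) ∂(C.K x h) = n (C.π x y)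

/-- UNIQ (~250 lines). Uniqueness of uniformly distributed measures (Christensen).

Proof. Let `f ∈ C_c(X)`, `ε > 0`. There are a compact set `N` and an open set `W ∋ e` with: `π(x,y) ∈ W`
implies `|f x - f y| ≤ ε`, and `f x = 0` for all `x` with `π(x,y) ∈ W`, `y ∉ N` (use `C.supp_cont`,
`C.K_e`, `C.mem_supp` and the tube lemma on a compact neighbourhood; `isCompact_pre`; compare
`localise_le` in the library file). Choose `φ ∈ C_c(D)`, `φ ≥ 0`, supported in `W`, `φ(e) > 0`, and put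
`g = ∫ φ(π(x,y)) dω(y)`, `g' = ∫ φ(π(x,y)) dω'(y)` (independent of `x`, positive). By Fubini
(`swap'`) and symmetry of `π`
`g ∫ f dω' = ∫∫ f(x) φ(π(x,y)) dω(y) dω'(x) = ∫ (∫ f(x) φ(π(y,x)) dω'(x)) dω(y)`, and the inner
integral differs from `f(y) g'` by at most `ε g'`, and is `0` for `y ∉ N`. So
`|(g/g') ∫ f dω' - ∫ f dω| ≤ ε ω(N)`. Take `W → e` for two functions `f` and a fixed `f₁ ≥ 0`, `f₁ ≠ 0`:
the ratio `g/g'` tends to `∫ f₁ dω / ∫ f₁ dω' > 0`, so `∫ f dω' / ∫ f dω` is constant. -/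
def S_UNIQ : Prop := ∀ (X E : Type)
  [TopologicalSpace X] [T2Space X] [LocallyCompactSpace X] [SecondCountableTopology X]
  [MeasurableSpace X] [BorelSpace X] [Nonempty X]
  [TopologicalSpace E] [T2Space E] [LocallyCompactSpace E] [SecondCountableTopology E]
  [MeasurableSpace E] [BorelSpace E]
  (C : CAS X E) (ω ω' : Measure X) [IsFiniteMeasureOnCompacts ω] [IsFiniteMeasureOnCompacts ω']
  [ω.IsOpenPosMeasure] [ω'.IsOpenPosMeasure], (∀ x y, C.π x y = C.π y x) →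
  (∀ φ : E → ℝ, Continuous φ → HasCompactSupport φ → ∀ x y,
    ∫ z, φ (C.π x z) ∂ω = ∫ z, φ (C.π y z) ∂ω) →
  (∀ φ : E → ℝ, Continuous φ → HasCompactSupport φ → ∀ x y,
    ∫ z, φ (C.π x z) ∂ω' = ∫ z, φ (C.π y z) ∂ω') →
  ∃ c : ℝ, 0 < c ∧ ∀ f : X → ℝ, Continuous f → HasCompactSupport f →
    ∫ x, f x ∂ω' = c * ∫ x, f x ∂ω

/-- HALF (~120 lines). For a CAS with `π = pim d₀ d₁` and the weak (T1) property the kernel
`K(x, (r,s); ·)`, `s < r`, gives mass `1/2` to `{d₀ = r, d₁ = s}`.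

Proof. `K(x,h;·)` is concentrated on its support `{y | pim x y = h}`, i.e. on
`{d₀ = r, d₁ = s} ∪ {d₀ = s, d₁ = r}`. Put `k = 2 r + 1`, `y_A = (act₀ x₀ k a, x₁)`,
`y_B = (x₀, act₁ x₁ k a)` (any `a`), so `pim x y_A = srt k 0 = pim x y_B`. Let
`f(h') = φ(h'.1.2) χ(h'.1.1)` with continuous `φ`, `φ(s) = 1`, `φ(r) = 0`, and `χ` of compact support,
`χ = 1` on `[0, 3r+1]` (so `f` has compact support in `D`). If `d₀(x,z) = r`, `d₁(x,z) = s` then
`r + 1 ≤ d₀(y_A,z) ≤ 3r+1`, `d₁(y_A,z) = s`, so `f(pim y_A z) = 1`, and `d₀(y_B,z) = r`,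
`d₁(y_B,z) ≥ k - s > r`, so `f(pim y_B z) = 0`. If `d₀(x,z) = s`, `d₁(x,z) = r`, then
`f(pim y_A z) = 0` and `f(pim y_B z) = 1`. So with `p = K(x,h;{d₁ < d₀})` the weak (T1) property gives
`p = ∫ f(pim y_A z) K(x,h;dz) = ∫ f(pim y_B z) K(x,h;dz) = 1 - p`. -/
def S_HALF : Prop := ∀ (X₀ X₁ Ω : Type)
  [TopologicalSpace X₀] [T2Space X₀] [LocallyCompactSpace X₀] [SecondCountableTopology X₀]
  [MeasurableSpace X₀] [BorelSpace X₀]
  [TopologicalSpace X₁] [T2Space X₁] [LocallyCompactSpace X₁] [SecondCountableTopology X₁]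
  [MeasurableSpace X₁] [BorelSpace X₁]
  [TopologicalSpace Ω] [Nonempty Ω]
  (act₀ : X₀ → ℝ → Ω → X₀) (act₁ : X₁ → ℝ → Ω → X₁) (d₀ : X₀ → X₀ → ℝ) (d₁ : X₁ → X₁ → ℝ),
  Geo act₀ d₀ → Geo act₁ d₁ → ∀ C : CAS (X₀ × X₁) D, (∀ x y, C.π x y = pim d₀ d₁ x y) →
  (∀ (h : D) (f : D → ℝ), Continuous f → HasCompactSupport f →
    ∃ n : D → ℝ, ∀ x y, ∫ z, f (C.π y z) ∂(C.K x h) = n (C.π x y)) →
  ∀ (x : X₀ × X₁) (h : D), h.1.2 < h.1.1 → C.K x h {y | d₁ x.2 y.2 < d₀ x.1 y.1} = 2⁻¹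

/-- SPLIT (~120 lines). Proof. Apply (T2) to `g(y) = φ(π(x,y)) 1_{d₁ < d₀}(y)` (continuous, because
`φ ∘ π(x,·)` vanishes near `{d₀ = d₁}`) and a function `f ∈ C_c(D)` which is `1` on `tsupport φ`:
`T_l g(x) = φ(l) K(x,l;{d₁<d₀}) = φ(l)/2`, so `½ ∫ φ dω_D = ∫_{d₁<d₀} φ(π(x,y)) dω(y)`; without the
factor `1_{d₁<d₀}` one gets `∫ φ dω_D = ∫ φ(π(x,y)) dω(y)`. -/
def S_SPLIT : Prop := ∀ (X₀ X₁ Ω : Type)
  [TopologicalSpace X₀] [T2Space X₀] [LocallyCompactSpace X₀] [SecondCountableTopology X₀]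
  [MeasurableSpace X₀] [BorelSpace X₀]
  [TopologicalSpace X₁] [T2Space X₁] [LocallyCompactSpace X₁] [SecondCountableTopology X₁]
  [MeasurableSpace X₁] [BorelSpace X₁]
  [TopologicalSpace Ω] [Nonempty Ω]
  (act₀ : X₀ → ℝ → Ω → X₀) (act₁ : X₁ → ℝ → Ω → X₁) (d₀ : X₀ → X₀ → ℝ) (d₁ : X₁ → X₁ → ℝ),
  Geo act₀ d₀ → Geo act₁ d₁ → ∀ C : CAS (X₀ × X₁) D, (∀ x y, C.π x y = pim d₀ d₁ x y) →
  (∀ (x : X₀ × X₁) (h : D), h.1.2 < h.1.1 → C.K x h {y | d₁ x.2 y.2 < d₀ x.1 y.1} = 2⁻¹) →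
  ∀ (ω : Measure (X₀ × X₁)) (ωD : Measure D), C.IsOmega ω → C.H.IsLeftHaar ωD → C.T2For ω ωD →
  (∀ φ : D → ℝ, Continuous φ → HasCompactSupport φ → ∀ x,
    ∫ z, φ (C.π x z) ∂ω = ∫ l, φ l ∂ωD) ∧
  (∀ φ : D → ℝ, Continuous φ → HasCompactSupport φ →
    tsupport φ ⊆ {h : D | h.1.2 < h.1.1} → ∀ x,
    2 * ∫ y, (if d₁ x.2 y.2 < d₀ x.1 y.1 then φ (C.π x y) else 0) ∂ω = ∫ y, φ (C.π x y) ∂ω)

/-- RECT (~150 lines). Passage from test functions to a rectangle.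

Proof. `R = {h : D | 1 < h.1.1 ∧ h.1.1 < 2 ∧ h.1.2 < 1}` is open and contained in `{h.1.2 < h.1.1}`;
choose continuous compactly supported `0 ≤ φ_n ↑ 1_R` with `tsupport φ_n ⊆ R` (`R` is open in the locally
compact second countable space `D` and relatively compact). Monotone convergence gives
`2 vol {y | d₁ x y < d₀ x y ∧ π(x,y) ∈ R} = vol {y | π(x,y) ∈ R}`, where
`{d₁ < d₀, π ∈ R} = {1 < d₀ < 2} × {d₁ < 1}` and
`{π ∈ R}` is the disjoint union of this set and `{d₀ < 1} × {1 < d₁ < 2}`. All these sets have finite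
volume (they are contained in compact sets by `Geo.surj`, `Geo.act_cont` and compactness of `Ω`). -/
def S_RECT : Prop := ∀ (X₀ X₁ Ω : Type)
  [TopologicalSpace X₀] [T2Space X₀] [LocallyCompactSpace X₀] [SecondCountableTopology X₀]
  [MeasurableSpace X₀] [BorelSpace X₀]
  [TopologicalSpace X₁] [T2Space X₁] [LocallyCompactSpace X₁] [SecondCountableTopology X₁]
  [MeasurableSpace X₁] [BorelSpace X₁]
  [TopologicalSpace Ω] [CompactSpace Ω]
  (act₀ : X₀ → ℝ → Ω → X₀) (act₁ : X₁ → ℝ → Ω → X₁) (d₀ : X₀ → X₀ → ℝ) (d₁ : X₁ → X₁ → ℝ)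
  (vol₀ : Measure X₀) (vol₁ : Measure X₁) [IsFiniteMeasureOnCompacts vol₀]
  [IsFiniteMeasureOnCompacts vol₁],
  Geo act₀ d₀ → Geo act₁ d₁ → ∀ x : X₀ × X₁,
  (∀ φ : D → ℝ, Continuous φ → HasCompactSupport φ →
    tsupport φ ⊆ {h : D | h.1.2 < h.1.1} →
    2 * ∫ y, (if d₁ x.2 y.2 < d₀ x.1 y.1 then φ (pim d₀ d₁ x y) else 0) ∂(vol₀.prod vol₁) =
      ∫ y, φ (pim d₀ d₁ x y) ∂(vol₀.prod vol₁)) →
  vol₀ {y | 1 < d₀ x.1 y ∧ d₀ x.1 y < 2} * vol₁ {y | d₁ x.2 y < 1} =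
    vol₀ {y | d₀ x.1 y < 1} * vol₁ {y | 1 < d₁ x.2 y ∧ d₁ x.2 y < 2}

/-- NUM (~100 lines). The volumes violate the identity of RECT: the first two factors are
`28π/3`, `π (sinh 2 - 2)`, the last two `4π/3`, `π (sinh 4 - sinh 2 - 2)` (spheres `{d = 1}` have measure
zero: the volume of `{d < R}` is continuous in `R`), and `8 sinh 2 - 12 < sinh 4 = 2 sinh 2 cosh 2`
because `cosh 2 > 3`, `sinh 2 < 6`. -/
def S_NUM : Prop := S_R3VOL → S_R3GEO → S_HOPF → S_H3CONT → S_H3VOL →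
  (volume : Measure (ℝ × ℂ)) {y | 1 < d0 0 y ∧ d0 0 y < 2} * vol1 {y | d1 0 y < 1} ≠
    (volume : Measure (ℝ × ℂ)) {y | d0 0 y < 1} * vol1 {y | 1 < d1 0 y ∧ d1 0 y < 2}

end Pool.Agent.H204.CS
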